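import Pool.Agent.Lib.MP_a785f2_an.LO.Stmt

/-! Two facts on the Lorentz scale. -/

open MeasureTheory Metric Set Filter Topology
open scoped ENNReal

namespace Pool.Agent.Lib.MP_a785f2_an.LO

variable {n : ℕ}

theorem scale_down (hn : 1 ≤ n) {q : ℝ} (h0 : 0 < q) (h2 : q ≤ 2) {g : E n → ℝ}
    (h : InLorentzSpace q g) :
    ∫⁻ t in Ioi (0 : ℝ), ENNReal.ofReal t * ballMeasure n {x | t < |g x|} ^ (2 / n : ℝ) < ⊤ := by
  have n0 : (0 : ℝ) < n := by exact_mod_cast hn
  set μ : ℝ → ℝ≥0∞ := fun t => ballMeasure n {x | t < |g x|} with hμ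
  have anti : ∀ s t, s ≤ t → μ t ≤ μ s := fun s t hst =>
    measure_mono fun x hx => lt_of_le_of_lt hst hx
  set I := ∫⁻ t in Ioi (0 : ℝ), ENNReal.ofReal (t ^ (q - 1)) * μ t ^ (q / n) with hI
  have hI' : I < ⊤ := h
  have key : ∀ t, 0 < t → ENNReal.ofReal (t ^ q) * μ t ^ (q / n) ≤ 4 * I := fun t ht => by
    have a1 : ∀ s ∈ Ioo (t / 2) t, ENNReal.ofReal (t ^ (q - 1) / 2) * μ t ^ (q / n) ≤
        ENNReal.ofReal (s ^ (q - 1)) * μ s ^ (q / n) := fun s hs => by
      have s0 : 0 < s := lt_trans (by positivity) hs.1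
      refine mul_le_mul' (ENNReal.ofReal_le_ofReal ?_)
        (ENNReal.rpow_le_rpow (anti s t hs.2.le) (by positivity))
      rcases le_total (q - 1) 0 with hq | hq
      · exact (half_le_self (by positivity)).trans (Real.rpow_le_rpow_of_nonpos s0 hs.2.le hq)
      · have b1 : (t / 2) ^ (q - 1) ≤ s ^ (q - 1) := Real.rpow_le_rpow (by positivity) hs.1.le hq
        rw [Real.div_rpow ht.le zero_le_two] at b1
        have b2 : (2 : ℝ) ^ (q - 1) ≤ 2 := by
          simpa using Real.rpow_le_rpow_of_exponent_le one_le_two (by linarith : q - 1 ≤ 1)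
        exact le_trans (div_le_div_of_nonneg_left (by positivity) (by positivity) b2) b1
    have a2 : ENNReal.ofReal (t ^ (q - 1) / 2) * μ t ^ (q / n) * ENNReal.ofReal (t / 2) ≤ I := by
      calc _ = ∫⁻ _ in Ioo (t / 2) t, ENNReal.ofReal (t ^ (q - 1) / 2) * μ t ^ (q / n) := by
            rw [setLIntegral_const, Real.volume_Ioo]
            congr 2
            ring
        _ ≤ ∫⁻ s in Ioo (t / 2) t, ENNReal.ofReal (s ^ (q - 1)) * μ s ^ (q / n) :=
            setLIntegral_mono' measurableSet_Ioo a1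
        _ ≤ I := lintegral_mono_set fun s hs => lt_trans (by positivity) hs.1
    have a3 : ENNReal.ofReal (t ^ q) =
        4 * (ENNReal.ofReal (t ^ (q - 1) / 2) * ENNReal.ofReal (t / 2)) := by
      rw [← ENNReal.ofReal_mul (by positivity), ← ENNReal.ofReal_ofNat 4,
        ← ENNReal.ofReal_mul (by positivity), Real.rpow_sub_one ht.ne']
      congr 1
      field_simp
      ring
    rw [a3, mul_assoc, mul_right_comm]
    gcongr
  have fin : (4 * I) ^ ((2 - q) / q) ≠ ⊤ :=
    ENNReal.rpow_ne_top_of_nonneg (div_nonneg (by linarith) h0.le)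
      (ENNReal.mul_ne_top (by norm_num) hI'.ne)
  refine lt_of_le_of_lt (b := (4 * I) ^ ((2 - q) / q) * I) ?_
    (ENNReal.mul_lt_top fin.lt_top hI')
  rw [hI, ← lintegral_const_mul' _ _ (hI ▸ fin)]
  refine setLIntegral_mono' measurableSet_Ioi fun t ht => ?_
  have ht : 0 < t := ht
  have e0 : 0 ≤ (2 - q) / q := div_nonneg (by linarith) h0.le
  have a1 := ENNReal.rpow_le_rpow (key t ht) e0
  rw [ENNReal.mul_rpow_of_nonneg _ _ e0, ENNReal.ofReal_rpow_of_nonneg (by positivity) e0,
    ← Real.rpow_mul ht.le, ← ENNReal.rpow_mul] at a1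
  have e1 : q * ((2 - q) / q) = 2 - q := by field_simp
  have e2 : q / n * ((2 - q) / q) = (2 - q) / n := by field_simp
  rw [e1, e2] at a1
  have e3 : ENNReal.ofReal t * μ t ^ (2 / n : ℝ) =
      ENNReal.ofReal (t ^ (2 - q)) * μ t ^ ((2 - q) / n) *
        (ENNReal.ofReal (t ^ (q - 1)) * μ t ^ (q / n)) := by
    rw [mul_mul_mul_comm, ← ENNReal.ofReal_mul (by positivity), ← Real.rpow_add ht,
      ← ENNReal.rpow_add_of_nonneg _ _ (div_nonneg (by linarith) n0.le) (by positivity)]
    congr 2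
    · rw [show 2 - q + (q - 1) = 1 by ring, Real.rpow_one]
    · ring
  exact e3.le.trans (mul_le_mul' a1 le_rfl)

theorem log_int {C p : ℝ} (hC : 0 < C) (hp : 1 < p) :
    IntegrableOn (fun t : ℝ => t⁻¹ * (1 + Real.log (t / C)) ^ (-p)) (Ioi C) volume := by
  have pos : ∀ t ∈ Ici C, 0 < 1 + Real.log (t / C) := fun t ht => by
    have := Real.log_nonneg ((one_le_div hC).2 ht)
    linarith
  refine integrableOn_Ioi_deriv_of_nonneg'
    (g := fun t => (1 - p)⁻¹ * (1 + Real.log (t / C)) ^ (1 - p)) (l := 0) (fun t ht => ?_)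
    (fun t ht => ?_) ?_
  · have t0 : 0 < t := hC.trans_le ht
    have d1 : HasDerivAt (fun t => 1 + Real.log (t / C)) t⁻¹ t := by
      have := ((hasDerivAt_id t).div_const C).log (div_pos t0 hC).ne'
      refine (this.const_add 1).congr_deriv ?_
      simp only [id]
      field_simp
    refine ((d1.rpow_const (p := 1 - p) (Or.inl (pos t ht).ne')).const_mul
      (1 - p)⁻¹).congr_deriv ?_
    have : 1 - p ≠ 0 := by linarith
    rw [show 1 - p - 1 = -p by ring]
    field_simp
  · have t0 : 0 < t := hC.trans ht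
    exact mul_nonneg (by positivity) (Real.rpow_nonneg (pos t (Ioi_subset_Ici_self ht)).le _)
  · have a1 : Tendsto (fun t => 1 + Real.log (t / C)) atTop atTop :=
      tendsto_atTop_add_const_left _ _ (Real.tendsto_log_atTop.comp (tendsto_id.atTop_div_const hC))
    have a2 := (tendsto_rpow_neg_atTop (y := p - 1) (by linarith)).comp a1
    rw [neg_sub] at a2
    simpa using a2.const_mul (1 - p)⁻¹

theorem scale_up (hn : 1 ≤ n) {q C : ℝ} (h2 : 2 < q) (hC : 0 < C) {g : E n → ℝ}
    (h : ∀ᵐ x ∂(ballMeasure n), |g x| ≤ C / (‖x‖ * (1 - Real.log ‖x‖) ^ (1 / 2 : ℝ))) :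
    InLorentzSpace q g := by
  have n0 : (0 : ℝ) < n := by exact_mod_cast hn
  have : Nonempty (Fin n) := ⟨⟨0, hn⟩⟩
  set ω : ℝ≥0∞ := (volume : Measure (E n)) (ball 0 1) with hω
  have ωf : ω ^ (q / n) ≠ ⊤ :=
    ENNReal.rpow_ne_top_of_nonneg (by positivity) measure_ball_lt_top.ne
  have a0 : ∀ t : ℝ, ballMeasure n {x | t < |g x|} ≤ ω := fun t =>
    (measure_mono (subset_univ _)).trans (by rw [ballMeasure, Measure.restrict_apply_univ])
  have a1 : ∀ t, C < t → ballMeasure n {x | t < |g x|} ≤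
      ENNReal.ofReal ((C / (t * (1 + Real.log (t / C)) ^ (1 / 2 : ℝ))) ^ n) * ω := fun t ht => by
    have t0 : 0 < t := hC.trans ht
    have l0 : 0 < Real.log (t / C) := Real.log_pos ((one_lt_div hC).2 ht)
    have ρ0 : 0 < C / (t * (1 + Real.log (t / C)) ^ (1 / 2 : ℝ)) := by positivity
    have e := Measure.addHaar_closedBall (volume : Measure (E n)) 0 ρ0.le
    rw [finrank_euclideanSpace_fin] at e
    rw [hω, ← e]
    refine (measure_mono_ae ?_).trans (Measure.restrict_le_self _)
    filter_upwards [h, ae_restrict_mem measurableSet_ball] with x hx hb hx'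
    have hx' : t < |g x| := hx'
    rw [mem_ball_zero_iff] at hb
    show x ∈ closedBall 0 _
    rw [mem_closedBall_zero_iff]
    rcases (norm_nonneg x).eq_or_lt with r0 | r0
    · exact r0.symm.le.trans ρ0.le
    have b0 : 1 ≤ 1 - Real.log ‖x‖ := by linarith [Real.log_nonpos r0.le hb.le]
    have b1 : 1 ≤ (1 - Real.log ‖x‖) ^ (1 / 2 : ℝ) := Real.one_le_rpow b0 (by norm_num)
    have b2 := hx'.trans_le hx
    rw [lt_div_iff₀ (by positivity)] at b2
    have b3 : t * ‖x‖ ≤ C := by nlinarith [mul_pos t0 r0]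
    have b4 : Real.log (t / C) ≤ -Real.log ‖x‖ := by
      rw [← Real.log_inv]
      refine Real.log_le_log (by positivity) ?_
      rw [div_le_iff₀ hC, inv_mul_eq_div, le_div_iff₀ r0]
      exact b3
    have b5 : (1 + Real.log (t / C)) ^ (1 / 2 : ℝ) ≤ (1 - Real.log ‖x‖) ^ (1 / 2 : ℝ) :=
      Real.rpow_le_rpow (by linarith) (by linarith) (by norm_num)
    rw [le_div_iff₀ (by positivity)]
    nlinarith [mul_le_mul_of_nonneg_left b5 (mul_pos t0 r0).le]
  unfold InLorentzSpace
  rw [← Ioc_union_Ioi_eq_Ioi hC.le]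
  refine (lintegral_union_le _ _ _).trans_lt (ENNReal.add_lt_top.2 ⟨?_, ?_⟩)
  · refine lt_of_le_of_lt (setLIntegral_mono' measurableSet_Ioc
      (g := fun _ => ENNReal.ofReal (C ^ (q - 1)) * ω ^ (q / n)) fun t ht => ?_) ?_
    · exact mul_le_mul' (ENNReal.ofReal_le_ofReal (Real.rpow_le_rpow ht.1.le ht.2 (by linarith)))
        (ENNReal.rpow_le_rpow (a0 t) (by positivity))
    · rw [setLIntegral_const]
      exact ENNReal.mul_lt_top (ENNReal.mul_lt_top ENNReal.ofReal_lt_top ωf.lt_top)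
        measure_Ioc_lt_top
  · have i1 := ((log_int hC (p := q / 2) (by linarith)).const_mul (C ^ q)).lintegral_lt_top
    refine lt_of_le_of_lt (setLIntegral_mono' measurableSet_Ioi
      (g := fun t => ω ^ (q / n) *
        ENNReal.ofReal (C ^ q * (t⁻¹ * (1 + Real.log (t / C)) ^ (-(q / 2))))) fun t ht => ?_) ?_
    · have t0 : 0 < t := hC.trans ht
      have l0 : 0 < Real.log (t / C) := Real.log_pos ((one_lt_div hC).2 ht)
      refine (mul_le_mul' le_rfl (ENNReal.rpow_le_rpow (a1 t ht) (by positivity))).trans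
        (le_of_eq ?_)
      rw [ENNReal.mul_rpow_of_nonneg _ _ (by positivity),
        ENNReal.ofReal_rpow_of_nonneg (by positivity) (by positivity), ← mul_assoc,
        ← ENNReal.ofReal_mul (by positivity), mul_comm _ (ω ^ (q / n))]
      congr 2
      rw [← Real.rpow_natCast, ← Real.rpow_mul (by positivity),
        show (n : ℝ) * (q / n) = q by field_simp, Real.div_rpow hC.le (by positivity),
        Real.mul_rpow t0.le (by positivity), ← Real.rpow_mul (by positivity),
        Real.rpow_sub_one t0.ne', Real.rpow_neg (by positivity),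
        show 1 / 2 * q = q / 2 by ring]
      have := Real.rpow_pos_of_pos t0 q
      field_simp
    · rw [lintegral_const_mul' _ _ ωf]
      exact ENNReal.mul_lt_top ωf.lt_top i1

end Pool.Agent.Lib.MP_a785f2_an.LO
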