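import Pool.Agent.Lib.MP_a785f2_an.LZ.EqU
import Pool.Agent.Lib.MP_a785f2_an.LZ.Rad1
import Pool.Agent.Lib.MP_a785f2_an.LZ.Polar
import Pool.Agent.Lib.MP_a785f2_an.LY.Div
import Pool.Agent.Lib.MP_a785f2_an.LY.SphQ

/-! Weak solutions with an integrable right hand side on Euclidean domains. -/

open MeasureTheory Metric Set Filter Topology
open scoped ContDiff RealInnerProductSpace ENNReal

namespace Pool.Agent.Lib.MP_a785f2_an.LO

open HS (V)
open LZ

variable {n m : ℕ} {Ω : Set (E n)} {u : E n → V m} {G : E n → W n m} {f : E n → V m}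

/-- A weak solution on `Ω`; the map is not assumed to be bounded. -/
structure Sol (Ω : Set (E n)) (u : E n → V m) (G : E n → W n m) (f : E n → V m) : Prop where
  n3 : 3 ≤ n
  op : IsOpen Ω
  mu : StronglyMeasurable u
  mG : StronglyMeasurable G
  mf : StronglyMeasurable f
  iU : Integrable (fun x => ‖u x‖ ^ n) volume
  iG : Integrable (fun x => ‖G x‖ ^ n) volume
  iF : Integrable f volume
  apx : ∀ x0 R, closedBall x0 R ⊆ Ω → ∃ w : ℕ → E n → V m, (∀ k, ContDiff ℝ 1 (w k)) ∧
    (∀ᵐ x ∂(volume.restrict (closedBall x0 R)), Tendsto (fun k => w k x) atTop (𝓝 (u x))) ∧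
    Tendsto (fun k => ∫⁻ x in closedBall x0 R, ‖w k x - u x‖ₑ ^ n) atTop (𝓝 0) ∧
    Tendsto (fun k => ∫⁻ x in closedBall x0 R, ‖grad (w k) x - G x‖ₑ ^ n) atTop (𝓝 0)
  eq : ∀ φ : E n → V m, ContDiff ℝ 1 φ → HasCompactSupport φ → tsupport φ ⊆ Ω →
    ∫ x, ⟪AA (G x), grad φ x⟫ = ∫ x, ⟪f x, φ x⟫

theorem pow_int {X : Type} [NormedAddCommGroup X] {g : E n → X} (mg : StronglyMeasurable g)
    (hg : Integrable (fun x => ‖g x‖ ^ n) volume) {k : ℕ} (hk : k ≤ n) {A : Set (E n)}
    (hA : volume A ≠ ⊤) : IntegrableOn (fun x => ‖g x‖ ^ k) A volume := by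
  refine ((integrableOn_const (C := (1 : ℝ)) hA).add hg.integrableOn).mono'
    (mg.norm.pow k).aestronglyMeasurable (ae_of_all _ fun x => ?_)
  have h1 := norm_nonneg (g x)
  rw [Real.norm_of_nonneg (pow_nonneg h1 _)]
  rcases le_total ‖g x‖ 1 with h | h
  · exact (pow_le_one₀ h1 h).trans (le_add_of_nonneg_right (pow_nonneg h1 _))
  · exact (pow_le_pow_right₀ h hk).trans (le_add_of_nonneg_left zero_le_one)

theorem Sol.n1 (D : Sol Ω u G f) : 1 ≤ n := le_trans (by norm_num) D.n3

theorem Sol.n2 (D : Sol Ω u G f) : 2 ≤ n := le_trans (by norm_num) D.n3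

theorem Sol.iGk (D : Sol Ω u G f) {k : ℕ} (hk : k ≤ n) {A : Set (E n)} (hA : volume A ≠ ⊤) :
    IntegrableOn (fun x => ‖G x‖ ^ k) A volume := pow_int D.mG D.iG hk hA

theorem Sol.iUk (D : Sol Ω u G f) {k : ℕ} (hk : k ≤ n) {A : Set (E n)} (hA : volume A ≠ ⊤) :
    IntegrableOn (fun x => ‖u x‖ ^ k) A volume := pow_int D.mu D.iU hk hA

theorem Sol.iu (D : Sol Ω u G f) {A : Set (E n)} (hA : volume A ≠ ⊤) : IntegrableOn u A volume :=
  (integrable_norm_iff D.mu.aestronglyMeasurable).1 <| by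
    have h := D.iUk D.n1 hA
    simp only [pow_one] at h
    exact h

theorem Sol.locu (D : Sol Ω u G f) : LocallyIntegrable u volume := fun x =>
  ⟨ball x 1, ball_mem_nhds x one_pos, D.iu measure_ball_lt_top.ne⟩

/-- The equation tested with a cut-off times a bounded function of the solution. -/
theorem Sol.eq_comp (D : Sol Ω u G f) {Φ : V m → V m} (h2 : ContDiff ℝ 1 Φ) {B : ℝ}
    (b0 : ∀ y, ‖Φ y‖ ≤ B) (b1 : ∀ y, ‖fderiv ℝ Φ y‖ ≤ B) {ψ : E n → ℝ} (h1 : ContDiff ℝ 1 ψ)
    {c : E n} {R : ℝ} (hs : tsupport ψ ⊆ closedBall c R) (hR : closedBall c R ⊆ Ω) :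
    Integrable (fun x => ⟪rad (AA (G x)) (gradient ψ x), Φ (u x)⟫ +
      ψ x * (⟪AA (G x), eqCm (fderiv ℝ Φ (u x)) (G x)⟫ - ⟪f x, Φ (u x)⟫)) volume ∧
    ∫ x, (⟪rad (AA (G x)) (gradient ψ x), Φ (u x)⟫ +
      ψ x * (⟪AA (G x), eqCm (fderiv ℝ Φ (u x)) (G x)⟫ - ⟪f x, Φ (u x)⟫)) = 0 := by
  have hn : 2 ≤ n := le_trans (by norm_num) D.n3
  obtain ⟨w, sw, aw, -, lw⟩ := D.apx c R hR
  have g2 : HasCompactSupport ψ :=
    (isCompact_closedBall c R).of_isClosed_subset (isClosed_tsupport ψ) hs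
  have B0 : 0 ≤ B := (norm_nonneg _).trans (b0 0)
  have cΦ : Continuous Φ := h2.continuous
  have cD : Continuous (fderiv ℝ Φ) := h2.continuous_fderiv one_ne_zero
  have cg : Continuous (fderiv ℝ ψ) := h1.continuous_fderiv one_ne_zero
  have cg' : Continuous (gradient ψ) := eq_gradient_cont h1
  obtain ⟨L3, hL3⟩ := h1.continuous.bounded_above_of_compact_support g2
  obtain ⟨L4, hL4⟩ := cg.bounded_above_of_compact_support (g2.fderiv ℝ)
  have L30 : 0 ≤ L3 := (norm_nonneg _).trans (hL3 c)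
  have mA : StronglyMeasurable fun x => AA (G x) := continuous_AA.comp_stronglyMeasurable D.mG
  have hout : ∀ x, x ∉ closedBall c R → ψ x = 0 ∧ gradient ψ x = 0 := fun x hx =>
    ⟨image_eq_zero_of_notMem_tsupport fun h => hx (hs h), by
      rw [← norm_eq_zero, eq_gradient_norm, norm_eq_zero]
      exact image_eq_zero_of_notMem_tsupport fun h => hx (hs (tsupport_fderiv_subset ℝ h))⟩
  have hc : ∀ x y (A : W n m), |⟪AA (G x), eqCm (fderiv ℝ Φ y) A⟫| ≤
      B * (‖G x‖ ^ (n - 1) * ‖A‖) := fun x y A => by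
    refine (abs_real_inner_le_norm _ _).trans ?_
    have h3 : ‖eqCm (fderiv ℝ Φ y) A‖ ≤ B * ‖A‖ :=
      (eqCm_norm _ _).trans (mul_le_mul_of_nonneg_right (b1 y) (norm_nonneg _))
    rw [norm_AA hn]
    calc _ ≤ ‖G x‖ ^ (n - 1) * (B * ‖A‖) := by gcongr
      _ = _ := by ring
  set T : E n → V m → ℝ := fun x y => ⟪rad (AA (G x)) (gradient ψ x), Φ y⟫ +
    ψ x * (⟪AA (G x), eqCm (fderiv ℝ Φ y) (G x)⟫ - ⟪f x, Φ y⟫) with hT
  set Z : ℕ → E n → ℝ := fun k x =>
    -(ψ x * ⟪AA (G x), eqCm (fderiv ℝ Φ (w k x)) (grad (w k) x - G x)⟫) with hZ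
  have mT : ∀ y : E n → V m, StronglyMeasurable y → StronglyMeasurable fun x => T x (y x) := by
    intro y hy
    have a1 : StronglyMeasurable fun x => Φ (y x) := cΦ.comp_stronglyMeasurable hy
    have a2 : StronglyMeasurable fun x => fderiv ℝ Φ (y x) := cD.comp_stronglyMeasurable hy
    have a3 : StronglyMeasurable fun x => rad (AA (G x)) (gradient ψ x) :=
      continuous_rad.comp_stronglyMeasurable (mA.prodMk cg'.stronglyMeasurable)
    have a4 : StronglyMeasurable fun x => eqCm (fderiv ℝ Φ (y x)) (G x) :=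
      eqCm_cont.comp_stronglyMeasurable (a2.prodMk D.mG)
    exact (a3.inner a1).add
      (h1.continuous.stronglyMeasurable.mul ((mA.inner a4).sub (D.mf.inner a1)))
  set bd : E n → ℝ := fun x => B * (‖fderiv ℝ ψ x‖ + L4 * ‖G x‖ ^ n)
    + L3 * (B * ‖G x‖ ^ n + ‖f x‖ * B) with hbd
  have ibd : Integrable bd :=
    (((cg.integrable_of_hasCompactSupport (g2.fderiv ℝ)).norm.add
      (D.iG.const_mul L4)).const_mul _).add
      (((D.iG.const_mul _).add (D.iF.norm.mul_const _)).const_mul _)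
  have bT : ∀ x y, ‖T x y‖ ≤ bd x := fun x y => by
    have a1 : |⟪rad (AA (G x)) (gradient ψ x), Φ y⟫| ≤
        B * (‖fderiv ℝ ψ x‖ + L4 * ‖G x‖ ^ n) := by
      refine (abs_real_inner_le_norm _ _).trans ?_
      have q0 : ‖rad (AA (G x)) (gradient ψ x)‖ ≤ ‖G x‖ ^ (n - 1) * ‖fderiv ℝ ψ x‖ := by
        rw [← norm_AA hn, ← eq_gradient_norm]
        exact norm_rad_le _ _
      have q1 : ‖G x‖ ^ (n - 1) * ‖fderiv ℝ ψ x‖ ≤ ‖fderiv ℝ ψ x‖ + L4 * ‖G x‖ ^ n := by
        have := mul_le_mul_of_nonneg_right (eq_pow_le hn (norm_nonneg (G x)))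
          (norm_nonneg (fderiv ℝ ψ x))
        have := mul_le_mul_of_nonneg_left (hL4 x) (pow_nonneg (norm_nonneg (G x)) n)
        nlinarith
      rw [mul_comm B]
      exact mul_le_mul (q0.trans q1) (b0 y) (norm_nonneg _) ((norm_nonneg _).trans (q0.trans q1))
    have a2 : |⟪AA (G x), eqCm (fderiv ℝ Φ y) (G x)⟫| ≤ B * ‖G x‖ ^ n := by
      refine (hc x y _).trans_eq ?_
      rw [← pow_succ, Nat.sub_add_cancel (by omega)]
    have a3 : |⟪f x, Φ y⟫| ≤ ‖f x‖ * B :=
      (abs_real_inner_le_norm _ _).trans (mul_le_mul_of_nonneg_left (b0 y) (norm_nonneg _))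
    rw [Real.norm_eq_abs, hT, hbd]
    refine (abs_add_le _ _).trans (add_le_add a1 ?_)
    rw [abs_mul]
    exact mul_le_mul (hL3 x) ((abs_sub _ _).trans (add_le_add a2 a3)) (abs_nonneg _) L30
  have cT : ∀ x, Continuous (T x) := fun x => by
    have a2 : Continuous fun y => eqCm (fderiv ℝ Φ y) (G x) :=
      eqCm_cont.comp (cD.prodMk continuous_const)
    exact (continuous_const.inner cΦ).add
      (continuous_const.mul ((continuous_const.inner a2).sub (continuous_const.inner cΦ)))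
  have T0 : ∀ x y, x ∉ closedBall c R → T x y = 0 := fun x y hx => by
    simp [hT, (hout x hx).1, (hout x hx).2, rad]
  have lim1 : Tendsto (fun k => ∫ x, T x (w k x)) atTop (𝓝 (∫ x, T x (u x))) := by
    refine tendsto_integral_of_dominated_convergence bd
      (fun k => (mT _ (sw k).continuous.stronglyMeasurable).aestronglyMeasurable) ibd
      (fun k => ae_of_all _ fun x => bT x _) ?_
    filter_upwards [(ae_restrict_iff' measurableSet_closedBall).1 aw] with x hx
    by_cases h : x ∈ closedBall c R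
    · exact ((cT x).tendsto _).comp (hx h)
    · simp only [T0 x _ h]; exact tendsto_const_nhds
  have lim2 : Tendsto (fun k => ∫ x, Z k x) atTop (𝓝 0) := by
    obtain ⟨k0, rfl⟩ : ∃ k, n = k + 1 := ⟨n - 1, by omega⟩
    have h3 := HS.limT_small (μ := volume.restrict (closedBall c R)) k0
      (fun x => norm_nonneg (G x)) D.iG.integrableOn lw
    have c0 : 0 ≤ L3 * B := by positivity
    have h4 := ENNReal.Tendsto.const_mul (a := ENNReal.ofReal (L3 * B)) h3
      (Or.inr ENNReal.ofReal_ne_top)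
    rw [mul_zero] at h4
    rw [tendsto_zero_iff_enorm_tendsto_zero]
    refine tendsto_of_tendsto_of_tendsto_of_le_of_le tendsto_const_nhds h4 (fun _ => zero_le)
      fun k => (enorm_integral_le_lintegral_enorm _).trans ?_
    rw [← lintegral_const_mul' _ _ ENNReal.ofReal_ne_top,
      ← lintegral_indicator measurableSet_closedBall]
    refine lintegral_mono fun x => ?_
    by_cases h : x ∈ closedBall c R
    · rw [indicator_of_mem h, ← ENNReal.ofReal_mul c0, ← ofReal_norm]
      refine ENNReal.ofReal_le_ofReal ?_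
      rw [hZ, norm_neg, Real.norm_eq_abs, abs_mul, mul_assoc]
      exact mul_le_mul (hL3 x) (hc x _ _) (abs_nonneg _) L30
    · simp [hZ, (hout x h).1]
  have key : ∀ k, ∫ x, T x (w k x) = ∫ x, Z k x := fun k => by
    have s2 : ContDiff ℝ 1 fun x => Φ (w k x) := h2.comp (sw k)
    have s3 : ContDiff ℝ 1 fun x => ψ x • Φ (w k x) := h1.smul s2
    have s4 : HasCompactSupport fun x => ψ x • Φ (w k x) := g2.smul_right
    have s5 : tsupport (fun x => ψ x • Φ (w k x)) ⊆ Ω :=
      ((tsupport_smul_subset_left _ _).trans hs).trans hR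
    have e := D.eq _ s3 s4 s5
    have iT : Integrable fun x => T x (w k x) := ibd.mono'
      (mT _ (sw k).continuous.stronglyMeasurable).aestronglyMeasurable
      (ae_of_all _ fun x => bT x _)
    have cgr : Continuous (grad fun x => ψ x • Φ (w k x)) := continuous_grad s3
    have sgr : HasCompactSupport (grad fun x => ψ x • Φ (w k x)) :=
      (s4.fderiv ℝ).mono fun x hx h0 => hx (by
        ext α i
        simp [grad, h0])
    obtain ⟨L5, hL5⟩ := cgr.bounded_above_of_compact_support sgr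
    obtain ⟨L6, hL6⟩ := s3.continuous.bounded_above_of_compact_support s4
    have i1 : Integrable fun x => ⟪AA (G x), grad (fun x => ψ x • Φ (w k x)) x⟫ := by
      refine ((cgr.integrable_of_hasCompactSupport sgr).norm.add (D.iG.const_mul L5)).mono'
        (mA.inner cgr.stronglyMeasurable).aestronglyMeasurable (ae_of_all _ fun x => ?_)
      refine (abs_real_inner_le_norm _ _).trans ?_
      rw [norm_AA hn, Pi.add_apply]
      have := mul_le_mul_of_nonneg_right (eq_pow_le hn (norm_nonneg (G x)))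
        (norm_nonneg (grad (fun x => ψ x • Φ (w k x)) x))
      have := mul_le_mul_of_nonneg_left (hL5 x) (pow_nonneg (norm_nonneg (G x)) n)
      nlinarith
    have i2 : Integrable fun x => ⟪f x, ψ x • Φ (w k x)⟫ :=
      (D.iF.norm.mul_const L6).mono'
        (D.mf.inner s3.continuous.stronglyMeasurable).aestronglyMeasurable
        (ae_of_all _ fun x => (abs_real_inner_le_norm _ _).trans
          (mul_le_mul_of_nonneg_left (hL6 x) (norm_nonneg _)))
    have e2 : ∀ x, Z k x = T x (w k x) -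
        (⟪AA (G x), grad (fun x => ψ x • Φ (w k x)) x⟫ - ⟪f x, ψ x • Φ (w k x)⟫) := fun x => by
      rw [eq_grad_smul h1 h2 (sw k), hT, hZ, inner_add_right, inner_smul_right, inner_smul_right,
        inner_ten]
      simp only [eqCm_sub, inner_sub_right]
      ring
    simp only [e2]
    have i3 : Integrable fun x => ⟪AA (G x), grad (fun x => ψ x • Φ (w k x)) x⟫ -
        ⟪f x, ψ x • Φ (w k x)⟫ := i1.sub i2
    rw [integral_sub iT i3, integral_sub i1 i2, e, sub_self, sub_zero]
  simp only [key] at lim1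
  exact ⟨ibd.mono' (mT _ D.mu).aestronglyMeasurable (ae_of_all _ fun x => bT x _),
    tendsto_nhds_unique lim1 lim2⟩

theorem Sol.apq (D : Sol Ω u G f) {c : E n} {R : ℝ} (hR : closedBall c R ⊆ Ω) :
    LY.Apq (volume.restrict (ball c R)) n u fun x => linR (G x) := by
  obtain ⟨w, h1, -, h2, h3⟩ := D.apx c R hR
  refine ⟨D.iu measure_ball_lt_top.ne, ?_, w, h1, ?_, ?_⟩
  · refine (D.iGk (k := 1) D.n1 measure_ball_lt_top.ne).mono'
      (continuous_linR.comp_stronglyMeasurable D.mG).aestronglyMeasurable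
      (Eventually.of_forall fun x => ?_)
    rw [pow_one]
    exact linR_le _
  · exact tendsto_of_tendsto_of_tendsto_of_le_of_le tendsto_const_nhds h2 (fun _ => zero_le)
      fun _ => lintegral_mono_set ball_subset_closedBall
  · refine tendsto_of_tendsto_of_tendsto_of_le_of_le tendsto_const_nhds h3 (fun _ => zero_le)
      fun k => (lintegral_mono_set ball_subset_closedBall).trans (lintegral_mono fun x => ?_)
    rw [← linR_grad, ← linR_sub]
    exact pow_le_pow_left' (enorm_le_iff_norm_le.2 (linR_le _)) n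

/-- The spherical mean of a function of the solution is absolutely continuous. -/
theorem Sol.curve (D : Sol Ω u G f) {X : Type} [NormedAddCommGroup X] [NormedSpace ℝ X]
    [CompleteSpace X] {H : V m → X} (hH : ContDiff ℝ 1 H) {B : ℝ} (hB : ∀ q, ‖fderiv ℝ H q‖ ≤ B)
    {c : E n} {R : ℝ} (hR : closedBall c R ⊆ Ω) :
    ∃ Y : ℝ → X,
      Pr Y (fun s => s⁻¹ • ∫ θ, fderiv ℝ H (sl u c s θ) (rad (pp G c s θ) θ) ∂sph n) R ∧
      ∀ᵐ s, s ∈ Ioo 0 R → Y s = ∫ θ, H (sl u c s θ) ∂sph n := by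
  rcases le_or_gt R 0 with h0 | h0
  · refine ⟨fun _ => 0, ⟨fun _ _ _ _ _ => LY.ac_const _ _ _, ?_⟩, ?_⟩ <;>
      exact Eventually.of_forall fun s hs => absurd (hs.1.trans hs.2) (not_lt.2 h0)
  have n1 := D.n1
  have := LY.nontriv n1
  have : IsFiniteMeasure ((volume : Measure (E n)).restrict (ball c R)) :=
    isFiniteMeasure_restrict.2 measure_ball_lt_top.ne
  obtain ⟨y, h1, h2⟩ := (((D.apq hR).mono le_rfl n1).chain hH hB).curve volume h0
  refine ⟨fun s => (om n)⁻¹ • y s, ⟨fun a b ha hab hb =>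
    (h1 a b ha (ha.trans_le hab) (hab.trans hb) hb).const_smul _, ?_⟩, ?_⟩
  · filter_upwards [h2] with s h3 hs
    refine ((h3 hs).2.const_smul (om n)⁻¹).congr_deriv ?_
    rw [integral_sph, smul_comm s⁻¹, ← integral_smul s⁻¹]
    congr 1
    refine integral_congr_ae (Eventually.of_forall fun θ => ?_)
    simp only [sl, pp, ContinuousLinearMap.comp_apply, linR_apply, rad_smul, map_smul]
    rw [smul_smul, inv_mul_cancel₀ hs.1.ne', one_smul]
  · filter_upwards [h2] with s h3 hs
    rw [(h3 hs).1, integral_sph]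
    rfl

/-- The spherical mean of the solution is absolutely continuous. -/
theorem Sol.mean (D : Sol Ω u G f) {c : E n} {R : ℝ} (hR : closedBall c R ⊆ Ω) :
    ∃ y : ℝ → V m, Pr y (fun s => s⁻¹ • sa (pp G c s)) R ∧
      ∀ᵐ s, s ∈ Ioo 0 R → y s = sy (sl u c s) := by
  obtain ⟨y, h1, h2⟩ := D.curve (H := id) contDiff_id (B := 1)
    (fun q => by rw [fderiv_id]; exact ContinuousLinearMap.norm_id_le) hR
  refine ⟨y, ?_, h2⟩
  simp only [fderiv_id, ContinuousLinearMap.id_apply] at h1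
  exact h1

theorem rad_AA_pp (hn : 2 ≤ n) (G : E n → W n m) (c : E n) {s : ℝ} (hs : 0 < s) (θ : S n) :
    rad (AA (pp G c s θ)) θ = s ^ (n - 1) • rad (AA (G (c + s • (θ : E n)))) θ := by
  rw [pp, AA_smul hn hs.le, rad_smul]

/-- The equation tested with a bounded function of the solution on almost every ball. -/
theorem Sol.r3 (D : Sol Ω u G f) {Φ : V m → V m} (h2 : ContDiff ℝ 1 Φ) {B : ℝ}
    (b0 : ∀ y, ‖Φ y‖ ≤ B) (b1 : ∀ y, ‖fderiv ℝ Φ y‖ ≤ B) {c : E n} {R : ℝ}
    (hR : closedBall c R ⊆ Ω) : ∀ᵐ s, s ∈ Ioo 0 R →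
      ∫ x in ball c s, (⟪AA (G x), eqCm (fderiv ℝ Φ (u x)) (G x)⟫ - ⟪f x, Φ (u x)⟫) =
        om n * ∫ θ, ⟪rad (AA (pp G c s θ)) θ, Φ (sl u c s θ)⟫ ∂sph n := by
  have hn := D.n2
  have B0 : 0 ≤ B := (norm_nonneg _).trans (b0 0)
  have a1 : StronglyMeasurable fun x => Φ (u x) := h2.continuous.comp_stronglyMeasurable D.mu
  have a2 : StronglyMeasurable fun x => fderiv ℝ Φ (u x) :=
    (h2.continuous_fderiv one_ne_zero).comp_stronglyMeasurable D.mu
  have mA : StronglyMeasurable fun x => AA (G x) := continuous_AA.comp_stronglyMeasurable D.mG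
  have a4 : StronglyMeasurable fun x => eqCm (fderiv ℝ Φ (u x)) (G x) :=
    eqCm_cont.comp_stronglyMeasurable (a2.prodMk D.mG)
  have ld : Integrable fun x => ⟪AA (G x), eqCm (fderiv ℝ Φ (u x)) (G x)⟫ - ⟪f x, Φ (u x)⟫ := by
    refine Integrable.sub ((D.iG.const_mul B).mono' (mA.inner a4).aestronglyMeasurable
      (ae_of_all _ fun x => (norm_inner_le_norm _ _).trans ?_))
      ((D.iF.norm.mul_const B).mono' (D.mf.inner a1).aestronglyMeasurable (ae_of_all _ fun x =>
        (norm_inner_le_norm _ _).trans (mul_le_mul_of_nonneg_left (b0 _) (norm_nonneg _))))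
    have h3 := (eqCm_norm (fderiv ℝ Φ (u x)) (G x)).trans
      (mul_le_mul_of_nonneg_right (b1 _) (norm_nonneg _))
    rw [norm_AA hn]
    calc _ ≤ ‖G x‖ ^ (n - 1) * (B * ‖G x‖) := by gcongr
      _ = B * ‖G x‖ ^ (n - 1 + 1) := by ring
      _ = _ := by rw [Nat.sub_add_cancel (by omega)]
  set A : E n → E n →L[ℝ] ℝ := (ball c R).indicator fun x =>
    (innerSL ℝ (Φ (u x))).comp (linR (AA (G x))) with hA
  have lA : Integrable A := by
    have c1 : Continuous fun p : V m × W n m => (innerSL ℝ p.1).comp (linR p.2) :=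
      ((innerSL ℝ).continuous.comp continuous_fst).clm_comp (continuous_linR.comp continuous_snd)
    have c2 := c1.comp_stronglyMeasurable (a1.prodMk mA)
    refine (integrable_indicator_iff measurableSet_ball).2
      (((D.iGk (k := n - 1) (by omega) measure_ball_lt_top.ne).const_mul B).mono'
        c2.aestronglyMeasurable (ae_of_all _ fun x =>
          (ContinuousLinearMap.opNorm_comp_le _ _).trans ?_))
    rw [innerSL_apply_norm, ← norm_AA hn]
    exact mul_le_mul (b0 _) (linR_le _) (norm_nonneg (linR (AA (G x)))) B0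
  have h := LY.div_ball D.n1 c (R := R) lA ld fun φ p1 p2 p3 => by
    have q1 : ContDiff ℝ 1 φ := p1.of_le (by simp)
    obtain ⟨i1, e1⟩ := D.eq_comp h2 b0 b1 q1 (p3.trans ball_subset_closedBall) hR
    obtain ⟨C, hC⟩ := p1.continuous.bounded_above_of_compact_support p2
    have i2 : Integrable fun x => φ x •
        (⟪AA (G x), eqCm (fderiv ℝ Φ (u x)) (G x)⟫ - ⟪f x, Φ (u x)⟫) :=
      ld.bdd_smul C p1.continuous.aestronglyMeasurable (ae_of_all _ hC)
    have e2 : ∀ x, A x (gradient φ x) = ⟪rad (AA (G x)) (gradient φ x), Φ (u x)⟫ := fun x => by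
      by_cases k : x ∈ ball c R
      · rw [hA, indicator_of_mem k, ContinuousLinearMap.comp_apply, innerSL_apply_apply,
          linR_apply, real_inner_comm]
      · have z : gradient φ x = 0 := by
          rw [← norm_eq_zero, eq_gradient_norm, norm_eq_zero]
          exact image_eq_zero_of_notMem_tsupport fun k2 => k (p3 (tsupport_fderiv_subset ℝ k2))
        rw [z, map_zero, ← linR_apply, map_zero, inner_zero_left]
    have i3 : Integrable fun x => ⟪rad (AA (G x)) (gradient φ x), Φ (u x)⟫ :=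
      (i1.sub i2).congr (ae_of_all _ fun x => by simp)
    simp only [e2]
    rw [eq_neg_iff_add_eq_zero, ← integral_add i3 i2]
    exact e1
  filter_upwards [h] with s hs h0
  rw [hs h0, int_tos D.n1, smul_eq_mul, smul_eq_mul, mul_left_comm, ← integral_const_mul]
  congr 1
  refine integral_congr_ae (ae_of_all _ fun θ => ?_)
  have k : c + s • (θ : E n) ∈ ball c R := by
    rw [mem_ball_iff_norm, LY.polar_norm c h0.1.le]; exact h0.2
  simp only
  rw [hA, indicator_of_mem k, ContinuousLinearMap.comp_apply, innerSL_apply_apply, linR_apply,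
    rad_AA_pp hn G c h0.1, inner_smul_left, real_inner_comm]
  rfl

/-- The flux identity. -/
theorem Sol.flux (D : Sol Ω u G f) {c : E n} {R : ℝ} (hR : closedBall c R ⊆ Ω) :
    ∀ᵐ s, s ∈ Ioo 0 R → Ff f c s = sF (pp G c s) := by
  have hn := D.n2
  have h1 : ∀ i : Fin m, ∀ᵐ s, s ∈ Ioo 0 R → _ := fun i =>
    D.r3 (Φ := fun _ => EuclideanSpace.single i (1 : ℝ)) contDiff_const (B := 1)
      (fun _ => by simp) (fun _ => by simp) hR
  have mA : StronglyMeasurable fun x => AA (G x) := continuous_AA.comp_stronglyMeasurable D.mG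
  have h2 := (pol_int D.n1 (g := fun x => ‖G x‖ ^ (n - 1)) c (B := Ioo 0 R) measurableSet_Ioo
    Ioo_subset_Ioi_self (D.iGk (by omega) (measure_mono (fun x hx => hx.2) |>.trans_lt
      (measure_ball_lt_top (x := c) (r := R))).ne)).2.1
  have := sph_prob D.n1
  filter_upwards [ae_all_iff.2 h1, h2] with s hs k2 h0
  have i1 : Integrable (fun θ : S n => rad (AA (pp G c s θ)) θ) (sph n) := by
    have m1 : StronglyMeasurable fun θ : S n => rad (AA (pp G c s θ)) θ :=
      continuous_rad.comp_stronglyMeasurable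
        ((continuous_AA.comp_stronglyMeasurable (pp_meas D.mG c s)).prodMk
          continuous_subtype_val.stronglyMeasurable)
    refine ((k2 h0).const_mul (s ^ (n - 1))).mono' m1.aestronglyMeasurable
      (ae_of_all _ fun θ => (norm_rad_le _ _).trans_eq ?_)
    rw [norm_eq_of_mem_sphere θ, mul_one, norm_AA hn, pp, norm_smul, mul_pow,
      Real.norm_of_nonneg h0.1.le]
    rfl
  have o0 := (om_pos D.n1).ne'
  refine (EuclideanSpace.basisFun (Fin m) ℝ).toBasis.ext_elem_iff.2 fun i => ?_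
  have h3 := hs i h0
  have z : ∀ p : W n m, eqCm (0 : Op m) p = 0 := fun p => rfl
  simp only [fderiv_fun_const, Pi.zero_apply, z, inner_zero_right, zero_sub, integral_neg] at h3
  simp only [real_inner_comm (EuclideanSpace.single i (1 : ℝ))] at h3
  rw [integral_inner D.iF.integrableOn, integral_inner i1] at h3
  simp only [EuclideanSpace.inner_single_left, conj_trivial, one_mul] at h3
  simp only [OrthonormalBasis.coe_toBasis_repr_apply, EuclideanSpace.basisFun_repr, Ff, sF,
    PiLp.neg_apply, PiLp.smul_apply, smul_eq_mul]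
  rw [← mul_neg, h3, ← mul_assoc, inv_mul_cancel₀ o0, one_mul]

theorem Sol.prF (D : Sol Ω u G f) (c : E n) (R : ℝ) :
    Pr (Ff f c) (fun s => s⁻¹ • sD (ph f c s)) R := by
  obtain ⟨h1, h2⟩ := pol_pr D.n1 c R D.iF
  have o0 := (om_pos D.n1).ne'
  refine ⟨fun a b ha hab hb => ((h1 a b ha hab hb).const_smul (om n)⁻¹).neg, ?_⟩
  filter_upwards [h2] with s hs h0
  refine ((hs h0).const_smul (om n)⁻¹).neg.congr_deriv ?_
  have e : s ^ n = s * s ^ (n - 1) := by
    rw [← pow_succ', Nat.sub_add_cancel D.n1]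
  unfold sD ph
  simp only [integral_neg, integral_smul, smul_neg, smul_smul, sl]
  rw [← mul_assoc, inv_mul_cancel₀ o0, one_mul, e, ← mul_assoc, inv_mul_cancel₀ h0.1.ne', one_mul]

/-- The Poincare inequality on almost every sphere. -/
theorem sol_poin (n m : ℕ) (hn : 3 ≤ n) : ∃ Cp : ℝ, 1 ≤ Cp ∧ ∀ (Ω : Set (E n)) (u : E n → V m)
    (G : E n → W n m) (f : E n → V m), Sol Ω u G f → ∀ c R, closedBall c R ⊆ Ω →
    ∀ᵐ s, s ∈ Ioo 0 R → Integrable (fun θ => ‖sl u c s θ‖ ^ n) (sph n) ∧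
      Integrable (fun θ => ‖pp G c s θ‖ ^ n) (sph n) ∧ ∀ a : V m,
        ∫ θ, ‖sl u c s θ - sy (sl u c s)‖ ^ 2 ∂sph n ≤
          Cp * ∫ θ, ‖pp G c s θ - ten a θ‖ ^ 2 ∂sph n := by
  have n1 : 1 ≤ n := by omega
  have := sph_prob n1
  obtain ⟨C, C1, hC⟩ := LY.slice_poincare (volume : Measure (E n)) (F := V m)
    (by rwa [finrank_euclideanSpace_fin]) (sph n) rfl
  refine ⟨C, C1, fun Ω u G f D c R hR => ?_⟩
  have : IsFiniteMeasure ((volume : Measure (E n)).restrict (ball c R)) :=
    isFiniteMeasure_restrict.2 measure_ball_lt_top.ne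
  obtain ⟨w, h1, h2, h3⟩ := ((D.apq hR).mono (p := 2) one_le_two (by omega)).ex
  filter_upwards [hC c R u (fun x => linR (G x)) w D.mu
    (continuous_linR.comp_stronglyMeasurable D.mG) h1 h2 h3,
    LY.polar_slice n1 c D.iU, LY.polar_slice n1 c D.iG] with s k1 k2 k3 h0
  have i1 : Integrable (fun θ => ‖sl u c s θ‖ ^ n) (sph n) := int_sph n1 (k2 h0.1)
  have i2 : Integrable (fun θ => ‖pp G c s θ‖ ^ n) (sph n) := by
    refine ((int_sph n1 (k3 h0.1)).const_mul (s ^ n)).congr (ae_of_all _ fun θ => ?_)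
    simp only [pp, norm_smul, mul_pow, Real.norm_of_nonneg h0.1.le]
  have low : ∀ {X : Type} [NormedAddCommGroup X] {g : S n → X} (k : ℕ), k ≤ n →
      StronglyMeasurable g → Integrable (fun θ => ‖g θ‖ ^ n) (sph n) →
      Integrable (fun θ => ‖g θ‖ ^ k) (sph n) := fun {X} _ {g} k hk mg hg => by
    refine ((integrable_const (1 : ℝ)).add hg).mono' (mg.norm.pow k).aestronglyMeasurable
      (ae_of_all _ fun x => ?_)
    have h4 := norm_nonneg (g x)
    rw [Real.norm_of_nonneg (pow_nonneg h4 _)]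
    rcases le_total ‖g x‖ 1 with h | h
    · exact (pow_le_one₀ h4 h).trans (le_add_of_nonneg_right (pow_nonneg h4 _))
    · exact (pow_le_pow_right₀ h hk).trans (le_add_of_nonneg_left zero_le_one)
  refine ⟨i1, i2, fun a => k1 h0 ?_ (fun θ : S n => ‖pp G c s θ - ten a (θ : E n)‖)
    (fun _ => norm_nonneg _) ?_
    fun θ v hv => ?_⟩
  · exact (integrable_norm_iff (sl_meas D.mu c s).aestronglyMeasurable).1
      (by simpa using low 1 n1 (sl_meas D.mu c s) i1)
  · have m1 : StronglyMeasurable fun θ : S n => pp G c s θ - ten a θ :=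
      (pp_meas D.mG c s).sub (continuous_ten.comp
        (continuous_const.prodMk continuous_subtype_val)).stronglyMeasurable
    refine (((low 2 (by omega) (pp_meas D.mG c s) i2).const_mul 2).add
      (integrable_const (2 * ‖a‖ ^ 2))).mono' (m1.norm.pow 2).aestronglyMeasurable
      (ae_of_all _ fun θ => ?_)
    have h4 := norm_sub_le (pp G c s θ) (ten a θ)
    rw [norm_ten, norm_eq_of_mem_sphere θ, mul_one] at h4
    rw [Real.norm_of_nonneg (sq_nonneg _), Pi.add_apply]
    nlinarith [norm_nonneg (pp G c s θ - ten a θ), sq_nonneg (‖pp G c s θ‖ - ‖a‖),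
      norm_nonneg (pp G c s θ), norm_nonneg a]
  · have z : rad (ten a θ) v = 0 := by
      refine ext_inner_right ℝ fun b => ?_
      have e : rad (ten a θ) v = ⟪(θ : E n), v⟫ • a := by
        simp only [rad, ten, PiLp.inner_apply, Finset.sum_smul, smul_smul]
        simp
      rw [e, hv, zero_smul]
    have e2 : s • linR (G (c + s • (θ : E n))) v = rad (pp G c s θ - ten a θ) v := by
      rw [rad_sub, z, sub_zero, pp, rad_smul, linR_apply]
    rw [e2]
    exact norm_rad_le _ _

end Pool.Agent.Lib.MP_a785f2_an.LO
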