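import Pool.Agent.Lib.MP_a785f2_an.LO.Defs
import Pool.Agent.Lib.MP_a785f2_an.LO.Sol

/-! Basic facts on the data. -/

open MeasureTheory Metric Set Filter Topology
open scoped ContDiff RealInnerProductSpace ENNReal

namespace Pool.Agent.Lib.MP_a785f2_an.LO

open HS (V)
open LZ (W S Op rad ten grad AA om sph sl pp ph sM sF sa sX sy sD sR en av sgm Pr Ff Rep eqCm)

variable {n m : ℕ} {Ω : Set (E n)} {u : E n → V m} {G : E n → W n m} {f : E n → V m}
  {w : E n → ℝ}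

theorem Dat.f_le (D : Dat Ω u G f w) (x : E n) : ‖f x‖ ≤ w x * ‖G x‖ ^ (n - 1) := by
  have n3 := D.n3
  have h := D.asy x (f x) 0 0
  have z : ten ((0 : ℝ) • f x) (0 : E n) = 0 := by
    ext1 α; simp [ten]
  obtain ⟨k, rfl⟩ : ∃ k, n = k + 2 := ⟨n - 2, by omega⟩
  rw [z, sub_zero, real_inner_self_eq_norm_sq, Nat.add_sub_cancel] at h
  have h0 : 0 ≤ w x * ‖G x‖ ^ (k + 2 - 1) := mul_nonneg (D.w0 x) (by positivity)
  rcases (norm_nonneg (f x)).eq_or_lt with e | e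
  · rw [← e]; exact h0
  · refine le_of_mul_le_mul_right ?_ e
    calc _ = ‖f x‖ ^ 2 := by ring
      _ ≤ _ := h
      _ = _ := by rw [show k + 2 - 1 = k + 1 from rfl]; ring

theorem dl_nonneg (G : E n → W n m) (w : E n → ℝ) (x : E n) : 0 ≤ dl G w x := by
  unfold dl; positivity

theorem Dat.f_young (D : Dat Ω u G f w) (x : E n) (τ : ℝ) :
    ‖f x‖ * τ ≤ ‖G x‖ ^ n / 2 + τ ^ 2 * dl G w x / 2 := by
  have n3 := D.n3
  have h := D.f_le x
  obtain ⟨k, rfl⟩ : ∃ k, n = k + 2 := ⟨n - 2, by omega⟩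
  rw [show k + 2 - 1 = k + 1 from rfl] at h
  rw [dl, Nat.add_sub_cancel]
  have h1 : ‖f x‖ * τ ≤ w x * ‖G x‖ ^ (k + 1) * |τ| :=
    (mul_le_mul_of_nonneg_left (le_abs_self τ) (norm_nonneg _)).trans
      (mul_le_mul_of_nonneg_right h (abs_nonneg _))
  have h2 := mul_nonneg (pow_nonneg (norm_nonneg (G x)) k) (sq_nonneg (‖G x‖ - w x * |τ|))
  rw [← sq_abs τ]
  refine h1.trans ?_
  rw [pow_succ, pow_add]
  nlinarith

theorem Dat.iF (D : Dat Ω u G f w) : Integrable f volume := by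
  refine ((D.iG.div_const 2).add (D.iw.div_const 2)).mono' D.mf.aestronglyMeasurable
    (ae_of_all _ fun x => ?_)
  simpa using D.f_young x 1

theorem Dat.sol (D : Dat Ω u G f w) : Sol Ω u G f :=
  ⟨D.n3, D.op, D.mu, D.mG, D.mf, D.iu, D.iG, D.iF, D.apx, D.eq⟩

theorem Dat.iGk (D : Dat Ω u G f w) {k : ℕ} (hk : k ≤ n) {A : Set (E n)}
    (hA : volume A ≠ ⊤) : IntegrableOn (fun x => ‖G x‖ ^ k) A volume := by
  exact D.sol.iGk hk hA

theorem Dat.iuA (D : Dat Ω u G f w) {A : Set (E n)} (hA : volume A ≠ ⊤) :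
    IntegrableOn u A volume := by
  exact D.sol.iu hA

theorem Dat.loc (D : Dat Ω u G f w) : LocallyIntegrable u volume := by
  exact D.sol.locu

theorem Dat.en_mono (D : Dat Ω u G f w) {A B : Set (E n)} (h : A ⊆ B) : en G A ≤ en G B := by
  exact setIntegral_mono_set D.iG.integrableOn (ae_of_all _ fun x => by positivity)
    h.eventuallyLE

theorem Dat.lam_mono (D : Dat Ω u G f w) {A B : Set (E n)} (h : A ⊆ B) :
    lam G w A ≤ lam G w B := by
  exact setIntegral_mono_set D.iw.integrableOn (ae_of_all _ (dl_nonneg G w)) h.eventuallyLE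

theorem lam_nonneg (G : E n → W n m) (w : E n → ℝ) (A : Set (E n)) : 0 ≤ lam G w A := by
  exact integral_nonneg (dl_nonneg G w)

theorem Dat.pol_en (D : Dat Ω u G f w) (c : E n) :
    IntegrableOn (fun s => s⁻¹ * sM (pp G c s) n) (Ioi 0) volume ∧
      (∀ᵐ s : ℝ, 0 < s → Integrable (fun θ => ‖pp G c s θ‖ ^ n) (sph n)) ∧
      ∀ B : Set ℝ, MeasurableSet B → B ⊆ Ioi 0 →
        en G {x | dist x c ∈ B} = om n * ∫ s in B, s⁻¹ * sM (pp G c s) n := by
  have hn : 1 ≤ n := le_trans (by norm_num) D.n3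
  have e0 : ∀ s : ℝ, 0 < s → ∀ θ : S n,
      ‖pp G c s θ‖ ^ n = s ^ n * sl (fun x => ‖G x‖ ^ n) c s θ := fun s hs θ => by
    rw [pp, norm_smul, mul_pow, Real.norm_of_nonneg hs.le]; rfl
  have e : ∀ s : ℝ, 0 < s → s ^ (n - 1) • ∫ θ, sl (fun x => ‖G x‖ ^ n) c s θ ∂sph n =
      s⁻¹ * sM (pp G c s) n := fun s hs => by
    simp only [sM, e0 s hs]
    rw [integral_const_mul, smul_eq_mul, ← mul_assoc, pow_sub₀ s hs.ne' hn, pow_one, mul_comm s⁻¹]
  obtain ⟨h1, h2, -⟩ := LZ.pol_int hn c measurableSet_Ioi Subset.rfl D.iG.integrableOn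
  refine ⟨h1.congr_fun (fun s hs => e s hs) measurableSet_Ioi, ?_, fun B hB h0 => ?_⟩
  · filter_upwards [h2] with s hs h0
    simp only [e0 s h0]
    exact (hs h0).const_mul _
  · rw [en, (LZ.pol_int hn c hB h0 D.iG.integrableOn).2.2, smul_eq_mul]
    congr 1
    exact setIntegral_congr_fun hB fun s hs => e s (h0 hs)

theorem rd_int (hn : 1 ≤ n) {g : E n → ℝ} (hg : Integrable g volume) (c : E n) :
    IntegrableOn (rd g c) (Ioi 0) volume ∧
      ∀ B : Set ℝ, MeasurableSet B → B ⊆ Ioi 0 →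
        ∫ x in {x | dist x c ∈ B}, g x = om n * ∫ s in B, rd g c s := by
  exact ⟨(LZ.pol_int hn c measurableSet_Ioi Subset.rfl hg.integrableOn).1,
    fun B hB h0 => (LZ.pol_int hn c hB h0 hg.integrableOn).2.2⟩

theorem Lin.mono {σ : Measure (E n)} {x : E n} {t l l' : ℝ} (h : Lin σ x t l) (ht : 0 < t)
    (hl : 0 ≤ l) (hl' : l ≤ l') : Lin σ x t l' := by
  intro ρ hρ
  have h0 : 0 ≤ ρ := ht.le.trans hρ
  exact (h ρ hρ).trans (by gcongr)

theorem Good.lin {O : Set (E n)} {σ : Measure (E n)} [IsFiniteMeasure σ] {z : E n} {r l : ℝ}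
    (hn : 2 ≤ n) (g : Good O σ z r l) {x : E n} {t : ℝ} (hx : dist x z ≤ 2 * r) (ht : 0 < t)
    (htr : t ≤ 2 * r) : Lin σ x t (2 * l) := by
  intro ρ hρ
  have r0 := g.r0
  have l0 := g.l0
  have h0 : 0 < ρ := ht.trans_le hρ
  have h1 : σ.real (ball x ρ) ≤ σ.real (ball z (ρ + 2 * r)) :=
    measureReal_mono (ball_subset_ball' (by linarith))
  refine h1.trans ((g.far _ (by linarith)).trans ?_)
  have h2 : (4 : ℝ) ≤ 2 ^ n := by
    calc (4 : ℝ) = 2 ^ 2 := by norm_num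
      _ ≤ _ := pow_le_pow_right₀ (by norm_num) hn
  have h3 : (ρ + 2 * r) / r ≤ 2 ^ n * ρ / t := by
    rw [div_le_div_iff₀ r0 ht]
    nlinarith [mul_le_mul_of_nonneg_left htr h0.le, mul_le_mul_of_nonneg_left hρ r0.le,
      mul_le_mul_of_nonneg_right h2 (mul_pos h0 r0).le]
  calc _ = l ^ n * ((ρ + 2 * r) / r) := by ring
    _ ≤ l ^ n * (2 ^ n * ρ / t) := by gcongr
    _ = _ := by ring

theorem Ctl.mono {σ σ' : Measure (E n)} [IsFiniteMeasure σ'] (h : σ ≤ σ') {x : E n}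
    (hx : Ctl σ G x) : Ctl σ' G x := by
  obtain ⟨ρ, h1, h2⟩ := hx
  exact ⟨ρ, h1, h2.trans (ENNReal.toReal_mono (measure_ne_top _ _) (h _))⟩

end Pool.Agent.Lib.MP_a785f2_an.LO
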