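import Pool.Agent.Lib.MP_a785f2_an.LO.Defs

/-! Truncations exist. -/

open MeasureTheory Metric Set Filter Topology
open scoped ContDiff RealInnerProductSpace ENNReal

namespace Pool.Agent.Lib.MP_a785f2_an.LO

open HS (V)
open LZ (W S Op rad ten grad AA om sph sl pp ph sM sF sa sX sy sD sR en av sgm Pr Ff Rep eqCm)

variable {n m : ℕ} {Ω : Set (E n)} {u : E n → V m} {G : E n → W n m} {f : E n → V m}
  {w : E n → ℝ}

/-- The cut-off of the truncation. -/
noncomputable def capB (m : ℕ) : ContDiffBump (0 : V m) := ⟨2, 3, by norm_num, by norm_num⟩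

/-- The truncation at unit scale. -/
noncomputable def capA (y : V m) : V m := capB m y • y

/-- The truncation about `c` at scale `R`. -/
noncomputable def capT (c : V m) (R : ℝ) (y : V m) : V m := c + R • capA (R⁻¹ • (y - c))

theorem capA_cd : ContDiff ℝ 1 (capA : V m → V m) := (capB m).contDiff.smul contDiff_id

theorem capA_le (y : V m) : ‖capA y‖ ≤ 3 := by
  rcases le_or_gt 3 ‖y‖ with h | h
  · rw [capA, (capB m).zero_of_le_dist (by rwa [dist_zero_right]), zero_smul, norm_zero]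
    norm_num
  · rw [capA, norm_smul, Real.norm_of_nonneg (capB m).nonneg]
    nlinarith [(capB m).le_one (x := y), (capB m).nonneg (x := y), norm_nonneg y]

theorem capA_eq {y : V m} (h : ‖y‖ ≤ 2) : capA y = y := by
  rw [capA, (capB m).one_of_mem_closedBall (by rwa [mem_closedBall, dist_zero_right]), one_smul]

theorem capA_bd (m : ℕ) : ∃ B : ℝ, 1 ≤ B ∧ ∀ y : V m, ‖fderiv ℝ capA y‖ ≤ B := by
  have h : HasCompactSupport (capA : V m → V m) := (capB m).hasCompactSupport.smul_right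
  obtain ⟨B, hB⟩ := (capA_cd.continuous_fderiv one_ne_zero).bounded_above_of_compact_support
    (h.fderiv ℝ)
  exact ⟨max B 1, le_max_right _ _, fun y => (hB y).trans (le_max_left _ _)⟩

theorem capT_cd (c : V m) (R : ℝ) : ContDiff ℝ 1 (capT c R) :=
  contDiff_const.add ((capA_cd.comp ((contDiff_id.sub contDiff_const).const_smul R⁻¹)).const_smul R)

theorem capT_le (c : V m) {R : ℝ} (hR : 0 ≤ R) (y : V m) : ‖capT c R y - c‖ ≤ 3 * R := by
  rw [capT, add_sub_cancel_left, norm_smul, Real.norm_of_nonneg hR, mul_comm]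
  exact mul_le_mul_of_nonneg_right (capA_le _) hR

theorem capT_norm (c : V m) {R : ℝ} (hR : 0 ≤ R) (y : V m) : ‖capT c R y‖ ≤ ‖c‖ + 3 * R := by
  have h := norm_add_le c (capT c R y - c)
  rw [add_sub_cancel] at h
  linarith [capT_le c hR y]

theorem capT_eq {c : V m} {R : ℝ} (hR : 0 < R) {y : V m} (h : ‖y - c‖ ≤ 2 * R) : capT c R y = y := by
  rw [capT, capA_eq, smul_smul, mul_inv_cancel₀ hR.ne', one_smul, add_sub_cancel]
  rw [norm_smul, norm_inv, Real.norm_of_nonneg hR.le, inv_mul_le_iff₀ hR]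
  linarith

theorem capT_fderiv_eq {c : V m} {R : ℝ} (hR : 0 < R) {y : V m} (h : ‖y - c‖ < 2 * R) :
    fderiv ℝ (capT c R) y = ContinuousLinearMap.id ℝ (V m) := by
  have h1 : capT c R =ᶠ[𝓝 y] id := by
    filter_upwards [isOpen_ball.mem_nhds (mem_ball_iff_norm.2 h)] with z hz
    exact capT_eq hR (mem_ball_iff_norm.1 hz).le
  rw [h1.fderiv_eq, fderiv_id]

theorem capT_bd (m : ℕ) : ∃ B : ℝ, 1 ≤ B ∧ ∀ (c : V m) (R : ℝ), 0 < R → ∀ y,
    ‖fderiv ℝ (capT c R) y‖ ≤ B := by
  obtain ⟨B, B1, hB⟩ := capA_bd m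
  refine ⟨B, B1, fun c R hR y => ?_⟩
  have h1 : HasFDerivAt (capT c R) (R • (fderiv ℝ capA (R⁻¹ • (y - c))).comp
      (R⁻¹ • ContinuousLinearMap.id ℝ (V m))) y :=
    (((capA_cd.differentiable one_ne_zero _).hasFDerivAt.comp y
      (((hasFDerivAt_id y).sub_const c).const_smul R⁻¹)).const_smul R).const_add c
  rw [h1.fderiv, ContinuousLinearMap.comp_smul, smul_smul, mul_inv_cancel₀ hR.ne', one_smul,
    ContinuousLinearMap.comp_id]
  exact hB _

theorem exists_caps (m : ℕ) : ∃ L : ℝ, Caps m L := by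
  obtain ⟨B, B1, hB⟩ := capT_bd m
  exact ⟨B, B1, fun q R hR => ⟨capT q R, hR, capT_cd q R, capT_le q hR.le, hB q R hR,
    fun y hy => ⟨capT_eq hR (by linarith), capT_fderiv_eq hR (by linarith)⟩⟩⟩

end Pool.Agent.Lib.MP_a785f2_an.LO
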