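import Pool.Agent.Lib.MP_a785f2_an.LY.Trunk

/-!
The trunk inequality along finitely many segments, the scalar part being changed at the junctions.
-/

open MeasureTheory Set Filter Topology
open scoped RealInnerProductSpace

namespace Pool.Agent.Lib.MP_a785f2_an.LO

variable {W : Type} [NormedAddCommGroup W] [InnerProductSpace ℝ W]

theorem trunk_chain {σ : ℕ → ℝ} (hσ : Antitone σ) (N : ℕ) {k t1 tm lam : ℝ} (hk : 0 ≤ k)
    (ht : 0 ≤ t1) (hm : 0 ≤ tm) (htm : t1 + (k + tm) * lam ≤ tm)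
    {M M' : ℕ → ℝ → ℝ} {b r : ℝ → ℝ} {F F' y y' : ℝ → W}
    (aM : ∀ i < N, AbsolutelyContinuousOnInterval (M i) (σ (i + 1)) (σ i))
    (aF : AbsolutelyContinuousOnInterval F (σ N) (σ 0))
    (ay : AbsolutelyContinuousOnInterval y (σ N) (σ 0))
    (hM : ∀ i < N, ∀ᵐ s, s ∈ Ioo (σ (i + 1)) (σ i) → HasDerivAt (M i) (M' i s) s)
    (hd : ∀ᵐ s, s ∈ Ioo (σ N) (σ 0) → HasDerivAt F (F' s) s ∧ HasDerivAt y (y' s) s ∧
      ‖y' s‖ ≤ b s)
    (hj : ∀ i < N, M i (σ (i + 1)) = M (i + 1) (σ (i + 1)))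
    (hb : IntervalIntegrable b volume (σ N) (σ 0))
    (hr : IntervalIntegrable r volume (σ N) (σ 0))
    {ι : Type} [Countable ι] {α β : ι → ℝ} (hαβ : ∀ j, α j ≤ β j)
    (hdis : Pairwise fun i j => Disjoint (Ioo (α i) (β i)) (Ioo (α j) (β j)))
    (hoff : ∀ i ≤ N, ∀ j, σ i ∉ Ioo (α j) (β j))
    {W0 : Set ℝ} (hW0 : MeasurableSet W0)
    (hW : ∫ s in Ioo (σ N) (σ 0) ∩ ((⋃ j, Ioo (α j) (β j)) ∪ W0), b s ≤ lam)
    (hJ : ∀ i < N, ∀ j, σ (i + 1) ≤ α j → β j ≤ σ i → ∀ T, ‖T‖ ≤ tm → ∫ s in α j..β j, r s ≤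
      M i (β j) + ⟪F (β j), T - k • y (β j)⟫ - (M i (α j) + ⟪F (α j), T - k • y (β j)⟫))
    (hgood : ∀ i < N, ∀ᵐ s, s ∈ Ioo (σ (i + 1)) (σ i) → s ∉ ⋃ j, Ioo (α j) (β j) →
      ∃ ν : ℝ, 0 ≤ ν ∧ ⟪F s, F' s⟫ ≤ ν * ‖F s‖ ∧
      (s ∈ W0 → r s ≤ M' i s - k * ⟪F' s, y s⟫ - tm * ν) ∧
      (s ∉ W0 → r s ≤ M' i s - k * ⟪F' s, y s⟫ - tm * ν - k * ⟪F s, y' s⟫))
    {Z : W} (hZ : ‖Z + k • y (σ 0)‖ ≤ t1) {q0 : ℝ}
    (hq : ∀ T, ‖T‖ ≤ tm → q0 ≤ M N (σ N) + ⟪F (σ N), T - k • y (σ N)⟫) :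
    q0 + ∫ s in σ N..σ 0, r s ≤ M 0 (σ 0) + ⟪F (σ 0), Z⟫ := by
  obtain ⟨U, hU⟩ : ∃ U, U = (⋃ j, Ioo (α j) (β j)) ∪ W0 := ⟨_, rfl⟩
  have mU : MeasurableSet U := hU ▸ (MeasurableSet.iUnion fun _ => measurableSet_Ioo).union hW0
  have km : 0 ≤ k + tm := add_nonneg hk hm
  have sub : ∀ {i j : ℕ}, i ≤ j → j ≤ N → uIcc (σ j) (σ i) ⊆ uIcc (σ N) (σ 0) := fun {i j} h1 h2 =>
    uIcc_subset_uIcc (mem_uIcc.2 (Or.inl ⟨hσ h2, hσ j.zero_le⟩))
      (mem_uIcc.2 (Or.inl ⟨hσ (h1.trans h2), hσ i.zero_le⟩))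
  have sub' : ∀ {i j : ℕ}, j ≤ N → Ioo (σ j) (σ i) ⊆ Ioo (σ N) (σ 0) := fun {i j} h2 =>
    Ioo_subset_Ioo (hσ h2) (hσ i.zero_le)
  have ic : IntervalIntegrable (U.indicator b) volume (σ N) (σ 0) :=
    ⟨hb.1.indicator mU, hb.2.indicator mU⟩
  have ce : ∀ {i j : ℕ}, i ≤ j →
      ∫ s in σ j..σ i, U.indicator b s = ∫ s in Ioo (σ j) (σ i) ∩ U, b s := fun h => by
    rw [intervalIntegral.integral_of_le (hσ h), integral_Ioc_eq_integral_Ioo,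
      setIntegral_indicator mU]
  have c0 : ∀ {i j : ℕ}, i ≤ j → j ≤ N → 0 ≤ ∫ s in σ j..σ i, U.indicator b s := fun h1 h2 => by
    rw [ce h1]
    refine setIntegral_nonneg_ae (measurableSet_Ioo.inter mU) ?_
    filter_upwards [hd] with s hs hm
    exact (norm_nonneg _).trans (hs (sub' h2 hm.1)).2.2
  have ad : ∀ {i j l : ℕ}, i ≤ j → j ≤ l → l ≤ N → (∫ s in σ l..σ j, U.indicator b s) +
      ∫ s in σ j..σ i, U.indicator b s = ∫ s in σ l..σ i, U.indicator b s := fun h1 h2 h3 =>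
    intervalIntegral.integral_add_adjacent_intervals (ic.mono_set (sub h2 h3))
      (ic.mono_set (sub h1 (h2.trans h3)))
  obtain ⟨τ, hτ⟩ : ∃ τ : ℕ → ℝ, ∀ i, τ i = t1 + (k + tm) * ∫ s in σ i..σ 0, U.indicator b s :=
    ⟨_, fun _ => rfl⟩
  have τ0 : ∀ i ≤ N, 0 ≤ τ i := fun i hi => by
    rw [hτ]; exact add_nonneg ht (mul_nonneg km (c0 i.zero_le hi))
  have τ1 : ∀ i ≤ N, τ i ≤ tm := fun i hi => by
    have h1 := ad i.zero_le hi le_rfl
    have h2 := c0 hi le_rfl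
    have h3 : ∫ s in σ N..σ 0, U.indicator b s ≤ lam := by rw [ce N.zero_le, hU]; exact hW
    have h4 : (k + tm) * ∫ s in σ i..σ 0, U.indicator b s ≤ (k + tm) * lam :=
      mul_le_mul_of_nonneg_left (by linarith) km
    rw [hτ]; linarith
  have nT : ∀ {T : W} {t : ℝ}, 0 ≤ t → ‖T‖ ^ 2 ≤ t ^ 2 * ‖(1 : W →L[ℝ] W)‖ → ‖T‖ ≤ t :=
    fun h0 h => (abs_le_of_sq_le_sq' (h.trans
      (mul_le_of_le_one_right (sq_nonneg _) ContinuousLinearMap.norm_id_le)) h0).2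
  have main : ∀ i ≤ N, ∀ q : ℝ, (∀ T, ‖T‖ ≤ τ i → q ≤ M i (σ i) + ⟪F (σ i), T - k • y (σ i)⟫) →
      q + ∫ s in σ i..σ 0, r s ≤ M 0 (σ 0) + ⟪F (σ 0), Z⟫ := by
    intro i
    induction i with
    | zero =>
      intro _ q h
      have h1 := h (Z + k • y (σ 0)) (by rw [hτ]; simpa using hZ)
      rw [add_sub_cancel_right] at h1
      simpa using h1
    | succ i ih =>
      intro hi q h
      have hi' : i ≤ N := Nat.le_of_succ_le hi
      have s1 := sub (Nat.le_succ i) hi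
      have s2 : Ioo (σ (i + 1)) (σ i) ⊆ Ioo (σ N) (σ 0) := sub' hi
      have key : ∀ s ∈ Ioo (σ (i + 1)) (σ i), ∀ j, s ∈ Ioo (α j) (β j) →
          σ (i + 1) ≤ α j ∧ β j ≤ σ i := fun s hs j hm =>
        ⟨not_lt.1 fun h => hoff _ hi j ⟨h, hs.1.trans hm.2⟩,
          not_lt.1 fun h => hoff _ hi' j ⟨hm.1.trans hs.2, h⟩⟩
      have h1 := ih hi' (q + ∫ s in σ (i + 1)..σ i, r s) fun T hT =>
        LY.trunk (s0 := σ (i + 1)) (s1 := σ i) (k := k) (t1 := τ i) (tm := τ (i + 1))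
          (lam := ∫ s in σ (i + 1)..σ i, U.indicator b s) (hσ (Nat.le_succ i)) hk (τ0 i hi')
          (τ0 _ hi) (by
            have a1 := ad i.zero_le (Nat.le_succ i) hi
            have a2 := mul_le_mul_of_nonneg_right (τ1 _ hi) (c0 (Nat.le_succ i) hi)
            have a3 := hτ i
            have a4 := hτ (i + 1)
            rw [← a1] at a4
            linarith)
          (M := M i) (M' := M' i) (b := b) (r := r) (F := F) (F' := F') (y := y) (y' := y')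
          (g := fun _ => 1) (g' := fun _ => 0) (aM i hi) (aF.mono s1) (ay.mono s1)
          (LY.ac_const _ _ _)
          (by
            filter_upwards [hM i hi, hd] with s a1 a2 hs
            obtain ⟨b1, b2, b3⟩ := a2 (s2 hs)
            exact ⟨a1 hs, b1, b2, hasDerivAt_const s _, b3,
              norm_zero.le.trans ((norm_nonneg _).trans b3)⟩)
          (hb.mono_set s1) (hr.mono_set s1)
          (fun s _ => ⟨fun _ _ => rfl, fun v => (real_inner_self_eq_norm_sq v).ge⟩)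
          (ι := {j : ι // σ (i + 1) ≤ α j ∧ β j ≤ σ i}) (α := fun j => α j.1)
          (β := fun j => β j.1) (fun j => j.2.1) (fun j => hαβ j.1) (fun j => j.2.2)
          (fun a c h => hdis fun e => h (Subtype.ext e)) hW0
          (by
            rw [ce (Nat.le_succ i), hU]
            refine le_of_eq (congrArg (fun S => ∫ s in S, b s) ?_)
            ext s
            refine and_congr_right fun hs => or_congr_left ⟨fun h => ?_, fun h => ?_⟩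
            · obtain ⟨j, hj⟩ := mem_iUnion.1 h
              exact mem_iUnion.2 ⟨j.1, hj⟩
            · obtain ⟨j, hj⟩ := mem_iUnion.1 h
              exact mem_iUnion.2 ⟨⟨j, key s hs j hj⟩, hj⟩)
          (fun j T' hT' => hJ i hi j.1 j.2.1 j.2.2 T' ((nT (τ0 _ hi) hT').trans (τ1 _ hi)))
          (by
            filter_upwards [hgood i hi] with s a1 hs ho
            obtain ⟨ν, ν0, b1, b2, b3⟩ := a1 hs fun h => by
              obtain ⟨j, hj⟩ := mem_iUnion.1 h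
              exact ho (mem_iUnion.2 ⟨⟨j, key s hs j hj⟩, hj⟩)
            have a2 := mul_le_mul_of_nonneg_right (τ1 _ hi) ν0
            refine ⟨ν, ν0, by simpa using b1, fun h => ?_, fun h => ?_⟩
            · linarith [b2 h]
            · linarith [b3 h])
          (Z := T - k • y (σ i)) (by rwa [sub_add_cancel]) (q0 := q)
          (fun T' hT' => by rw [hj i hi]; exact h T' (nT (τ0 _ hi) hT'))
      have h2 := intervalIntegral.integral_add_adjacent_intervals (hr.mono_set s1)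
        (hr.mono_set (sub i.zero_le hi'))
      linarith
  exact main N le_rfl q0 fun T hT => hq T (hT.trans (τ1 N le_rfl))

/-- The same with unit weight; no smallness of the exceptional budget is needed. -/
theorem trunk_one {σ : ℕ → ℝ} (hσ : Antitone σ) (N : ℕ) {t1 tm lam : ℝ}
    (ht : 0 ≤ t1) (hl : 0 ≤ lam) (htm : t1 + lam < tm)
    {M M' : ℕ → ℝ → ℝ} {b r : ℝ → ℝ} {F F' y y' : ℝ → W}
    (aM : ∀ i < N, AbsolutelyContinuousOnInterval (M i) (σ (i + 1)) (σ i))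
    (aF : AbsolutelyContinuousOnInterval F (σ N) (σ 0))
    (ay : AbsolutelyContinuousOnInterval y (σ N) (σ 0))
    (hM : ∀ i < N, ∀ᵐ s, s ∈ Ioo (σ (i + 1)) (σ i) → HasDerivAt (M i) (M' i s) s)
    (hd : ∀ᵐ s, s ∈ Ioo (σ N) (σ 0) → HasDerivAt F (F' s) s ∧ HasDerivAt y (y' s) s ∧
      ‖y' s‖ ≤ b s)
    (hj : ∀ i < N, M i (σ (i + 1)) = M (i + 1) (σ (i + 1)))
    (hb : IntervalIntegrable b volume (σ N) (σ 0))
    (hr : IntervalIntegrable r volume (σ N) (σ 0))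
    {ι : Type} [Countable ι] {α β : ι → ℝ} (hαβ : ∀ j, α j ≤ β j)
    (hdis : Pairwise fun i j => Disjoint (Ioo (α i) (β i)) (Ioo (α j) (β j)))
    (hoff : ∀ i ≤ N, ∀ j, σ i ∉ Ioo (α j) (β j))
    {W0 : Set ℝ} (hW0 : MeasurableSet W0)
    (hW : ∫ s in Ioo (σ N) (σ 0) ∩ ((⋃ j, Ioo (α j) (β j)) ∪ W0), b s ≤ lam)
    (hJ : ∀ i < N, ∀ j, σ (i + 1) ≤ α j → β j ≤ σ i → ∀ T, ‖T‖ ≤ tm → ∫ s in α j..β j, r s ≤
      M i (β j) + ⟪F (β j), T - y (β j)⟫ - (M i (α j) + ⟪F (α j), T - y (β j)⟫))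
    (hgood : ∀ i < N, ∀ᵐ s, s ∈ Ioo (σ (i + 1)) (σ i) → s ∉ ⋃ j, Ioo (α j) (β j) →
      ∃ ν : ℝ, 0 ≤ ν ∧ ⟪F s, F' s⟫ ≤ ν * ‖F s‖ ∧
      (s ∈ W0 → r s ≤ M' i s - ⟪F' s, y s⟫ - tm * ν) ∧
      (s ∉ W0 → r s ≤ M' i s - ⟪F' s, y s⟫ - tm * ν - ⟪F s, y' s⟫))
    {Z : W} (hZ : ‖Z + y (σ 0)‖ ≤ t1) {q0 : ℝ}
    (hq : ∀ T, ‖T‖ ≤ tm → q0 ≤ M N (σ N) + ⟪F (σ N), T - y (σ N)⟫) :
    q0 + ∫ s in σ N..σ 0, r s ≤ M 0 (σ 0) + ⟪F (σ 0), Z⟫ := by
  have hm : 0 ≤ tm := by linarith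
  have d0 : 0 < tm - (t1 + lam) := sub_pos.2 htm
  obtain ⟨k, hk⟩ : ∃ k, k = tm * lam / (tm - (t1 + lam)) + 1 := ⟨_, rfl⟩
  have k0 : 0 < k := by rw [hk]; positivity
  have e1 : ∀ v : W, k • k⁻¹ • v = v := fun v => smul_inv_smul₀ k0.ne' v
  have e2 : ∀ v x : W, k * ⟪x, k⁻¹ • v⟫ = ⟪x, v⟫ := fun v x => by
    rw [← real_inner_smul_right, e1]
  refine trunk_chain hσ N (k := k) (t1 := t1) (tm := tm) (lam := k⁻¹ * lam) k0.le ht hm ?_
    (M := M) (M' := M') (b := fun s => k⁻¹ * b s) (r := r) (F := F) (F' := F')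
    (y := fun s => k⁻¹ • y s) (y' := fun s => k⁻¹ • y' s) aM aF (ay.const_smul k⁻¹) hM ?_ hj
    (hb.const_mul _) hr hαβ hdis hoff hW0 ?_ ?_ ?_ ?_ ?_
  · have h1 : tm * lam ≤ (tm - (t1 + lam)) * k := by
      rw [hk, mul_add, mul_div_cancel₀ _ d0.ne']; linarith
    have h2 : (k + tm) * (k⁻¹ * lam) = lam + tm * lam / k := by field_simp
    rw [← div_le_iff₀ k0] at h1
    linarith
  · filter_upwards [hd] with s h hs
    refine ⟨(h hs).1, (h hs).2.1.const_smul _, ?_⟩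
    rw [norm_smul, Real.norm_of_nonneg (inv_nonneg.2 k0.le)]
    exact mul_le_mul_of_nonneg_left (h hs).2.2 (inv_nonneg.2 k0.le)
  · rw [integral_const_mul]
    exact mul_le_mul_of_nonneg_left hW (inv_nonneg.2 k0.le)
  · simpa only [e1] using hJ
  · simpa only [e2] using hgood
  · simpa only [e1] using hZ
  · simpa only [e1] using hq

end Pool.Agent.Lib.MP_a785f2_an.LO
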