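import Pool.Agent.Lib.MP_a785f2_an.Defs
import Pool.Agent.Lib.MP_a785f2_an.LY.Vit

/-! Weak type bounds for a function that is controlled by the maximal function of a measure. -/

open MeasureTheory Metric Set Filter Topology
open scoped ENNReal

namespace Pool.Agent.Lib.MP_a785f2_an.LO

/-- A weak type bound above the level `m0` bounds the lower moments above that level. -/
theorem tail_le {X : Type*} [MeasurableSpace X] (ν : Measure X) {g : X → ℝ} {n k : ℕ}
    (hk : k < n) {K m0 : ℝ} (hK : 0 ≤ K) (h0 : 0 < m0)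
    (h : ∀ m, m0 ≤ m → ν {x | m < g x} ≤ ENNReal.ofReal (K / m ^ n)) (hg : Measurable g) :
    ∫⁻ x in {x | m0 < g x}, ENNReal.ofReal (g x ^ k) ∂ν ≤
      ENNReal.ofReal (2 ^ (k + 1) * K / m0 ^ (n - k)) := by
  set A : ℕ → Set X := fun j => {x | 2 ^ j * m0 < g x ∧ g x ≤ 2 ^ (j + 1) * m0} with hA
  have hsub : {x | m0 < g x} ⊆ ⋃ j, A j := by
    intro x hx
    have hex : ∃ j : ℕ, g x ≤ 2 ^ (j + 1) * m0 := by
      obtain ⟨j, hj⟩ := pow_unbounded_of_one_lt (g x / m0) (by norm_num : (1 : ℝ) < 2)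
      refine ⟨j, ?_⟩
      rw [div_lt_iff₀ h0] at hj
      have : (2 : ℝ) ^ j * m0 ≤ 2 ^ (j + 1) * m0 := by
        rw [pow_succ]; nlinarith [mul_pos (pow_pos (by norm_num : (0 : ℝ) < 2) j) h0]
      linarith
    classical
    refine mem_iUnion.2 ⟨Nat.find hex, ?_, Nat.find_spec hex⟩
    rcases hj : Nat.find hex with _ | j
    · simpa using hx
    · exact not_le.1 (Nat.find_min hex (by omega : j < Nat.find hex))
  have hmA : ∀ j, MeasurableSet (A j) := fun j =>
    (measurableSet_lt measurable_const hg).inter (measurableSet_le hg measurable_const)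
  have hj : ∀ j, ∫⁻ x in A j, ENNReal.ofReal (g x ^ k) ∂ν ≤
      ENNReal.ofReal (2 ^ k * K / m0 ^ (n - k) * (1 / 2) ^ j) := fun j => by
    have hp : (0 : ℝ) < 2 ^ j * m0 := by positivity
    have h1 : ∫⁻ x in A j, ENNReal.ofReal (g x ^ k) ∂ν ≤
        ∫⁻ _ in A j, ENNReal.ofReal ((2 ^ (j + 1) * m0) ^ k) ∂ν :=
      setLIntegral_mono' (hmA j) fun x hx =>
        ENNReal.ofReal_le_ofReal (pow_le_pow_left₀ (hp.trans hx.1).le hx.2 k)
    have h2 : ν (A j) ≤ ENNReal.ofReal (K / (2 ^ j * m0) ^ n) :=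
      (measure_mono fun x hx => hx.1).trans (h _ (by
        have : (1 : ℝ) ≤ 2 ^ j := one_le_pow₀ (by norm_num)
        nlinarith))
    rw [setLIntegral_const] at h1
    refine (h1.trans (mul_le_mul_right h2 _)).trans ?_
    rw [← ENNReal.ofReal_mul (by positivity)]
    refine ENNReal.ofReal_le_ofReal ?_
    obtain ⟨d, rfl⟩ : ∃ d, n = k + (d + 1) := ⟨n - k - 1, by omega⟩
    rw [Nat.add_sub_cancel_left]
    have h3 : (1 : ℝ) ≤ (2 ^ j) ^ d := one_le_pow₀ (one_le_pow₀ (by norm_num))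
    have e : (2 ^ (j + 1) * m0) ^ k * (K / (2 ^ j * m0) ^ (k + (d + 1))) =
        2 ^ k * K / m0 ^ (d + 1) * (1 / 2) ^ j / (2 ^ j) ^ d := by
      rw [one_div, inv_pow, pow_succ 2 j]
      simp only [mul_pow, pow_add, pow_one]
      field_simp
    rw [e]
    exact div_le_self (by positivity) h3
  calc _ ≤ ∫⁻ x in ⋃ j, A j, ENNReal.ofReal (g x ^ k) ∂ν := lintegral_mono_set hsub
    _ ≤ ∑' j, ∫⁻ x in A j, ENNReal.ofReal (g x ^ k) ∂ν := lintegral_iUnion_le _ _
    _ ≤ ∑' j : ℕ, ENNReal.ofReal (2 ^ k * K / m0 ^ (n - k) * (1 / 2) ^ j) :=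
        ENNReal.tsum_le_tsum hj
    _ = _ := by
        rw [← ENNReal.ofReal_tsum_of_nonneg (fun j => by positivity)
          (summable_geometric_two.mul_left _), tsum_mul_left, tsum_geometric_two]
        congr 1; ring

/-- The lower moments, split at the level `m0`. -/
theorem split_le {X : Type*} [MeasurableSpace X] (ν : Measure X) {g : X → ℝ} {n k : ℕ}
    (hk : k < n) {K m0 : ℝ} (hK : 0 ≤ K) (h0 : 0 < m0) (g0 : ∀ x, 0 ≤ g x)
    (h : ∀ m, m0 ≤ m → ν {x | m < g x} ≤ ENNReal.ofReal (K / m ^ n)) (hg : Measurable g) :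
    ∫⁻ x, ENNReal.ofReal (g x ^ k) ∂ν ≤
      ENNReal.ofReal (m0 ^ k) * ν univ + ENNReal.ofReal (2 ^ (k + 1) * K / m0 ^ (n - k)) := by
  have hm : MeasurableSet {x | m0 < g x} := measurableSet_lt measurable_const hg
  rw [← lintegral_add_compl _ hm, add_comm]
  refine add_le_add ?_ (tail_le ν hk hK h0 h hg)
  calc _ ≤ ∫⁻ _ in {x | m0 < g x}ᶜ, ENNReal.ofReal (m0 ^ k) ∂ν :=
        setLIntegral_mono' hm.compl fun x hx =>
          ENNReal.ofReal_le_ofReal (pow_le_pow_left₀ (g0 x) (not_lt.1 hx) k)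
    _ ≤ _ := by rw [setLIntegral_const]; exact mul_le_mul_right (measure_mono (subset_univ _)) _

/-- The lower moments of a function in weak `L^n` over a space of finite measure. -/
theorem moment_le {X : Type*} [MeasurableSpace X] (ν : Measure X) [IsFiniteMeasure ν] {g : X → ℝ}
    {n k : ℕ} (hk : k < n) {a : ℝ} (ha : 0 < a) (g0 : ∀ x, 0 ≤ g x)
    (h : ∀ m, 0 < m → ν {x | m < g x} ≤ ENNReal.ofReal ((a / m) ^ n)) (hg : Measurable g) :
    ∫⁻ x, ENNReal.ofReal (g x ^ k) ∂ν ≤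
      ENNReal.ofReal ((1 + 2 ^ (k + 1)) * a ^ k) * ν univ ^ (1 - k / n : ℝ) := by
  rcases eq_or_ne ν 0 with rfl | hν
  · simp
  have hn : (0 : ℝ) < n := by exact_mod_cast (by omega : 0 < n)
  set v := ν.real univ with hv
  have hv0 : 0 < v := ENNReal.toReal_pos (Measure.measure_univ_ne_zero.2 hν) (measure_ne_top _ _)
  have hvu : ν univ = ENNReal.ofReal v := (ofReal_measureReal (measure_ne_top _ _)).symm
  set w := v ^ (1 / n : ℝ) with hw
  have hw0 : 0 < w := Real.rpow_pos_of_pos hv0 _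
  have hwn : w ^ n = v := by
    rw [hw, one_div, Real.rpow_inv_natCast_pow hv0.le (by omega)]
  have hwk : v ^ (1 - k / n : ℝ) = w ^ (n - k) := by
    rw [hw, ← Real.rpow_natCast, ← Real.rpow_mul hv0.le, Nat.cast_sub hk.le]
    congr 1; field_simp
  have h1 := split_le ν hk (K := a ^ n) (m0 := a / w) (by positivity) (by positivity) g0
    (fun m hm => by rw [← div_pow]; exact h m ((div_pos ha hw0).trans_le hm)) hg
  refine h1.trans (le_of_eq ?_)
  rw [hvu, ENNReal.ofReal_rpow_of_pos hv0, hwk, ← ENNReal.ofReal_mul (by positivity),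
    ← ENNReal.ofReal_mul (by positivity), ← ENNReal.ofReal_add (by positivity) (by positivity),
    ← hwn]
  congr 1
  obtain ⟨d, rfl⟩ : ∃ d, n = k + d := ⟨n - k, by omega⟩
  rw [Nat.add_sub_cancel_left]
  simp only [div_pow, pow_add]
  field_simp

variable {n : ℕ}

/-- The value `g x` is controlled by the maximal function of `sig`. -/
def CtlE (sig : Measure (E n)) (g : E n → ℝ) (x : E n) : Prop :=
  ∃ ρ, 0 < ρ ∧ ENNReal.ofReal (g x ^ n * ρ ^ n) ≤ sig (ball x ρ)

/-- Growth of `sig` on the large balls about `x`. -/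
def FarE (sig : Measure (E n)) (x : E n) (t la : ℝ) : Prop :=
  ∀ ρ, 2 * t ≤ ρ → sig (ball x ρ) ≤ ENNReal.ofReal (la ^ n * (ρ / t) ^ n)

theorem vol_ball (x : E n) {r : ℝ} (hr : 0 < r) :
    volume (ball x r) = ENNReal.ofReal (r ^ n) * volume (ball (0 : E n) 1) := by
  rw [Measure.addHaar_ball_of_pos _ _ hr, finrank_euclideanSpace_fin]

/-- The weak type bound. -/
theorem weak_le {sig : Measure (E n)} {g : E n → ℝ} {x : E n} {t la m : ℝ} (ht : 0 < t)
    (hla : 0 ≤ la) (hm : 0 < m) (hc : ∀ᵐ y, y ∈ ball x t → CtlE sig g y) (hf : FarE sig x t la) :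
    volume ({y | m < g y} ∩ ball x t) ≤
      ENNReal.ofReal ((8 * la / m) ^ n) * volume (ball (0 : E n) 1) := by
  set S := {y | (m < g y ∧ y ∈ ball x t) ∧ CtlE sig g y} with hS
  have h0 : volume ({y | m < g y} ∩ ball x t) ≤ volume S :=
    measure_mono_ae (by filter_upwards [hc] with y hy h using ⟨h, hy h.2⟩)
  refine h0.trans ?_
  have hex : ∀ y ∈ S, ∃ ρ, 0 < ρ ∧ ENNReal.ofReal (m ^ n * ρ ^ n) ≤ sig (ball y ρ) := by
    rintro y ⟨⟨h1, -⟩, ρ, h2, h3⟩
    exact ⟨ρ, h2, (ENNReal.ofReal_le_ofReal (mul_le_mul_of_nonneg_right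
      (pow_le_pow_left₀ hm.le h1.le n) (by positivity))).trans h3⟩
  choose! τ hτ0 hτ using hex
  by_cases hb : ∃ y ∈ S, t ≤ τ y
  · obtain ⟨y, hy, hty⟩ := hb
    have h1 : ball y (τ y) ⊆ ball x (2 * τ y) := ball_subset_ball' (by
      have := mem_ball.1 hy.1.2; linarith)
    have h2 := ((hτ y hy).trans (measure_mono h1)).trans (hf _ (by linarith))
    rw [ENNReal.ofReal_le_ofReal_iff (by have := hτ0 y hy; positivity)] at h2
    have h3 : t ^ n ≤ (8 * la / m) ^ n := by
      have hp : 0 < τ y ^ n := pow_pos (hτ0 y hy) n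
      have e1 : la ^ n * (2 * τ y / t) ^ n = (2 * la) ^ n / t ^ n * τ y ^ n := by
        simp only [mul_pow, div_pow]; ring
      rw [e1] at h2
      have h4 := le_of_mul_le_mul_right h2 hp
      rw [le_div_iff₀ (by positivity)] at h4
      rw [div_pow, le_div_iff₀ (by positivity)]
      have h5 : (2 * la) ^ n ≤ (8 * la) ^ n := pow_le_pow_left₀ (by positivity) (by linarith) n
      linarith
    calc volume S ≤ volume (ball x t) := measure_mono fun z hz => hz.1.2
      _ ≤ _ := by rw [vol_ball x ht]; exact mul_le_mul_left (ENNReal.ofReal_le_ofReal h3) _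
  · push Not at hb
    obtain ⟨u, huS, hu, hd, hcv⟩ := LY.vit S τ t fun y hy => ⟨hτ0 y hy, (hb y hy).le⟩
    have h1 : S ⊆ ⋃ b ∈ u, ball b (4 * τ b) := fun y hy => by
      obtain ⟨b, hb, h⟩ := hcv y hy
      exact mem_biUnion hb h
    have h2 : ∀ b : u, volume (ball (b : E n) (4 * τ b)) ≤
        (ENNReal.ofReal ((4 / m) ^ n) * volume (ball (0 : E n) 1)) * sig (ball (b : E n) (τ b)) :=
      fun b => by
        have hb0 := hτ0 b (huS b.2)
        rw [vol_ball _ (by positivity), mul_right_comm]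
        refine mul_le_mul_left (le_trans (le_of_eq ?_) (mul_le_mul_right (hτ b (huS b.2)) _)) _
        rw [← ENNReal.ofReal_mul (by positivity)]
        congr 1
        simp only [mul_pow, div_pow]; field_simp
    have h3 : (⋃ b ∈ u, ball b (τ b)) ⊆ ball x (2 * t) := iUnion₂_subset fun b hb' =>
      ball_subset_ball' (by have := mem_ball.1 (huS hb').1.2; have := hb b (huS hb'); linarith)
    calc volume S ≤ ∑' b : u, volume (ball (b : E n) (4 * τ b)) :=
          (measure_mono h1).trans (measure_biUnion_le _ hu _)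
      _ ≤ ∑' b : u, (ENNReal.ofReal ((4 / m) ^ n) * volume (ball (0 : E n) 1)) *
          sig (ball (b : E n) (τ b)) := ENNReal.tsum_le_tsum h2
      _ = (ENNReal.ofReal ((4 / m) ^ n) * volume (ball (0 : E n) 1)) *
          sig (⋃ b ∈ u, ball b (τ b)) := by
          rw [ENNReal.tsum_mul_left, measure_biUnion hu hd fun _ _ => measurableSet_ball]
      _ ≤ (ENNReal.ofReal ((4 / m) ^ n) * volume (ball (0 : E n) 1)) *
          ENNReal.ofReal (la ^ n * (2 * t / t) ^ n) :=
          mul_le_mul_right ((measure_mono h3).trans (hf _ le_rfl)) _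
      _ = _ := by
          rw [mul_right_comm, ← ENNReal.ofReal_mul (by positivity), ← mul_pow, ← mul_pow]
          congr 3; field_simp; ring

/-- The lower moments over subsets of the ball. -/
theorem mom_le (n : ℕ) : ∃ C : ℝ, 0 < C ∧ ∀ k, k < n → ∀ (sig : Measure (E n)) (g : E n → ℝ)
    (x : E n) (t la : ℝ) (A : Set (E n)), Measurable g → (∀ y, 0 ≤ g y) → 0 < t → 0 < la →
    (∀ᵐ y, y ∈ ball x t → CtlE sig g y) → FarE sig x t la → A ⊆ ball x t →
    ∫⁻ y in A, ENNReal.ofReal (g y ^ k) ≤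
      ENNReal.ofReal (C * la ^ k) * volume A ^ (1 - k / n : ℝ) := by
  set B : ℝ := max 1 ((volume : Measure (E n)).real (ball 0 1)) with hB
  have hB1 : 1 ≤ B := le_max_left _ _
  refine ⟨(1 + 2 ^ n) * (8 * B) ^ n, by positivity, fun k hk sig g x t la A hg g0 ht hla hc hf hA => ?_⟩
  have : IsFiniteMeasure (volume.restrict A) :=
    isFiniteMeasure_restrict.2 ((measure_mono hA).trans_lt measure_ball_lt_top).ne
  have h1 := moment_le (volume.restrict A) hk (a := 8 * B * la) (by positivity) g0 (fun m hm => by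
    rw [Measure.restrict_apply (measurableSet_lt measurable_const hg)]
    refine ((measure_mono (inter_subset_inter_right _ hA)).trans
      (weak_le ht hla.le hm hc hf)).trans ?_
    rw [← ofReal_measureReal measure_ball_lt_top.ne, ← ENNReal.ofReal_mul (by positivity)]
    refine ENNReal.ofReal_le_ofReal ?_
    have e : (8 * B * la / m) ^ n = (8 * la / m) ^ n * B ^ n := by rw [← mul_pow]; congr 1; ring
    rw [e]
    exact mul_le_mul_of_nonneg_left ((le_max_right _ _).trans (le_self_pow₀ hB1 (by omega)))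
      (by positivity)) hg
  rw [Measure.restrict_apply_univ] at h1
  refine h1.trans (mul_le_mul_left (ENNReal.ofReal_le_ofReal ?_) _)
  rw [mul_pow (8 * B), ← mul_assoc]
  refine mul_le_mul_of_nonneg_right (mul_le_mul ?_ (pow_le_pow_right₀ (by linarith) hk.le)
    (by positivity) (by positivity)) (by positivity)
  have : (2 : ℝ) ^ (k + 1) ≤ 2 ^ n := pow_le_pow_right₀ (by norm_num) hk
  linarith

/-- The Lorentz functional of `w` on the set `A`. -/
noncomputable def lorF (w : E n → ℝ) (A : Set (E n)) : ℝ≥0∞ :=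
  ∫⁻ s in Ioi (0 : ℝ), ENNReal.ofReal s * volume ({y | s < w y} ∩ A) ^ (2 / n : ℝ)

theorem lor_mono (w : E n → ℝ) {A B : Set (E n)} (h : A ⊆ B) : lorF w A ≤ lorF w B :=
  lintegral_mono fun _ => mul_le_mul_right (ENNReal.rpow_le_rpow
    (measure_mono (inter_subset_inter_right _ h)) (by positivity)) _

/-- The layer cake bound. -/
theorem cake_le (hn : 2 ≤ n) : ∃ C : ℝ, 0 < C ∧ ∀ (sig : Measure (E n)) (g w : E n → ℝ)
    (x : E n) (t la : ℝ), Measurable g → (∀ y, 0 ≤ g y) → Measurable w → (∀ y, 0 ≤ w y) →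
    0 < t → 0 < la → (∀ᵐ y, y ∈ ball x t → CtlE sig g y) → FarE sig x t la →
    ∫⁻ y in ball x t, ENNReal.ofReal (g y ^ (n - 2) * w y ^ 2) ≤
      ENNReal.ofReal (C * la ^ (n - 2)) * lorF w (ball x t) := by
  obtain ⟨C, hC, h⟩ := mom_le n
  refine ⟨2 * C, by positivity, fun sig g w x t la hg g0 hw w0 ht hla hc hf => ?_⟩
  have hm : Measurable fun y => ENNReal.ofReal (g y ^ (n - 2)) := (hg.pow_const _).ennreal_ofReal
  set ν := (volume.restrict (ball x t)).withDensity fun y => ENNReal.ofReal (g y ^ (n - 2)) with hν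
  have h1 := lintegral_rpow_eq_lintegral_meas_lt_mul ν (f := w) (Eventually.of_forall w0)
    hw.aemeasurable (by norm_num : (0 : ℝ) < 2)
  have h2 : ∫⁻ y, ENNReal.ofReal (w y ^ (2 : ℝ)) ∂ν =
      ∫⁻ y in ball x t, ENNReal.ofReal (g y ^ (n - 2) * w y ^ 2) := by
    rw [hν, lintegral_withDensity_eq_lintegral_mul _ hm (hw.pow_const _).ennreal_ofReal]
    refine lintegral_congr fun y => ?_
    rw [Pi.mul_apply, ← ENNReal.ofReal_mul (pow_nonneg (g0 y) _), Real.rpow_two]
  have he : (1 - ((n - 2 : ℕ) : ℝ) / n : ℝ) = 2 / n := by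
    have : (0 : ℝ) < n := by exact_mod_cast (by omega : 0 < n)
    rw [Nat.cast_sub hn]; field_simp; push_cast; ring
  have h3 : ∀ s : ℝ, ν {y | s < w y} ≤ ENNReal.ofReal (C * la ^ (n - 2)) *
      volume ({y | s < w y} ∩ ball x t) ^ (2 / n : ℝ) := fun s => by
    have hs : MeasurableSet {y | s < w y} := measurableSet_lt measurable_const hw
    rw [hν, withDensity_apply _ hs, Measure.restrict_restrict hs, ← he]
    exact h _ (by omega) sig g x t la _ hg g0 ht hla hc hf inter_subset_right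
  rw [← h2, h1, lorF, mul_assoc, ENNReal.ofReal_mul (p := 2) (by norm_num), mul_assoc]
  refine mul_le_mul_right ?_ _
  rw [← lintegral_const_mul' _ _ ENNReal.ofReal_ne_top]
  refine lintegral_mono fun s => ?_
  have e : (2 : ℝ) - 1 = 1 := by norm_num
  rw [e, Real.rpow_one, mul_comm (ENNReal.ofReal s), ← mul_assoc]
  exact mul_le_mul_left (h3 s) _

/-- The Lorentz functional is small on small balls. -/
theorem lor_small (hn : 1 ≤ n) {w : E n → ℝ} {A : Set (E n)}
    (hA : lorF w A ≠ ⊤) {x : E n} (hx : A ∈ 𝓝 x) {ε : ℝ≥0∞} (hε : 0 < ε) :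
    ∃ r, 0 < r ∧ ball x r ⊆ A ∧ lorF w (ball x r) ≤ ε := by
  obtain ⟨R, hR, hRA⟩ := Metric.mem_nhds_iff.1 hx
  have hp : (0 : ℝ) < 2 / n := by
    have : (0 : ℝ) < n := by exact_mod_cast hn
    positivity
  have hmeas : ∀ B : Set (E n), Measurable fun s : ℝ =>
      ENNReal.ofReal s * volume ({y | s < w y} ∩ B) ^ (2 / n : ℝ) := fun B => by
    refine measurable_id.ennreal_ofReal.mul (Measurable.pow_const (Antitone.measurable ?_) _)
    exact fun a b hab => measure_mono (inter_subset_inter_left _ fun y hy => hab.trans_lt hy)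
  have hr : ∀ j : ℕ, 0 < R / (j + 1) := fun j => by positivity
  have hle : ∀ j : ℕ, ball x (R / (j + 1)) ⊆ A := fun j =>
    (ball_subset_ball (div_le_self hR.le (by linarith [Nat.cast_nonneg (α := ℝ) j]))).trans hRA
  have hv : Tendsto (fun j : ℕ => volume (ball x (R / (j + 1)))) atTop (𝓝 0) := by
    have h1 : Tendsto (fun j : ℕ => R / ((j : ℝ) + 1)) atTop (𝓝 0) := by
      simpa [div_eq_mul_inv] using tendsto_one_div_add_atTop_nhds_zero_nat.const_mul R
    have h2 : Tendsto (fun j : ℕ => ENNReal.ofReal ((R / ((j : ℝ) + 1)) ^ n)) atTop (𝓝 0) := by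
      have := ENNReal.tendsto_ofReal (h1.pow n)
      rwa [zero_pow (by omega), ENNReal.ofReal_zero] at this
    have h3 := ENNReal.Tendsto.mul_const (b := volume (ball (0 : E n) 1)) h2
      (Or.inr measure_ball_lt_top.ne)
    rw [zero_mul] at h3
    exact h3.congr fun j => (vol_ball x (hr j)).symm
  have ht : Tendsto (fun j : ℕ => lorF w (ball x (R / (j + 1)))) atTop (𝓝 0) := by
    have := tendsto_lintegral_of_dominated_convergence (μ := volume.restrict (Ioi (0 : ℝ)))
      (F := fun (j : ℕ) s => ENNReal.ofReal s *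
        volume ({y | s < w y} ∩ ball x (R / (j + 1))) ^ (2 / n : ℝ)) (f := fun _ => 0)
      (fun s => ENNReal.ofReal s * volume ({y | s < w y} ∩ A) ^ (2 / n : ℝ))
      (fun j => hmeas _) (fun j => Eventually.of_forall fun s => mul_le_mul_right
        (ENNReal.rpow_le_rpow (measure_mono (inter_subset_inter_right _ (hle j))) hp.le) _) hA
      (Eventually.of_forall fun s => by
        have h1 : Tendsto (fun j : ℕ => volume ({y | s < w y} ∩ ball x (R / (j + 1)))) atTop
            (𝓝 0) := tendsto_of_tendsto_of_tendsto_of_le_of_le tendsto_const_nhds hv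
          (fun _ => zero_le) fun _ => measure_mono inter_subset_right
        have h2 := (ENNReal.continuous_rpow_const (y := (2 / n : ℝ))).tendsto 0 |>.comp h1
        rw [ENNReal.zero_rpow_of_pos hp] at h2
        have h3 := ENNReal.Tendsto.const_mul (a := ENNReal.ofReal s) h2
          (Or.inr ENNReal.ofReal_ne_top)
        rwa [mul_zero] at h3)
    rwa [lintegral_zero] at this
  obtain ⟨j, hj⟩ := (ht.eventually (ge_mem_nhds hε)).exists
  exact ⟨_, hr j, hle j, hj⟩

/-! Real valued forms. -/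

section Real

variable {X : Type*} [NormedAddCommGroup X] {sig : Measure (E n)} [IsFiniteMeasure sig]
  {G : E n → X} {x : E n} {t l : ℝ}

omit [IsFiniteMeasure sig] in
theorem ctlE_of {y : E n} (h : ∃ ρ, 0 < ρ ∧ ‖G y‖ ^ n * ρ ^ n ≤ sig.real (ball y ρ)) :
    CtlE sig (fun y => ‖G y‖) y := by
  obtain ⟨ρ, h0, h1⟩ := h
  exact ⟨ρ, h0, ENNReal.ofReal_le_of_le_toReal h1⟩

theorem farE_of (hn : 1 ≤ n) (ht : 0 < t) (hl : 0 ≤ l)
    (h : ∀ ρ, t ≤ ρ → sig.real (ball x ρ) ≤ l ^ n * ρ / t) : FarE sig x t l := fun ρ hρ => by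
  rw [← ofReal_measureReal (measure_ne_top _ _)]
  refine ENNReal.ofReal_le_ofReal ((h ρ (by linarith)).trans ?_)
  rw [mul_div_assoc]
  exact mul_le_mul_of_nonneg_left (le_self_pow₀ ((one_le_div ht).2 (by linarith)) (by omega))
    (by positivity)

end Real

theorem int_of_lint {Y : Type*} [MeasurableSpace Y] {ν : Measure Y} {F : Y → ℝ} {b : ℝ}
    (hF : Measurable F) (F0 : ∀ y, 0 ≤ F y) (hb : 0 ≤ b)
    (h : ∫⁻ y, ENNReal.ofReal (F y) ∂ν ≤ ENNReal.ofReal b) :
    Integrable F ν ∧ ∫ y, F y ∂ν ≤ b :=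
  ⟨⟨hF.aestronglyMeasurable, (hasFiniteIntegral_iff_ofReal (Eventually.of_forall F0)).2
    (h.trans_lt ENNReal.ofReal_lt_top)⟩, by
    rw [integral_eq_lintegral_of_nonneg_ae (Eventually.of_forall F0) hF.aestronglyMeasurable]
    exact ENNReal.toReal_le_of_le_ofReal hb h⟩

/-- (W1), weak type. -/
theorem w1_weak (hn : 1 ≤ n) : ∃ C : ℝ, 0 < C ∧ ∀ (X : Type) [NormedAddCommGroup X]
    (sig : Measure (E n)) [IsFiniteMeasure sig] (G : E n → X) (x : E n) (t l m : ℝ),
    0 < t → 0 ≤ l → 0 < m →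
    (∀ᵐ y, y ∈ ball x t → ∃ ρ, 0 < ρ ∧ ‖G y‖ ^ n * ρ ^ n ≤ sig.real (ball y ρ)) →
    (∀ ρ, t ≤ ρ → sig.real (ball x ρ) ≤ l ^ n * ρ / t) →
    (volume : Measure (E n)).real ({y | m < ‖G y‖} ∩ ball x t) ≤ C * l ^ n / m ^ n := by
  have h1 : 0 < (volume : Measure (E n)).real (ball 0 1) :=
    ENNReal.toReal_pos (measure_ball_pos _ _ one_pos).ne' measure_ball_lt_top.ne
  refine ⟨8 ^ n * (volume : Measure (E n)).real (ball 0 1), by positivity,
    fun X _ sig _ G x t l m ht hl hm hc hf => ?_⟩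
  have h := weak_le (g := fun y => ‖G y‖) ht hl hm
    (by filter_upwards [hc] with y hy h using ctlE_of (hy h)) (farE_of hn ht hl hf)
  rw [← ofReal_measureReal (s := ball (0 : E n) 1) measure_ball_lt_top.ne,
    ← ENNReal.ofReal_mul (by positivity)] at h
  refine (ENNReal.toReal_le_of_le_ofReal (by positivity) h).trans (le_of_eq ?_)
  simp only [mul_pow, div_pow]; ring

/-- (W1), lower moments over subsets of the ball. -/
theorem w1_mom (n : ℕ) : ∃ C : ℝ, 0 < C ∧ ∀ (X : Type) [NormedAddCommGroup X]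
    (sig : Measure (E n)) [IsFiniteMeasure sig] (G : E n → X) (x : E n) (t l : ℝ) (k : ℕ)
    (A : Set (E n)), k < n → StronglyMeasurable G → 0 < t → 0 < l →
    (∀ᵐ y, y ∈ ball x t → ∃ ρ, 0 < ρ ∧ ‖G y‖ ^ n * ρ ^ n ≤ sig.real (ball y ρ)) →
    (∀ ρ, t ≤ ρ → sig.real (ball x ρ) ≤ l ^ n * ρ / t) → A ⊆ ball x t →
    IntegrableOn (fun y => ‖G y‖ ^ k) A volume ∧
      ∫ y in A, ‖G y‖ ^ k ≤ C * l ^ k * (volume : Measure (E n)).real A ^ (1 - k / n : ℝ) := by
  obtain ⟨C, hC, h⟩ := mom_le n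
  refine ⟨C, hC, fun X _ sig _ G x t l k A hk hG ht hl hc hf hA => ?_⟩
  have h1 := h k hk sig _ x t l A hG.norm.measurable (fun y => norm_nonneg _) ht hl
    (by filter_upwards [hc] with y hy h using ctlE_of (hy h)) (farE_of (by omega) ht hl.le hf) hA
  have he : (0 : ℝ) ≤ 1 - k / n := by
    have h2 : (k : ℝ) < n := by exact_mod_cast hk
    have := (div_le_one ((Nat.cast_nonneg k).trans_lt h2)).2 h2.le
    linarith
  rw [← ofReal_measureReal (s := A) ((measure_mono hA).trans_lt measure_ball_lt_top).ne,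
    ENNReal.ofReal_rpow_of_nonneg measureReal_nonneg he, ← ENNReal.ofReal_mul (by positivity)] at h1
  exact int_of_lint (hG.norm.measurable.pow_const k) (fun y => by positivity)
    (mul_nonneg (by positivity) (Real.rpow_nonneg measureReal_nonneg _)) h1

/-- (W1), lower moments over the ball. -/
theorem w1_ball (n : ℕ) : ∃ C : ℝ, 0 < C ∧ ∀ (X : Type) [NormedAddCommGroup X]
    (sig : Measure (E n)) [IsFiniteMeasure sig] (G : E n → X) (x : E n) (t l : ℝ) (k : ℕ),
    k < n → StronglyMeasurable G → 0 < t → 0 < l →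
    (∀ᵐ y, y ∈ ball x t → ∃ ρ, 0 < ρ ∧ ‖G y‖ ^ n * ρ ^ n ≤ sig.real (ball y ρ)) →
    (∀ ρ, t ≤ ρ → sig.real (ball x ρ) ≤ l ^ n * ρ / t) →
    ∫ y in ball x t, ‖G y‖ ^ k ≤ C * l ^ k * t ^ (n - k) := by
  obtain ⟨C, hC, h⟩ := w1_mom n
  set B : ℝ := max 1 ((volume : Measure (E n)).real (ball 0 1)) with hB
  have hB1 : 1 ≤ B := le_max_left _ _
  refine ⟨C * B, by positivity, fun X _ sig _ G x t l k hk hG ht hl hc hf => ?_⟩
  refine (h X sig G x t l k _ hk hG ht hl hc hf Subset.rfl).2.trans ?_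
  have h2 : (k : ℝ) < n := by exact_mod_cast hk
  have hn : (0 : ℝ) < n := (Nat.cast_nonneg k).trans_lt h2
  have he : (0 : ℝ) ≤ 1 - k / n := by have := (div_le_one hn).2 h2.le; linarith
  have hv : (volume : Measure (E n)).real (ball x t) ≤ t ^ n * B := by
    rw [measureReal_def, vol_ball x ht, ENNReal.toReal_mul, ENNReal.toReal_ofReal (by positivity)]
    exact mul_le_mul_of_nonneg_left (le_max_right _ _) (by positivity)
  have h3 : (t ^ n) ^ (1 - k / n : ℝ) = t ^ (n - k) := by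
    rw [← Real.rpow_natCast, ← Real.rpow_mul ht.le, ← Real.rpow_natCast, Nat.cast_sub hk.le]
    congr 1; field_simp
  have h4 : B ^ (1 - k / n : ℝ) ≤ B := by
    refine (Real.rpow_le_rpow_of_exponent_le hB1 (z := 1) ?_).trans (Real.rpow_one B).le
    have : (0 : ℝ) ≤ k / n := by positivity
    linarith
  have h5 := Real.rpow_le_rpow measureReal_nonneg hv he
  rw [Real.mul_rpow (by positivity) (by positivity), h3] at h5
  calc _ ≤ C * l ^ k * (t ^ (n - k) * B) := mul_le_mul_of_nonneg_left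
        (h5.trans (mul_le_mul_of_nonneg_left h4 (by positivity))) (by positivity)
    _ = _ := by ring

/-- (W1), the layer cake bound. -/
theorem w1_cake (hn : 2 ≤ n) : ∃ C : ℝ, 0 < C ∧ ∀ (X : Type) [NormedAddCommGroup X]
    (sig : Measure (E n)) [IsFiniteMeasure sig] (G : E n → X) (w : E n → ℝ) (x : E n) (t l e : ℝ),
    StronglyMeasurable G → Measurable w → (∀ y, 0 ≤ w y) → 0 < t → 0 < l → 0 ≤ e →
    (∀ᵐ y, y ∈ ball x t → ∃ ρ, 0 < ρ ∧ ‖G y‖ ^ n * ρ ^ n ≤ sig.real (ball y ρ)) →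
    (∀ ρ, t ≤ ρ → sig.real (ball x ρ) ≤ l ^ n * ρ / t) → lorF w (ball x t) ≤ ENNReal.ofReal e →
    IntegrableOn (fun y => ‖G y‖ ^ (n - 2) * w y ^ 2) (ball x t) volume ∧
      ∫ y in ball x t, ‖G y‖ ^ (n - 2) * w y ^ 2 ≤ C * l ^ (n - 2) * e := by
  obtain ⟨C, hC, h⟩ := cake_le hn
  refine ⟨C, hC, fun X _ sig _ G w x t l e hG hw w0 ht hl he hc hf hL => ?_⟩
  have h1 := (h sig _ w x t l hG.norm.measurable (fun y => norm_nonneg _) hw w0 ht hl
    (by filter_upwards [hc] with y hy h using ctlE_of (hy h))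
    (farE_of (by omega) ht hl.le hf)).trans (mul_le_mul_right hL _)
  rw [← ENNReal.ofReal_mul (by positivity)] at h1
  exact int_of_lint ((hG.norm.measurable.pow_const _).mul (hw.pow_const 2))
    (fun y => by positivity) (by positivity) h1

end Pool.Agent.Lib.MP_a785f2_an.LO
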