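import Pool.Agent.Lib.MP_a785f2_an.LO.ValP
import Pool.Agent.Lib.MP_a785f2_an.LO.Weak
import Pool.Agent.Lib.MP_a785f2_an.LZ.Rad1
import Pool.Agent.Lib.MP_a785f2_an.LY.RepE

/-! The Poincare inequality on balls for a controlled gradient, and Morrey's lemma. -/

open MeasureTheory Metric Set Filter Topology
open scoped ENNReal

namespace Pool.Agent.Lib.MP_a785f2_an.LO

open HS (V)
open LZ

variable {n : ℕ}

/-- The Poincare inequality with exponent one. -/
theorem poin_one (hn : 1 ≤ n) : ∃ C : ℝ, 1 ≤ C ∧ ∀ (m : ℕ) (Ω : Set (E n)) (u : E n → V m)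
    (G : E n → W n m), StronglyMeasurable G →
    (∀ c R, closedBall c R ⊆ Ω → LY.Apq (volume.restrict (ball c R)) n u fun x => linR (G x)) →
    PoinP volume (fun x t l => IntegrableOn (fun y => ‖G y‖) (ball x t) volume ∧
      ∫ y in ball x t, ‖G y‖ ≤ l * t ^ (n - 1)) Ω u C := by
  set ω := (volume : Measure (E n)).real (ball 0 1) with hω
  have ω0 : 0 < ω := ENNReal.toReal_pos (measure_ball_pos _ _ one_pos).ne' measure_ball_lt_top.ne
  have q1 : (1 : ℝ) ≤ 2 ^ n := one_le_pow₀ one_le_two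
  have C0 : 0 ≤ 1 / ω := by positivity
  refine ⟨2 * 2 ^ n * (1 / ω + 1), by nlinarith, fun m Ω u G hG hA x t l ht hl hΩ hm => ?_⟩
  obtain ⟨hi, hD, w, w1, w2, w3⟩ := hA x t hΩ
  have : IsFiniteMeasure (volume.restrict (ball x t)) := ⟨by simpa using measure_ball_lt_top⟩
  have hB : volume (ball x t) = ENNReal.ofReal (t ^ n * ω) := by
    rw [vol_ball x ht, ENNReal.ofReal_mul (by positivity), hω,
      ofReal_measureReal measure_ball_lt_top.ne]
  have e1 := LY.poin_lim volume hn hi.1 w1 w2 w3 hD.1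
  rw [finrank_euclideanSpace_fin] at e1
  have e3 : ∫⁻ y in ball x t, ‖linR (G y)‖ₑ ≤ ENNReal.ofReal (l * t ^ (n - 1)) := by
    refine le_trans ?_ (ENNReal.ofReal_le_ofReal hm.2)
    rw [ofReal_integral_eq_lintegral_ofReal hm.1 (Eventually.of_forall fun _ => norm_nonneg _)]
    exact lintegral_mono fun y => by
      rw [← ofReal_norm]; exact ENNReal.ofReal_le_ofReal (linR_le _)
  refine LY.poin_mean _ ?_ hi (by positivity) (e1.trans ?_)
  · rw [Measure.restrict_apply_univ]; exact (measure_ball_pos _ x ht).ne'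
  rw [Measure.restrict_apply_univ]
  have e4 : (2 : ℝ≥0∞) * (ENNReal.ofReal t * (2 ^ n * ∫⁻ y in ball x t, ‖linR (G y)‖ₑ)) ≤
      volume (ball x t) * ENNReal.ofReal (2 * 2 ^ n * (1 / ω + 1) * l) := by
    have e5 : (2 : ℝ≥0∞) ^ n = ENNReal.ofReal (2 ^ n) := by
      rw [ENNReal.ofReal_pow zero_le_two]; simp
    have e6 : ∀ a : ℝ, (2 : ℝ≥0∞) * ENNReal.ofReal a = ENNReal.ofReal (2 * a) := fun a => by
      rw [ENNReal.ofReal_mul zero_le_two]; simp
    refine (mul_le_mul_right (mul_le_mul_right (mul_le_mul_right e3 _) _) _).trans ?_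
    rw [e5, hB, ← ENNReal.ofReal_mul (by positivity), ← ENNReal.ofReal_mul ht.le, e6,
      ← ENNReal.ofReal_mul (by positivity)]
    refine ENNReal.ofReal_le_ofReal ?_
    obtain ⟨k, rfl⟩ := Nat.exists_eq_add_of_le' hn
    rw [Nat.add_sub_cancel]
    have e7 : t ^ (k + 1) * ω * (2 * 2 ^ (k + 1) * (1 / ω + 1) * l) =
        2 * (t * (2 ^ (k + 1) * (l * t ^ k))) + t ^ (k + 1) * ω * (2 * 2 ^ (k + 1) * l) := by
      field_simp; ring
    rw [e7]
    exact le_add_of_nonneg_right (by positivity)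
  calc 2 * (volume (ball x t) * (ENNReal.ofReal t * (2 ^ n * ∫⁻ y in ball x t, ‖linR (G y)‖ₑ)))
      = volume (ball x t) *
        (2 * (ENNReal.ofReal t * (2 ^ n * ∫⁻ y in ball x t, ‖linR (G y)‖ₑ))) := by ring
    _ ≤ _ := mul_le_mul_right e4 _

/-- The Poincare inequality for a gradient that is controlled by `sig` on `Ω`. -/
theorem poin_lin (hn : 2 ≤ n) : ∃ C : ℝ, 1 ≤ C ∧ ∀ (m : ℕ) (Ω : Set (E n)) (u : E n → V m)
    (G : E n → W n m) (sig : Measure (E n)) [IsFiniteMeasure sig], StronglyMeasurable G →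
    (∀ c R, closedBall c R ⊆ Ω → LY.Apq (volume.restrict (ball c R)) n u fun x => linR (G x)) →
    (∀ᵐ y, y ∈ Ω → ∃ ρ, 0 < ρ ∧ ‖G y‖ ^ n * ρ ^ n ≤ sig.real (ball y ρ)) →
    PoinP volume (fun x t l => ∀ ρ, t ≤ ρ → sig.real (ball x ρ) ≤ l ^ n * ρ / t) Ω u C := by
  obtain ⟨C1, h1, H1⟩ := poin_one (n := n) (by omega)
  obtain ⟨C2, h2, H2⟩ := w1_ball n
  obtain ⟨C3, -, H3⟩ := w1_mom n
  refine ⟨C1 * (C2 + 1), by nlinarith, fun m Ω u G sig _ hG hA hc x t l ht hl hΩ hm => ?_⟩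
  have hp : 0 < C1 * (C2 + 1) := by positivity
  refine le_of_forall_pos_le_add fun ε hε => ?_
  set l' := l + ε / (C1 * (C2 + 1)) with hl'
  have l0 : 0 < l' := by positivity
  have hc' : ∀ᵐ y, y ∈ ball x t → ∃ ρ, 0 < ρ ∧ ‖G y‖ ^ n * ρ ^ n ≤ sig.real (ball y ρ) := by
    filter_upwards [hc] with y hy h using hy (hΩ (ball_subset_closedBall h))
  have hm' : ∀ ρ, t ≤ ρ → sig.real (ball x ρ) ≤ l' ^ n * ρ / t := fun ρ hρ => by
    have : 0 ≤ ρ := by linarith
    have : l ≤ l' := le_add_of_nonneg_right (by positivity)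
    exact (hm ρ hρ).trans (by gcongr)
  have k1 := H2 _ sig G x t l' 1 (by omega) hG ht l0 hc' hm'
  have k2 := (H3 _ sig G x t l' 1 _ (by omega) hG ht l0 hc' hm' Subset.rfl).1
  simp only [pow_one] at k1 k2
  refine (H1 m Ω u G hG hA x t (C2 * l') ht (by positivity) hΩ ⟨k2, k1⟩).trans ?_
  have e : C1 * (C2 + 1) * l + ε = C1 * (C2 + 1) * l' := by rw [hl']; field_simp
  rw [e]
  nlinarith [mul_pos (lt_of_lt_of_le one_pos h1) l0]

/-- Linear growth at all scales gives the smallness along a geometric sequence of radii. -/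
theorem lin_seq {sig : Measure (E n)} {x : E n} {t l : ℝ} (ht : 0 < t)
    (hm : ∀ ρ, 0 < ρ → sig.real (ball x ρ) ≤ l ^ n * ρ / t) (i : ℕ) (ρ : ℝ)
    (hρ : t / (2 ^ n) ^ i ≤ ρ) :
    sig.real (ball x ρ) ≤ (l / 2 ^ i) ^ n * ρ / (t / (2 ^ n) ^ i) := by
  refine (hm ρ (lt_of_lt_of_le (by positivity) hρ)).trans (le_of_eq ?_)
  rw [div_pow, ← pow_mul, ← pow_mul, mul_comm i]
  field_simp

end Pool.Agent.Lib.MP_a785f2_an.LO
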