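import Pool.Agent.Lib.MP_a785f2_an.LO.EndA
import Pool.Agent.Lib.MP_a785f2_an.LO.Poin1

/-! The last step: decay of the splitting functional and continuity. -/

open MeasureTheory Metric Set Filter Topology
open scoped ENNReal

namespace Pool.Agent.Lib.MP_a785f2_an.LO

open HS (V)
open LZ

variable {n m : ℕ} {G : E n → W n m}

/-- Off the set `A` the gradient is controlled on `D` by the measure `τ`. -/
structure Spl (G : E n → W n m) (D A : Set (E n)) (τ : Measure (E n)) : Prop where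
  mA : MeasurableSet A
  fin : IsFiniteMeasure τ
  ac : τ ≪ volume
  ctl : ∀ᵐ y, y ∈ D → y ∉ A → ∃ t, 0 < t ∧ ‖G y‖ ^ n * t ^ n ≤ τ.real (ball y t)

/-- The splitting functional. -/
noncomputable def YY (G : E n → W n m) (L : ℝ) (D : Set (E n)) : ℝ :=
  sInf {y | ∃ A τ, Spl G D A τ ∧ y = en G A + L * τ.real univ}

/-- What the two passes give on a good ball. -/
def Pas (G : E n → W n m) (Ω : Set (E n)) (C e : ℝ) : Prop :=
  ∀ sig : Measure (E n), IsFiniteMeasure sig → sig ≪ volume → ∀ z r l, 0 < r → 0 < l →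
    closedBall z (4 * r) ⊆ Ω →
    (∀ᵐ y, y ∈ ball z (4 * r) → ∃ t, 0 < t ∧ ‖G y‖ ^ n * t ^ n ≤ sig.real (ball y t)) →
    sig.real univ ≤ l ^ n / 2000 → ∀ᵐ s, s ∈ Ioo r (2 * r) → LY.GoodM sig z s (l ^ n) →
      ∃ A τ, Spl G (ball z s) A τ ∧ τ.real univ ≤ C * e * l ^ n ∧
        en G A ≤ C * l * sM (pp G z s) (n - 1) + C * e * l ^ n

theorem Spl.mono {D D' A : Set (E n)} {τ : Measure (E n)} (h : Spl G D' A τ) (hD : D ⊆ D') :
    Spl G D A τ :=
  ⟨h.mA, h.fin, h.ac, by filter_upwards [h.ctl] with y hy k using hy (hD k)⟩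

theorem YY_le {L : ℝ} (hL : 0 ≤ L) {D A : Set (E n)} {τ : Measure (E n)} (h : Spl G D A τ) :
    YY G L D ≤ en G A + L * τ.real univ :=
  csInf_le ⟨0, by
    rintro _ ⟨A, τ, -, rfl⟩
    exact add_nonneg (en_nonneg _ _) (mul_nonneg hL measureReal_nonneg)⟩ ⟨A, τ, h, rfl⟩

theorem spl_self {D : Set (E n)} (hD : MeasurableSet D) : Spl G D D 0 :=
  ⟨hD, inferInstance, Measure.AbsolutelyContinuous.zero _,
    Eventually.of_forall fun _ h k => absurd h k⟩

theorem YY_le_en {L : ℝ} (hL : 0 ≤ L) {D : Set (E n)} (hD : MeasurableSet D) :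
    YY G L D ≤ en G D := by simpa using YY_le hL (spl_self (G := G) hD)

theorem YY_ex (L : ℝ) {D : Set (E n)} (hD : MeasurableSet D) {δ : ℝ} (hδ : 0 < δ) :
    ∃ A τ, Spl G D A τ ∧ en G A + L * τ.real univ ≤ YY G L D + δ := by
  obtain ⟨_, ⟨A, τ, h, rfl⟩, k⟩ := exists_lt_of_csInf_lt
    (s := {y | ∃ A τ, Spl G D A τ ∧ y = en G A + L * τ.real univ})
    ⟨_, D, 0, spl_self hD, rfl⟩ (lt_add_of_pos_right _ hδ)
  exact ⟨A, τ, h, k.le⟩

theorem YY_nonneg {L : ℝ} (hL : 0 ≤ L) (D : Set (E n)) : 0 ≤ YY G L D :=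
  Real.sInf_nonneg (by
    rintro _ ⟨A, τ, -, rfl⟩
    exact add_nonneg (en_nonneg _ _) (mul_nonneg hL measureReal_nonneg))

theorem em_real (iG : Integrable (fun x => ‖G x‖ ^ n) volume) {A : Set (E n)}
    (hA : MeasurableSet A) : (em G).real A = en G A := by
  rw [measureReal_def, LZ.em, withDensity_apply _ hA, en,
    integral_eq_lintegral_of_nonneg_ae (ae_of_all _ fun _ => by positivity)
      iG.aestronglyMeasurable.restrict]

/-- A splitting gives one controlling measure. -/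
theorem spl_sig (hn : 1 ≤ n) : ∃ c : ℝ, 1 ≤ c ∧ ∀ (m : ℕ) (G : E n → W n m) (D A : Set (E n))
    (τ : Measure (E n)), Integrable (fun x => ‖G x‖ ^ n) volume → Spl G D A τ →
    ∃ sig : Measure (E n), IsFiniteMeasure sig ∧ sig ≪ volume ∧
      sig.real univ ≤ c * (en G A + τ.real univ) ∧
      ∀ᵐ y, y ∈ D → ∃ t, 0 < t ∧ ‖G y‖ ^ n * t ^ n ≤ sig.real (ball y t) := by
  obtain ⟨c, c1, H⟩ := leb_ctl hn
  refine ⟨c, c1, fun m G D A τ iG h => ?_⟩
  have := h.fin
  have : IsFiniteMeasure (em G) := isFiniteMeasure_withDensity_ofReal iG.2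
  have c0 : 0 ≤ c := by linarith
  have hr : ∀ B, MeasurableSet B → (c.toNNReal • (em G).restrict A + τ).real B =
      c * en G (B ∩ A) + τ.real B := fun B hB => by
    rw [measureReal_add_apply, measureReal_nnreal_smul_apply, Real.coe_toNNReal _ c0,
      measureReal_restrict_apply hB, em_real iG (hB.inter h.mA)]
  refine ⟨c.toNNReal • (em G).restrict A + τ, inferInstance, ?_, ?_, ?_⟩
  · exact Measure.AbsolutelyContinuous.add_left
      ((Measure.restrict_le_self.absolutelyContinuous.trans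
        (withDensity_absolutelyContinuous _ _)).smul_left _) h.ac
  · rw [hr _ MeasurableSet.univ, univ_inter, mul_add]
    exact add_le_add_right (le_mul_of_one_le_left measureReal_nonneg c1) _
  · filter_upwards [h.ctl, H _ (iG.indicator h.mA) fun x => indicator_nonneg
      (fun _ _ => by positivity) x] with y h1 h2 hy
    by_cases e : y ∈ A
    · obtain ⟨t, t0, ht⟩ := h2
      rw [indicator_of_mem e, setIntegral_indicator h.mA] at ht
      exact ⟨t, t0, by
        rw [hr _ measurableSet_ball]; exact ht.trans (le_add_of_nonneg_right measureReal_nonneg)⟩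
    · obtain ⟨t, t0, ht⟩ := h1 hy e
      exact ⟨t, t0, by
        rw [hr _ measurableSet_ball]
        exact ht.trans (le_add_of_nonneg_left (mul_nonneg c0 (en_nonneg _ _)))⟩

theorem ex_root (hn : 1 ≤ n) {y : ℝ} (hy : 0 < y) : ∃ l : ℝ, 0 < l ∧ l ^ n = y :=
  ⟨y ^ ((n : ℝ)⁻¹), Real.rpow_pos_of_pos hy _, Real.rpow_inv_natCast_pow hy.le (by omega)⟩

/-- The mean oscillation is bounded by the splitting functional. -/
theorem poin_YY (hn : 2 ≤ n) : ∃ C : ℝ, 0 ≤ C ∧ ∀ (m : ℕ) (Ω : Set (E n)) (u : E n → V m)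
    (G : E n → W n m) (L : ℝ), 1 ≤ L → StronglyMeasurable G →
    Integrable (fun x => ‖G x‖ ^ n) volume →
    (∀ c R, closedBall c R ⊆ Ω → LY.Apq (volume.restrict (ball c R)) n u fun x => linR (G x)) →
    PoinP volume (fun x t l => YY G L (ball x t) ≤ l ^ n) Ω u C := by
  obtain ⟨C1, h1, H1⟩ := poin_one (n := n) (by omega)
  obtain ⟨C2, h2, H2⟩ := w1_ball n
  obtain ⟨C3, -, H3⟩ := w1_mom n
  obtain ⟨c, c1, H4⟩ := spl_sig (n := n) (by omega)
  have hp : 0 < C1 * (C2 * c) := by positivity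
  refine ⟨C1 * (C2 * c), hp.le, fun m Ω u G L hL hG iG hA x t l ht hl hΩ hm => ?_⟩
  refine le_of_forall_pos_le_add fun ε hε => ?_
  set l' := l + ε / (C1 * (C2 * c)) with hl'
  have l0 : 0 < l' := by positivity
  have l1 : l ^ n < l' ^ n :=
    pow_lt_pow_left₀ (lt_add_of_pos_right _ (by positivity)) hl (by omega)
  obtain ⟨A, τ, hS, hY⟩ := YY_ex (G := G) L (measurableSet_ball (x := x) (ε := t)) (sub_pos.2 l1)
  obtain ⟨sig, _, -, k1, k2⟩ := H4 m G _ A τ iG hS
  have k3 : τ.real univ ≤ L * τ.real univ := le_mul_of_one_le_left measureReal_nonneg hL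
  have k4 : sig.real univ ≤ (c * l') ^ n := by
    rw [mul_pow]
    exact k1.trans (mul_le_mul (le_self_pow₀ c1 (by omega)) (by linarith)
      (add_nonneg (en_nonneg _ _) measureReal_nonneg) (by positivity))
  have hm' : ∀ ρ, t ≤ ρ → sig.real (ball x ρ) ≤ (c * l') ^ n * ρ / t := fun ρ hρ => by
    refine ((measureReal_mono (subset_univ _)).trans k4).trans ?_
    rw [le_div_iff₀ ht]
    exact mul_le_mul_of_nonneg_left hρ (by positivity)
  have k5 := H2 _ sig G x t (c * l') 1 (by omega) hG ht (by positivity) k2 hm'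
  have k6 := (H3 _ sig G x t (c * l') 1 _ (by omega) hG ht (by positivity) k2 hm' Subset.rfl).1
  simp only [pow_one] at k5 k6
  refine (H1 m Ω u G hG hA x t (C2 * (c * l')) ht (by positivity) hΩ ⟨k6, k5⟩).trans (le_of_eq ?_)
  rw [hl']; field_simp

/-- Decay of the splitting functional. -/
theorem YY_decay (hn : 2 ≤ n) {C : ℝ} (hC : 0 < C) : ∃ e : ℝ, 0 < e ∧ ∃ L : ℝ, 1 ≤ L ∧
    ∃ q : ℝ, 1 < q ∧ ∀ (m : ℕ) (G : E n → W n m) (Ω : Set (E n)), StronglyMeasurable G →
    Integrable (fun x => ‖G x‖ ^ n) volume → Pas G Ω C e → ∀ x t, 0 < t → closedBall x t ⊆ Ω →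
    YY G L (ball x (t / q)) ≤ YY G L (ball x t) / 2 := by
  have n1 : 1 ≤ n := by omega
  have o0 := om_pos n1
  obtain ⟨c, c1, H4⟩ := spl_sig n1
  obtain ⟨C1, h1, H1⟩ := shell_le hn
  set B := C * (4 * (C1 * 2) / om n) with hB
  have B0 : 0 < B := by positivity
  set α := min 1 (1 / (8000 * c * B)) with hα
  have α0 : 0 < α := by positivity
  have α1 : α ≤ 1 := min_le_left _ _
  have α2 : 8000 * c * B * α ^ (n - 1) ≤ 1 := by
    have k1 : α ^ (n - 1) ≤ α := pow_le_of_le_one α0.le α1 (by omega)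
    have k2 : α ≤ 1 / (8000 * c * B) := min_le_right _ _
    rw [le_div_iff₀ (by positivity)] at k2
    nlinarith [mul_le_mul_of_nonneg_left k1 (by positivity : 0 ≤ 8000 * c * B)]
  obtain ⟨K, hK⟩ := exists_nat_ge (1 / α ^ n)
  have K1 : (1 : ℝ) ≤ K := le_trans ((one_le_div (by positivity)).2 (pow_le_one₀ α0.le α1)) hK
  have K0 : 0 < K := by exact_mod_cast lt_of_lt_of_le one_pos K1
  have K2 : 1 ≤ α ^ n * K := by rwa [div_le_iff₀' (by positivity)] at hK
  refine ⟨1 / (8000 * c * C * (1 + K)), by positivity, K, K1, 4 ^ K,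
    one_lt_pow₀ (by norm_num) K0.ne', fun m G Ω hG iG hP x t ht hΩ => ?_⟩
  set e := 1 / (8000 * c * C * (1 + K)) with he
  refine le_of_forall_pos_le_add fun δ hδ => ?_
  obtain ⟨A, τ, hS, hY⟩ := YY_ex (G := G) K (measurableSet_ball (x := x) (ε := t)) hδ
  have := hS.fin
  have Y0 := YY_nonneg (G := G) (L := K) (by linarith) (ball x t)
  set y := YY G K (ball x t) + δ with hy
  have y0 : 0 < y := by linarith
  obtain ⟨sig, fs, as, k1, k2⟩ := H4 m G _ A τ iG hS
  obtain ⟨l, l0, hl⟩ := ex_root n1 (y := 2000 * c * y) (by positivity)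
  have t0 : 0 ≤ τ.real univ := measureReal_nonneg
  have e0 := en_nonneg G A
  have k3 : τ.real univ ≤ K * τ.real univ := le_mul_of_one_le_left t0 K1
  have k4 : sig.real univ ≤ l ^ n / 2000 := by
    rw [hl]
    nlinarith [mul_le_mul_of_nonneg_left (show en G A + τ.real univ ≤ y by linarith)
      (show 0 ≤ c by linarith)]
  have k5 : y / K ≤ (α * l) ^ n := by
    rw [mul_pow, hl, div_le_iff₀ (by linarith)]
    have : y ≤ 2000 * c * y := by nlinarith
    nlinarith
  have mono : ∀ A B : Set (E n), A ⊆ B → en G A ≤ en G B := fun A B h =>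
    setIntegral_mono_set iG.integrableOn (ae_of_all _ fun _ => by positivity) h.eventuallyLE
  obtain ⟨j, hj, k6⟩ := annulus_pick (a := fun j => en G (A ∩ ball x (t / 4 ^ j))) (M := y) K0
    (en_nonneg _ _) ((mono _ _ inter_subset_left).trans (by nlinarith))
  set r := t / 4 ^ (j + 1) with hr
  have r0 : 0 < r := by positivity
  have r4 : t / 4 ^ j = 4 * r := by rw [hr, pow_succ]; field_simp
  have r5 : 4 * r ≤ t := r4 ▸ div_le_self ht.le (one_le_pow₀ (by norm_num))
  have r6 : t / 4 ^ K ≤ r := div_le_div_of_nonneg_left ht.le (by positivity)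
    (pow_le_pow_right₀ (by norm_num) hj)
  have mD : MeasurableSet {w : E n | dist w x ∈ Ioo r (2 * r)} :=
    (measurable_id.dist measurable_const) measurableSet_Ioo
  have k7 : en G (A ∩ {w | dist w x ∈ Ioo r (2 * r)}) ≤ (α * l) ^ n := by
    have u1 : en G (A ∩ ball x r ∪ A ∩ {w | dist w x ∈ Ioo r (2 * r)}) =
        en G (A ∩ ball x r) + en G (A ∩ {w | dist w x ∈ Ioo r (2 * r)}) :=
      setIntegral_union (Set.disjoint_left.2 fun w h1 h2 => lt_asymm (mem_ball.1 h1.2) h2.2.1)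
        (hS.mA.inter mD) iG.integrableOn iG.integrableOn
    have u2 := mono (A ∩ ball x r ∪ A ∩ {w | dist w x ∈ Ioo r (2 * r)}) (A ∩ ball x (4 * r))
      (union_subset (inter_subset_inter_right _ (ball_subset_ball (by linarith)))
        (inter_subset_inter_right _ fun w hw => mem_ball.2 (by linarith [hw.2])))
    rw [r4] at k6
    linarith
  have k8 : τ.real univ ≤ (α * l) ^ n := le_trans (by
    rw [le_div_iff₀ (by linarith)]; linarith) k5
  obtain ⟨i1, i2⟩ := H1 m G A τ x r (α * l) (α * l) hG iG hS.mA r0 (by positivity) (by positivity)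
    k7 k8 (hS.mono (ball_subset_ball (by linarith))).ctl
  obtain ⟨U, -, hU, hg⟩ := LY.good_radii sig (z := x) r0 (L := l ^ n / 100) (by positivity)
    ((measureReal_mono (subset_univ _)).trans (by linarith))
  obtain ⟨s, hs, sU, hp, hM⟩ := radius_pick n1 hG r0 (by positivity) i1 i2 hU
    (hP sig fs as x r l r0 l0 ((closedBall_subset_closedBall r5).trans hΩ)
      (by filter_upwards [k2] with w hw h using hw (ball_subset_ball r5 h)) k4)
  have g1 := hg s (Ioo_subset_Icc_self hs) sU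
  rw [mul_div_cancel₀ _ (by norm_num)] at g1
  obtain ⟨A', τ', hS', b1, b2⟩ := hp g1
  refine (YY_le (by linarith) (hS'.mono (ball_subset_ball (r6.trans hs.1.le)))).trans ?_
  have b3 : C * l * sM (pp G x s) (n - 1) ≤ B * α ^ (n - 1) * l ^ n := by
    refine (mul_le_mul_of_nonneg_left hM (by positivity)).trans (le_of_eq ?_)
    have : l ^ n = l ^ (n - 1) * l := by rw [← pow_succ]; congr 1; omega
    rw [this, hB, mul_pow]; ring
  have b4 : B * α ^ (n - 1) * l ^ n ≤ y / 4 := by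
    rw [hl]; nlinarith [mul_le_mul_of_nonneg_right α2 y0.le]
  have b5 : C * e * l ^ n * (1 + K) = y / 4 := by rw [hl, he]; field_simp; ring
  have b6 := mul_le_mul_of_nonneg_left b1 (show (0 : ℝ) ≤ K by linarith)
  nlinarith

/-- Small essential oscillation. -/
theorem end_osc (hn : 2 ≤ n) {C : ℝ} (hC : 0 < C) : ∃ e : ℝ, 0 < e ∧ ∀ (m : ℕ) (u : E n → V m)
    (G : E n → W n m) (Ω : Set (E n)), StronglyMeasurable G →
    Integrable (fun x => ‖G x‖ ^ n) volume → LocallyIntegrable u volume →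
    (∀ c R, closedBall c R ⊆ Ω → LY.Apq (volume.restrict (ball c R)) n u fun x => linR (G x)) →
    Pas G Ω C e → ∀ x0, Ω ∈ 𝓝 x0 → ∀ γ : ℝ, 0 < γ →
    ∃ r : ℝ, 0 < r ∧ ∃ c : V m, ∀ᵐ x, x ∈ ball x0 r → ‖u x - c‖ ≤ γ := by
  have : Nonempty (Fin n) := ⟨⟨0, by omega⟩⟩
  obtain ⟨e, e0, L, L1, q, q1, H⟩ := YY_decay hn hC
  obtain ⟨C1, h1, H1⟩ := poin_YY hn
  refine ⟨e, e0, fun m u G Ω hG iG hu hA hP x0 h0 γ hγ => ?_⟩
  have : IsFiniteMeasure (em G) := isFiniteMeasure_withDensity_ofReal iG.2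
  have : NullSingletonClass (em G) :=
    ⟨fun x => withDensity_absolutelyContinuous _ _ (measure_singleton x)⟩
  refine PoinP.osc (Y := fun x t => YY G L (ball x t)) (by omega) (H1 m Ω u G L L1 hG iG hA) h1 hu
    q1 (H m G Ω hG iG hP) h0 (fun ε hε => ?_) hγ
  obtain ⟨r, k1, k2⟩ := ((LY.mass_small (μ := em G) x0 hε).and self_mem_nhdsWithin).exists
  refine ⟨r, k2, fun x t _ h => (YY_le_en (by linarith) measurableSet_ball).trans ?_⟩
  rw [← em_real iG measurableSet_ball]
  exact (measureReal_mono h).trans k1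

end Pool.Agent.Lib.MP_a785f2_an.LO
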