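import Pool.Agent.Lib.MP_a785f2_an.LO.Bas
import Pool.Agent.Lib.MP_a785f2_an.LZ.Hol

/-! Existence of the centre, the holes and the bad intervals. -/

open MeasureTheory Metric Set Filter Topology
open scoped ContDiff RealInnerProductSpace ENNReal

namespace Pool.Agent.Lib.MP_a785f2_an.LO

open HS (V)
open LZ (W S Op rad ten grad AA om sph sl pp ph sM sF sa sX sy sD sR en av sgm Pr Ff Rep eqCm)

variable {n m : ℕ} {Ω : Set (E n)} {u : E n → V m} {G : E n → W n m} {f : E n → V m}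
  {w : E n → ℝ}

theorem hol_sharp {O : Set (E n)} {σ : Measure (E n)} [IsFiniteMeasure σ] {z c : E n} {r l : ℝ}
    {T : Set (E n × ℝ)} (g : Good O σ z r l) (hT : LY.Holes σ z r (l ^ n) c T) {x : E n}
    (hx : x ∈ ball z r) (h0 : 0 < LY.sg c r x) (hoff : ∀ b ∈ T, x ∉ ball b.1 b.2) {ρ : ℝ}
    (hρ : 0 < ρ) : σ.real (ball x ρ) ≤ 100 * l ^ n * ρ / LY.sg c r x := by
  have hr := g.r0
  have hl := pow_pos g.l0 n
  have h1 := LY.sg_le_half c r x
  have h2 := mem_ball.1 hx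
  rcases le_total ρ (LY.sg c r x / 100) with h | h
  · exact hT.off x hx hoff ρ hρ h
  rw [le_div_iff₀ h0]
  rcases le_total ρ r with h' | h'
  · have h3 : σ.real (ball x ρ) ≤ σ.real (ball z (2 * r)) :=
      measureReal_mono (ball_subset_ball' (by linarith))
    have h4 : σ.real (ball x ρ) ≤ l ^ n := by linarith [hT.mass]
    calc _ ≤ l ^ n * (100 * ρ) := mul_le_mul h4 (by linarith) h0.le hl.le
      _ = _ := by ring
  · have h3 : σ.real (ball x ρ) ≤ σ.real (ball z (2 * ρ)) :=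
      measureReal_mono (ball_subset_ball' (by linarith))
    have h4 := h3.trans (g.far (2 * ρ) (by linarith))
    rw [le_div_iff₀ hr] at h4
    have h5 : σ.real (ball x ρ) * LY.sg c r x ≤ σ.real (ball x ρ) * r :=
      mul_le_mul_of_nonneg_left (by linarith) measureReal_nonneg
    nlinarith [mul_pos hl hρ]

theorem hol_edge (hn : 3 ≤ n) {O : Set (E n)} {σ : Measure (E n)} [IsFiniteMeasure σ] {z c : E n}
    {r l : ℝ} {T : Set (E n × ℝ)} (g : Good O σ z r l) (hT : LY.Holes σ z r (l ^ n) c T)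
    {b : E n × ℝ} (hb : b ∈ T) {ρ : ℝ} (hρ : b.2 ≤ ρ) :
    σ.real (ball b.1 ρ) * LY.sg c r b.1 ≤ 201 * l ^ n * ρ := by
  have : Nonempty (Fin n) := ⟨⟨0, by omega⟩⟩
  have h1 := hT.pos b hb
  have h2 := hT.sml b hb
  have h3 := hT.sub b hb
  have hl := pow_pos g.l0 n
  obtain ⟨y, hy⟩ : (sphere b.1 b.2).Nonempty := NormedSpace.sphere_nonempty.2 h1.le
  have hy' := mem_sphere.1 hy
  have h4 := LY.sg_lip c r b.1 y
  rw [dist_comm] at h4
  have h5 : 0 < LY.sg c r y := by linarith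
  have h6 := hol_sharp g hT (x := y) (mem_ball.2 (by linarith [dist_triangle y b.1 z])) h5
    (fun h hh hyh => ?_) (ρ := 2 * ρ) (by linarith)
  · have h7 : σ.real (ball b.1 ρ) ≤ σ.real (ball y (2 * ρ)) :=
      measureReal_mono (ball_subset_ball' (by rw [dist_comm]; linarith))
    have h8 := h7.trans h6
    rw [le_div_iff₀ h5] at h8
    have h9 : σ.real (ball b.1 ρ) * LY.sg c r b.1 ≤
        σ.real (ball b.1 ρ) * (400 / 399 * LY.sg c r y) :=
      mul_le_mul_of_nonneg_left (by linarith) measureReal_nonneg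
    nlinarith [mul_pos hl (h1.trans_le hρ)]
  · by_cases he : b = h
    · rw [← he, mem_ball] at hyh
      linarith
    · have hd := (hT.disj hb hh he).closure_left isOpen_ball
      simp only at hd
      rw [closure_ball _ h1.ne'] at hd
      exact disjoint_left.1 hd (sphere_subset_closedBall hy) hyh

theorem holes (hn : 3 ≤ n) {O : Set (E n)} {σ : Measure (E n)} (ct : Ct Ω O σ G) {z : E n}
    {r l l' : ℝ} (g : Good O σ z r l) (h0 : 0 < l') (h1 : 2 / 3 * l ^ n ≤ l' ^ n) :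
    ∃ c T J, Hol O σ z r l l' c T J := by
  have : Nonempty (Fin n) := ⟨⟨0, by omega⟩⟩
  have := ct.fin
  have := ct.na
  have hr := g.r0
  have hl := g.l0
  have hL := pow_pos hl n
  have h5 : (100 : ℝ) ≤ 5 ^ n :=
    le_trans (by norm_num) (pow_le_pow_right₀ (by norm_num : (1 : ℝ) ≤ 5) hn)
  have h10 : (201 : ℝ) ≤ 10 ^ n :=
    le_trans (by norm_num) (pow_le_pow_right₀ (by norm_num : (1 : ℝ) ≤ 10) hn)
  obtain ⟨c, T, hT⟩ := LY.holes σ hr hL g.gm
  obtain ⟨J, s1, hJ⟩ := hT.shells hr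
  refine ⟨c, T, J, hT.ctr, hT.cnt, hT.disj,
    fun b hb => closedBall_subset_ball' (by linarith [hT.sub b hb]), fun b hb => ?_,
    hT.sml, hT.vol volume hr, fun x hx hc hoff ρ hρ => ?_, fun b hb ρ hρ => ?_,
    hJ.cnt, hJ.disj, fun j hj => ⟨hJ.pos j hj, hJ.lt j hj, hJ.le2 j hj⟩, ?_, hJ.hole,
    fun s hs hsr hoff => ?_⟩
  · have h2 := hT.pos b hb
    refine ⟨h2, h0, Subset.trans (closedBall_subset_closedBall' ?_) g.sub,
      LZ.goodM_mono h2 (hT.good b hb) h1, fun ρ hρ => ?_⟩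
    · linarith [hT.sub b hb, dist_nonneg (x := b.1) (y := z)]
    · have h3 := hol_edge hn g hT hb hρ
      have h4 : σ.real (ball b.1 ρ) * (400 * b.2) ≤ σ.real (ball b.1 ρ) * LY.sg c r b.1 :=
        mul_le_mul_of_nonneg_left (hT.sml b hb) measureReal_nonneg
      have h6 := mul_le_mul_of_nonneg_right h1 (h2.trans_le hρ).le
      rw [le_div_iff₀ h2]
      nlinarith [mul_pos hL (h2.trans_le hρ)]
  · have h2 : 0 < LY.sg c r x := lt_min (dist_pos.2 hc) (by linarith)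
    refine (hol_sharp g hT hx h2 hoff hρ).trans ?_
    change _ ≤ (5 * l) ^ n * ρ / LY.sg c r x
    rw [mul_pow]
    gcongr
  · have h2 := hT.pos b hb
    have h3 : 0 < LY.sg c r b.1 := by linarith [hT.sml b hb]
    have h4 := h2.trans_le hρ
    change _ ≤ (10 * l) ^ n * ρ / LY.sg c r b.1
    rw [le_div_iff₀ h3, mul_pow]
    refine (hol_edge hn g hT hb hρ).trans ?_
    gcongr
  · have := hJ.cnt.to_subtype
    rw [biUnion_eq_iUnion]
    refine (lintegral_iUnion_le _ _).trans ?_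
    have h2 := LY.tsum_ofReal_le J (fun j => Real.log j.2 - Real.log j.1)
      (fun j hj => sub_nonneg.2 (Real.log_le_log (hJ.pos j hj) (hJ.lt j hj).le)) hJ.sum
    refine le_trans (le_of_eq_of_le (tsum_congr fun j => ?_) h2) (le_of_eq ?_)
    · exact LZ.lint_inv (hJ.pos j j.2) (hJ.lt j j.2).le
    · rw [ENNReal.ofReal_div_of_pos (by norm_num)]; simp
  · have h2 := hT.ctr
    refine ⟨hs, by positivity, Subset.trans (closedBall_subset_closedBall' (by linarith)) g.sub,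
      LZ.goodM_mono hs (hT.good_time hL hJ hs hsr hoff) ?_,
      (g.lin (by omega) (by linarith) hs (by linarith)).mono hs (by positivity) (by linarith)⟩
    rw [mul_pow]
    gcongr

theorem many {O : Set (E n)} {σ : Measure (E n)} [IsFiniteMeasure σ] {z : E n} {r l : ℝ}
    (hr : 0 < r) (hl : 0 < l) (hs : closedBall z (4 * r) ⊆ O) (he : σ.real univ ≤ l ^ n / 2000) :
    volume {s | s ∈ Ioo r (2 * r) ∧ ¬Good O σ z s l} ≤ ENNReal.ofReal (r / 2) := by
  obtain ⟨U, -, hU, h⟩ := LY.good_radii σ (z := z) (L := l ^ n / 100) hr (by positivity)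
    (by linarith [measureReal_mono (μ := σ) (subset_univ (ball z (4 * r)))])
  refine le_trans (measure_mono fun s h0 => ?_) hU
  by_contra hsU
  have h1 := h s (Ioo_subset_Icc_self h0.1) hsU
  rw [show 100 * (l ^ n / 100) = l ^ n by ring] at h1
  have h2 := hr.trans h0.1.1
  refine h0.2 ⟨h2, hl,
    Subset.trans (closedBall_subset_closedBall (by linarith [h0.1.2])) hs, h1, fun ρ hρ => ?_⟩
  have h3 := measureReal_mono (μ := σ) (subset_univ (ball z ρ))
  have h4 := pow_pos hl n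
  have h5 : l ^ n ≤ l ^ n * ρ / s := by
    rw [le_div_iff₀ h2]
    gcongr
  linarith

theorem off_J {J : Set (ℝ × ℝ)}
    (hJ : ∫⁻ s in ⋃ j ∈ J, Ioo j.1 j.2, ENNReal.ofReal s⁻¹ ≤ 1 / 100) (cJ : J.Countable)
    {a : ℝ} (ha : 0 < a) {p : ℝ → Prop} (hp : ∀ᵐ s, s ∈ Ioo a (2 * a) → p s) :
    ∃ s ∈ Ioo a (2 * a), (∀ j ∈ J, s ∉ Ioo j.1 j.2) ∧ p s := by
  by_contra hc
  push Not at hc
  have h1 : ∀ᵐ s : ℝ, s ∈ Ioo a (2 * a) → s ∈ ⋃ j ∈ J, Ioo j.1 j.2 := by
    filter_upwards [hp] with s hs h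
    by_contra hn
    exact hc s h (fun j hj hm => hn (mem_iUnion₂.2 ⟨j, hj, hm⟩)) (hs h)
  have h2 := (lintegral_mono_set' (μ := volume) (f := fun s : ℝ => ENNReal.ofReal s⁻¹)
    (s := Ioo a (2 * a)) (t := ⋃ j ∈ J, Ioo j.1 j.2) h1).trans hJ
  have h3 : (1 / 100 : ℝ≥0∞) = ENNReal.ofReal (1 / 100) := by
    rw [ENNReal.ofReal_div_of_pos (by norm_num)]; simp
  rw [LZ.lint_inv ha (by linarith), h3, ENNReal.ofReal_le_ofReal_iff (by norm_num),
    Real.log_mul (by norm_num) ha.ne'] at h2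
  linarith [Real.log_two_gt_d9]

end Pool.Agent.Lib.MP_a785f2_an.LO
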