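import Pool.Agent.Lib.MP_a785f2_an.LO.Flux
import Pool.Agent.Lib.MP_a785f2_an.LO.Hol
import Pool.Agent.Lib.MP_a785f2_an.LO.EndB
import Pool.Agent.Lib.MP_a785f2_an.LY.RepE

/-! From the second pass to a continuous representative. -/

open MeasureTheory Metric Set Filter Topology
open scoped ContDiff RealInnerProductSpace ENNReal

namespace Pool.Agent.Lib.MP_a785f2_an.LO

open HS (V)
open LZ (W S Op rad ten grad AA om sph sl pp ph sM sF sa sX sy sD sR en av sgm Pr Ff Rep eqCm)

variable {n m : ℕ} {Ω : Set (E n)} {u : E n → V m} {G : E n → W n m} {f : E n → V m}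
  {w : E n → ℝ}

theorem Dat.fin (D : Dat Ω u G f w) {L K C1 C2 ε0 : ℝ} (hL : Caps m L) (hK : 0 ≤ K)
    (h1 : 0 ≤ C1) (h2 : 0 ≤ C2) (h0 : 0 < ε0)
    (H : ∀ ε, 0 < ε → ε ≤ ε0 → PassB Ω u G f w L K C1 C2 ε) : Rep Ω u := by
  have n3 := D.n3
  have : Nonempty (Fin n) := ⟨⟨0, by omega⟩⟩
  have o0 := LZ.om_pos (n := n) (by omega)
  obtain ⟨Cb, cb, Hb⟩ := D.bd hL hK
  set C := 48 * om n * Cb + 16 * (C1 * Cb ^ 2 + 1) + (C2 + 1) with hC
  have p1 : 0 < 48 * om n * Cb := by positivity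
  have p2 : 0 < 16 * (C1 * Cb ^ 2 + 1) := by positivity
  have C0 : 0 < C := by positivity
  obtain ⟨e, e0, He⟩ := end_osc (n := n) (by omega) C0
  set ε := min e ε0 with hε
  have ε1 : 0 < ε := lt_min e0 h0
  have ε2 : ε ≤ e := min_le_left _ _
  obtain ⟨δ, δ0, Hs⟩ := D.small ε1
  have PB := H ε ε1 (min_le_right _ _)
  have key : ∀ Ω', Ω' ⊆ Ω → volume Ω' ≤ ENNReal.ofReal δ → Pas G Ω' C e := by
    intro Ω' s1 s2 σ fs as z r l r0 l0 hz hc hm
    have s3 : ball z (4 * r) ⊆ Ω' := ball_subset_closedBall.trans hz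
    have ct : Ct Ω (ball z (4 * r)) σ G :=
      ⟨fs, ⟨fun x => as (measure_singleton x)⟩, s3.trans s1, hc⟩
    have sm := Hs _ σ ct ((measure_mono s3).trans s2)
    filter_upwards [Hb _ σ z l ct] with s hs hr gm
    have s0 : 0 < s := r0.trans hr.1
    have ln : 0 < l ^ n := by positivity
    have g : Good (ball z (4 * r)) σ z s l :=
      ⟨s0, l0, closedBall_subset_ball (by linarith [hr.2]), gm, fun ρ hρ => by
        refine ((measureReal_mono (subset_univ _)).trans hm).trans ?_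
        rw [le_div_iff₀ s0]
        nlinarith⟩
    obtain ⟨Ψ, q, cp, k1, k2⟩ := hs g
    obtain ⟨B, F, mB, -, mF, i1, i2, i3⟩ := PB _ σ ct sm z s l g (ε * l ^ n) (by positivity) Ψ q
      (Cb * l) (-q) (Cb * l) cp k1 (by rwa [neg_add_eq_sub])
    have k3 := k2 (-q)
    rw [neg_add_cancel, inner_zero_right, add_zero] at k3
    have k4 : l ^ 2 * lam G w (ball z s) ≤ ε * l ^ n := by
      have e1 : l ^ n = l ^ 2 * l ^ (n - 2) := by rw [← pow_add]; congr 1; omega
      rw [e1, mul_left_comm]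
      exact mul_le_mul_of_nonneg_left (sm z s l g) (by positivity)
    have k5 : ε * l ^ n ≤ e * l ^ n := mul_le_mul_of_nonneg_right ε2 ln.le
    have k6 : 0 < e * l ^ n := by positivity
    have k7 := LZ.sM_nonneg (pp G z s) (n - 1)
    have k8 : C2 * l ^ 2 * lam G w (ball z s) + ε * l ^ n ≤ C * e * l ^ n := by
      have := mul_le_mul_of_nonneg_left (k4.trans k5) h2
      rw [hC]
      nlinarith [mul_pos p1 k6, mul_pos p2 k6]
    have fin : IsFiniteMeasure (volume.withDensity F) :=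
      isFiniteMeasure_withDensity (i1.trans_lt ENNReal.ofReal_lt_top).ne
    refine ⟨B, volume.withDensity F, ⟨mB, fin, withDensity_absolutelyContinuous _ _, i2⟩, ?_, ?_⟩
    · rw [measureReal_def, withDensity_apply _ MeasurableSet.univ, Measure.restrict_univ]
      exact ENNReal.toReal_le_of_le_ofReal (by positivity) (i1.trans (ENNReal.ofReal_le_ofReal k8))
    · have a1 := mul_le_mul_of_nonneg_left (k4.trans k5) (show 0 ≤ C1 * Cb ^ 2 by positivity)
      have a2 : 0 ≤ l * sM (pp G z s) (n - 1) := by positivity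
      have a3 : 48 * om n * Cb * (l * sM (pp G z s) (n - 1)) ≤ C * (l * sM (pp G z s) (n - 1)) :=
        mul_le_mul_of_nonneg_right (by linarith) a2
      have a4 : 16 * (C1 * Cb ^ 2 + 1) * (e * l ^ n) ≤ C * (e * l ^ n) :=
        mul_le_mul_of_nonneg_right (by linarith) k6.le
      linarith
  obtain ⟨v, v1, v2⟩ := LY.rep_osc (ν := volume) (u := u) (Ω := Ω) fun x0 hx γ hγ => by
    have : IsFiniteMeasure (volume.restrict (ball x0 1)) :=
      isFiniteMeasure_restrict.2 measure_ball_lt_top.ne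
    have a1 := LY.mass_small (μ := volume.restrict (ball x0 1)) x0 δ0
    have a2 : ∀ᶠ r in 𝓝[>] (0 : ℝ), ball x0 r ⊆ Ω :=
      (eventually_nhds_iff_ball.1 (D.op.mem_nhds hx)).elim fun t ht => by
        filter_upwards [Ioo_mem_nhdsGT ht.1] with r hr y hy using ht.2 y (ball_subset_ball hr.2.le hy)
    obtain ⟨r, b1, b2, b3⟩ := (a1.and (a2.and (Ioo_mem_nhdsGT one_pos))).exists
    rw [measureReal_restrict_apply measurableSet_ball,
      inter_eq_left.2 (ball_subset_ball b3.2.le)] at b1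
    exact He m u G (ball x0 r) D.mG D.iG D.loc (fun c R h => D.apqP (h.trans b2))
      (key _ b2 ((ofReal_measureReal measure_ball_lt_top.ne).symm.trans_le
        (ENNReal.ofReal_le_ofReal b1))) x0 (ball_mem_nhds x0 b3.1) γ hγ
  exact ⟨v, v1, (ae_restrict_iff' D.op.measurableSet).2 v2⟩

end Pool.Agent.Lib.MP_a785f2_an.LO
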