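import Pool.Agent.Lib.MP_a785f2_an.LO.Bas

/-! Control by a density, from the differentiation theorem. -/

open MeasureTheory Metric Set Filter Topology
open scoped ContDiff RealInnerProductSpace ENNReal

namespace Pool.Agent.Lib.MP_a785f2_an.LO

open HS (V)
open LZ (W S Op rad ten grad AA om sph sl pp ph sM sF sa sX sy sD sR en av sgm Pr Ff Rep eqCm)

variable {n m : ℕ} {Ω : Set (E n)} {u : E n → V m} {G : E n → W n m} {f : E n → V m}
  {w : E n → ℝ}

theorem leb (hn : 1 ≤ n) : ∃ C : ℝ, 1 ≤ C ∧ ∀ (G : E n → W n m) (h : E n → ℝ≥0∞), Measurable h →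
    ∫⁻ x, h x ≠ ⊤ → ∀ᵐ x, ENNReal.ofReal (‖G x‖ ^ n) ≤ h x →
      Ctl (volume.withDensity fun y => ENNReal.ofReal C * h y) G x := by
  set κ := (volume : Measure (E n)).real (ball 0 1) with hκ
  have κ0 : 0 < κ := ENNReal.toReal_pos (measure_ball_pos _ _ one_pos).ne' measure_ball_lt_top.ne
  have p0 : 0 < 2 ^ (n + 1) / κ := by positivity
  refine ⟨2 ^ (n + 1) / κ + 1, by linarith, fun G h hm hf => ?_⟩
  have : IsFiniteMeasure ((volume : Measure (E n)).withDensity h) := isFiniteMeasure_withDensity hf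
  filter_upwards [Besicovitch.ae_tendsto_rnDeriv ((volume : Measure (E n)).withDensity h) volume,
    Measure.rnDeriv_withDensity (volume : Measure (E n)) hm] with x h1 h2 hx
  rw [h2] at h1
  set a := ‖G x‖ ^ n with ha
  rcases (show 0 ≤ a by positivity).eq_or_lt with a0 | a0
  · exact ⟨1, one_pos, by rw [← ha, ← a0, zero_mul]; exact measureReal_nonneg⟩
  have lt : ENNReal.ofReal (a / 2) < h x :=
    lt_of_lt_of_le ((ENNReal.ofReal_lt_ofReal_iff a0).2 (by linarith)) hx
  obtain ⟨r, k1, r0⟩ := ((h1.eventually (lt_mem_nhds lt)).and self_mem_nhdsWithin).exists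
  have r0' : 0 < r := r0
  have hv : volume (closedBall x r) = ENNReal.ofReal (r ^ n * κ) := by
    rw [Measure.addHaar_closedBall volume x r0'.le, finrank_euclideanSpace_fin,
      ENNReal.ofReal_mul (by positivity), hκ, ofReal_measureReal measure_ball_lt_top.ne]
  have k2 := ENNReal.mul_le_of_le_div k1.le
  rw [hv, ← ENNReal.ofReal_mul (by positivity)] at k2
  have k3 : a / 2 * (r ^ n * κ) ≤ (volume.withDensity h).real (ball x (2 * r)) :=
    (ENNReal.ofReal_le_iff_le_toReal (measure_ne_top _ _)).1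
      (k2.trans (measure_mono (closedBall_subset_ball (by linarith))))
  refine ⟨2 * r, by linarith, ?_⟩
  have e : (volume.withDensity fun y => ENNReal.ofReal (2 ^ (n + 1) / κ + 1) * h y) =
      ENNReal.ofReal (2 ^ (n + 1) / κ + 1) • (volume : Measure (E n)).withDensity h :=
    withDensity_smul _ hm
  rw [e, measureReal_def, Measure.smul_apply, smul_eq_mul, ENNReal.toReal_mul,
    ENNReal.toReal_ofReal (by linarith), ← measureReal_def, ← ha]
  have e2 : a * (2 * r) ^ n = 2 ^ (n + 1) / κ * (a / 2 * (r ^ n * κ)) := by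
    rw [mul_pow, pow_succ]
    field_simp
  rw [e2]
  exact mul_le_mul (by linarith) k3 (by positivity) (by linarith)

theorem atom (hn : 1 ≤ n) (G : E n → W n m) (c : E n) {ρ a : ℝ} (hρ : 0 < ρ) (ha : 0 ≤ a) :
    ∃ H : E n → ℝ≥0∞, Measurable H ∧ ∫⁻ x, H x ≤ ENNReal.ofReal ((2 * a) ^ n) ∧
      ∀ x, ρ ≤ dist x c → dist x c * ‖G x‖ ≤ a → Ctl (volume.withDensity H) G x := by
  have v0 : volume (ball c ρ) ≠ 0 := (measure_ball_pos _ _ hρ).ne'
  have v1 : volume (ball c ρ) ≠ ⊤ := measure_ball_lt_top.ne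
  have key : ∀ A : Set (E n), ball c ρ ⊆ A → ∫⁻ y in A, (ball c ρ).indicator
      (fun _ => ENNReal.ofReal ((2 * a) ^ n) / volume (ball c ρ)) y =
        ENNReal.ofReal ((2 * a) ^ n) := fun A hA => by
    rw [lintegral_indicator measurableSet_ball, setLIntegral_const,
      Measure.restrict_apply measurableSet_ball, inter_eq_left.2 hA, ENNReal.div_mul_cancel v0 v1]
  refine ⟨(ball c ρ).indicator fun _ => ENNReal.ofReal ((2 * a) ^ n) / volume (ball c ρ),
    measurable_const.indicator measurableSet_ball, ?_, fun x h1 h2 => ?_⟩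
  · simpa using (key univ (subset_univ _)).le
  · have d0 : 0 < dist x c := hρ.trans_le h1
    refine ⟨2 * dist x c, by linarith, ?_⟩
    rw [measureReal_def, withDensity_apply _ measurableSet_ball,
      key _ (ball_subset_ball' (by rw [dist_comm]; linarith)),
      ENNReal.toReal_ofReal (by positivity), ← mul_pow]
    exact pow_le_pow_left₀ (by positivity) (by linarith) n

theorem st_ct (hn : 1 ≤ n) : ∃ C : ℝ, 1 ≤ C ∧ ∀ (Ω : Set (E n)) (G : E n → W n m) (M : ℝ)
    (x : E n) (r l : ℝ), 1 ≤ M → 0 < l → ball x r ⊆ Ω → St G M x r l →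
      ∃ σ, Ct Ω (ball x r) σ G ∧ σ.real univ ≤ (C * l) ^ n := by
  obtain ⟨C, hC, HC⟩ := leb (n := n) (m := m) hn
  have : Nontrivial (E n) := by
    have : Nonempty (Fin n) := ⟨⟨0, hn⟩⟩
    infer_instance
  refine ⟨C + 1, by linarith, fun Ω G M x r l hM hl hΩ ⟨h, H, mh, mH, ih, iH, hc⟩ => ?_⟩
  have tot : ∫⁻ y, (ENNReal.ofReal C * h y + H y) ≤ ENNReal.ofReal (((C + 1) * l) ^ n) := by
    rw [lintegral_add_right _ mH, lintegral_const_mul _ mh]
    refine (add_le_add (mul_le_mul_right ih _) iH).trans ?_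
    rw [← ENNReal.ofReal_mul (by linarith), ← ENNReal.ofReal_add (by positivity) (by positivity)]
    refine ENNReal.ofReal_le_ofReal ?_
    have k1 : (l / M) ^ n ≤ l ^ n := pow_le_pow_left₀ (by positivity) (div_le_self hl.le hM) n
    have k2 : C + 1 ≤ (C + 1) ^ n := le_self_pow₀ (by linarith) (by omega)
    have k3 : 0 < l ^ n := by positivity
    rw [mul_pow]
    nlinarith
  have : IsFiniteMeasure ((volume : Measure (E n)).withDensity
      fun y => ENNReal.ofReal C * h y + H y) :=
    isFiniteMeasure_withDensity (ne_top_of_le_ne_top ENNReal.ofReal_ne_top tot)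
  refine ⟨volume.withDensity fun y => ENNReal.ofReal C * h y + H y,
    ⟨this, inferInstance, hΩ, ?_⟩, ?_⟩
  · filter_upwards [hc, HC G h mh (ne_top_of_le_ne_top ENNReal.ofReal_ne_top ih)] with y h1 h2 hy
    rcases h1 hy with h3 | h3
    · exact (h2 h3).mono (withDensity_mono (ae_of_all _ fun _ => le_self_add))
    · exact h3.mono (withDensity_mono (ae_of_all _ fun _ => le_add_self))
  · rw [measureReal_def, withDensity_apply _ MeasurableSet.univ, Measure.restrict_univ]
    exact ENNReal.toReal_le_of_le_ofReal (by positivity) tot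

end Pool.Agent.Lib.MP_a785f2_an.LO
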