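import Pool.Agent.Lib.MP_a785f2_an.LO.IterA
import Pool.Agent.Lib.MP_a785f2_an.LO.Leb

/-! The second pass. -/

open MeasureTheory Metric Set Filter Topology
open scoped ContDiff RealInnerProductSpace ENNReal

namespace Pool.Agent.Lib.MP_a785f2_an.LO

open HS (V)
open LZ (W S Op rad ten grad AA om sph sl pp ph sM sF sa sX sy sD sR en av sgm Pr Ff Rep eqCm)

variable {n m : ℕ} {Ω : Set (E n)} {u : E n → V m} {G : E n → W n m} {f : E n → V m}
  {w : E n → ℝ}

/-- The comparison function of the second pass. -/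
noncomputable def gB (G : E n → W n m) (w : E n → ℝ) (κ : ℝ) (h : E n → ℝ) (B A : Set (E n))
    (x : E n) : ℝ :=
  B.indicator (fun x => ‖G x‖ ^ n) x / 16 - κ * dl G w x - A.indicator h x

theorem Dat.gB_int (D : Dat Ω u G f w) (κ : ℝ) {h : E n → ℝ} (ih : Integrable h volume)
    {B A : Set (E n)} (mB : MeasurableSet B) (mA : MeasurableSet A) :
    Integrable (gB G w κ h B A) volume :=
  (((D.iG.indicator mB).div_const 16).sub (D.iw.const_mul κ)).sub (ih.indicator mA)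

theorem Dat.gB_ball (D : Dat Ω u G f w) (κ : ℝ) {h : E n → ℝ} (ih : Integrable h volume)
    {B A U : Set (E n)} (mB : MeasurableSet B) (mA : MeasurableSet A) (sB : B ⊆ U) (sA : A ⊆ U) :
    ∫ x in U, gB G w κ h B A x = en G B / 16 - κ * lam G w U - ∫ x in A, h x := by
  have i1 : Integrable (fun x => B.indicator (fun x => ‖G x‖ ^ n) x / 16) (volume.restrict U) :=
    ((D.iG.indicator mB).div_const 16).restrict
  have i2 : Integrable (fun x => κ * dl G w x) (volume.restrict U) := (D.iw.const_mul κ).restrict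
  have i3 : Integrable (A.indicator h) (volume.restrict U) := (ih.indicator mA).restrict
  have i4 : Integrable (fun x => B.indicator (fun x => ‖G x‖ ^ n) x / 16 - κ * dl G w x)
      (volume.restrict U) := i1.sub i2
  unfold gB
  rw [integral_sub i4 i3, integral_sub i1 i2, integral_div, integral_const_mul,
    integral_indicator mB, integral_indicator mA, Measure.restrict_restrict_of_subset sB,
    Measure.restrict_restrict_of_subset sA]
  rfl

theorem Dat.lam_lin (D : Dat Ω u G f w) (A : Set (E n)) :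
    ENNReal.ofReal (lam G w A) = ∫⁻ x in A, ENNReal.ofReal (dl G w x) :=
  ofReal_integral_eq_lintegral_ofReal D.iw.restrict (ae_of_all _ (dl_nonneg G w))

theorem Dat.en_lin (D : Dat Ω u G f w) (A : Set (E n)) :
    ENNReal.ofReal (en G A) = ∫⁻ x in A, ENNReal.ofReal (‖G x‖ ^ n) :=
  ofReal_integral_eq_lintegral_ofReal D.iG.restrict (ae_of_all _ fun _ => by positivity)

theorem Dat.en_small (D : Dat Ω u G f w) (c : E n) {e : ℝ≥0∞} (he : e ≠ 0) :
    ∃ ρ : ℝ, 0 < ρ ∧ ∫⁻ x in ball c ρ, ENNReal.ofReal (‖G x‖ ^ n) ≤ e := by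
  have := LY.nontriv (n := n) (by have := D.n3; omega)
  have fin : ∫⁻ x, ENNReal.ofReal (‖G x‖ ^ n) ≠ ⊤ := by
    have := D.en_lin univ
    rw [Measure.restrict_univ] at this
    rw [← this]
    exact ENNReal.ofReal_ne_top
  obtain ⟨δ, δ0, hδ⟩ := exists_pos_setLIntegral_lt_of_measure_lt fin he
  obtain ⟨U, hU, oU, vU⟩ := Set.exists_isOpen_lt_of_lt (μ := volume) {c} δ
    (by rwa [measure_singleton])
  obtain ⟨ρ, ρ0, hρ⟩ := Metric.isOpen_iff.1 oU c (hU rfl)
  exact ⟨ρ, ρ0, (hδ _ ((measure_mono hρ).trans_lt vU)).le⟩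

/-- The property carried through the generations of holes. -/
def PB (u : E n → V m) (G : E n → W n m) (f : E n → V m) (w : E n → ℝ) (L K C1 C2 τ Rb : ℝ)
    (e : ℝ≥0∞) (h : E n → ℝ) (z : E n) (r l : ℝ) (A : Set (E n)) : Prop :=
  ∃ (B X : Set (E n)) (H : E n → ℝ≥0∞), MeasurableSet B ∧ B ⊆ ball z r ∧ MeasurableSet X ∧
    X ⊆ ball z r ∧ Measurable H ∧
    ∫⁻ x in X, ENNReal.ofReal (‖G x‖ ^ n) ≤ e * volume (ball z r) ∧
    ∫⁻ x, H x ≤ ENNReal.ofReal (C2 * l ^ 2) * ENNReal.ofReal (lam G w (ball z r)) ∧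
    (∀ᵐ x, x ∈ ball z r → x ∉ B → x ∉ X → x ∉ A → Ctl (volume.withDensity H) G x) ∧
    Low u G f L K τ Rb (gB G w (C1 * τ ^ 2) h B A) z r l

theorem Dat.stepB (D : Dat Ω u G f w) {L K C1 C3 θ ε τ Rb : ℝ} (θ0 : 0 < θ) (θ1 : θ < 1)
    (θ2 : 2 / 3 ≤ θ ^ n) (h3 : 0 < C3) (hε : C3 * ε ≤ 1)
    (H : StepOK Ω u G f w L K C1 θ) (F : FluxOK Ω G w C3) {O : Set (E n)} {σ : Measure (E n)}
    (ct : Ct Ω O σ G) (hl : ∀ z r l, Good O σ z r l → lam G w (ball z r) ≤ ε * l ^ (n - 2))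
    {e : ℝ≥0∞} (e0 : e ≠ 0) {h : E n → ℝ} (ih : Integrable h volume) (v : E n × ℝ × ℝ)
    (g : Good O σ v.1 v.2.1 v.2.2) :
    LY.StepAt volume (fun v : E n × ℝ × ℝ => ball v.1 v.2.1)
      (fun v => Good O σ v.1 v.2.1 v.2.2)
      (fun v A => PB u G f w L K C1 (4 ^ n * C3 / (1 - θ ^ 2)) τ Rb e h v.1 v.2.1 v.2.2 A) v := by
  obtain ⟨z, r, l⟩ := v
  have n3 := D.n3
  have l0 : 0 < l := g.l0
  have r0 : 0 < r := g.r0
  obtain ⟨c, T, J, ho⟩ := holes n3 ct g (l' := θ * l) (mul_pos θ0 l0) (by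
    rw [mul_pow]
    exact mul_le_mul_of_nonneg_right θ2 (pow_pos l0 n).le)
  have cT : Countable T := ho.cT.to_subtype
  have dis : Pairwise fun i j : T => Disjoint (ball i.1.1 i.1.2) (ball j.1.1 j.1.2) :=
    fun i j hij => ho.dT i.2 j.2 fun e => hij (Subtype.ext e)
  have sub : ∀ j : T, ball j.1.1 j.1.2 ⊆ ball z r :=
    fun j => ball_subset_closedBall.trans (ho.sT _ j.2)
  refine ⟨T, cT, fun j => (j.1.1, j.1.2, θ * l), fun j => ho.gT _ j.2, sub, dis,
    (measure_iUnion_le _).trans ho.vT, fun A mA sA pA => ?_⟩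
  choose B X Hj mB sB mX sX mH eX iH cH lo using pA
  dsimp only at sA sB sX eX iH cH lo ⊢
  have t2 : 0 < 1 - θ ^ 2 := by nlinarith
  set C2 := 4 ^ n * C3 / (1 - θ ^ 2) with hC2
  have C20 : 0 ≤ C2 := by positivity
  have hC : 4 ^ n * C3 + C2 * θ ^ 2 = C2 := by rw [hC2]; field_simp; ring
  set lm := lam G w (ball z r) with hlm
  have lm0 : 0 ≤ lm := lam_nonneg G w _
  obtain ⟨a, a0, ha⟩ : ∃ a : ℝ, 0 ≤ a ∧ a ^ (n - 1) = C3 * l * lm :=
    ⟨(C3 * l * lm) ^ (((n - 1 : ℕ) : ℝ)⁻¹), by positivity,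
      Real.rpow_inv_natCast_pow (by positivity) (by omega)⟩
  have al : a ≤ l := by
    refine le_of_pow_le_pow_left₀ (n := n - 1) (by omega) l0.le ?_
    have b1 := hl z r l g
    have b2 : l ^ (n - 1) = l * l ^ (n - 2) := by
      rw [← pow_succ']; congr 1; omega
    have b3 : 0 < l ^ (n - 2) := pow_pos l0 _
    calc a ^ (n - 1) = l * (C3 * lm) := by rw [ha]; ring
      _ ≤ l * (C3 * (ε * l ^ (n - 2))) := by gcongr
      _ = l * ((C3 * ε) * l ^ (n - 2)) := by ring
      _ ≤ l * (1 * l ^ (n - 2)) := by gcongr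
      _ = l ^ (n - 1) := by rw [b2]; ring
  have alt : Alt G c (r / 400) J a := F O σ z r l (θ * l) c T J a ct g ho a0 ha.ge
  have v0 : volume (ball z r) ≠ 0 := (measure_ball_pos volume z r0).ne'
  obtain ⟨ρ, ρ0, hρ⟩ := D.en_small c (e := e * (volume (ball z r) / 2))
    (mul_ne_zero e0 (ENNReal.div_ne_zero.2 ⟨v0, by norm_num⟩))
  obtain ⟨H0, mH0, iH0, cH0⟩ := atom (by omega : 1 ≤ n) G c ρ0 (a := 2 * a) (by positivity)
  set U : Set (E n) := ⋃ j : T, ball j.1.1 j.1.2 with hU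
  have mU : MeasurableSet U := MeasurableSet.iUnion fun _ => measurableSet_ball
  set B0 : Set (E n) := (ball z r \ U) ∩ {x | 2 * a < dist x c * ‖G x‖} with hB0
  have mB0 : MeasurableSet B0 := (measurableSet_ball.diff mU).inter
    (measurableSet_lt measurable_const
      ((measurable_id.dist measurable_const).mul D.mG.norm.measurable))
  have mBB : MeasurableSet (B0 ∪ ⋃ j, B j) := mB0.union (MeasurableSet.iUnion mB)
  have mAA : MeasurableSet (⋃ j, A j) := MeasurableSet.iUnion mA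
  have loc : ∀ (Y : T → Set (E n)), (∀ j, Y j ⊆ ball j.1.1 j.1.2) → ∀ (j : T),
      ∀ x ∈ ball j.1.1 j.1.2, (x ∈ ⋃ i, Y i) ↔ x ∈ Y j := by
    intro Y sY j x hx
    refine ⟨fun hh => ?_, fun hh => mem_iUnion.2 ⟨j, hh⟩⟩
    obtain ⟨i, hi⟩ := mem_iUnion.1 hh
    by_cases e : i = j
    · exact e ▸ hi
    · exact absurd hx (disjoint_left.1 (dis e) (sY i hi))
  have iT : ∫⁻ x, (H0 x + ∑' j, Hj j x) ≤ ENNReal.ofReal (C2 * l ^ 2) * ENNReal.ofReal lm := by
    rw [lintegral_add_left mH0, lintegral_tsum fun j => (mH j).aemeasurable]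
    have b1 : ∫⁻ x, H0 x ≤ ENNReal.ofReal (4 ^ n * C3 * l ^ 2) * ENNReal.ofReal lm := by
      refine iH0.trans ?_
      rw [← ENNReal.ofReal_mul (by positivity)]
      refine ENNReal.ofReal_le_ofReal ?_
      have b2 : a ^ n = a ^ (n - 1) * a := by rw [← pow_succ]; congr 1; omega
      calc (2 * (2 * a)) ^ n = 4 ^ n * (a ^ (n - 1) * a) := by
            rw [← b2, ← mul_pow]; congr 1; ring
        _ ≤ 4 ^ n * (a ^ (n - 1) * l) := by gcongr
        _ = 4 ^ n * C3 * l ^ 2 * lm := by rw [ha]; ring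
    have b2 : ∑' j, ∫⁻ x, Hj j x ≤ ENNReal.ofReal (C2 * (θ * l) ^ 2) * ENNReal.ofReal lm := by
      refine (ENNReal.tsum_le_tsum iH).trans ?_
      rw [ENNReal.tsum_mul_left]
      gcongr
      simp only [hlm, D.lam_lin]
      rw [← lintegral_iUnion (fun _ => measurableSet_ball) dis]
      exact lintegral_mono_set (iUnion_subset sub)
    refine (add_le_add b1 b2).trans (le_of_eq ?_)
    rw [← add_mul, ← ENNReal.ofReal_add (by positivity) (by positivity)]
    congr 2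
    calc 4 ^ n * C3 * l ^ 2 + C2 * (θ * l) ^ 2 = (4 ^ n * C3 + C2 * θ ^ 2) * l ^ 2 := by ring
      _ = C2 * l ^ 2 := by rw [hC]
  refine ⟨B0 ∪ ⋃ j, B j, (ball c ρ ∩ ball z r) ∪ ⋃ j, X j, fun x => H0 x + ∑' j, Hj j x, mBB,
    union_subset (fun x hx => hx.1.1) (iUnion_subset fun j => (sB j).trans (sub j)),
    (measurableSet_ball.inter measurableSet_ball).union (MeasurableSet.iUnion mX),
    union_subset inter_subset_right (iUnion_subset fun j => (sX j).trans (sub j)),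
    mH0.add (Measurable.tsum mH), ?_, iT, ?_, ?_⟩
  · refine (lintegral_union_le _ _ _).trans ?_
    have b1 : ∫⁻ x in ball c ρ ∩ ball z r, ENNReal.ofReal (‖G x‖ ^ n) ≤
        e * (volume (ball z r) / 2) := (lintegral_mono_set inter_subset_left).trans hρ
    have b2 : ∫⁻ x in ⋃ j, X j, ENNReal.ofReal (‖G x‖ ^ n) ≤ e * (volume (ball z r) / 2) := by
      refine (lintegral_iUnion_le _ _).trans ((ENNReal.tsum_le_tsum eX).trans ?_)
      rw [ENNReal.tsum_mul_left]
      gcongr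
      exact ho.vT
    refine (add_le_add b1 b2).trans (le_of_eq ?_)
    rw [← mul_add, ENNReal.add_halves]
  · have : IsFiniteMeasure (volume.withDensity fun x => H0 x + ∑' j, Hj j x) :=
      isFiniteMeasure_withDensity (ne_top_of_le_ne_top
        (ENNReal.mul_ne_top ENNReal.ofReal_ne_top ENNReal.ofReal_ne_top) iT)
    filter_upwards [ae_all_iff.2 cH] with x hx x1 x2 x3 x4
    by_cases hu : x ∈ U
    · obtain ⟨j, hj⟩ := mem_iUnion.1 hu
      refine Ctl.mono (withDensity_mono (ae_of_all _ fun y => ?_)) (hx j hj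
        (fun hh => x2 (Or.inr (mem_iUnion.2 ⟨j, hh⟩)))
        (fun hh => x3 (Or.inr (mem_iUnion.2 ⟨j, hh⟩))) fun hh => x4 (mem_iUnion.2 ⟨j, hh⟩))
      exact (ENNReal.le_tsum (f := fun j => Hj j y) j).trans le_add_self
    · refine Ctl.mono (withDensity_mono (ae_of_all _ fun y => ?_)) (cH0 x ?_ ?_)
      · exact le_self_add
      · exact not_lt.1 fun hh => x3 (Or.inl ⟨hh, x1⟩)
      · exact not_lt.1 fun hh => x2 (Or.inl ⟨⟨x1, hu⟩, hh⟩)
  · refine H O σ z r l c T J τ Rb a _ ct g ho a0 alt (D.gB_int _ ih mBB mAA) ?_ ?_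
    · intro b hb Ψ q R Z h1 h2 h3 h4
      refine le_trans (le_of_eq ?_) (lo ⟨b, hb⟩ Ψ q R Z h1 h2 h3 h4)
      refine setIntegral_congr_fun measurableSet_ball fun x hx => ?_
      have e1 : x ∈ (B0 ∪ ⋃ j, B j) ↔ x ∈ B ⟨b, hb⟩ := by
        rw [mem_union, loc B sB ⟨b, hb⟩ x hx]
        exact ⟨fun hh => hh.resolve_left fun k => k.1.2 (mem_iUnion.2 ⟨⟨b, hb⟩, hx⟩), Or.inr⟩
      have e2 := loc A sA ⟨b, hb⟩ x hx
      have e3 : (B0 ∪ ⋃ j, B j).indicator (fun x => ‖G x‖ ^ n) x =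
          (B ⟨b, hb⟩).indicator (fun x => ‖G x‖ ^ n) x := by
        by_cases k : x ∈ B ⟨b, hb⟩
        · rw [indicator_of_mem k, indicator_of_mem (e1.2 k)]
        · rw [indicator_of_notMem k, indicator_of_notMem fun k' => k (e1.1 k')]
      have e4 : (⋃ j, A j).indicator h x = (A ⟨b, hb⟩).indicator h x := by
        by_cases k : x ∈ A ⟨b, hb⟩
        · rw [indicator_of_mem k, indicator_of_mem (e2.2 k)]
        · rw [indicator_of_notMem k, indicator_of_notMem fun k' => k (e2.1 k')]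
      unfold gB
      rw [e3, e4]
    · intro x hx off
      have e2 : x ∉ ⋃ j, A j := fun hh => by
        obtain ⟨j, hj⟩ := mem_iUnion.1 hh
        exact off _ j.2 (sA j hj)
      have e1 : (B0 ∪ ⋃ j, B j).indicator (fun x => ‖G x‖ ^ n) x ≤ gn G c (2 * a) x := by
        by_cases hh : x ∈ B0 ∪ ⋃ j, B j
        · rw [indicator_of_mem hh]
          rcases hh with hh | hh
          · have k : 2 * a < dist x c * ‖G x‖ := hh.2
            simp only [gn, k, if_true, le_refl]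
          · obtain ⟨j, hj⟩ := mem_iUnion.1 hh
            exact absurd (sB j hj) (off _ j.2)
        · rw [indicator_of_notMem hh]
          exact (gn_le G c (2 * a) x).1
      simp only [gB, indicator_of_notMem e2]
      linarith

theorem Dat.passB (D : Dat Ω u G f w) {L K C1 C3 θ ε : ℝ} (hL : 1 ≤ L) (hK : 0 ≤ K)
    (h1 : 0 ≤ C1) (θ0 : 0 < θ) (θ1 : θ < 1) (θ2 : 2 / 3 ≤ θ ^ n) (h3 : 0 < C3) (hε : C3 * ε ≤ 1)
    (H : StepOK Ω u G f w L K C1 θ) (F : FluxOK Ω G w C3) :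
    PassB Ω u G f w L K C1 (4 ^ n * C3 / (1 - θ ^ 2)) ε := by
  intro O σ ct hl z r l g η η0 Ψ q R Z τ cp hR hZ
  have l0 := g.l0
  have R0 := cp.R0
  have τ0 : 0 ≤ τ := le_trans (by positivity) hZ
  have t2 : 0 < 1 - θ ^ 2 := by nlinarith
  set C2 := 4 ^ n * C3 / (1 - θ ^ 2) with hC2
  have C20 : 0 ≤ C2 := by positivity
  set h : E n → ℝ := fun x => L * ‖G x‖ ^ n + (τ + 4 * R) * ‖f x‖ with hh
  have ih : Integrable h volume := (D.iG.const_mul L).add (D.iF.norm.const_mul _)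
  have vt : volume (ball z r) ≠ ⊤ := measure_ball_lt_top.ne
  have v0 : volume (ball z r) ≠ 0 := (measure_ball_pos volume z g.r0).ne'
  set e : ℝ≥0∞ := ENNReal.ofReal (η / 2) / volume (ball z r) with he
  have e0 : e ≠ 0 := ENNReal.div_ne_zero.2 ⟨(ENNReal.ofReal_pos.2 (by positivity)).ne', vt⟩
  obtain ⟨A, mA, sA, a1, B, X, Hh, mB, sB, mX, sX, mH, eX, iH, cH, lo⟩ := LY.claim (vol := volume)
    (B := fun v : E n × ℝ × ℝ => ball v.1 v.2.1)
    (Good := fun v => Good O σ v.1 v.2.1 v.2.2)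
    (P := fun v A => PB u G f w L K C1 C2 τ R e h v.1 v.2.1 v.2.2 A)
    (fun _ => measurableSet_ball)
    (fun v hv => ⟨∅, ∅, fun _ => 0, MeasurableSet.empty, empty_subset _, MeasurableSet.empty,
      empty_subset _, measurable_const, by simp, by simp,
      ae_of_all _ fun x x1 _ _ x4 => absurd x1 x4,
      D.base hK (D.gB_int _ ih MeasurableSet.empty measurableSet_ball) hv.l0.le fun x hx => by
        have b1 : 0 ≤ C1 * τ ^ 2 * dl G w x := mul_nonneg (by positivity) (dl_nonneg G w x)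
        simp only [gB, indicator_of_mem hx, indicator_empty, hh]
        linarith⟩)
    (fun v hv => D.stepB θ0 θ1 θ2 h3 hε H F ct hl e0 ih v hv) (v := (z, r, l)) g vt
    (g := fun x => h x + ‖G x‖ ^ n) (ih.add D.iG).integrableOn (ε := η / 2) (by positivity)
  dsimp only at sA sB sX eX iH cH lo
  have lm0 := lam_nonneg G w (ball z r)
  refine ⟨B ∪ X ∪ A, Hh, (mB.union mX).union mA, union_subset (union_subset sB sX) sA, mH, ?_,
    ?_, ?_⟩
  · refine iH.trans ?_
    rw [← ENNReal.ofReal_mul (by positivity)]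
    exact ENNReal.ofReal_le_ofReal (by linarith)
  · filter_upwards [cH] with x hx x1 x2
    exact hx x1 (fun k => x2 (Or.inl (Or.inl k))) (fun k => x2 (Or.inl (Or.inr k)))
      fun k => x2 (Or.inr k)
  · have b1 := lo Ψ q R Z cp le_rfl hR hZ
    rw [D.gB_ball _ ih mB mA sB sA] at b1
    rw [integral_add ih.restrict D.iG.restrict] at a1
    have p : ∀ Y, 0 ≤ en G Y := fun Y => integral_nonneg fun _ => by positivity
    have b2 : en G X ≤ η / 2 := by
      rw [he, ENNReal.div_mul_cancel v0 vt, ← D.en_lin] at eX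
      exact (ENNReal.ofReal_le_ofReal_iff (by positivity)).1 eX
    have b3 : en G (B ∪ X ∪ A) ≤ en G B + en G X + en G A := by
      rw [← ENNReal.ofReal_le_ofReal_iff (add_nonneg (add_nonneg (p _) (p _)) (p _)),
        ENNReal.ofReal_add (add_nonneg (p _) (p _)) (p _), ENNReal.ofReal_add (p _) (p _)]
      simp only [D.en_lin]
      exact (lintegral_union_le _ _ _).trans (add_le_add (lintegral_union_le _ _ _) le_rfl)
    have b4 : ∫ x in A, ‖G x‖ ^ n = en G A := rfl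
    have b5 := p A
    have b6 := p X
    linarith

end Pool.Agent.Lib.MP_a785f2_an.LO
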