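import Pool.Agent.Lib.MP_a785f2_an.LO.Step
import Pool.Agent.Lib.MP_a785f2_an.LO.IterB
import Pool.Agent.Lib.MP_a785f2_an.LO.Fin
import Pool.Agent.Lib.MP_a785f2_an.LO.Cap
import Pool.Agent.Lib.MP_a785f2_an.LZ.Core

/-! The internal theorem. -/

open MeasureTheory Metric Set Filter Topology
open scoped ContDiff RealInnerProductSpace ENNReal

namespace Pool.Agent.Lib.MP_a785f2_an.LO

open HS (V)
open LZ (W S Op rad ten grad AA om sph sl pp ph sM sF sa sX sy sD sR en av sgm Pr Ff Rep eqCm)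

variable {n m : ℕ} {Ω : Set (E n)} {u : E n → V m} {G : E n → W n m} {f : E n → V m}
  {w : E n → ℝ}

theorem Dat.core (D : Dat Ω u G f w) : Rep Ω u := by
  obtain ⟨L, hL⟩ := exists_caps m
  obtain ⟨θ, θ0, θ1, θ2⟩ := LZ.exists_theta (n := n) (by have := D.n3; omega)
  obtain ⟨C, C0, C1, h1, hs⟩ := D.step hL
  have h1θ : 0 < 1 - θ := by linarith
  have hK : 0 ≤ C / (1 - θ) := by positivity
  have S := hs (C / (1 - θ)) θ θ0 θ1 (by rw [div_mul_cancel₀ _ h1θ.ne'])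
  have A := D.passA hL.1 hK (by linarith) θ0 θ2 S
  obtain ⟨C3, h3, F⟩ := D.flux hL hK (by linarith) A
  have h2 : 0 < 1 - θ ^ 2 := by nlinarith
  exact D.fin (C1 := C1) (C2 := 4 ^ n * C3 / (1 - θ ^ 2))
    (ε0 := C3⁻¹) hL hK (by linarith) (by positivity) (by positivity) fun ε _ he =>
      D.passB hL.1 hK (by linarith) θ0 θ1 θ2 h3
        ((mul_le_mul_of_nonneg_left he h3.le).trans (by rw [mul_inv_cancel₀ h3.ne'])) S F

end Pool.Agent.Lib.MP_a785f2_an.LO
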