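import Pool.Agent.Lib.MP_a785f2_an.LZ.EqU
import Pool.Agent.Lib.MP_a785f2_an.LY.Holes

/-!
Vocabulary for the continuity of weak solutions with an antisymmetric potential in the Lorentz
space of exponents `n` and `2`. The vocabulary of the folder `LZ` is used throughout.
-/

open MeasureTheory Metric Set Filter Topology
open scoped ContDiff RealInnerProductSpace ENNReal

namespace Pool.Agent.Lib.MP_a785f2_an.LO

open HS (V)
open LZ (W S Op rad ten grad AA om sph sl pp ph sM sF sa sX sy sD sR en av sgm Pr Ff Rep eqCm)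

variable {n m : ℕ}

/-- Weak bound of level `l` for the gradient on the set `A`. -/
def Wk (G : E n → W n m) (A : Set (E n)) (l : ℝ) : Prop :=
  ∀ a : ℝ, 0 < a → volume (A ∩ {x | a < ‖G x‖}) ≤ ENNReal.ofReal (l ^ n / a ^ n)

/-- The density of the loss. -/
noncomputable def dl (G : E n → W n m) (w : E n → ℝ) (x : E n) : ℝ := ‖G x‖ ^ (n - 2) * w x ^ 2

/-- The loss carried by a set. -/
noncomputable def lam (G : E n → W n m) (w : E n → ℝ) (A : Set (E n)) : ℝ := ∫ x in A, dl G w x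

/-- A weak solution on `Ω`; `w` is the size of the antisymmetric potential. -/
structure Dat (Ω : Set (E n)) (u : E n → V m) (G : E n → W n m) (f : E n → V m)
    (w : E n → ℝ) : Prop where
  n3 : 3 ≤ n
  op : IsOpen Ω
  mu : StronglyMeasurable u
  mG : StronglyMeasurable G
  mf : StronglyMeasurable f
  mw : Measurable w
  w0 : ∀ x, 0 ≤ w x
  iu : Integrable (fun x => ‖u x‖ ^ n) volume
  iG : Integrable (fun x => ‖G x‖ ^ n) volume
  iw : Integrable (dl G w) volume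
  asy : ∀ (x : E n) (b : V m) (c : ℝ) (θ : E n),
    ⟪b, f x⟫ ≤ w x * ‖G x‖ ^ (n - 2) * ‖b‖ * ‖G x - ten (c • b) θ‖
  apx : ∀ x0 R, closedBall x0 R ⊆ Ω → ∃ v : ℕ → E n → V m, (∀ k, ContDiff ℝ 1 (v k)) ∧
    (∀ᵐ x ∂(volume.restrict (closedBall x0 R)), Tendsto (fun k => v k x) atTop (𝓝 (u x))) ∧
    Tendsto (fun k => ∫⁻ x in closedBall x0 R, ‖v k x - u x‖ₑ ^ n) atTop (𝓝 0) ∧
    Tendsto (fun k => ∫⁻ x in closedBall x0 R, ‖grad (v k) x - G x‖ₑ ^ n) atTop (𝓝 0)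
  eq : ∀ φ : E n → V m, ContDiff ℝ 1 φ → HasCompactSupport φ → tsupport φ ⊆ Ω →
    ∫ x, ⟪AA (G x), grad φ x⟫ = ∫ x, ⟪f x, φ x⟫
  lor : ∀ ε : ℝ, 0 < ε → ∃ δ : ℝ, 0 < δ ∧ ∀ (A : Set (E n)) (l : ℝ), MeasurableSet A →
    volume A ≤ ENNReal.ofReal δ → 0 < l → Wk G A l → lam G w A ≤ ε * l ^ (n - 2)

/-- The measure `σ` controls the gradient at the point `x`. -/
def Ctl (σ : Measure (E n)) (G : E n → W n m) (x : E n) : Prop :=
  ∃ ρ : ℝ, 0 < ρ ∧ ‖G x‖ ^ n * ρ ^ n ≤ σ.real (ball x ρ)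

/-- A controlling measure on the part `O` of `Ω`. -/
structure Ct (Ω O : Set (E n)) (σ : Measure (E n)) (G : E n → W n m) : Prop where
  fin : IsFiniteMeasure σ
  na : NullSingletonClass σ
  sub : O ⊆ Ω
  ctl : ∀ᵐ x, x ∈ O → Ctl σ G x

/-- Linear growth of the measure from the scale `t` on, at level `l`. -/
def Lin (σ : Measure (E n)) (x : E n) (t l : ℝ) : Prop :=
  ∀ ρ, t ≤ ρ → σ.real (ball x ρ) ≤ l ^ n * ρ / t

/-- The point `x` is not bad at level `l` relative to the scale `s`. -/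
def NB (σ : Measure (E n)) (x : E n) (s l : ℝ) : Prop :=
  ∀ ρ, 0 < ρ → σ.real (ball x ρ) ≤ l ^ n * ρ / s

/-- A good ball of level `l`. -/
structure Good (O : Set (E n)) (σ : Measure (E n)) (z : E n) (r l : ℝ) : Prop where
  r0 : 0 < r
  l0 : 0 < l
  sub : closedBall z (2 * r) ⊆ O
  gm : LY.GoodM σ z r (l ^ n)
  far : Lin σ z r l

/-- Centre, holes and bad intervals of a good ball; `l'` is the level of the holes. -/
structure Hol (O : Set (E n)) (σ : Measure (E n)) (z : E n) (r l l' : ℝ) (c : E n)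
    (T : Set (E n × ℝ)) (J : Set (ℝ × ℝ)) : Prop where
  ctr : dist c z + r / 200 ≤ r
  cT : T.Countable
  dT : T.PairwiseDisjoint fun b => ball b.1 b.2
  sT : ∀ b ∈ T, closedBall b.1 b.2 ⊆ ball z r
  gT : ∀ b ∈ T, Good O σ b.1 b.2 l'
  rT : ∀ b ∈ T, 400 * b.2 ≤ sgm c r b.1
  vT : ∑' b : T, volume (ball b.1.1 b.1.2) ≤ volume (ball z r) / 2
  nb : ∀ x ∈ ball z r, x ≠ c → (∀ b ∈ T, x ∉ ball b.1 b.2) → NB σ x (sgm c r x) (5 * l)
  nT : ∀ b ∈ T, ∀ ρ, b.2 ≤ ρ → σ.real (ball b.1 ρ) ≤ (10 * l) ^ n * ρ / sgm c r b.1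
  cJ : J.Countable
  dJ : J.PairwiseDisjoint fun j => Ioo j.1 j.2
  pJ : ∀ j ∈ J, 0 < j.1 ∧ j.1 < j.2 ∧ j.2 ≤ 2 * j.1
  lJ : ∫⁻ s in ⋃ j ∈ J, Ioo j.1 j.2, ENNReal.ofReal s⁻¹ ≤ 1 / 100
  sh : ∀ b ∈ T, ∃ j ∈ J, ∀ x ∈ ball b.1 b.2, dist x c ∈ Ioo j.1 j.2
  gs : ∀ s, 0 < s → s ≤ r / 400 → (∀ j ∈ J, s ∉ Ioo j.1 j.2) → Good O σ c s (5 * l)

/-- A truncation of the target: the identity near `q`, bounded. -/
structure Cap (L : ℝ) (Ψ : V m → V m) (q : V m) (R : ℝ) : Prop where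
  R0 : 0 < R
  c1 : ContDiff ℝ 1 Ψ
  bd : ∀ y, ‖Ψ y - q‖ ≤ 3 * R
  dd : ∀ y, ‖fderiv ℝ Ψ y‖ ≤ L
  eq : ∀ y, ‖y - q‖ ≤ R → Ψ y = y ∧ fderiv ℝ Ψ y = ContinuousLinearMap.id ℝ (V m)

/-- Truncations with the constant `L` exist. -/
def Caps (m : ℕ) (L : ℝ) : Prop :=
  1 ≤ L ∧ ∀ (q : V m) (R : ℝ), 0 < R → ∃ Ψ, Cap L Ψ q R

/-- The density of the additive functional. -/
noncomputable def dq (u : E n → V m) (G : E n → W n m) (f : E n → V m) (Ψ : V m → V m) (Z : V m)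
    (x : E n) : ℝ := ⟪AA (G x), eqCm (fderiv ℝ Ψ (u x)) (G x)⟫ - ⟪f x, Z + Ψ (u x)⟫

/-- The additive functional. -/
noncomputable def Q (u : E n → V m) (G : E n → W n m) (f : E n → V m) (Ψ : V m → V m)
    (A : Set (E n)) (Z : V m) : ℝ := ∫ x in A, dq u G f Ψ Z x

/-- The bulk part of the Lyapunov function. -/
noncomputable def Iu (u : E n → V m) (G : E n → W n m) (f : E n → V m) (Ψ : V m → V m)
    (c : E n) (s : ℝ) : ℝ := (om n)⁻¹ * Q u G f Ψ (ball c s) 0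

/-- The boundary form of the same quantity. -/
noncomputable def sI (v : S n → V m) (p : S n → W n m) : ℝ := ∫ θ, ⟪rad (AA (p θ)) θ, v θ⟫ ∂sph n

/-- The rescaled size of the potential on a sphere. -/
noncomputable def ww (w : E n → ℝ) (c : E n) (s : ℝ) (θ : S n) : ℝ := s * w (c + s • (θ : E n))

/-- The loss on a sphere. -/
noncomputable def sL (p : S n → W n m) (o : S n → ℝ) : ℝ := ∫ θ, ‖p θ‖ ^ (n - 2) * o θ ^ 2 ∂sph n

/-- The part of a moment above the height `a`. -/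
noncomputable def tl (p : S n → W n m) (k : ℕ) (a : ℝ) : ℝ :=
  ∫ θ, (if a < ‖p θ‖ then ‖p θ‖ ^ k else 0) ∂sph n

/-- The data on one sphere. -/
structure Slc (Cp : ℝ) (v : S n → V m) (p : S n → W n m) (φ : S n → V m) (o : S n → ℝ) :
    Prop where
  mv : StronglyMeasurable v
  mp : StronglyMeasurable p
  mf : StronglyMeasurable φ
  mw : Measurable o
  w0 : ∀ θ, 0 ≤ o θ
  iv : Integrable (fun θ => ‖v θ‖ ^ n) (sph n)
  ip : Integrable (fun θ => ‖p θ‖ ^ n) (sph n)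
  iw : Integrable (fun θ => ‖p θ‖ ^ (n - 2) * o θ ^ 2) (sph n)
  asy : ∀ (θ : S n) (b : V m) (c : ℝ) (η : E n),
    ⟪b, φ θ⟫ ≤ o θ * ‖p θ‖ ^ (n - 2) * ‖b‖ * ‖p θ - ten (c • b) η‖
  po : ∀ a, ∫ θ, ‖v θ - sy v‖ ^ 2 ∂sph n ≤ Cp * ∫ θ, ‖p θ - ten a θ‖ ^ 2 ∂sph n

/-- The radial functions about the centre `c` up to the radius `R`. -/
structure Trk (u : E n → V m) (G : E n → W n m) (f : E n → V m) (w : E n → ℝ) (Cp : ℝ)
    (c : E n) (R : ℝ) (y : ℝ → V m) : Prop where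
  slc : ∀ᵐ s, s ∈ Ioo 0 R → Slc Cp (sl u c s) (pp G c s) (ph f c s) (ww w c s)
  py : Pr y (fun s => s⁻¹ • sa (pp G c s)) R
  ye : ∀ᵐ s, s ∈ Ioo 0 R → y s = sy (sl u c s)
  Fe : ∀ᵐ s, s ∈ Ioo 0 R → Ff f c s = sF (pp G c s)
  pF : Pr (Ff f c) (fun s => s⁻¹ • sD (ph f c s)) R

/-- The radial density of a function. -/
noncomputable def rd (g : E n → ℝ) (c : E n) (s : ℝ) : ℝ := s ^ (n - 1) * ∫ θ, sl g c s θ ∂sph n

/-- The gain: the energy density where the gradient exceeds the scale invariant bound. -/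
noncomputable def gn (G : E n → W n m) (c : E n) (a : ℝ) (x : E n) : ℝ :=
  if a < dist x c * ‖G x‖ then ‖G x‖ ^ n else 0

/-- The lower bound on a ball by the integral of `g`, for the parameters `τ` and `Rb`. -/
def Low (u : E n → V m) (G : E n → W n m) (f : E n → V m) (L K τ Rb : ℝ) (g : E n → ℝ)
    (z : E n) (r l : ℝ) : Prop :=
  ∀ Ψ q R Z, Cap L Ψ q R → R ≤ Rb → ‖av u z r - q‖ + K * l ≤ R → ‖Z + av u z r‖ + K * l ≤ τ →
    ∫ x in ball z r, g x ≤ Q u G f Ψ (ball z r) Z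

/-- The alternative for the flux at almost every good radius. -/
def Alt (G : E n → W n m) (c : E n) (R : ℝ) (J : Set (ℝ × ℝ)) (a : ℝ) : Prop :=
  ∀ᵐ s, s ∈ Ioo 0 R → (∀ j ∈ J, s ∉ Ioo j.1 j.2) →
    ‖sF (pp G c s)‖ ≤ a ^ (n - 1) ∨ 2 * ‖sF (pp G c s)‖ ≤ sM (pp G c s) (n - 1)

/-- The statement of one step: the bound on the holes gives the bound on the ball. -/
def StepOK (Ω : Set (E n)) (u : E n → V m) (G : E n → W n m) (f : E n → V m) (w : E n → ℝ)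
    (L K C1 θ : ℝ) : Prop :=
  ∀ O σ z r l c T J τ Rb a g, Ct Ω O σ G → Good O σ z r l → Hol O σ z r l (θ * l) c T J →
    0 ≤ a → Alt G c (r / 400) J a → Integrable g volume →
    (∀ b ∈ T, Low u G f L K τ Rb g b.1 b.2 (θ * l)) →
    (∀ x ∈ ball z r, (∀ b ∈ T, x ∉ ball b.1 b.2) →
      g x ≤ gn G c (2 * a) x / 16 - C1 * τ ^ 2 * dl G w x) →
    Low u G f L K τ Rb g z r l

/-- The standing data of one trunk. -/
structure Cx (Ω : Set (E n)) (u : E n → V m) (G : E n → W n m) (f : E n → V m) (w : E n → ℝ)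
    (Cp : ℝ) (O : Set (E n)) (σ : Measure (E n)) (z : E n) (r l l' : ℝ) (c : E n)
    (T : Set (E n × ℝ)) (J : Set (ℝ × ℝ)) (y : ℝ → V m) : Prop where
  ct : Ct Ω O σ G
  gd : Good O σ z r l
  ho : Hol O σ z r l l' c T J
  tr : Trk u G f w Cp c (r / 400) y

/-- The hypotheses on the comparison function `g` in one step. -/
structure Cg (u : E n → V m) (G : E n → W n m) (f : E n → V m) (w : E n → ℝ)
    (L K C1 τ Rb a : ℝ) (g : E n → ℝ) (z : E n) (r l' : ℝ) (c : E n) (T : Set (E n × ℝ))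
    (J : Set (ℝ × ℝ)) : Prop where
  K0 : 0 ≤ K
  a0 : 0 ≤ a
  alt : Alt G c (r / 400) J a
  ig : Integrable g volume
  low : ∀ b ∈ T, Low u G f L K τ Rb g b.1 b.2 l'
  off : ∀ x ∈ ball z r, (∀ b ∈ T, x ∉ ball b.1 b.2) →
    g x ≤ gn G c (2 * a) x / 16 - C1 * τ ^ 2 * dl G w x

/-- The radii at which the weight of the flux moves. -/
def Wd (G : E n → W n m) (c : E n) (J : Set (ℝ × ℝ)) (d : ℝ) : Set ℝ :=
  (⋃ j ∈ J, Ioo j.1 j.2) ∪ {s | d ^ (n - 1) < sM (pp G c s) (n - 1)}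

/-- The flux alternative that the first pass gives. -/
def FluxOK (Ω : Set (E n)) (G : E n → W n m) (w : E n → ℝ) (C3 : ℝ) : Prop :=
  ∀ O σ z r l l' c T J a, Ct Ω O σ G → Good O σ z r l → Hol O σ z r l l' c T J → 0 ≤ a →
    C3 * l * lam G w (ball z r) ≤ a ^ (n - 1) → Alt G c (r / 400) J a

/-- The result of the first pass. -/
def PassA (Ω : Set (E n)) (u : E n → V m) (G : E n → W n m) (f : E n → V m) (w : E n → ℝ)
    (L K C1 : ℝ) : Prop :=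
  ∀ O σ z r l τ Rb, Ct Ω O σ G → Good O σ z r l →
    Low u G f L K τ Rb (fun x => -(C1 * τ ^ 2 * dl G w x)) z r l

/-- The result of the second pass; `ε` bounds the loss on the good balls of `O`. -/
def PassB (Ω : Set (E n)) (u : E n → V m) (G : E n → W n m) (f : E n → V m) (w : E n → ℝ)
    (L K C1 C2 ε : ℝ) : Prop :=
  ∀ O σ, Ct Ω O σ G → (∀ z r l, Good O σ z r l → lam G w (ball z r) ≤ ε * l ^ (n - 2)) →
    ∀ z r l, Good O σ z r l → ∀ η : ℝ, 0 < η → ∀ Ψ q R Z τ, Cap L Ψ q R →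
      ‖av u z r - q‖ + K * l ≤ R → ‖Z + av u z r‖ + K * l ≤ τ →
      ∃ (B : Set (E n)) (H : E n → ℝ≥0∞), MeasurableSet B ∧ B ⊆ ball z r ∧ Measurable H ∧
        ∫⁻ x, H x ≤ ENNReal.ofReal (C2 * l ^ 2 * lam G w (ball z r) + η) ∧
        (∀ᵐ x, x ∈ ball z r → x ∉ B → Ctl (volume.withDensity H) G x) ∧
        en G B / 16 ≤ Q u G f Ψ (ball z r) Z + C1 * τ ^ 2 * lam G w (ball z r) + η

/-- The state of the final iteration: on the ball the gradient is bounded by `h` or controlled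
by the density `H`. -/
def St (G : E n → W n m) (M : ℝ) (x : E n) (r l : ℝ) : Prop :=
  ∃ h H : E n → ℝ≥0∞, Measurable h ∧ Measurable H ∧ ∫⁻ y, h y ≤ ENNReal.ofReal (l ^ n) ∧
    ∫⁻ y, H y ≤ ENNReal.ofReal ((l / M) ^ n) ∧
    ∀ᵐ y, y ∈ ball x r → ENNReal.ofReal (‖G y‖ ^ n) ≤ h y ∨ Ctl (volume.withDensity H) G y

/-- Membership in the Lorentz space of exponents `n` and `2` on the unit ball. -/
def InLorentz (g : E n → ℝ) : Prop :=
  ∫⁻ t in Ioi (0 : ℝ), ENNReal.ofReal t * ballMeasure n {x | t < |g x|} ^ (2 / n : ℝ) < ⊤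

end Pool.Agent.Lib.MP_a785f2_an.LO
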