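import Pool.Agent.Lib.MP_a785f2_an.LO.Weak2
import Pool.Agent.Lib.MP_a785f2_an.LY.Val

/-! Tools for the last step: Lebesgue points, choice of an annulus and of a radius. -/

open MeasureTheory Metric Set Filter Topology
open scoped ENNReal

namespace Pool.Agent.Lib.MP_a785f2_an.LO

open LZ

variable {n m : ℕ}

/-- An integrable function is controlled by its integrals over small balls. -/
theorem leb_ctl (hn : 1 ≤ n) : ∃ c : ℝ, 1 ≤ c ∧ ∀ h : E n → ℝ, Integrable h volume →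
    (∀ x, 0 ≤ h x) → ∀ᵐ x, ∃ ρ, 0 < ρ ∧ h x * ρ ^ n ≤ c * ∫ y in ball x ρ, h y := by
  have : Nonempty (Fin n) := ⟨⟨0, hn⟩⟩
  set ω := (volume : Measure (E n)).real (ball 0 1) with hω
  have ω0 : 0 < ω := ENNReal.toReal_pos (measure_ball_pos _ _ one_pos).ne' measure_ball_lt_top.ne
  refine ⟨2 / ω + 1, le_add_of_nonneg_left (by positivity), fun h hi h0 => ?_⟩
  filter_upwards [LY.ae_mean_tendsto volume hi.locallyIntegrable] with x hx
  have hI : ∀ ρ, 0 ≤ ∫ y in ball x ρ, h y := fun ρ => integral_nonneg h0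
  rcases (h0 x).eq_or_lt with e | e
  · exact ⟨1, one_pos, by rw [← e, zero_mul]; exact mul_nonneg (by positivity) (hI 1)⟩
  · obtain ⟨ρ, h1, h2⟩ := ((hx.eventually (lt_mem_nhds (half_lt_self e))).and
      self_mem_nhdsWithin).exists
    have ρ0 : 0 < ρ := h2
    refine ⟨ρ, ρ0, ?_⟩
    have hv : (volume : Measure (E n)).real (ball x ρ) = ρ ^ n * ω := by
      rw [measureReal_def, vol_ball x ρ0, ENNReal.toReal_mul, ENNReal.toReal_ofReal (by positivity),
        hω, measureReal_def]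
    rw [setAverage_eq, smul_eq_mul, hv, lt_inv_mul_iff₀ (by positivity)] at h1
    have h3 : h x * ρ ^ n ≤ 2 / ω * ∫ y in ball x ρ, h y := by
      rw [div_mul_eq_mul_div, le_div_iff₀ ω0]; nlinarith
    nlinarith [hI ρ]

/-- One of `K` annuli carries little mass. -/
theorem annulus_pick {a : ℕ → ℝ} {M : ℝ} {K : ℕ} (hK : 0 < K) (h0 : 0 ≤ a K) (h1 : a 0 ≤ M) :
    ∃ j, j < K ∧ a j - a (j + 1) ≤ M / K := by
  by_contra hc
  push Not at hc
  have hs := Finset.sum_lt_sum_of_nonempty (s := Finset.range K) (f := fun _ => M / K)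
    (g := fun j => a j - a (j + 1)) ⟨0, Finset.mem_range.2 hK⟩
    fun j hj => hc j (Finset.mem_range.1 hj)
  rw [Finset.sum_range_sub', Finset.sum_const, Finset.card_range, nsmul_eq_mul,
    mul_div_cancel₀ _ (by exact_mod_cast hK.ne')] at hs
  linarith

theorem young_low (hn : 1 ≤ n) {g a : ℝ} (hg : 0 ≤ g) (ha : 0 < a) :
    g ^ (n - 1) ≤ a ^ (n - 1) + g ^ n / a := by
  rcases le_total g a with h | h
  · exact (pow_le_pow_left₀ hg h _).trans (le_add_of_nonneg_right (by positivity))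
  · refine le_trans ?_ (le_add_of_nonneg_left (by positivity))
    obtain ⟨k, rfl⟩ := Nat.exists_eq_add_of_le' hn
    rw [Nat.add_sub_cancel, le_div_iff₀ ha, pow_succ]
    exact mul_le_mul_of_nonneg_left h (by positivity)

/-- The moment of order `n - 1` over a shell. -/
theorem shell_le (hn : 2 ≤ n) : ∃ C : ℝ, 0 < C ∧ ∀ (m : ℕ) (G : E n → W n m) (A : Set (E n))
    (τ : Measure (E n)) [IsFiniteMeasure τ] (z : E n) (ρ a b : ℝ), StronglyMeasurable G →
    Integrable (fun x => ‖G x‖ ^ n) volume → MeasurableSet A → 0 < ρ → 0 < a → 0 < b →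
    en G (A ∩ {x | dist x z ∈ Ioo ρ (2 * ρ)}) ≤ a ^ n → τ.real univ ≤ b ^ n →
    (∀ᵐ y, y ∈ ball z (2 * ρ) → y ∉ A → ∃ t, 0 < t ∧ ‖G y‖ ^ n * t ^ n ≤ τ.real (ball y t)) →
    IntegrableOn (fun x => ‖G x‖ ^ (n - 1)) {x | dist x z ∈ Ioo ρ (2 * ρ)} volume ∧
      ∫ x in {x | dist x z ∈ Ioo ρ (2 * ρ)}, ‖G x‖ ^ (n - 1) ≤
        C * (a ^ (n - 1) + b ^ (n - 1)) * ρ := by
  obtain ⟨C1, h1, H1⟩ := w1_ball n
  obtain ⟨C2, -, H2⟩ := w1_mom n
  set ω := (volume : Measure (E n)).real (ball 0 1) with hω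
  have ω0 : 0 ≤ ω := measureReal_nonneg
  refine ⟨2 ^ n * ω + 1 + 2 * C1, by positivity,
    fun m G A τ _ z ρ a b hG iG hA ρ0 a0 b0 ha hb hc => ?_⟩
  set D := {x : E n | dist x z ∈ Ioo ρ (2 * ρ)} with hD
  have mD : MeasurableSet D := (measurable_id.dist measurable_const) measurableSet_Ioo
  have sD : D ⊆ ball z (2 * ρ) := fun x hx => mem_ball.2 hx.2
  have fD : volume D ≠ ⊤ := ((measure_mono sD).trans_lt measure_ball_lt_top).ne
  have hG' : StronglyMeasurable (Aᶜ.indicator G) := hG.indicator hA.compl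
  have hc' : ∀ᵐ y, y ∈ ball z (2 * ρ) →
      ∃ t, 0 < t ∧ ‖Aᶜ.indicator G y‖ ^ n * t ^ n ≤ τ.real (ball y t) := by
    filter_upwards [hc] with y hy h
    by_cases e : y ∈ A
    · refine ⟨1, one_pos, ?_⟩
      rw [indicator_of_notMem (by simpa using e), norm_zero, zero_pow (by omega), zero_mul]
      exact measureReal_nonneg
    · rw [indicator_of_mem (mem_compl e)]; exact hy h e
  have hf : ∀ t, 2 * ρ ≤ t → τ.real (ball z t) ≤ b ^ n * t / (2 * ρ) := fun t ht => by
    refine ((measureReal_mono (subset_univ _)).trans hb).trans ?_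
    rw [le_div_iff₀ (by positivity)]
    exact mul_le_mul_of_nonneg_left ht (by positivity)
  have k1 := H1 _ τ _ z (2 * ρ) b (n - 1) (by omega) hG' (by positivity) b0 hc' hf
  have k2 := (H2 _ τ _ z (2 * ρ) b (n - 1) _ (by omega) hG' (by positivity) b0 hc' hf
    Subset.rfl).1
  rw [show n - (n - 1) = 1 by omega, pow_one] at k1
  have i1 : IntegrableOn (fun _ : E n => (a / ρ) ^ (n - 1)) D volume := integrableOn_const fD
  have i2 : IntegrableOn (fun x => A.indicator (fun x => ‖G x‖ ^ n) x / (a / ρ)) D volume :=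
    ((iG.indicator hA).div_const _).integrableOn
  have i3 := (i1.add i2).add (k2.mono_set sD)
  have pt : ∀ x, ‖G x‖ ^ (n - 1) ≤ (a / ρ) ^ (n - 1) +
      A.indicator (fun x => ‖G x‖ ^ n) x / (a / ρ) + ‖Aᶜ.indicator G x‖ ^ (n - 1) := fun x => by
    by_cases e : x ∈ A
    · rw [indicator_of_mem e]
      exact (young_low (by omega) (norm_nonneg _) (by positivity)).trans
        (le_add_of_nonneg_right (by positivity))
    · rw [indicator_of_notMem e, indicator_of_mem (mem_compl e)]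
      exact le_add_of_nonneg_left (by positivity)
  have i4 : IntegrableOn (fun x => ‖G x‖ ^ (n - 1)) D volume :=
    i3.mono' (hG.norm.pow _).aestronglyMeasurable (Eventually.of_forall fun x => by
      rw [Real.norm_of_nonneg (by positivity)]; exact pt x)
  refine ⟨i4, (integral_mono i4 i3 pt).trans ?_⟩
  have e1 := integral_add (i1.add i2) (k2.mono_set sD)
  have e2 := integral_add i1 i2
  have e3 : ∫ x in D, ‖Aᶜ.indicator G x‖ ^ (n - 1) ≤ C1 * b ^ (n - 1) * (2 * ρ) :=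
    (setIntegral_mono_set k2 (Eventually.of_forall fun _ => by positivity) sD.eventuallyLE).trans k1
  have e4 : ∫ x in D, A.indicator (fun x => ‖G x‖ ^ n) x / (a / ρ) ≤ a ^ (n - 1) * ρ := by
    rw [integral_div, setIntegral_indicator hA, inter_comm, div_le_iff₀ (by positivity)]
    refine ha.trans (le_of_eq ?_)
    obtain ⟨k, rfl⟩ : ∃ k, n = k + 1 := ⟨n - 1, by omega⟩
    rw [Nat.add_sub_cancel, pow_succ]; field_simp
  have e5 : ∫ _ in D, (a / ρ) ^ (n - 1) ≤ 2 ^ n * ω * a ^ (n - 1) * ρ := by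
    rw [setIntegral_const, smul_eq_mul]
    have hv : (volume : Measure (E n)).real D ≤ (2 * ρ) ^ n * ω := by
      refine (measureReal_mono sD measure_ball_lt_top.ne).trans (le_of_eq ?_)
      rw [measureReal_def, vol_ball z (by positivity), ENNReal.toReal_mul,
        ENNReal.toReal_ofReal (by positivity), hω, measureReal_def]
    refine (mul_le_mul_of_nonneg_right hv (by positivity)).trans (le_of_eq ?_)
    clear_value ω
    obtain ⟨k, rfl⟩ : ∃ k, n = k + 1 := ⟨n - 1, by omega⟩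
    rw [Nat.add_sub_cancel, mul_pow, pow_succ ρ, div_pow]; field_simp
  have p1 : 0 < a ^ (n - 1) * ρ := by positivity
  have p2 : 0 < b ^ (n - 1) * ρ := by positivity
  have p3 : 0 ≤ 2 ^ n * ω := by positivity
  simp only [Pi.add_apply] at e1 e2 ⊢
  rw [e1, e2]
  nlinarith [mul_nonneg p3 p2.le, mul_pos h1 p1]

/-- A radius off a small set at which the moment of order `n - 1` is small. -/
theorem radius_pick (hn : 1 ≤ n) {G : E n → W n m} (hG : StronglyMeasurable G) {z : E n}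
    {ρ M : ℝ} (ρ0 : 0 < ρ) (M0 : 0 < M)
    (hi : IntegrableOn (fun x => ‖G x‖ ^ (n - 1)) {x | dist x z ∈ Ioo ρ (2 * ρ)} volume)
    (hM : ∫ x in {x | dist x z ∈ Ioo ρ (2 * ρ)}, ‖G x‖ ^ (n - 1) ≤ M * ρ) {U : Set ℝ}
    (hU : volume U ≤ ENNReal.ofReal (ρ / 2)) {p : ℝ → Prop}
    (hp : ∀ᵐ s, s ∈ Ioo ρ (2 * ρ) → p s) :
    ∃ s ∈ Ioo ρ (2 * ρ), s ∉ U ∧ p s ∧ sM (pp G z s) (n - 1) ≤ 4 * M / om n := by
  have o0 := om_pos hn
  obtain ⟨h1, -, h3⟩ := pol_int hn z measurableSet_Ioo (fun s hs => ρ0.trans hs.1) hi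
  have h4 : EqOn (fun s : ℝ => s ^ (n - 1) • ∫ θ, sl (fun x => ‖G x‖ ^ (n - 1)) z s θ ∂sph n)
      (fun s => sM (pp G z s) (n - 1)) (Ioo ρ (2 * ρ)) := fun s hs => by
    have s0 : 0 < s := ρ0.trans hs.1
    simp only [sM, pp, sl, norm_smul, mul_pow, Real.norm_of_nonneg s0.le, smul_eq_mul]
    rw [integral_const_mul]
  rw [h3, setIntegral_congr_fun measurableSet_Ioo h4, smul_eq_mul, ← le_div_iff₀' o0] at hM
  have h5 := h1.congr_fun h4 measurableSet_Ioo
  have h6 := mul_meas_ge_le_integral_of_nonneg (μ := volume.restrict (Ioo ρ (2 * ρ)))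
    (Eventually.of_forall fun s => sM_nonneg (pp G z s) (n - 1)) h5 (4 * M / om n)
  set T := {s | 4 * M / om n ≤ sM (pp G z s) (n - 1)} with hT
  have mT : MeasurableSet T := measurableSet_le measurable_const (sM_meas hn hG z _)
  have h7 : (volume.restrict (Ioo ρ (2 * ρ))).real T ≤ ρ / 4 := by
    have h8 := h6.trans hM
    have e : M * ρ / om n = 4 * M / om n * (ρ / 4) := by ring
    rw [e] at h8
    exact le_of_mul_le_mul_left h8 (by positivity)
  have h8 : volume (T ∩ Ioo ρ (2 * ρ)) ≤ ENNReal.ofReal (ρ / 4) := by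
    rw [← Measure.restrict_apply mT, ← ofReal_measureReal (measure_ne_top _ _)]
    exact ENNReal.ofReal_le_ofReal h7
  by_contra hc
  push Not at hc
  have h9 : volume (Ioo ρ (2 * ρ)) ≤ volume (U ∪ T ∩ Ioo ρ (2 * ρ)) := measure_mono_ae (by
    filter_upwards [hp] with s hs h
    by_cases e : s ∈ U
    · exact Or.inl e
    · exact Or.inr ⟨(hc s h e (hs h)).le, h⟩)
  have h10 := h9.trans ((measure_union_le _ _).trans (add_le_add hU h8))
  rw [Real.volume_Ioo, ← ENNReal.ofReal_add (by positivity) (by positivity),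
    ENNReal.ofReal_le_ofReal_iff (by positivity)] at h10
  linarith

end Pool.Agent.Lib.MP_a785f2_an.LO
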