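import Pool.Agent.Lib.MP_a785f2_an.LO.Wk
import Pool.Agent.Lib.MP_a785f2_an.LO.Poin1
import Pool.Agent.Lib.MP_a785f2_an.LY.Poin

/-! Mean oscillation and telescoping. -/

open MeasureTheory Metric Set Filter Topology
open scoped ContDiff RealInnerProductSpace ENNReal

namespace Pool.Agent.Lib.MP_a785f2_an.LO

open HS (V)
open LZ (W S Op rad ten grad AA om sph sl pp ph sM sF sa sX sy sD sR en av sgm Pr Ff Rep eqCm)

variable {n m : ℕ} {Ω : Set (E n)} {u : E n → V m} {G : E n → W n m} {f : E n → V m}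
  {w : E n → ℝ}

/-- Telescoping down to a positive radius. -/
theorem PoinP.teleFrom {C : ℝ} {Sm : E n → ℝ → ℝ → Prop} (hP : PoinP volume Sm Ω u C) (hC : 0 ≤ C)
    (hu : LocallyIntegrable u volume) {x : E n} {t l q s0 : ℝ} (ht : 0 < t) (hl : 0 ≤ l)
    (hq : 1 < q) (hΩ : closedBall x t ⊆ Ω)
    (hm : ∀ i : ℕ, s0 ≤ t / q ^ i → Sm x (t / q ^ i) (l / 2 ^ i)) (hs : 0 < s0) (hst : s0 ≤ t) :
    ‖av u x s0 - av u x t‖ ≤ 2 * (q ^ n * (C * l)) := by
  have q0 : 0 < q := by linarith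
  set D := q ^ n * (C * l) with hD
  have D0 : 0 ≤ D := by positivity
  have key : ∀ i : ℕ, ∀ s, s0 ≤ s → t / q ^ i ≤ s → s ≤ t →
      ‖av u x s - av u x t‖ ≤ 2 * D - 2 * (D / 2 ^ i) := by
    intro i
    induction i with
    | zero =>
      intro s _ h1 h2
      have : s = t := le_antisymm h2 (by simpa using h1)
      simp [this]
    | succ i ih =>
      intro s h0 h1 h2
      have e : D / 2 ^ (i + 1) = D / 2 ^ i / 2 := by rw [pow_succ, div_div]
      have d0 : 0 ≤ D / 2 ^ i := by positivity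
      have hle : t / q ^ i ≤ t := div_le_self ht.le (one_le_pow₀ hq.le)
      rcases le_total (t / q ^ i) s with h | h
      · linarith [ih s h0 h h2]
      · have a1 : ‖av u x s - av u x (t / q ^ i)‖ ≤ _ :=
          hP.nest hC hu (x := x) (x' := x) (t := t / q ^ i) (Λ := q) (hs.trans_le h0)
            (l := l / 2 ^ i) (by positivity) (by simpa using h)
            (by rw [pow_succ, ← div_div, div_le_iff₀ q0] at h1; linarith)
            ((closedBall_subset_closedBall hle).trans hΩ) (hm i (h0.trans h))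
        rw [finrank_euclideanSpace_fin] at a1
        have a2 := ih _ (h0.trans h) le_rfl hle
        have a3 : q ^ n * (C * (l / 2 ^ i)) = D / 2 ^ i := by rw [hD]; ring
        have a4 := norm_sub_le_norm_sub_add_norm_sub (av u x s) (av u x (t / q ^ i)) (av u x t)
        linarith
  obtain ⟨i, hi⟩ := pow_unbounded_of_one_lt (t / s0) hq
  have h1 : t / q ^ i ≤ s0 := by
    rw [div_le_iff₀ (by positivity)]
    rw [div_lt_iff₀ hs] at hi
    linarith
  have d0 : 0 ≤ D / 2 ^ i := by positivity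
  linarith [key i s0 le_rfl h1 hst]

theorem Dat.apqP (D : Dat Ω u G f w) {c : E n} {R : ℝ} (h : closedBall c R ⊆ Ω) :
    LY.Apq (volume.restrict (ball c R)) n u fun x => LZ.linR (G x) := by
  have n0 : n ≠ 0 := by have := D.n3; omega
  obtain ⟨v, w1, -, w2, w3⟩ := D.apx c R h
  refine ⟨D.iuA measure_ball_lt_top.ne, ?_, v, w1, ?_, ?_⟩
  · refine Integrable.mono' (g := fun x => ‖G x‖) ?_
      (LZ.continuous_linR.comp_stronglyMeasurable D.mG).aestronglyMeasurable
      (Eventually.of_forall fun x => LZ.linR_le _)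
    simpa only [pow_one, IntegrableOn] using D.iGk (k := 1) (by omega) (A := ball c R) measure_ball_lt_top.ne
  · exact tendsto_of_tendsto_of_tendsto_of_le_of_le tendsto_const_nhds w2 (fun _ => zero_le)
      fun _ => lintegral_mono_set ball_subset_closedBall
  · refine tendsto_of_tendsto_of_tendsto_of_le_of_le tendsto_const_nhds w3 (fun _ => zero_le)
      fun k => le_trans (lintegral_mono fun y => ?_) (lintegral_mono_set ball_subset_closedBall)
    rw [← LZ.linR_grad, ← LZ.linR_sub]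
    exact pow_le_pow_left' (enorm_le_iff_norm_le.2 (LZ.linR_le _)) n

theorem Dat.poinP (D : Dat Ω u G f w) : ∃ C : ℝ, 1 ≤ C ∧ ∀ O σ, Ct Ω O σ G →
    PoinP volume (Lin σ) O u C := by
  obtain ⟨C, hC, H⟩ := poin_lin (n := n) (by linarith [D.n3])
  refine ⟨C, hC, fun O σ ct => ?_⟩
  have := ct.fin
  exact H m O u G σ D.mG (fun c R h => D.apqP (h.trans ct.sub)) ct.ctl

theorem Dat.poin (D : Dat Ω u G f w) : ∃ C : ℝ, 0 < C ∧ ∀ O σ x t l, Ct Ω O σ G → 0 < t →
    0 < l → closedBall x t ⊆ O → Lin σ x t l →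
    ∫ y in ball x t, ‖u y - av u x t‖ ≤ C * l * (volume : Measure (E n)).real (ball x t) := by
  obtain ⟨C, hC, H⟩ := D.poinP
  refine ⟨C, by linarith, fun O σ x t l ct ht hl hx he => ?_⟩
  have h := H O σ ct x t l ht hl.le hx he
  have p : 0 < (volume : Measure (E n)).real (ball x t) :=
    ENNReal.toReal_pos (measure_ball_pos _ _ ht).ne' measure_ball_lt_top.ne
  rw [setAverage_eq, smul_eq_mul, inv_mul_le_iff₀ p, mul_comm] at h
  exact h

theorem Dat.cmp (D : Dat Ω u G f w) (M : ℝ) : ∃ C : ℝ, 0 < C ∧ ∀ O σ x t z r l, Ct Ω O σ G →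
    0 < t → 0 < l → ball x t ⊆ ball z r → r ≤ M * t → closedBall z r ⊆ O → Lin σ z r l →
    ‖av u x t - av u z r‖ ≤ C * l := by
  obtain ⟨C, hC, H⟩ := D.poinP
  refine ⟨(|M| + 1) ^ n * C, by positivity, fun O σ x t z r l ct ht hl h1 h2 h3 h4 => ?_⟩
  have h := (H O σ ct).nest' (by linarith) D.loc (Λ := |M| + 1) ht hl.le h1
    (h2.trans (mul_le_mul_of_nonneg_right (by linarith [le_abs_self M]) ht.le)) h3 h4
  rw [finrank_euclideanSpace_fin, ← mul_assoc] at h
  exact h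

theorem Dat.tel (D : Dat Ω u G f w) : ∃ C : ℝ, 0 < C ∧ ∀ O σ x t0 t l, Ct Ω O σ G → 0 < t0 →
    t0 ≤ t → 0 < l → closedBall x t ⊆ O →
    (∀ ρ, t0 ≤ ρ → σ.real (ball x ρ) ≤ l ^ n * ρ / t) → ‖av u x t0 - av u x t‖ ≤ C * l := by
  obtain ⟨C, hC, H⟩ := D.poinP
  have hq : (1 : ℝ) < 2 ^ n := one_lt_pow₀ one_lt_two (by linarith [D.n3])
  refine ⟨2 * ((2 ^ n) ^ n * C), by positivity, fun O σ x t0 t l ct h0 h1 hl h2 h3 => ?_⟩
  have ht : 0 < t := h0.trans_le h1
  refine ((H O σ ct).teleFrom (by linarith) D.loc ht hl.le hq h2 (fun i hi ρ hρ => ?_) h0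
    h1).trans (le_of_eq (by ring))
  refine (h3 ρ (hi.trans hρ)).trans (le_of_eq ?_)
  rw [div_pow, ← pow_mul, ← pow_mul, mul_comm i]
  field_simp

theorem Dat.leb (D : Dat Ω u G f w) :
    ∀ᵐ x, Tendsto (fun t => av u x t) (𝓝[>] 0) (𝓝 (u x)) := by
  have : Nonempty (Fin n) := ⟨⟨0, by linarith [D.n3]⟩⟩
  exact LY.ae_mean_tendsto volume D.loc

end Pool.Agent.Lib.MP_a785f2_an.LO
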