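import Pool.Agent.Lib.MP_a785f2_an.LO.Defs
import Pool.Agent.Lib.MP_a785f2_an.LZ.Sph0

/-! Crude bounds on one sphere. -/

open MeasureTheory Metric Set Filter Topology
open scoped ContDiff RealInnerProductSpace ENNReal

namespace Pool.Agent.Lib.MP_a785f2_an.LO

open HS (V)
open LZ (W S Op rad ten grad AA om sph sl pp ph sM sF sa sX sy sD sR en av sgm Pr Ff Rep eqCm)

variable {n m : ℕ} {Ω : Set (E n)} {u : E n → V m} {G : E n → W n m} {f : E n → V m}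
  {w : E n → ℝ}

variable {Cp : ℝ} {v : S n → V m} {p : S n → W n m} {φ : S n → V m} {o : S n → ℝ}

theorem Slc.ik (s : Slc Cp v p φ o) (hn : 1 ≤ n) {k : ℕ} (hk : k ≤ n) :
    Integrable (fun θ => ‖p θ‖ ^ k) (sph n) := by
  have := LZ.sph_prob hn
  exact LZ.int_pow_le s.mp.norm.aestronglyMeasurable (fun _ => norm_nonneg _) hk s.ip

theorem Slc.f_le (s : Slc Cp v p φ o) (hn : 2 ≤ n) (θ : S n) :
    ‖φ θ‖ ≤ o θ * ‖p θ‖ ^ (n - 1) := by
  have h := s.asy θ (φ θ) 0 0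
  have h0 : ten ((0 : ℝ) • φ θ) (0 : E n) = 0 := by
    rw [← norm_eq_zero, LZ.norm_ten, norm_zero, mul_zero]
  rw [h0, sub_zero, real_inner_self_eq_norm_sq] at h
  have e : ‖p θ‖ ^ (n - 1) = ‖p θ‖ ^ (n - 2) * ‖p θ‖ := by
    rw [← pow_succ]; congr 1; omega
  have w0 := s.w0 θ
  rcases (norm_nonneg (φ θ)).eq_or_lt with h1 | h1
  · rw [← h1]; positivity
  · refine le_of_mul_le_mul_right ?_ h1
    rw [e, ← sq]
    linarith

theorem young_o (hn : 2 ≤ n) {a : ℝ} (ha : 0 ≤ a) (o τ : ℝ) :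
    2 * τ * (o * a ^ (n - 1)) ≤ a ^ n / 2 + 2 * τ ^ 2 * (a ^ (n - 2) * o ^ 2) := by
  obtain ⟨k, rfl⟩ := Nat.exists_eq_add_of_le' hn
  change 2 * τ * (o * a ^ (k + 1)) ≤ a ^ (k + 2) / 2 + 2 * τ ^ 2 * (a ^ k * o ^ 2)
  have h := mul_nonneg (pow_nonneg ha k) (sq_nonneg (a - 2 * τ * o))
  have e : a ^ (k + 2) / 2 + 2 * τ ^ 2 * (a ^ k * o ^ 2) - 2 * τ * (o * a ^ (k + 1)) =
      a ^ k * (a - 2 * τ * o) ^ 2 / 2 := by ring
  linarith

theorem Slc.io (s : Slc Cp v p φ o) (hn : 2 ≤ n) :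
    Integrable (fun θ => o θ * ‖p θ‖ ^ (n - 1)) (sph n) := by
  refine (s.ip.add s.iw).mono'
    (s.mw.aestronglyMeasurable.mul (s.mp.norm.pow _).aestronglyMeasurable)
    (ae_of_all _ fun θ => ?_)
  have w0 := s.w0 θ
  have h := young_o hn (norm_nonneg (p θ)) (o θ) (1 / 2)
  have h1 : 0 ≤ ‖p θ‖ ^ n := by positivity
  have h2 : 0 ≤ ‖p θ‖ ^ (n - 2) * o θ ^ 2 := by positivity
  rw [Real.norm_of_nonneg (by positivity), Pi.add_apply]
  linarith

theorem Slc.iφ (s : Slc Cp v p φ o) (hn : 2 ≤ n) : Integrable φ (sph n) := by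
  exact (s.io hn).mono' s.mf.aestronglyMeasurable (ae_of_all _ (s.f_le hn))

theorem Slc.cheb1 (s : Slc Cp v p φ o) (hn : 1 ≤ n) : sM p 1 * sM p (n - 1) ≤ sM p n := by
  have := LZ.sph_prob hn
  have e : 1 + (n - 1) = n := by omega
  have h := LZ.cheb (μ := sph n) (h := fun θ => ‖p θ‖) (j := 1) (k := n - 1)
    s.mp.norm.aestronglyMeasurable (fun _ => norm_nonneg _) (by rw [e]; exact s.ip)
  rw [e] at h
  exact h

theorem Slc.sa_le (s : Slc Cp v p φ o) (hn : 1 ≤ n) : ‖sa p‖ ≤ sM p 1 := by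
  refine norm_integral_le_of_norm_le (s.ik hn hn) (ae_of_all _ fun θ => ?_)
  have h := LZ.norm_rad_le (p θ) θ
  rw [norm_eq_of_mem_sphere θ, mul_one] at h
  rw [pow_one]
  exact h

theorem radA_le (hn : 2 ≤ n) (q : W n m) (θ : S n) : ‖rad (AA q) θ‖ ≤ ‖q‖ ^ (n - 1) := by
  have h := LZ.norm_rad_le (AA q) θ
  rwa [norm_eq_of_mem_sphere θ, mul_one, LZ.norm_AA hn] at h

theorem Slc.iA (s : Slc Cp v p φ o) (hn : 2 ≤ n) :
    Integrable (fun θ : S n => rad (AA (p θ)) θ) (sph n) :=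
  (s.ik (by omega) (Nat.sub_le n 1)).mono'
    (LZ.continuous_rad.comp_stronglyMeasurable ((LZ.continuous_AA.comp_stronglyMeasurable
      s.mp).prodMk continuous_subtype_val.stronglyMeasurable)).aestronglyMeasurable
    (ae_of_all _ fun θ => radA_le hn _ θ)

theorem Slc.ia (s : Slc Cp v p φ o) (hn : 1 ≤ n) :
    Integrable (fun θ : S n => rad (p θ) θ) (sph n) := by
  refine (s.ik hn hn).mono' (LZ.continuous_rad.comp_stronglyMeasurable
    (s.mp.prodMk continuous_subtype_val.stronglyMeasurable)).aestronglyMeasurable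
    (ae_of_all _ fun θ => ?_)
  have h := LZ.norm_rad_le (p θ) θ
  rwa [norm_eq_of_mem_sphere θ, mul_one, ← pow_one ‖p θ‖] at h

theorem int_inner {g v' : S n → V m} (hg : Integrable g (sph n)) (mv : StronglyMeasurable v')
    {d : ℝ} {q : V m} (h : ∀ᵐ θ ∂sph n, ‖v' θ - q‖ ≤ d) (y : V m) :
    Integrable (fun θ => ⟪g θ, v' θ - y⟫) (sph n) := by
  refine (hg.norm.mul_const (d + ‖q - y‖)).mono'
    (hg.1.inner (mv.sub stronglyMeasurable_const).aestronglyMeasurable)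
    (h.mono fun θ hθ => (norm_inner_le_norm _ _).trans ?_)
  exact mul_le_mul_of_nonneg_left
    ((norm_sub_le_norm_sub_add_norm_sub _ q _).trans (by linarith)) (norm_nonneg _)

theorem Slc.sF_le (s : Slc Cp v p φ o) (hn : 2 ≤ n) : ‖sF p‖ ≤ sM p (n - 1) := by
  exact norm_integral_le_of_norm_le (s.ik (by omega) (Nat.sub_le n 1))
    (ae_of_all _ fun θ => radA_le hn _ θ)

theorem Slc.sR_shift (s : Slc Cp v p φ o) (hn : 2 ≤ n) {d : ℝ} {q : V m}
    (h : ∀ᵐ θ ∂sph n, ‖v θ - q‖ ≤ d) (y : V m) : sR v φ y = sR v φ 0 - ⟪sD φ, y⟫ := by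
  have iφ := s.iφ hn
  have i0 := int_inner iφ s.mv h 0
  rw [sR, sR, sD, real_inner_comm, ← integral_inner iφ, ← integral_sub i0 (iφ.const_inner y)]
  refine integral_congr_ae (ae_of_all _ fun θ => ?_)
  simp only [sub_zero, inner_sub_right, real_inner_comm y]

theorem Slc.sI_le (s : Slc Cp v p φ o) (hn : 2 ≤ n) {v' : S n → V m}
    (mv : StronglyMeasurable v') {d : ℝ} {q : V m} (h : ∀ᵐ θ ∂sph n, ‖v' θ - q‖ ≤ d) :
    |sI v' p - ⟪sF p, q⟫| ≤ d * sM p (n - 1) := by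
  have iA := s.iA hn
  have i0 := int_inner iA mv h 0
  simp only [sub_zero] at i0
  rw [sI, sF, real_inner_comm, ← integral_inner iA, ← integral_sub i0 (iA.const_inner q), sM,
    ← integral_const_mul, ← Real.norm_eq_abs]
  refine norm_integral_le_of_norm_le ((s.ik (by omega) (Nat.sub_le n 1)).const_mul d)
    (h.mono fun θ hθ => ?_)
  rw [real_inner_comm _ q, ← inner_sub_right, mul_comm]
  exact (norm_inner_le_norm _ _).trans
    (mul_le_mul (radA_le hn _ θ) hθ (norm_nonneg _) (by positivity))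

theorem sL_nonneg (p : S n → W n m) (o : S n → ℝ) : 0 ≤ sL p o := by
  exact integral_nonneg fun _ => by positivity

/-- The crude sphere lemma. -/
theorem Slc.crude (s : Slc Cp v p φ o) (hn : 3 ≤ n) {d τ : ℝ} (hd : 0 ≤ d) (hτ : d ≤ τ)
    (h : ∀ᵐ θ ∂sph n, ‖v θ - sy v‖ ≤ d) : ∃ ν : ℝ, 0 ≤ ν ∧ ⟪sF p, sD φ⟫ ≤ ν * ‖sF p‖ ∧
      sM p n / 2 - 2 * τ ^ 2 * sL p o ≤ sM p n + sR v φ (sy v) - τ * ν := by
  have n2 : 2 ≤ n := by omega
  have io := s.io n2
  set ν := ∫ θ, o θ * ‖p θ‖ ^ (n - 1) ∂sph n with hν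
  have ν0 : 0 ≤ ν := integral_nonneg fun θ => mul_nonneg (s.w0 θ) (by positivity)
  have h1 : ‖sD φ‖ ≤ ν := norm_integral_le_of_norm_le io (ae_of_all _ (s.f_le n2))
  have h2 : ‖sR v φ (sy v)‖ ≤ d * ν := by
    rw [hν, ← integral_const_mul]
    refine norm_integral_le_of_norm_le (io.const_mul d) (h.mono fun θ hθ => ?_)
    rw [mul_comm]
    exact (norm_inner_le_norm _ _).trans (mul_le_mul (s.f_le n2 θ) hθ (norm_nonneg _)
      (mul_nonneg (s.w0 θ) (by positivity)))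
  have h3 : 2 * τ * ν ≤ sM p n / 2 + 2 * τ ^ 2 * sL p o := by
    rw [hν, sM, sL, ← integral_const_mul, ← integral_div, ← integral_const_mul,
      ← integral_add (s.ip.div_const 2) (s.iw.const_mul _)]
    exact integral_mono (io.const_mul _) ((s.ip.div_const 2).add (s.iw.const_mul _))
      fun θ => young_o n2 (norm_nonneg _) _ _
  refine ⟨ν, ν0, (real_inner_le_norm _ _).trans ?_, ?_⟩
  · rw [mul_comm]
    exact mul_le_mul_of_nonneg_right h1 (norm_nonneg _)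
  · have h4 := (abs_le.1 h2).1
    have h5 := mul_le_mul_of_nonneg_right hτ ν0
    have _ := hd
    linarith

end Pool.Agent.Lib.MP_a785f2_an.LO
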