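import Pool.Agent.Lib.MP_a785f2_an.LO.Slc
import Pool.Agent.Lib.MP_a785f2_an.LO.Sph0
import Pool.Agent.Lib.MP_a785f2_an.LO.Poin

/-! The boundary form and the flux alternative. -/

open MeasureTheory Metric Set Filter Topology
open scoped ContDiff RealInnerProductSpace ENNReal

namespace Pool.Agent.Lib.MP_a785f2_an.LO

open HS (V)
open LZ (W S Op rad ten grad AA om sph sl pp ph sM sF sa sX sy sD sR en av sgm Pr Ff Rep eqCm)

variable {n m : ℕ} {Ω : Set (E n)} {u : E n → V m} {G : E n → W n m} {f : E n → V m}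
  {w : E n → ℝ}

theorem Dat.bd (D : Dat Ω u G f w) {L K : ℝ} (hL : Caps m L) (hK : 0 ≤ K) : ∃ C : ℝ, 0 < C ∧
    ∀ O σ c l, Ct Ω O σ G → ∀ᵐ s, Good O σ c s l → ∃ Ψ q, Cap L Ψ q (C * l) ∧
      ‖av u c s - q‖ + K * l ≤ C * l ∧ ∀ Z, Q u G f Ψ (ball c s) Z ≤
        om n * (3 * (C * l) * sM (pp G c s) (n - 1) + ⟪sF (pp G c s), Z + q⟫) := by
  obtain ⟨C0, c0, H0⟩ := D.cmp 2
  obtain ⟨Cp, -, H1⟩ := D.slc
  have n2 : 2 ≤ n := by have := D.n3; omega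
  refine ⟨2 * C0 + K, by positivity, fun O σ c l ct => ?_⟩
  rcases le_or_gt l 0 with hl | hl
  · exact ae_of_all _ fun s g => absurd g.l0 (not_lt.2 hl)
  have R0 : 0 < (2 * C0 + K) * l := by positivity
  choose Ψ hΨ using fun q => hL.2 q _ R0
  have H : ∀ᵐ s, ∀ ρ : ℚ, closedBall c (ρ : ℝ) ⊆ Ω → s ∈ Ioo 0 (ρ : ℝ) →
      Slc Cp (sl u c s) (pp G c s) (ph f c s) (ww w c s) ∧ Ff f c s = sF (pp G c s) ∧
        Iu u G f (Ψ (av u c ρ)) c s = sI (fun θ => Ψ (av u c ρ) (sl u c s θ)) (pp G c s) := by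
    refine ae_all_iff.2 fun ρ => ?_
    by_cases hR : closedBall c (ρ : ℝ) ⊆ Ω
    · filter_upwards [H1 c ρ hR, D.rad2 hR, D.rad3 (hΨ (av u c ρ)) hR] with s h1 h2 h3 _ hs
      exact ⟨h1 hs, h2 hs, h3 hs⟩
    · exact ae_of_all _ fun s h => absurd h hR
  filter_upwards [H] with s hs g
  have s0 := g.r0
  obtain ⟨ρ, r1, r2⟩ := exists_rat_btwn (show s < 2 * s by linarith)
  have sub : closedBall c (ρ : ℝ) ⊆ O := (closedBall_subset_closedBall r2.le).trans g.sub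
  obtain ⟨h1, h2, h3⟩ := hs ρ (sub.trans ct.sub) ⟨s0, r1⟩
  have := ct.fin
  have h4 := H0 O σ c s c ρ (2 * l) ct s0 (by positivity) (ball_subset_ball r1.le) r2.le sub
    (g.lin n2 (by rw [dist_self]; positivity) (s0.trans r1) r2.le)
  refine ⟨_, _, hΨ (av u c ρ), by linarith, fun Z => ?_⟩
  have h5 := h1.sI_le n2 (v' := fun θ => Ψ (av u c ρ) (sl u c s θ))
    ((hΨ _).c1.continuous.comp_stronglyMeasurable h1.mv)
    (ae_of_all _ fun θ => (hΨ (av u c ρ)).bd _)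
  rw [D.Q_ball (hΨ _), h2, h3, inner_add_right]
  refine mul_le_mul_of_nonneg_left ?_ (LZ.om_pos (by omega)).le
  linarith [(abs_le.1 h5).2]

theorem Dat.flux (D : Dat Ω u G f w) {L K C1 : ℝ} (hL : Caps m L) (hK : 0 ≤ K) (h1 : 0 ≤ C1)
    (H : PassA Ω u G f w L K C1) : ∃ C3 : ℝ, 0 < C3 ∧ FluxOK Ω G w C3 := by
  obtain ⟨C, C0, H0⟩ := D.bd hL hK
  have n1 : 1 ≤ n := by have := D.n3; omega
  have o0 := LZ.om_pos n1
  refine ⟨845 * C * C1 / om n + 1, by positivity, fun O σ z r l l' c T J a ct g ho a0 ha => ?_⟩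
  filter_upwards [H0 O σ c (5 * l) ct] with s hs h2 h3
  have gs := ho.gs s h2.1 h2.2.le h3
  obtain ⟨Ψ, q, cp, h4, h5⟩ := hs gs
  obtain ⟨R, hR⟩ : ∃ R, R = C * (5 * l) := ⟨_, rfl⟩
  obtain ⟨F, hF⟩ : ∃ F, F = sF (pp G c s) := ⟨_, rfl⟩
  rw [← hR] at cp h4 h5
  rw [← hF] at h5 ⊢
  have R0 := cp.R0
  have l0 := g.l0
  have r0 := g.r0
  have t1 : ‖‖F‖⁻¹ • F‖ ≤ 1 := by
    rw [norm_smul, norm_inv, norm_norm]
    exact inv_mul_le_one_of_le₀ le_rfl (norm_nonneg _)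
  have t2 : ⟪F, ‖F‖⁻¹ • F⟫ = ‖F‖ := by
    rw [real_inner_smul_right, real_inner_self_eq_norm_mul_norm, ← mul_assoc, inv_mul_mul_self]
  have t3 : ‖-q - (12 * R) • ‖F‖⁻¹ • F + av u c s‖ + K * (5 * l) ≤ 13 * R := by
    have e : -q - (12 * R) • ‖F‖⁻¹ • F + av u c s = av u c s - q - (12 * R) • ‖F‖⁻¹ • F := by abel
    have h := norm_sub_le (av u c s - q) ((12 * R) • ‖F‖⁻¹ • F)
    rw [norm_smul (12 * R), Real.norm_of_nonneg (by positivity : 0 ≤ 12 * R)] at h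
    have h' := mul_le_mul_of_nonneg_left t1 (by positivity : 0 ≤ 12 * R)
    rw [e]
    linarith
  have h6 := (H O σ c s (5 * l) (13 * R) R ct gs Ψ q R _ cp le_rfl h4 t3).trans (h5 _)
  have e1 : -q - (12 * R) • ‖F‖⁻¹ • F + q = -((12 * R) • ‖F‖⁻¹ • F) := by abel
  rw [e1, inner_neg_right, real_inner_smul_right, t2, integral_neg, integral_const_mul] at h6
  have h7 : lam G w (ball c s) ≤ lam G w (ball z r) :=
    D.lam_mono (ball_subset_ball' (by linarith [ho.ctr, h2.2]))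
  have h8 := lam_nonneg G w (ball z r)
  rcases le_or_gt (2 * ‖F‖) (sM (pp G c s) (n - 1)) with h | h
  · exact Or.inr h
  refine Or.inl (le_trans ?_ ha)
  have h9 : R * (om n * ‖F‖) ≤ R * (169 * R * C1 * lam G w (ball z r)) := by
    have k1 : C1 * (13 * R) ^ 2 * lam G w (ball c s) ≤ C1 * (13 * R) ^ 2 * lam G w (ball z r) :=
      mul_le_mul_of_nonneg_left h7 (by positivity)
    have k2 := mul_le_mul_of_nonneg_left h.le (by positivity : 0 ≤ om n * (3 * R))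
    have k3 : 0 ≤ R * (om n * ‖F‖) := by positivity
    change -(C1 * (13 * R) ^ 2 * lam G w (ball c s)) ≤ _ at h6
    linarith
  have h10 := le_of_mul_le_mul_left h9 R0
  have h11 : ‖F‖ ≤ 845 * C * C1 / om n * l * lam G w (ball z r) := by
    rw [div_mul_eq_mul_div, div_mul_eq_mul_div, le_div_iff₀ o0]
    rw [hR] at h10
    linarith
  have h12 : 0 ≤ l * lam G w (ball z r) := by positivity
  linarith

end Pool.Agent.Lib.MP_a785f2_an.LO
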