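import Pool.Agent.Lib.MP_a785f2_an.LO.Bas
import Pool.Agent.Lib.MP_a785f2_an.LZ.Frz

/-! The additive functional. -/

open MeasureTheory Metric Set Filter Topology
open scoped ContDiff RealInnerProductSpace ENNReal

namespace Pool.Agent.Lib.MP_a785f2_an.LO

open HS (V)
open LZ (W S Op rad ten grad AA om sph sl pp ph sM sF sa sX sy sD sR en av sgm Pr Ff Rep eqCm)

variable {n m : ℕ} {Ω : Set (E n)} {u : E n → V m} {G : E n → W n m} {f : E n → V m}
  {w : E n → ℝ}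

variable {L : ℝ} {Ψ : V m → V m} {q : V m} {R : ℝ}

theorem Dat.dq_le (D : Dat Ω u G f w) (h : Cap L Ψ q R) (Z : V m) (x : E n) :
    |dq u G f Ψ Z x| ≤ L * ‖G x‖ ^ n + (‖Z + q‖ + 3 * R) * ‖f x‖ := by
  have hn := D.sol.n2
  have h1 : |⟪AA (G x), eqCm (fderiv ℝ Ψ (u x)) (G x)⟫| ≤ L * ‖G x‖ ^ n := by
    refine (abs_real_inner_le_norm _ _).trans ?_
    have h3 := (LZ.eqCm_norm (fderiv ℝ Ψ (u x)) (G x)).trans
      (mul_le_mul_of_nonneg_right (h.dd _) (norm_nonneg _))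
    rw [LZ.norm_AA hn]
    calc _ ≤ ‖G x‖ ^ (n - 1) * (L * ‖G x‖) := by gcongr
      _ = L * ‖G x‖ ^ (n - 1 + 1) := by ring
      _ = _ := by rw [Nat.sub_add_cancel (by omega)]
  have h2 : ‖Z + Ψ (u x)‖ ≤ ‖Z + q‖ + 3 * R := by
    have e : Z + Ψ (u x) = Z + q + (Ψ (u x) - q) := by abel
    rw [e]
    exact (norm_add_le _ _).trans (add_le_add le_rfl (h.bd _))
  have h3 : |⟪f x, Z + Ψ (u x)⟫| ≤ (‖Z + q‖ + 3 * R) * ‖f x‖ := by
    rw [mul_comm]
    exact (abs_real_inner_le_norm _ _).trans (mul_le_mul_of_nonneg_left h2 (norm_nonneg _))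
  exact (abs_sub _ _).trans (add_le_add h1 h3)

theorem Dat.iQ (D : Dat Ω u G f w) (h : Cap L Ψ q R) (Z : V m) :
    Integrable (dq u G f Ψ Z) volume := by
  have a1 : StronglyMeasurable fun x => Ψ (u x) := h.c1.continuous.comp_stronglyMeasurable D.mu
  have a2 : StronglyMeasurable fun x => fderiv ℝ Ψ (u x) :=
    (h.c1.continuous_fderiv one_ne_zero).comp_stronglyMeasurable D.mu
  have mA : StronglyMeasurable fun x => AA (G x) := LZ.continuous_AA.comp_stronglyMeasurable D.mG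
  have a4 : StronglyMeasurable fun x => eqCm (fderiv ℝ Ψ (u x)) (G x) :=
    LZ.eqCm_cont.comp_stronglyMeasurable (a2.prodMk D.mG)
  exact ((D.iG.const_mul L).add (D.iF.norm.const_mul _)).mono'
    ((mA.inner a4).sub (D.mf.inner (a1.const_add Z))).aestronglyMeasurable
    (ae_of_all _ (D.dq_le h Z))

theorem Dat.dq_eq (D : Dat Ω u G f w) (h : Cap L Ψ q R) (Z : V m) {x : E n}
    (hx : ‖u x - q‖ ≤ R) : dq u G f Ψ Z x = ‖G x‖ ^ n - ⟪f x, Z + u x⟫ := by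
  have hn := D.sol.n2
  have e : eqCm (ContinuousLinearMap.id ℝ (V m)) (G x) = G x := rfl
  rw [dq, (h.eq _ hx).1, (h.eq _ hx).2, e, AA, real_inner_smul_left, real_inner_self_eq_norm_sq,
    ← pow_add, Nat.sub_add_cancel hn]

theorem Dat.Q_ball (D : Dat Ω u G f w) (h : Cap L Ψ q R) (c : E n) (s : ℝ) (Z : V m) :
    Q u G f Ψ (ball c s) Z = om n * (Iu u G f Ψ c s + ⟪Ff f c s, Z⟫) := by
  have h0 := (LZ.om_pos D.sol.n1).ne'
  have h2 : Integrable (fun x => ⟪Z, f x⟫) (volume.restrict (ball c s)) :=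
    D.iF.integrableOn.const_inner Z
  have h3 : ⟪∫ x in ball c s, f x, Z⟫ = ∫ x in ball c s, ⟪Z, f x⟫ := by
    rw [real_inner_comm, ← integral_inner D.iF.integrableOn]
  have h4 : Q u G f Ψ (ball c s) Z = Q u G f Ψ (ball c s) 0 - ∫ x in ball c s, ⟪Z, f x⟫ := by
    rw [Q, Q, ← integral_sub (D.iQ h 0).integrableOn h2]
    refine integral_congr_ae (ae_of_all _ fun x => ?_)
    simp only [dq, inner_add_right, inner_zero_right, real_inner_comm (f x) Z]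
    ring
  rw [h4, Iu, Ff, inner_neg_left, real_inner_smul_left, h3]
  field_simp
  ring

theorem Dat.frozen (D : Dat Ω u G f w) (h : Cap L Ψ q R) {U : Set (E n)} (mU : MeasurableSet U)
    {T : Set (E n × ℝ)} (cT : T.Countable) (dT : T.PairwiseDisjoint fun b => ball b.1 b.2)
    (sT : ∀ b ∈ T, ball b.1 b.2 ⊆ U) (Z : V m) {g : E n → ℝ} (ig : Integrable g volume)
    {τ : ℝ} (h1 : ∀ b ∈ T, ∫ x in ball b.1 b.2, g x ≤ Q u G f Ψ (ball b.1 b.2) Z)
    (h2 : ∀ᵐ x, x ∈ U → (∀ b ∈ T, x ∉ ball b.1 b.2) → ‖u x - q‖ ≤ R ∧ ‖Z + u x‖ ≤ τ ∧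
      g x ≤ ‖G x‖ ^ n / 2 - τ ^ 2 * dl G w x / 2) :
    ∫ x in U, g x ≤ Q u G f Ψ U Z := by
  have key : ∀ B : Set (E n), ∫ x in B, (dq u G f Ψ Z x - g x) = Q u G f Ψ B Z - ∫ x in B, g x :=
    fun B => integral_sub (D.iQ h Z).integrableOn ig.integrableOn
  have h3 := LZ.pieces (μ := volume) mU cT (B := fun b => ball b.1 b.2)
    (fun _ _ => measurableSet_ball) dT sT ((D.iQ h Z).sub ig).integrableOn
    (fun b hb => (key _).symm ▸ sub_nonneg.2 (h1 b hb)) (h2.mono fun x hx hU hT => by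
      obtain ⟨k1, k2, k3⟩ := hx hU hT
      have h4 := D.f_young x τ
      have h5 := (real_inner_le_norm (f x) (Z + u x)).trans
        (mul_le_mul_of_nonneg_left k2 (norm_nonneg _))
      rw [Pi.sub_apply, D.dq_eq h Z k1]
      linarith)
  exact sub_nonneg.1 (key U ▸ h3)

theorem gn_le (G : E n → W n m) (c : E n) (a : ℝ) (x : E n) :
    0 ≤ gn G c a x ∧ gn G c a x ≤ ‖G x‖ ^ n := by
  unfold gn
  split_ifs
  · exact ⟨by positivity, le_rfl⟩
  · exact ⟨le_rfl, by positivity⟩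

end Pool.Agent.Lib.MP_a785f2_an.LO
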