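import Pool.Agent.Lib.MP_a785f2_an.LO.Frz
import Pool.Agent.Lib.MP_a785f2_an.LZ.Rad1
import Pool.Agent.Lib.MP_a785f2_an.LZ.PrC
import Pool.Agent.Lib.MP_a785f2_an.LY.Div

/-! The radial functions. -/

open MeasureTheory Metric Set Filter Topology
open scoped ContDiff RealInnerProductSpace ENNReal

namespace Pool.Agent.Lib.MP_a785f2_an.LO

open HS (V)
open LZ (W S Op rad ten grad AA om sph sl pp ph sM sF sa sX sy sD sR en av sgm Pr Ff Rep eqCm)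

variable {n m : ℕ} {Ω : Set (E n)} {u : E n → V m} {G : E n → W n m} {f : E n → V m}
  {w : E n → ℝ}

theorem Dat.rad1 (D : Dat Ω u G f w) {c : E n} {R : ℝ} (hR : closedBall c R ⊆ Ω) :
    ∃ y : ℝ → V m, Pr y (fun s => s⁻¹ • sa (pp G c s)) R ∧
      ∀ᵐ s, s ∈ Ioo 0 R → y s = sy (sl u c s) := by
  exact D.sol.mean hR

theorem Dat.rad2 (D : Dat Ω u G f w) {c : E n} {R : ℝ} (hR : closedBall c R ⊆ Ω) :
    ∀ᵐ s, s ∈ Ioo 0 R → Ff f c s = sF (pp G c s) := by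
  exact D.sol.flux hR

theorem Dat.rad3 (D : Dat Ω u G f w) {L : ℝ} {Ψ : V m → V m} {q : V m} {R0 : ℝ}
    (h : Cap L Ψ q R0) {c : E n} {R : ℝ} (hR : closedBall c R ⊆ Ω) :
    ∀ᵐ s, s ∈ Ioo 0 R → Iu u G f Ψ c s = sI (fun θ => Ψ (sl u c s θ)) (pp G c s) := by
  have h0 := (LZ.om_pos D.sol.n1).ne'
  have b0 : ∀ y, ‖Ψ y‖ ≤ max (‖q‖ + 3 * R0) L := fun y => by
    refine le_trans ?_ (le_max_left _ _)
    linarith [h.bd y, norm_sub_norm_le (Ψ y) q]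
  filter_upwards [D.sol.r3 h.c1 b0 (fun y => (h.dd y).trans (le_max_right _ _)) hR] with s hs k
  have e := hs k
  simp only [Iu, Q, dq, zero_add]
  rw [e, ← mul_assoc, inv_mul_cancel₀ h0, one_mul, sI]

theorem Dat.prF (D : Dat Ω u G f w) (c : E n) (R : ℝ) :
    Pr (Ff f c) (fun s => s⁻¹ • sD (ph f c s)) R := by
  exact D.sol.prF c R

theorem Dat.prI (D : Dat Ω u G f w) {L : ℝ} {Ψ : V m → V m} {q : V m} {R0 : ℝ}
    (h : Cap L Ψ q R0) (c : E n) (R : ℝ) :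
    Pr (Iu u G f Ψ c) (rd (dq u G f Ψ 0) c) R := by
  obtain ⟨h1, h2⟩ := LZ.pol_pr D.sol.n1 c R (D.iQ h 0)
  have o0 := (LZ.om_pos D.sol.n1).ne'
  refine ⟨fun a b ha hab hb => (h1 a b ha hab hb).const_smul (om n)⁻¹, ?_⟩
  filter_upwards [h2] with s hs h0
  refine ((hs h0).const_smul (om n)⁻¹).congr_deriv ?_
  rw [rd, smul_smul, ← mul_assoc, inv_mul_cancel₀ o0, one_mul, smul_eq_mul]

end Pool.Agent.Lib.MP_a785f2_an.LO
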