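import Pool.Agent.Lib.MP_a785f2_an.LO.Hol
import Pool.Agent.Lib.MP_a785f2_an.LO.Rad
import Pool.Agent.Lib.MP_a785f2_an.LY.Claim

/-! The first pass. -/

open MeasureTheory Metric Set Filter Topology
open scoped ContDiff RealInnerProductSpace ENNReal

namespace Pool.Agent.Lib.MP_a785f2_an.LO

open HS (V)
open LZ (W S Op rad ten grad AA om sph sl pp ph sM sF sa sX sy sD sR en av sgm Pr Ff Rep eqCm)

variable {n m : ℕ} {Ω : Set (E n)} {u : E n → V m} {G : E n → W n m} {f : E n → V m}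
  {w : E n → ℝ}

theorem Dat.alt_big (D : Dat Ω u G f w) : ∃ a : ℝ, 0 ≤ a ∧ ∀ c R J, closedBall c R ⊆ Ω →
    Alt G c R J a := by
  have n3 := D.n3
  refine ⟨max 1 (|(om n)⁻¹| * ∫ x, ‖f x‖), zero_le_one.trans (le_max_left _ _),
    fun c R J hR => ?_⟩
  filter_upwards [D.rad2 hR] with s hs h1 _
  refine Or.inl ?_
  rw [← hs h1]
  refine le_trans ?_ ((le_max_right 1 _).trans (le_self_pow₀ (le_max_left _ _) (by omega)))
  rw [Ff, norm_neg, norm_smul, Real.norm_eq_abs]
  refine mul_le_mul_of_nonneg_left ((norm_integral_le_integral_norm _).trans ?_) (abs_nonneg _)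
  exact setIntegral_le_integral D.iF.norm (ae_of_all _ fun x => norm_nonneg _)

theorem Dat.base (D : Dat Ω u G f w) {L K τ Rb : ℝ} (hK : 0 ≤ K) {g : E n → ℝ}
    (ig : Integrable g volume) {z : E n} {r l : ℝ} (hl : 0 ≤ l)
    (h : ∀ x ∈ ball z r, g x ≤ -(L * ‖G x‖ ^ n + (τ + 4 * Rb) * ‖f x‖)) :
    Low u G f L K τ Rb g z r l := by
  intro Ψ q R Z cap hR hq hZ
  refine setIntegral_mono_on ig.integrableOn (D.iQ cap Z).integrableOn measurableSet_ball
    fun x hx => (h x hx).trans ?_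
  have a1 := (abs_le.1 (D.dq_le cap Z x)).1
  have a2 : ‖Z + q‖ ≤ ‖Z + av u z r‖ + ‖av u z r - q‖ := by
    have := norm_sub_le (Z + av u z r) (av u z r - q)
    rwa [show Z + av u z r - (av u z r - q) = Z + q by abel] at this
  have a3 : 0 ≤ K * l := mul_nonneg hK hl
  have a4 : (‖Z + q‖ + 3 * R) * ‖f x‖ ≤ (τ + 4 * Rb) * ‖f x‖ :=
    mul_le_mul_of_nonneg_right (by linarith) (norm_nonneg _)
  linarith

theorem Dat.passA (D : Dat Ω u G f w) {L K C1 θ : ℝ} (hL : 1 ≤ L) (hK : 0 ≤ K) (h1 : 0 ≤ C1)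
    (θ0 : 0 < θ) (θ2 : 2 / 3 ≤ θ ^ n) (H : StepOK Ω u G f w L K C1 θ) :
    PassA Ω u G f w L K C1 := by
  intro O σ z r l τ Rb ct gd Ψ q R Z cap hR hq hZ
  obtain ⟨a, a0, alt⟩ := D.alt_big
  have b0 : 0 ≤ τ + 4 * Rb := by
    have := mul_nonneg hK gd.l0.le
    have := norm_nonneg (Z + av u z r)
    have := cap.R0
    linarith
  obtain ⟨k, hk⟩ : ∃ k : E n → ℝ, k = fun x => L * ‖G x‖ ^ n + (τ + 4 * Rb) * ‖f x‖ := ⟨_, rfl⟩
  have k0 : ∀ x, 0 ≤ k x := fun x => by rw [hk]; positivity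
  have ik : Integrable k volume := hk ▸ (D.iG.const_mul L).add (D.iF.norm.const_mul _)
  have d0 : ∀ x, 0 ≤ C1 * τ ^ 2 * dl G w x := fun x =>
    mul_nonneg (by positivity) (dl_nonneg G w x)
  have i0 : Integrable (fun x => -(C1 * τ ^ 2 * dl G w x)) volume := (D.iw.const_mul _).neg
  have ig : ∀ A : Set (E n), MeasurableSet A →
      Integrable (fun x => -(C1 * τ ^ 2 * dl G w x) - A.indicator k x) volume := fun A mA =>
    i0.sub (ik.indicator mA)
  have step : ∀ v : E n × ℝ × ℝ, Good O σ v.1 v.2.1 v.2.2 →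
      LY.StepAt volume (fun v : E n × ℝ × ℝ => ball v.1 v.2.1)
        (fun v => Good O σ v.1 v.2.1 v.2.2)
        (fun v A => Low u G f L K τ Rb
          (fun x => -(C1 * τ ^ 2 * dl G w x) - A.indicator k x) v.1 v.2.1 v.2.2) v := by
    rintro ⟨z, r, l⟩ g
    have l0 : 0 < l := g.l0
    have r0 : 0 < r := g.r0
    obtain ⟨c, T, J, h⟩ := holes D.n3 ct g (l' := θ * l) (mul_pos θ0 l0) (by
      rw [mul_pow]
      exact mul_le_mul_of_nonneg_right θ2 (pow_pos l0 n).le)
    have cT : Countable T := h.cT.to_subtype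
    have sub : closedBall c (r / 400) ⊆ Ω :=
      (closedBall_subset_closedBall' (by linarith [h.ctr])).trans (g.sub.trans ct.sub)
    refine ⟨T, cT, fun j => (j.1.1, j.1.2, θ * l), fun j => h.gT _ j.2,
      fun j => ball_subset_closedBall.trans (h.sT _ j.2), fun i j hij => ?_,
      (measure_iUnion_le _).trans h.vT, fun A mA _ pA => ?_⟩
    · exact h.dT i.2 j.2 fun e => hij (Subtype.ext e)
    have mU := MeasurableSet.iUnion mA
    refine H O σ z r l c T J τ Rb a _ ct g h a0 (alt c _ J sub) (ig _ mU)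
      (fun b hb Ψ q R Z cap hR hq hZ => le_trans ?_ (pA ⟨b, hb⟩ Ψ q R Z cap hR hq hZ))
      fun x _ _ => ?_
    · exact integral_mono (ig _ mU).integrableOn (ig _ (mA _)).integrableOn fun x =>
        sub_le_sub_left (indicator_le_indicator_of_subset (subset_iUnion A _) k0 x) _
    · have := (gn_le G c (2 * a) x).1
      have : 0 ≤ (⋃ j, A j).indicator k x := indicator_nonneg (fun y _ => k0 y) x
      linarith
  refine le_of_forall_pos_le_add fun ε hε => ?_
  obtain ⟨A, mA, sA, a1, a2⟩ := LY.claim (vol := volume)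
    (B := fun v : E n × ℝ × ℝ => ball v.1 v.2.1) (Good := fun v => Good O σ v.1 v.2.1 v.2.2)
    (P := fun v A => Low u G f L K τ Rb
      (fun x => -(C1 * τ ^ 2 * dl G w x) - A.indicator k x) v.1 v.2.1 v.2.2)
    (fun _ => measurableSet_ball)
    (fun v hv => D.base hK (ig _ measurableSet_ball) hv.l0.le fun x hx => by
      rw [indicator_of_mem hx, hk]
      linarith [d0 x])
    step (v := (z, r, l)) gd measure_ball_lt_top.ne (g := k) ik.integrableOn hε
  have a3 := a2 Ψ q R Z cap hR hq hZ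
  rw [integral_sub i0.integrableOn (ik.indicator mA).integrableOn, setIntegral_indicator mA,
    inter_eq_right.2 sA] at a3
  linarith

end Pool.Agent.Lib.MP_a785f2_an.LO
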