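import Pool.Agent.Lib.MP_a785f2_an.LO.Tail

/-! The Lorentz condition gives a small loss. -/

open MeasureTheory Metric Set Filter Topology
open scoped ContDiff RealInnerProductSpace ENNReal

namespace Pool.Agent.Lib.MP_a785f2_an.LO

open HS (V)
open LZ (W S Op rad ten grad AA om sph sl pp ph sM sF sa sX sy sD sR en av sgm Pr Ff Rep eqCm)

variable {n m : ℕ} {Ω : Set (E n)} {u : E n → V m} {G : E n → W n m} {f : E n → V m}
  {w : E n → ℝ}

theorem lor (hn : 3 ≤ n) (mG : StronglyMeasurable G) {g : E n → ℝ} (mg : Measurable g)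
    (hg : ∫⁻ t in Ioi (0 : ℝ), ENNReal.ofReal t * volume {x | t < |g x|} ^ (2 / n : ℝ) < ⊤)
    {ε : ℝ} (hε : 0 < ε) : ∃ δ : ℝ, 0 < δ ∧ ∀ (A : Set (E n)) (l : ℝ), MeasurableSet A →
      volume A ≤ ENNReal.ofReal δ → 0 < l → Wk G A l →
      ∫⁻ x in A, ENNReal.ofReal (‖G x‖ ^ (n - 2) * g x ^ 2) ≤
        ENNReal.ofReal (ε * l ^ (n - 2)) := by
  have n0 : (0 : ℝ) < n := by exact_mod_cast (by omega : 0 < n)
  have hp : (0 : ℝ) < 2 / n := by positivity
  obtain ⟨C, hC⟩ : ∃ C : ℝ, C = 1 + 2 ^ (n - 2 + 1) := ⟨_, rfl⟩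
  have C0 : 0 < C := by rw [hC]; positivity
  have ma : Measurable fun x => |g x| := mg.abs
  have an : Antitone fun s : ℝ => volume {x | s < |g x|} := fun a b hab =>
    measure_mono fun y hy => hab.trans_lt hy
  have hd : Tendsto (fun j : ℕ => ENNReal.ofReal (1 / ((j : ℝ) + 1))) atTop (𝓝 0) := by
    have h := ENNReal.tendsto_ofReal (tendsto_one_div_add_atTop_nhds_zero_nat (𝕜 := ℝ))
    rwa [ENNReal.ofReal_zero] at h
  have ht := tendsto_lintegral_of_dominated_convergence (μ := volume.restrict (Ioi (0 : ℝ)))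
    (F := fun (j : ℕ) s => ENNReal.ofReal s *
      min (volume {x | s < |g x|}) (ENNReal.ofReal (1 / ((j : ℝ) + 1))) ^ (2 / n : ℝ))
    (f := fun _ => 0) (fun s => ENNReal.ofReal s * volume {x | s < |g x|} ^ (2 / n : ℝ))
    (fun j => measurable_id.ennreal_ofReal.mul ((an.measurable.min measurable_const).pow_const _))
    (fun j => Eventually.of_forall fun s => mul_le_mul_right
      (ENNReal.rpow_le_rpow (min_le_left _ _) hp.le) _) hg.ne
    (Eventually.of_forall fun s => by
      have h1 : Tendsto (fun j : ℕ => min (volume {x | s < |g x|})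
          (ENNReal.ofReal (1 / ((j : ℝ) + 1)))) atTop (𝓝 0) :=
        tendsto_of_tendsto_of_tendsto_of_le_of_le tendsto_const_nhds hd (fun _ => zero_le)
          fun _ => min_le_right _ _
      have h2 := (ENNReal.continuous_rpow_const (y := (2 / n : ℝ))).tendsto 0 |>.comp h1
      rw [ENNReal.zero_rpow_of_pos hp] at h2
      have h3 := ENNReal.Tendsto.const_mul (a := ENNReal.ofReal s) h2
        (Or.inr ENNReal.ofReal_ne_top)
      rwa [mul_zero] at h3)
  rw [lintegral_zero] at ht
  obtain ⟨j, hj⟩ := (ht.eventually (ge_mem_nhds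
    (ENNReal.ofReal_pos.2 (by positivity : 0 < ε / (2 * C))))).exists
  refine ⟨1 / ((j : ℝ) + 1), by positivity, fun A l mA hA hl H => ?_⟩
  have hm : Measurable fun y => ENNReal.ofReal (‖G y‖ ^ (n - 2)) :=
    (mG.norm.measurable.pow_const _).ennreal_ofReal
  set ν := (volume.restrict A).withDensity fun y => ENNReal.ofReal (‖G y‖ ^ (n - 2)) with hν
  have h1 := lintegral_rpow_eq_lintegral_meas_lt_mul ν (f := fun x => |g x|)
    (Eventually.of_forall fun x => abs_nonneg _) ma.aemeasurable (by norm_num : (0 : ℝ) < 2)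
  have h2 : ∫⁻ y, ENNReal.ofReal (|g y| ^ (2 : ℝ)) ∂ν =
      ∫⁻ y in A, ENNReal.ofReal (‖G y‖ ^ (n - 2) * g y ^ 2) := by
    rw [hν, lintegral_withDensity_eq_lintegral_mul _ hm (ma.pow_const _).ennreal_ofReal]
    refine lintegral_congr fun y => ?_
    rw [Pi.mul_apply, ← ENNReal.ofReal_mul (by positivity), Real.rpow_two, sq_abs]
  have he : (1 - ((n - 2 : ℕ) : ℝ) / n : ℝ) = 2 / n := by
    rw [Nat.cast_sub (by omega)]; field_simp; push_cast; ring
  have h3 : ∀ s : ℝ, ν {y | s < |g y|} ≤ ENNReal.ofReal (C * l ^ (n - 2)) *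
      min (volume {x | s < |g x|}) (ENNReal.ofReal (1 / ((j : ℝ) + 1))) ^ (2 / n : ℝ) := fun s => by
    have hs : MeasurableSet {y | s < |g y|} := measurableSet_lt measurable_const ma
    have : IsFiniteMeasure (volume.restrict ({y | s < |g y|} ∩ A)) := isFiniteMeasure_restrict.2
      ((measure_mono inter_subset_right).trans_lt (hA.trans_lt ENNReal.ofReal_lt_top)).ne
    have h4 := moment_le (volume.restrict ({y | s < |g y|} ∩ A)) (k := n - 2) (n := n) (by omega) hl
      (fun x => norm_nonneg (G x)) (fun b hb => by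
        rw [Measure.restrict_apply (measurableSet_lt measurable_const mG.norm.measurable),
          inter_comm, div_pow]
        exact (measure_mono (inter_subset_inter_left _ inter_subset_right)).trans (H b hb))
      mG.norm.measurable
    rw [Measure.restrict_apply_univ, he, ← hC] at h4
    rw [hν, withDensity_apply _ hs, Measure.restrict_restrict hs]
    exact h4.trans (mul_le_mul_right (ENNReal.rpow_le_rpow (le_min
      (measure_mono inter_subset_left) ((measure_mono inter_subset_right).trans hA)) hp.le) _)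
  have e1 : ε * l ^ (n - 2) = 2 * (C * l ^ (n - 2) * (ε / (2 * C))) := by field_simp
  rw [← h2, h1, e1, ENNReal.ofReal_mul (p := 2) (by norm_num), ENNReal.ofReal_mul (by positivity)]
  refine mul_le_mul_right (le_trans ?_ (mul_le_mul_right hj _)) _
  rw [← lintegral_const_mul' _ _ ENNReal.ofReal_ne_top]
  refine lintegral_mono fun s => ?_
  have e : (2 : ℝ) - 1 = 1 := by norm_num
  rw [e, Real.rpow_one, mul_comm (ENNReal.ofReal s), ← mul_assoc]
  exact mul_le_mul_left (h3 s) _

end Pool.Agent.Lib.MP_a785f2_an.LO
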