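import Pool.Agent.Lib.MP_a785f2_an.LO.Tr
import Pool.Agent.Lib.MP_a785f2_an.LO.Scale
import Pool.Agent.Lib.MP_a785f2_an.CX3.Fin

/-! The exact threshold on the Lorentz scale. -/

open MeasureTheory Metric Set

namespace Pool.Agent.Lib.MP_a785f2_an.LO

theorem sharp (n : ℕ) (hn : 3 ≤ n) (q : ℝ) (hq : 0 < q) :
    (∀ (m : ℕ) (u : Fin m → E n → ℝ) (G : Fin m → Fin n → E n → ℝ)
      (Ω : Fin n → Fin m → Fin m → E n → ℝ), IsW1n u G → IsAntisymPotential Ω →
      (∀ α i j, InLorentzSpace q (Ω α i j)) → IsWeakSolution G Ω → HasContinuousRep u) ↔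
    q ≤ 2 := by
  refine ⟨fun H => ?_, fun h2 m u G Ω hu hΩ hL he =>
    main hn u G Ω hu hΩ (fun α i j => scale_down (by omega) hq h2 (hL α i j)) he⟩
  by_contra h2
  have hr : (3 : ℝ) ≤ n := by exact_mod_cast hn
  obtain ⟨u, G, Ω, hu, hΩ, he, hc, ⟨C, hb⟩, -⟩ := CX3.family n hn (1 / 2) (by linarith) le_rfl
  refine hc (H _ u G Ω hu hΩ (fun α i j => scale_up (C := (|C| + 1) * (|C| + 1)) (by omega)
    (not_le.1 h2) (by positivity) ?_) he)
  filter_upwards [hb, ae_restrict_mem measurableSet_ball] with x hx hb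
  rw [mem_ball_zero_iff] at hb
  have b0 : 0 ≤ 1 - Real.log ‖x‖ := by linarith [Real.log_nonpos (norm_nonneg x) hb.le]
  have b1 : 0 ≤ ‖x‖ * (1 - Real.log ‖x‖) ^ (1 / 2 : ℝ) := by positivity
  have b2 : C ≤ |C| + 1 := by linarith [le_abs_self C]
  have b3 : 0 ≤ gradNorm G x := Real.sqrt_nonneg _
  rw [mul_div_assoc]
  exact (hx.2.1 α i j).trans (mul_le_mul b2 (hx.2.2.trans (div_le_div_of_nonneg_right b2 b1)) b3
    (by positivity))

end Pool.Agent.Lib.MP_a785f2_an.LO
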