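import Pool.Agent.Lib.MP_a785f2_an.LO.Rad
import Pool.Agent.Lib.MP_a785f2_an.LZ.Slc

/-! The data on almost every sphere. -/

open MeasureTheory Metric Set Filter Topology
open scoped ContDiff RealInnerProductSpace ENNReal

namespace Pool.Agent.Lib.MP_a785f2_an.LO

open HS (V)
open LZ (W S Op rad ten grad AA om sph sl pp ph sM sF sa sX sy sD sR en av sgm Pr Ff Rep eqCm)

variable {n m : ℕ} {Ω : Set (E n)} {u : E n → V m} {G : E n → W n m} {f : E n → V m}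
  {w : E n → ℝ}

theorem Dat.slc (D : Dat Ω u G f w) : ∃ Cp : ℝ, 0 < Cp ∧ ∀ c R, closedBall c R ⊆ Ω →
    ∀ᵐ s, s ∈ Ioo 0 R → Slc Cp (sl u c s) (pp G c s) (ph f c s) (ww w c s) := by
  have n3 := D.n3
  have n1 := D.sol.n1
  obtain ⟨Cp, C1, hC⟩ := sol_poin n m n3
  refine ⟨Cp, by linarith, fun c R hR => ?_⟩
  filter_upwards [hC Ω u G f D.sol c R hR, LY.polar_slice n1 c D.iw] with s k1 k2 h0
  obtain ⟨i1, i2, i3⟩ := k1 h0
  obtain ⟨k, rfl⟩ : ∃ k, n = k + 2 := ⟨n - 2, by omega⟩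
  have s0 := h0.1
  have np : ∀ θ, ‖pp G c s θ‖ = s * ‖G (c + s • (θ : E (k + 2)))‖ := fun θ => by
    rw [pp, norm_smul, Real.norm_of_nonneg s0.le]
  refine ⟨LZ.sl_meas D.mu c s, LZ.pp_meas D.mG c s, ((LZ.sl_meas D.mf c s).const_smul (s ^ (k + 2))).neg,
    (LZ.sl_meas D.mw.stronglyMeasurable c s).measurable.const_mul s,
    fun θ => mul_nonneg s0.le (D.w0 _), i1, i2, ?_, fun θ b a η => ?_, i3⟩
  · refine ((LZ.int_sph n1 (k2 s0)).const_mul (s ^ (k + 2))).congr (ae_of_all _ fun θ => ?_)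
    simp only [np, ww, dl, Nat.add_sub_cancel]
    ring
  · have h := D.asy (c + s • (θ : E (k + 2))) (-b) (-(s⁻¹ * a)) η
    have e : pp G c s θ - ten (a • b) η =
        s • (G (c + s • (θ : E (k + 2))) - ten (-(s⁻¹ * a) • -b) η) := by
      rw [smul_sub, pp, neg_smul_neg]
      congr 1
      ext1 α
      simp only [ten, PiLp.smul_apply, smul_smul]
      congr 1
      field_simp
    rw [inner_neg_left, norm_neg] at h
    rw [ph, inner_neg_right, real_inner_smul_right, e, norm_smul, Real.norm_of_nonneg s0.le, np, ww]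
    simp only [Nat.add_sub_cancel] at h ⊢
    calc _ = s ^ (k + 2) * -⟪b, f (c + s • (θ : E (k + 2)))⟫ := by ring
      _ ≤ _ := mul_le_mul_of_nonneg_left h (by positivity)
      _ = _ := by ring

theorem Dat.trk (D : Dat Ω u G f w) : ∃ Cp : ℝ, 0 < Cp ∧ ∀ c R, closedBall c R ⊆ Ω →
    ∃ y, Trk u G f w Cp c R y := by
  obtain ⟨Cp, h0, h⟩ := D.slc
  refine ⟨Cp, h0, fun c R hR => ?_⟩
  obtain ⟨y, h1, h2⟩ := D.rad1 hR
  exact ⟨y, h c R hR, h1, h2, D.rad2 hR, D.prF c R⟩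

end Pool.Agent.Lib.MP_a785f2_an.LO
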