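import Pool.Agent.Lib.MP_a785f2_an.LO.Defs
import Pool.Agent.Lib.MP_a785f2_an.LO.Weak

/-! From a weak bound to the integral of the tail. -/

open MeasureTheory Metric Set Filter Topology
open scoped ContDiff RealInnerProductSpace ENNReal

namespace Pool.Agent.Lib.MP_a785f2_an.LO

open HS (V)
open LZ (W S Op rad ten grad AA om sph sl pp ph sM sF sa sX sy sD sR en av sgm Pr Ff Rep eqCm)

variable {n m : ℕ} {Ω : Set (E n)} {u : E n → V m} {G : E n → W n m} {f : E n → V m}
  {w : E n → ℝ}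

theorem tail {α : Type} [MeasurableSpace α] {k : ℕ} (hk : k < n) : ∃ C : ℝ, 0 < C ∧
    ∀ (ν : Measure α) (h : α → ℝ) (a B : ℝ), Measurable h → 0 < a → 0 ≤ B →
      (∀ b, a ≤ b → ν {x | b < h x} ≤ ENNReal.ofReal (B / b ^ n)) →
      ∫⁻ x in {x | a < h x}, ENNReal.ofReal (h x ^ k) ∂ν ≤
        ENNReal.ofReal (C * B / a ^ (n - k)) := by
  exact ⟨2 ^ (k + 1), by positivity, fun ν h a B mh ha hB H => tail_le ν hk hB ha H mh⟩

theorem wk_int {k : ℕ} (hk : k < n) : ∃ C : ℝ, 0 < C ∧ ∀ (G : E n → W n m) (A B : Set (E n))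
    (l a : ℝ), StronglyMeasurable G → MeasurableSet A → MeasurableSet B → B ⊆ A → 0 ≤ l →
      0 < a → Wk G A l → ∫⁻ x in B, ENNReal.ofReal (‖G x‖ ^ k) ≤
        ENNReal.ofReal (a ^ k) * volume B + ENNReal.ofReal (C * l ^ n / a ^ (n - k)) := by
  refine ⟨2 ^ (k + 1), by positivity, fun G A B l a mG _ _ hB hl ha H => ?_⟩
  have h := split_le (volume.restrict B) hk (K := l ^ n) (by positivity) ha
    (fun x => norm_nonneg (G x)) (fun b hb => by
      rw [Measure.restrict_apply (measurableSet_lt measurable_const mG.norm.measurable),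
        inter_comm]
      exact (measure_mono (inter_subset_inter_left _ hB)).trans (H b (ha.trans_le hb)))
    mG.norm.measurable
  rwa [Measure.restrict_apply_univ] at h

end Pool.Agent.Lib.MP_a785f2_an.LO
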