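import Pool.Agent.Lib.MP_a785f2_an.LO.Weak
import Pool.Agent.Lib.MP_a785f2_an.LO.Defs
import Pool.Agent.Lib.MP_a785f2_an.LZ.Polar

/-! Weak type bounds with the scale invariant weight about a centre. -/

open MeasureTheory Metric Set Filter Topology
open scoped ENNReal

namespace Pool.Agent.Lib.MP_a785f2_an.LO

open LZ

variable {n m : ℕ}

/-- The scale invariant measure about `c`. -/
noncomputable def wt (c : E n) : Measure (E n) :=
  volume.withDensity fun y => ENNReal.ofReal (dist y c ^ n)⁻¹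

theorem wt_ball {c y : E n} {s ρ : ℝ} (hs : 0 < s) (hρ : 0 < ρ) (h : s + ρ ≤ dist y c) :
    wt c (ball y ρ) ≤ ENNReal.ofReal ((ρ / s) ^ n) * volume (ball (0 : E n) 1) := by
  rw [wt, withDensity_apply _ measurableSet_ball]
  calc _ ≤ ∫⁻ _ in ball y ρ, ENNReal.ofReal (s ^ n)⁻¹ :=
        setLIntegral_mono' measurableSet_ball fun z hz => ENNReal.ofReal_le_ofReal
          (inv_anti₀ (by positivity) (pow_le_pow_left₀ hs.le (by
            have h1 := dist_triangle y z c
            have h2 := mem_ball'.1 hz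
            linarith) n))
    _ = _ := by
        rw [setLIntegral_const, vol_ball y hρ, ← mul_assoc, ← ENNReal.ofReal_mul (by positivity)]
        congr 2; rw [div_pow]; ring

/-- (W2), weak type. -/
theorem w2_weak (hn : 1 ≤ n) {sig : Measure (E n)} [IsFiniteMeasure sig] {g : E n → ℝ} {c : E n}
    {R l a : ℝ} (hR : 0 < R) (hl : 0 < l) (ha : 20 * l ≤ a)
    (hc : ∀ᵐ y, y ∈ ball c R → ∃ ρ, 0 < ρ ∧ g y ^ n * ρ ^ n ≤ sig.real (ball y ρ))
    (hf : ∀ ρ, R ≤ ρ → sig.real (ball c ρ) ≤ l ^ n * ρ / R) :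
    wt c ({y | a < g y * dist y c} ∩ ball c R) ≤
      ENNReal.ofReal (2 * (8 * l / a) ^ n) * volume (ball (0 : E n) 1) := by
  have ha0 : 0 < a := by linarith
  set S := {y | (a < g y * dist y c ∧ y ∈ ball c R) ∧
    ∃ ρ, 0 < ρ ∧ g y ^ n * ρ ^ n ≤ sig.real (ball y ρ)} with hS
  have h0 : wt c ({y | a < g y * dist y c} ∩ ball c R) ≤ wt c S :=
    measure_mono_ae (by
      filter_upwards [(withDensity_absolutelyContinuous _ _).ae_le hc] with y hy h
        using ⟨h, hy h.2⟩)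
  refine h0.trans ?_
  have hd0 : ∀ y ∈ S, 0 < dist y c := fun y hy => by
    rcases (dist_nonneg (x := y) (y := c)).eq_or_lt with h | h
    · have := hy.1.1; rw [← h, mul_zero] at this; linarith
    · exact h
  have hex : ∀ y ∈ S, ∃ ρ, 0 < ρ ∧ ρ ≤ dist y c / 10 ∧
      a ^ n * (ρ / dist y c) ^ n ≤ sig.real (ball y ρ) := by
    rintro y hy
    have hs := hd0 y hy
    obtain ⟨⟨h1, hyR⟩, ρ, h2, h3⟩ := hy
    set s := dist y c with hsd
    have hsR : s < R := mem_ball.1 hyR
    have h4 : a ^ n * (ρ / s) ^ n ≤ sig.real (ball y ρ) := by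
      refine le_trans ?_ h3
      rw [← mul_pow, ← mul_pow]
      refine pow_le_pow_left₀ (by positivity) ?_ n
      rw [← mul_div_assoc, div_le_iff₀ hs]
      nlinarith
    refine ⟨ρ, h2, ?_, h4⟩
    by_contra hb
    rw [not_le] at hb
    have h5 : 1 / 10 < ρ / s := by rw [lt_div_iff₀ hs]; linarith
    have h6 : sig.real (ball y ρ) ≤ l ^ n * (11 * (ρ / s)) := by
      have h7 : ball y ρ ⊆ ball c (11 * (ρ / s) * R) := ball_subset_ball' (by
        have e : ρ = ρ / s * s := by field_simp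
        have : ρ / s * s ≤ ρ / s * R := mul_le_mul_of_nonneg_left hsR.le (by positivity)
        nlinarith)
      refine ((measureReal_mono h7).trans (hf _ (by nlinarith))).trans (le_of_eq ?_)
      field_simp
    obtain ⟨d, rfl⟩ : ∃ d, n = d + 1 := ⟨n - 1, by omega⟩
    have h8 := h4.trans h6
    have h9 : (20 * l) ^ (d + 1) ≤ a ^ (d + 1) := pow_le_pow_left₀ (by positivity) ha _
    have h10 : (1 / 10 : ℝ) ^ d ≤ (ρ / s) ^ d := pow_le_pow_left₀ (by norm_num) h5.le _
    have h11 : (1 : ℝ) ≤ 20 ^ d * (1 / 10) ^ d := by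
      rw [← mul_pow]; exact one_le_pow₀ (by norm_num)
    have h12 : (1 : ℝ) ≤ 20 ^ d * (ρ / s) ^ d :=
      h11.trans (mul_le_mul_of_nonneg_left h10 (by positivity))
    have h13 : (20 * l) ^ (d + 1) * (ρ / s) ^ (d + 1) =
        20 * (20 ^ d * (ρ / s) ^ d) * (l ^ (d + 1) * (ρ / s)) := by
      simp only [mul_pow, pow_succ]; ring
    have h14 := (mul_le_mul_of_nonneg_right h9 (by positivity : 0 ≤ (ρ / s) ^ (d + 1))).trans h8
    have h15 : 0 < l ^ (d + 1) * (ρ / s) := by positivity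
    rw [h13] at h14
    nlinarith
  choose! τ hτ0 hτ1 hτ using hex
  obtain ⟨u, huS, hu, hd, hcv⟩ := LY.vit S τ R fun y hy => ⟨hτ0 y hy, by
    have := hτ1 y hy; have := mem_ball.1 hy.1.2; linarith⟩
  have h1 : S ⊆ ⋃ b ∈ u, ball b (4 * τ b) := fun y hy => by
    obtain ⟨b, hb, h⟩ := hcv y hy
    exact mem_biUnion hb h
  have h2 : ∀ b : u, wt c (ball (b : E n) (4 * τ b)) ≤
      (ENNReal.ofReal ((8 / a) ^ n) * volume (ball (0 : E n) 1)) * sig (ball (b : E n) (τ b)) :=
    fun b => by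
      have hb0 := hτ0 b (huS b.2)
      have hs := hd0 b (huS b.2)
      refine (wt_ball (s := dist (b : E n) c / 2) (by positivity) (by positivity)
        (by have := hτ1 b (huS b.2); linarith)).trans ?_
      rw [mul_right_comm]
      refine mul_le_mul_left (le_trans (le_of_eq ?_) (mul_le_mul_right
        (ENNReal.ofReal_le_of_le_toReal (hτ b (huS b.2))) _)) _
      rw [← ENNReal.ofReal_mul (by positivity), ← mul_pow, ← mul_pow]
      congr 2
      field_simp; ring
  have h3 : (⋃ b ∈ u, ball b (τ b)) ⊆ ball c (2 * R) := iUnion₂_subset fun b hb' =>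
    ball_subset_ball' (by have := mem_ball.1 (huS hb').1.2; have := hτ1 b (huS hb'); linarith)
  have h4 : sig (ball c (2 * R)) ≤ ENNReal.ofReal (l ^ n * (2 * R) / R) := by
    rw [← ofReal_measureReal (measure_ne_top _ _)]
    exact ENNReal.ofReal_le_ofReal (hf _ (by linarith))
  calc wt c S ≤ ∑' b : u, wt c (ball (b : E n) (4 * τ b)) :=
        (measure_mono h1).trans (measure_biUnion_le _ hu _)
    _ ≤ ∑' b : u, (ENNReal.ofReal ((8 / a) ^ n) * volume (ball (0 : E n) 1)) *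
        sig (ball (b : E n) (τ b)) := ENNReal.tsum_le_tsum h2
    _ = (ENNReal.ofReal ((8 / a) ^ n) * volume (ball (0 : E n) 1)) *
        sig (⋃ b ∈ u, ball b (τ b)) := by
        rw [ENNReal.tsum_mul_left, measure_biUnion hu hd fun _ _ => measurableSet_ball]
    _ ≤ (ENNReal.ofReal ((8 / a) ^ n) * volume (ball (0 : E n) 1)) *
        ENNReal.ofReal (l ^ n * (2 * R) / R) := mul_le_mul_right ((measure_mono h3).trans h4) _
    _ = _ := by
        rw [mul_right_comm, ← ENNReal.ofReal_mul (by positivity)]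
        congr 2; simp only [mul_pow, div_pow]; field_simp

theorem tl_nonneg0 (p : S n → W n m) (k : ℕ) (a : ℝ) : 0 ≤ tl p k a :=
  integral_nonneg fun θ => by dsimp only; split_ifs <;> positivity

theorem norm_pp (G : E n → W n m) (c : E n) (s : ℝ) (θ : S n) :
    ‖pp G c s θ‖ = ‖G (c + s • (θ : E n))‖ * dist (c + s • (θ : E n)) c := by
  rw [pp, norm_smul, dist_self_add_left, norm_smul, mem_sphere_zero_iff_norm.1 θ.2, mul_one,
    mul_comm]

theorem sM_le_tl0 (hn : 1 ≤ n) {p : S n → W n m} (hp : StronglyMeasurable p) {k : ℕ} {a : ℝ}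
    (ha : 0 ≤ a) (hi : Integrable (fun θ => if a < ‖p θ‖ then ‖p θ‖ ^ k else 0) (sph n)) :
    Integrable (fun θ => ‖p θ‖ ^ k) (sph n) ∧ sM p k ≤ a ^ k + tl p k a := by
  have := sph_prob hn
  have h1 : ∀ θ, ‖p θ‖ ^ k ≤ a ^ k + if a < ‖p θ‖ then ‖p θ‖ ^ k else 0 := fun θ => by
    split_ifs with h
    · exact le_add_of_nonneg_left (by positivity)
    · rw [add_zero]; exact pow_le_pow_left₀ (norm_nonneg _) (not_lt.1 h) k
  have h2 := (integrable_const (a ^ k)).add hi
  have h3 : Integrable (fun θ => ‖p θ‖ ^ k) (sph n) :=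
    h2.mono' (hp.norm.measurable.pow_const k).aestronglyMeasurable
      (Eventually.of_forall fun θ => by
        rw [Real.norm_of_nonneg (by positivity)]; exact h1 θ)
  refine ⟨h3, (integral_mono h3 h2 h1).trans (le_of_eq ?_)⟩
  rw [tl]
  simpa using integral_add (integrable_const (a ^ k)) hi

/-- (W2), the tails of the lower moments in polar form. -/
theorem w2_tail (hn : 1 ≤ n) : ∃ C : ℝ, 0 < C ∧ ∀ (m : ℕ) (sig : Measure (E n))
    [IsFiniteMeasure sig] (G : E n → W n m) (c : E n) (R l : ℝ) (k : ℕ), k < n →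
    StronglyMeasurable G → 0 < R → 0 < l →
    (∀ᵐ y, y ∈ ball c R → ∃ ρ, 0 < ρ ∧ ‖G y‖ ^ n * ρ ^ n ≤ sig.real (ball y ρ)) →
    (∀ ρ, R ≤ ρ → sig.real (ball c ρ) ≤ l ^ n * ρ / R) →
    IntegrableOn (fun s => s⁻¹ * tl (pp G c s) k (20 * l)) (Ioo 0 R) volume ∧
      ∫ s in Ioo 0 R, s⁻¹ * tl (pp G c s) k (20 * l) ≤ C * l ^ k ∧
      ∀ᵐ s, s ∈ Ioo 0 R → Integrable (fun θ => ‖pp G c s θ‖ ^ k) (sph n) ∧
        sM (pp G c s) k ≤ (20 * l) ^ k + tl (pp G c s) k (20 * l) := by
  set B : ℝ := (volume : Measure (E n)).real (ball 0 1) with hB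
  have hB0 : 0 < B := ENNReal.toReal_pos (measure_ball_pos _ _ one_pos).ne' measure_ball_lt_top.ne
  have hom := om_pos hn
  refine ⟨(om n)⁻¹ * (2 ^ n * (2 * 8 ^ n * B)), by positivity,
    fun m sig _ G c R l k hk hG hR hl hc hf => ?_⟩
  set g : E n → ℝ := fun y => ‖G y‖ * dist y c with hg
  have hgm : Measurable g := hG.norm.measurable.mul (measurable_id.dist measurable_const)
  have hA : MeasurableSet {y | 20 * l < g y} := measurableSet_lt measurable_const hgm
  have h1 := tail_le ((wt c).restrict (ball c R)) hk (K := 2 * (8 * l) ^ n * B) (m0 := 20 * l)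
    (by positivity) (by positivity) (fun a ha => by
      have ha0 : 0 < a := by linarith
      rw [Measure.restrict_apply (measurableSet_lt measurable_const hgm)]
      refine (w2_weak hn hR hl ha hc hf).trans (le_of_eq ?_)
      rw [← ofReal_measureReal (s := ball (0 : E n) 1) measure_ball_lt_top.ne,
        ← ENNReal.ofReal_mul (by positivity), div_pow]
      congr 1; ring) hgm
  set F : E n → ℝ := fun y => (dist y c ^ n)⁻¹ * if 20 * l < g y then g y ^ k else 0 with hF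
  have hw : Measurable fun y : E n => (dist y c ^ n)⁻¹ :=
    ((measurable_id.dist measurable_const).pow_const n).inv
  have hFm : Measurable F := hw.mul (Measurable.ite hA (hgm.pow_const k) measurable_const)
  have hF0 : ∀ y, 0 ≤ F y := fun y => by
    have : 0 ≤ g y := by positivity
    rw [hF]; dsimp only; split_ifs <;> positivity
  have hD : MeasurableSet {y : E n | dist y c ∈ Ioo 0 R} :=
    (measurable_id.dist measurable_const) measurableSet_Ioo
  have h2 : ∫⁻ y in {y : E n | dist y c ∈ Ioo 0 R}, ENNReal.ofReal (F y) ≤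
      ENNReal.ofReal (2 ^ n * (2 * 8 ^ n * B) * l ^ k) := by
    rw [← lintegral_indicator hA, wt, restrict_withDensity measurableSet_ball,
      lintegral_withDensity_eq_lintegral_mul _ hw.ennreal_ofReal
        ((hgm.pow_const k).ennreal_ofReal.indicator hA)] at h1
    refine le_trans (lintegral_mono_set (t := ball c R) fun y hy => mem_ball.2 hy.2)
      (le_trans (le_of_eq (lintegral_congr fun y => ?_)) (h1.trans (ENNReal.ofReal_le_ofReal ?_)))
    · rw [Pi.mul_apply, hF]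
      dsimp only
      rw [ENNReal.ofReal_mul (by positivity)]
      congr 1
      by_cases h : 20 * l < g y
      · rw [if_pos h, indicator_of_mem (show y ∈ {y | 20 * l < g y} from h)]
      · rw [if_neg h, indicator_of_notMem (show y ∉ {y | 20 * l < g y} from h),
          ENNReal.ofReal_zero]
    · obtain ⟨d, hd⟩ : ∃ d, n = k + d := ⟨n - k, by omega⟩
      have e1 : n - k = d := by omega
      have e2 : l ^ n = l ^ k * l ^ d := by rw [hd, pow_add]
      have h3 : (2 : ℝ) ^ (k + 1) ≤ 2 ^ n := pow_le_pow_right₀ (by norm_num) hk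
      have h4 : l ^ d ≤ (20 * l) ^ d := pow_le_pow_left₀ hl.le (by linarith) d
      rw [e1, div_le_iff₀ (by positivity), mul_pow 8, e2]
      calc _ = 2 ^ (k + 1) * (2 * 8 ^ n * B) * l ^ k * l ^ d := by ring
        _ ≤ _ := by gcongr
  obtain ⟨h3, h4⟩ := int_of_lint hFm hF0 (by positivity) h2
  obtain ⟨h5, h6, h7⟩ := pol_int hn c measurableSet_Ioo (fun s hs => hs.1) h3
  have hsl : ∀ s, 0 < s → sl F c s = fun θ =>
      (s ^ n)⁻¹ * if 20 * l < ‖pp G c s θ‖ then ‖pp G c s θ‖ ^ k else 0 := fun s hs => by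
    funext θ
    rw [norm_pp G c s, sl, hF]
    dsimp only
    congr 2
    rw [dist_self_add_left, norm_smul, mem_sphere_zero_iff_norm.1 θ.2, mul_one,
      Real.norm_of_nonneg hs.le]
  have h8 : EqOn (fun s : ℝ => s ^ (n - 1) • ∫ θ, sl F c s θ ∂sph n)
      (fun s => s⁻¹ * tl (pp G c s) k (20 * l)) (Ioo 0 R) := fun s hs => by
    have hs0 := hs.1
    dsimp only
    rw [hsl s hs0, integral_const_mul, tl, smul_eq_mul, ← mul_assoc]
    congr 1
    obtain ⟨d, rfl⟩ : ∃ d, n = d + 1 := ⟨n - 1, by omega⟩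
    rw [Nat.add_sub_cancel, pow_succ]; field_simp
  refine ⟨h5.congr_fun h8 measurableSet_Ioo, ?_, ?_⟩
  · rw [h7, setIntegral_congr_fun measurableSet_Ioo h8, smul_eq_mul] at h4
    rw [mul_assoc, ← div_eq_inv_mul, le_div_iff₀' hom]
    exact h4
  · filter_upwards [h6] with s h hs
    have hs0 := hs.1
    have h9 := (h hs).const_mul (s ^ n)
    rw [hsl s hs0] at h9
    refine sM_le_tl0 hn (pp_meas hG c s) (by positivity) (h9.congr (Eventually.of_forall fun θ => ?_))
    dsimp only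
    rw [← mul_assoc, mul_inv_cancel₀ (by positivity), one_mul]

/-- (W2), the lower moments over a set of radii of finite logarithmic measure. -/
theorem w2_int (hn : 1 ≤ n) : ∃ C : ℝ, 0 < C ∧ ∀ (m : ℕ) (sig : Measure (E n))
    [IsFiniteMeasure sig] (G : E n → W n m) (c : E n) (R l a : ℝ) (k : ℕ) (B : Set ℝ), k < n →
    StronglyMeasurable G → 0 < R → 0 < l → 0 ≤ a →
    (∀ᵐ y, y ∈ ball c R → ∃ ρ, 0 < ρ ∧ ‖G y‖ ^ n * ρ ^ n ≤ sig.real (ball y ρ)) →
    (∀ ρ, R ≤ ρ → sig.real (ball c ρ) ≤ l ^ n * ρ / R) → MeasurableSet B → B ⊆ Ioo 0 R →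
    ∫⁻ s in B, ENNReal.ofReal s⁻¹ ≤ ENNReal.ofReal a →
    IntegrableOn (fun s => s⁻¹ * sM (pp G c s) k) B volume ∧
      ∫ s in B, s⁻¹ * sM (pp G c s) k ≤ C * (1 + a) * l ^ k := by
  obtain ⟨C, hC, h⟩ := w2_tail hn
  refine ⟨C + 20 ^ n, by positivity, fun m sig _ G c R l a k B hk hG hR hl ha hc hf hB hBR hBa => ?_⟩
  obtain ⟨h1, h2, h3⟩ := h m sig G c R l k hk hG hR hl hc hf
  have hpos : ∀ᵐ s ∂volume.restrict B, s ∈ B := ae_restrict_mem hB
  have h4 : IntegrableOn (fun s : ℝ => s⁻¹) B volume :=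
    ⟨measurable_inv.aestronglyMeasurable, (hasFiniteIntegral_iff_ofReal (by
      filter_upwards [hpos] with s hs using (inv_pos.2 (hBR hs).1).le)).2
        (hBa.trans_lt ENNReal.ofReal_lt_top)⟩
  have h5 : ∫ s in B, s⁻¹ ≤ a := by
    rw [integral_eq_lintegral_of_nonneg_ae (by
      filter_upwards [hpos] with s hs using (inv_pos.2 (hBR hs).1).le) h4.1]
    exact ENNReal.toReal_le_of_le_ofReal ha hBa
  have h6 := (h4.mul_const ((20 * l) ^ k)).add (h1.mono_set hBR)
  have h7 : ∀ᵐ s ∂volume.restrict B, s⁻¹ * sM (pp G c s) k ≤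
      s⁻¹ * (20 * l) ^ k + s⁻¹ * tl (pp G c s) k (20 * l) := by
    filter_upwards [hpos, ae_restrict_of_ae h3] with s hs h
    rw [← mul_add]
    exact mul_le_mul_of_nonneg_left (h (hBR hs)).2 (inv_pos.2 (hBR hs).1).le
  have h8 : IntegrableOn (fun s => s⁻¹ * sM (pp G c s) k) B volume :=
    h6.mono' (measurable_inv.mul (sM_meas hn hG c k)).aestronglyMeasurable (by
      filter_upwards [hpos, h7] with s hs h
      rw [Real.norm_of_nonneg (mul_nonneg (inv_pos.2 (hBR hs).1).le (sM_nonneg _ _))]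
      exact h)
  refine ⟨h8, (integral_mono_ae h8 h6 h7).trans ?_⟩
  have h9 : ∫ s in B, s⁻¹ * tl (pp G c s) k (20 * l) ≤ C * l ^ k :=
    (setIntegral_mono_set h1 (by
      filter_upwards [ae_restrict_mem measurableSet_Ioo] with s hs
        using mul_nonneg (inv_pos.2 hs.1).le (tl_nonneg0 _ _ _)) hBR.eventuallyLE).trans h2
  have h10 : (20 : ℝ) ^ k ≤ 20 ^ n := pow_le_pow_right₀ (by norm_num) hk.le
  have h11 : (∫ s in B, s⁻¹) * (20 * l) ^ k ≤ a * (20 ^ n * l ^ k) := by
    rw [mul_pow]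
    exact (mul_le_mul_of_nonneg_right h5 (by positivity)).trans (by gcongr)
  have h12 := integral_add (h4.mul_const ((20 * l) ^ k)) (h1.mono_set hBR)
  rw [integral_mul_const] at h12
  have h13 : 0 < l ^ k := by positivity
  have h14 : (0 : ℝ) < 20 ^ n := by positivity
  refine (le_of_eq h12).trans ?_
  nlinarith [mul_nonneg (mul_nonneg hC.le ha) h13.le, mul_pos h14 h13]

/-- (W2), the radii at which a lower moment is large. -/
theorem w2_big (hn : 1 ≤ n) : ∃ C : ℝ, 0 < C ∧ ∀ (m : ℕ) (sig : Measure (E n))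
    [IsFiniteMeasure sig] (G : E n → W n m) (c : E n) (R l : ℝ) (k : ℕ), 1 ≤ k → k < n →
    StronglyMeasurable G → 0 < R → 0 < l →
    (∀ᵐ y, y ∈ ball c R → ∃ ρ, 0 < ρ ∧ ‖G y‖ ^ n * ρ ^ n ≤ sig.real (ball y ρ)) →
    (∀ ρ, R ≤ ρ → sig.real (ball c ρ) ≤ l ^ n * ρ / R) →
    MeasurableSet {s | s ∈ Ioo 0 R ∧ (40 * l) ^ k < sM (pp G c s) k} ∧
      ∫⁻ s in {s | s ∈ Ioo 0 R ∧ (40 * l) ^ k < sM (pp G c s) k}, ENNReal.ofReal s⁻¹ ≤
        ENNReal.ofReal C := by
  obtain ⟨C, hC, h⟩ := w2_tail hn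
  refine ⟨C, hC, fun m sig _ G c R l k hk1 hk hG hR hl hc hf => ?_⟩
  obtain ⟨h1, h2, h3⟩ := h m sig G c R l k hk hG hR hl hc hf
  have hB : MeasurableSet {s | s ∈ Ioo 0 R ∧ (40 * l) ^ k < sM (pp G c s) k} :=
    measurableSet_Ioo.inter (measurableSet_lt measurable_const (sM_meas hn hG c k))
  refine ⟨hB, ?_⟩
  have hp : 0 < l ^ k := by positivity
  have h4 : ∀ᵐ s ∂volume.restrict {s | s ∈ Ioo 0 R ∧ (40 * l) ^ k < sM (pp G c s) k},
      ENNReal.ofReal s⁻¹ ≤ ENNReal.ofReal (s⁻¹ * tl (pp G c s) k (20 * l) / l ^ k) := by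
    filter_upwards [ae_restrict_mem hB, ae_restrict_of_ae h3] with s hs h
    refine ENNReal.ofReal_le_ofReal ?_
    have h5 := hs.2.trans_le (h hs.1).2
    have h6 : (40 * l) ^ k = 2 ^ k * (20 * l) ^ k := by rw [← mul_pow]; congr 1; ring
    have h7 : (2 : ℝ) ≤ 2 ^ k := le_self_pow₀ (by norm_num) (by omega)
    have h8 : l ^ k ≤ (20 * l) ^ k := pow_le_pow_left₀ hl.le (by linarith) k
    rw [le_div_iff₀ hp]
    refine mul_le_mul_of_nonneg_left ?_ (inv_pos.2 hs.1.1).le
    nlinarith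
  refine (lintegral_mono_ae h4).trans ((lintegral_mono_set fun s hs => hs.1).trans ?_)
  rw [← ofReal_integral_eq_lintegral_ofReal (h1.div_const _) (by
    filter_upwards [ae_restrict_mem measurableSet_Ioo] with s hs
      using div_nonneg (mul_nonneg (inv_pos.2 hs.1).le (tl_nonneg0 _ _ _)) hp.le), integral_div]
  exact ENNReal.ofReal_le_ofReal ((div_le_iff₀ hp).2 h2)

end Pool.Agent.Lib.MP_a785f2_an.LO
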