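import Pool.Agent.Lib.MP_a785f2_an.LO.Bas
import Pool.Agent.Lib.MP_a785f2_an.LO.Tail
import Pool.Agent.Lib.MP_a785f2_an.LO.Weak2
import Pool.Agent.Lib.MP_a785f2_an.LZ.Sph0
import Pool.Agent.Lib.MP_a785f2_an.LY.Vit

/-! The weak bound with the scale invariant weight. -/

open MeasureTheory Metric Set Filter Topology
open scoped ContDiff RealInnerProductSpace ENNReal

namespace Pool.Agent.Lib.MP_a785f2_an.LO

open HS (V)
open LZ (W S Op rad ten grad AA om sph sl pp ph sM sF sa sX sy sD sR en av sgm Pr Ff Rep eqCm)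

variable {n m : ℕ} {Ω : Set (E n)} {u : E n → V m} {G : E n → W n m} {f : E n → V m}
  {w : E n → ℝ}

theorem Good.in_ball {O : Set (E n)} {σ : Measure (E n)} {z c : E n} {r l R : ℝ}
    (g : Good O σ z r l) (h : dist c z + R ≤ r) : ball c R ⊆ O :=
  (ball_subset_closedBall.trans (closedBall_subset_closedBall' (by linarith [g.r0]))).trans g.sub

theorem wk_wt (hn : 2 ≤ n) : ∃ C : ℝ, 0 < C ∧ ∀ (Ω O : Set (E n)) (σ : Measure (E n))
    (G : E n → W n m) (z c : E n) (r l R : ℝ), Ct Ω O σ G → Good O σ z r l →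
      dist c z + R ≤ r → ∀ b, 40 * l ≤ b →
      ∫⁻ x in ball c R ∩ {x | b < dist x c * ‖G x‖}, ENNReal.ofReal (dist x c ^ n)⁻¹ ≤
        ENNReal.ofReal (C * l ^ n / b ^ n) := by
  have h1 : 0 < (volume : Measure (E n)).real (ball 0 1) :=
    ENNReal.toReal_pos (measure_ball_pos _ _ one_pos).ne' measure_ball_lt_top.ne
  refine ⟨2 * 16 ^ n * (volume : Measure (E n)).real (ball 0 1), by positivity,
    fun Ω O σ G z c r l R ct g hc b hb => ?_⟩
  rcases le_or_gt R 0 with hR | hR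
  · rw [ball_eq_empty.2 hR, empty_inter, Measure.restrict_empty, lintegral_zero_measure]
    exact zero_le
  have := ct.fin
  have l0 := g.l0
  have d0 := dist_nonneg (x := c) (y := z)
  have b0 : 0 < b := by linarith
  have h := w2_weak (by omega) (sig := σ) (g := fun y => ‖G y‖) (c := c) (l := 2 * l) (a := b) hR
    (by positivity) (by linarith) (ct.ctl.mono fun y hy hm => hy (g.in_ball hc hm))
    (g.lin hn (by linarith) hR (by linarith))
  rw [← ofReal_measureReal (s := ball (0 : E n) 1) measure_ball_lt_top.ne,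
    ← ENNReal.ofReal_mul (by positivity), wt, withDensity_apply' _ _, inter_comm] at h
  simp only [mul_comm (dist _ c)]
  refine h.trans_eq (congrArg _ ?_)
  rw [show 8 * (2 * l) = 16 * l by ring, div_pow, mul_pow]; ring

theorem Dat.w2 (D : Dat Ω u G f w) {k : ℕ} (hk : k < n) : ∃ C : ℝ, 0 < C ∧ ∀ O σ z c r l R,
    Ct Ω O σ G → Good O σ z r l → dist c z + R ≤ r →
      IntegrableOn (fun s => s⁻¹ * tl (pp G c s) k (40 * l)) (Ioo 0 R) volume ∧
        ∫ s in Ioo 0 R, s⁻¹ * tl (pp G c s) k (40 * l) ≤ C * l ^ k := by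
  have n3 := D.n3
  obtain ⟨C, hC, h⟩ := w2_tail (n := n) (by omega)
  refine ⟨C * 2 ^ k, by positivity, fun O σ z c r l R ct g hc => ?_⟩
  have l0 := g.l0
  rcases le_or_gt R 0 with hR | hR
  · rw [Ioo_eq_empty_of_le hR]
    exact ⟨integrableOn_empty, by rw [setIntegral_empty]; positivity⟩
  have := ct.fin
  have d0 := dist_nonneg (x := c) (y := z)
  obtain ⟨h1, h2, -⟩ := h m σ G c R (2 * l) k hk D.mG hR (by positivity)
    (ct.ctl.mono fun y hy hm => hy (g.in_ball hc hm))
    (g.lin (by omega) (by linarith) hR (by linarith))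
  rw [show 20 * (2 * l) = 40 * l by ring] at h1 h2
  rw [mul_pow, ← mul_assoc] at h2
  exact ⟨h1, h2⟩

theorem sM_le_tl (hn : 1 ≤ n) {p : S n → W n m} (mp : StronglyMeasurable p)
    (ip : Integrable (fun θ => ‖p θ‖ ^ n) (sph n)) {k : ℕ} (hk : k ≤ n) {a : ℝ} (ha : 0 ≤ a) :
    sM p k ≤ a ^ k + tl p k a ∧ 0 ≤ tl p k a ∧ tl p k a ≤ sM p k := by
  have := LZ.sph_prob hn
  have ik : Integrable (fun θ => ‖p θ‖ ^ k) (sph n) :=
    LZ.int_pow_le mp.norm.aestronglyMeasurable (fun _ => norm_nonneg _) hk ip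
  have le : ∀ θ, (if a < ‖p θ‖ then ‖p θ‖ ^ k else 0) ≤ ‖p θ‖ ^ k := fun θ => by
    split_ifs <;> [exact le_rfl; positivity]
  have it : Integrable (fun θ => if a < ‖p θ‖ then ‖p θ‖ ^ k else 0) (sph n) := by
    refine ik.mono' (Measurable.ite (measurableSet_lt measurable_const mp.norm.measurable)
      (mp.norm.measurable.pow_const k) measurable_const).aestronglyMeasurable
      (ae_of_all _ fun θ => ?_)
    rw [Real.norm_of_nonneg (by split_ifs <;> positivity)]
    exact le θ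
  exact ⟨(sM_le_tl0 hn mp ha it).2, tl_nonneg0 _ _ _, integral_mono it ik le⟩

end Pool.Agent.Lib.MP_a785f2_an.LO
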