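import Pool.Agent.Lib.MP_a785f2_an.LO.Sph0
import Pool.Agent.Lib.MP_a785f2_an.LO.Wk2
import Pool.Agent.Lib.MP_a785f2_an.LY.SphA

/-! The sphere lemma. -/

open MeasureTheory Metric Set Filter Topology
open scoped ContDiff RealInnerProductSpace ENNReal

namespace Pool.Agent.Lib.MP_a785f2_an.LO

open HS (V)
open LZ (W S Op rad ten grad AA om sph sl pp ph sM sF sa sX sy sD sR en av sgm Pr Ff Rep eqCm)

variable {n m : ℕ} {Ω : Set (E n)} {u : E n → V m} {G : E n → W n m} {f : E n → V m}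
  {w : E n → ℝ}

/-- The pointwise inequality behind the sphere lemma. -/
theorem sph_pt (k : ℕ) {P D M z o τ Y κ : ℝ} (P0 : 0 ≤ P) (D0 : 0 ≤ D) (M0 : 0 ≤ M)
    (o0 : 0 ≤ o) (z0 : 0 ≤ z) (κ0 : 0 < κ) (hP : P ≤ D + M) (hM : M ≤ τ) (hz : z ≤ τ)
    (hY : P ^ k * D ^ 2 ≤ 2 * Y) :
    τ * (o * P ^ k * D) + o * P ^ (k + 1) * z ≤
      Y / 4 + (20 + κ) * τ ^ 2 * (P ^ k * o ^ 2) + (2 * M) ^ k / (4 * κ) * z ^ 2 := by
  have τ0 : 0 ≤ τ := z0.trans hz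
  have q0 : 0 ≤ P ^ k := pow_nonneg P0 k
  have a1 : τ * (o * D) ≤ D ^ 2 / 16 + 4 * (τ ^ 2 * o ^ 2) := by
    nlinarith [sq_nonneg (D - 8 * τ * o)]
  have a2 : 2 * (τ * (o * D)) ≤ D ^ 2 / 16 + 16 * (τ ^ 2 * o ^ 2) := by
    nlinarith [sq_nonneg (D - 16 * τ * o)]
  have b1 := mul_le_mul_of_nonneg_left a1 q0
  have b2 := mul_le_mul_of_nonneg_left a2 q0
  have c0 : 0 ≤ P ^ k * (τ ^ 2 * o ^ 2) := by positivity
  have c1 : 0 ≤ κ * (P ^ k * (τ ^ 2 * o ^ 2)) := by positivity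
  have c2 : 0 ≤ (2 * M) ^ k / (4 * κ) * z ^ 2 := by positivity
  have d1 : P ^ k * (o * D * z) ≤ P ^ k * (o * D * τ) := by gcongr
  have d2 : P ^ k * (o * P * z) ≤ P ^ k * (o * (D + M) * z) := by gcongr
  rw [pow_succ]
  rcases le_total P (2 * M) with h | h
  · have a3 : o * M * z ≤ κ * (M ^ 2 * o ^ 2) + z ^ 2 / (4 * κ) := by
      have e : κ * (M ^ 2 * o ^ 2) + z ^ 2 / (4 * κ) - o * M * z =
          (2 * κ * M * o - z) ^ 2 / (4 * κ) := by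
        field_simp
        ring
      have : 0 ≤ (2 * κ * M * o - z) ^ 2 / (4 * κ) := by positivity
      linarith
    have b3 := mul_le_mul_of_nonneg_left a3 q0
    have b4 : P ^ k * (κ * (M ^ 2 * o ^ 2)) ≤ P ^ k * (κ * (τ ^ 2 * o ^ 2)) := by gcongr
    have b5 : P ^ k * (z ^ 2 / (4 * κ)) ≤ (2 * M) ^ k * (z ^ 2 / (4 * κ)) := by gcongr
    have e : (2 * M) ^ k / (4 * κ) * z ^ 2 = (2 * M) ^ k * (z ^ 2 / (4 * κ)) := by ring
    rw [e]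
    linarith
  · have h1 : M ≤ D := by linarith
    have b3 : P ^ k * (o * M * z) ≤ P ^ k * (o * D * τ) := by gcongr
    linarith

/-- The excess density. -/
theorem exc_pt (k : ℕ) (q : W (k + 2) m) (b : V m) (θ : S (k + 2)) :
    (‖q‖ ^ k + ‖b‖ ^ k) * ‖q - ten b θ‖ ^ 2 ≤ 2 * (‖q‖ ^ (k + 2) - ⟪b, rad (AA q) θ⟫ -
      ⟪‖b‖ ^ k • b, rad q θ⟫ + ‖b‖ ^ (k + 2)) := by
  have h := LY.Ap_mono k q (ten b θ)
  have e : ‖ten b (θ : E (k + 2))‖ = ‖b‖ := by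
    rw [LZ.norm_ten, norm_eq_of_mem_sphere θ, mul_one]
  have e1 : ⟪LY.Ap k q, ten b (θ : E (k + 2))⟫ = ⟪b, rad (AA q) θ⟫ := by
    rw [LZ.inner_ten, real_inner_comm]
    rfl
  have e2 : ⟪LY.Ap k (ten b (θ : E (k + 2))), q⟫ = ⟪‖b‖ ^ k • b, rad q θ⟫ := by
    rw [LY.Ap, real_inner_smul_left, real_inner_smul_left, e, real_inner_comm, LZ.inner_ten,
      real_inner_comm]
  rw [inner_sub_left, inner_sub_right, inner_sub_right, LY.inner_Ap, LY.inner_Ap, e1, e2, e] at h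
  linarith

theorem exists_root (k : ℕ) (F : V m) : ∃ c : ℝ, ‖c • F‖ ^ k • c • F = F := by
  rcases eq_or_ne F 0 with rfl | h
  · exact ⟨0, by simp⟩
  have h0 : 0 < ‖F‖ := norm_pos_iff.2 h
  obtain ⟨M, M0, hM⟩ : ∃ M : ℝ, 0 ≤ M ∧ M ^ (k + 1) = ‖F‖ :=
    ⟨_, Real.rpow_nonneg h0.le _, Real.rpow_inv_natCast_pow h0.le k.succ_ne_zero⟩
  refine ⟨M / ‖F‖, ?_⟩
  rw [norm_smul, Real.norm_of_nonneg (by positivity), div_mul_cancel₀ _ h0.ne', smul_smul,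
    ← mul_div_assoc, ← pow_succ, hM, div_self h0.ne', one_smul]

theorem sphere_lemma (hn : 3 ≤ n) {Cp : ℝ} (hC : 0 < Cp) : ∃ C : ℝ, 2 ≤ C ∧
    ∀ (v : S n → V m) (p : S n → W n m) (φ : S n → V m) (o : S n → ℝ) (d τ a : ℝ),
      Slc Cp v p φ o → 0 ≤ d → d ≤ τ → (∀ᵐ θ ∂sph n, ‖v θ - sy v‖ ≤ d) →
      sM p (n - 1) ≤ d ^ (n - 1) → 0 ≤ a →
      (‖sF p‖ ≤ a ^ (n - 1) ∨ 2 * ‖sF p‖ ≤ sM p (n - 1)) →
      ∃ ν : ℝ, 0 ≤ ν ∧ ⟪sF p, sD φ⟫ ≤ ν * ‖sF p‖ ∧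
        tl p n (2 * a) / 16 - C * τ ^ 2 * sL p o ≤ sX p + sR v φ (sy v) - τ * ν := by
  obtain ⟨k, rfl⟩ := Nat.exists_eq_add_of_le' (show 2 ≤ n by omega)
  have n2 : 2 ≤ k + 2 := by omega
  have n1 : 1 ≤ k + 2 := by omega
  have := LZ.sph_prob n1
  have κ0 : 0 < 2 * 2 ^ k * Cp := by positivity
  refine ⟨20 + 2 * 2 ^ k * Cp, by linarith, fun v p φ o d τ a s hd hτ hv hM ha alt => ?_⟩
  obtain ⟨c, hc⟩ := exists_root k (sF p)
  set b := c • sF p with hb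
  have hF : ‖sF p‖ = ‖b‖ ^ (k + 1) := by
    rw [← hc, norm_smul, norm_pow, norm_norm, pow_succ]
  have b0 := norm_nonneg b
  have hbd : ‖b‖ ≤ d :=
    (pow_le_pow_iff_left₀ b0 hd k.succ_ne_zero).1 (hF.symm.le.trans ((s.sF_le n2).trans hM))
  set Y : S (k + 2) → ℝ := fun θ => ‖p θ‖ ^ (k + 2) - ⟪b, rad (AA (p θ)) θ⟫ -
    ⟪sF p, rad (p θ) θ⟫ + ‖b‖ ^ (k + 2) with hY
  set D : S (k + 2) → ℝ := fun θ => ‖p θ - ten b θ‖ with hD
  have D0 : ∀ θ, 0 ≤ D θ := fun θ => norm_nonneg _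
  have hYD : ∀ θ, (‖p θ‖ ^ k + ‖b‖ ^ k) * D θ ^ 2 ≤ 2 * Y θ := fun θ => by
    have h := exc_pt k (p θ) b θ
    rwa [hc] at h
  have hY1 : ∀ θ, ‖p θ‖ ^ k * D θ ^ 2 ≤ 2 * Y θ := fun θ => by
    have h1 : 0 ≤ ‖b‖ ^ k * D θ ^ 2 := by positivity
    linarith [hYD θ]
  have hY2 : ∀ θ, ‖b‖ ^ k * D θ ^ 2 ≤ 2 * Y θ := fun θ => by
    have h1 : 0 ≤ ‖p θ‖ ^ k * D θ ^ 2 := by positivity
    linarith [hYD θ]
  have Y0 : ∀ θ, 0 ≤ Y θ := fun θ => by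
    have h1 : 0 ≤ ‖p θ‖ ^ k * D θ ^ 2 := by positivity
    linarith [hY1 θ]
  have et : ∀ θ : S (k + 2), ‖ten b (θ : E (k + 2))‖ = ‖b‖ := fun θ => by
    rw [LZ.norm_ten, norm_eq_of_mem_sphere θ, mul_one]
  have hP : ∀ θ, ‖p θ‖ ≤ D θ + ‖b‖ := fun θ => by
    have h := norm_add_le (p θ - ten b θ) (ten b θ)
    rwa [sub_add_cancel, et] at h
  have i1 := (s.iA n2).const_inner (𝕜 := ℝ) b
  have i2 := (s.ia n1).const_inner (𝕜 := ℝ) (sF p)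
  have iY : Integrable Y (sph (k + 2)) := ((s.ip.sub i1).sub i2).add (integrable_const _)
  have eY : ∫ θ, Y θ ∂sph (k + 2) = sX p := by
    have e1 : ⟪b, sF p⟫ = ‖b‖ ^ (k + 2) := by
      rw [← hc, real_inner_smul_right, real_inner_self_eq_norm_sq, pow_add]
    have j1 : Integrable (fun θ : S (k + 2) => ‖p θ‖ ^ (k + 2) - ⟪b, rad (AA (p θ)) θ⟫)
      (sph (k + 2)) := s.ip.sub i1
    have j2 : Integrable (fun θ : S (k + 2) => ‖p θ‖ ^ (k + 2) - ⟪b, rad (AA (p θ)) θ⟫ -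
      ⟪sF p, rad (p θ) θ⟫) (sph (k + 2)) := j1.sub i2
    rw [hY, integral_add j2 (integrable_const _), integral_sub j1 i2, integral_sub s.ip i1,
      integral_inner (s.iA n2), integral_inner (s.ia n1), integral_const, probReal_univ, one_smul,
      ← e1]
    change sM p (k + 2) - ⟪b, sF p⟫ - ⟪sF p, sa p⟫ + ⟪b, sF p⟫ = sM p (k + 2) - ⟪sF p, sa p⟫
    ring
  have X0 : 0 ≤ sX p := eY ▸ integral_nonneg Y0
  have mD : AEStronglyMeasurable D (sph (k + 2)) :=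
    (s.mp.sub (LZ.continuous_ten.comp
      (continuous_const.prodMk continuous_subtype_val)).stronglyMeasurable).norm.aestronglyMeasurable
  have iν : Integrable (fun θ => o θ * ‖p θ‖ ^ k * D θ) (sph (k + 2)) := by
    refine (iY.add s.iw).mono' ((s.mw.aestronglyMeasurable.mul
      (s.mp.norm.pow _).aestronglyMeasurable).mul mD) (ae_of_all _ fun θ => ?_)
    have w0 := s.w0 θ
    have d0 := D0 θ
    have h := mul_nonneg (pow_nonneg (norm_nonneg (p θ)) k) (sq_nonneg (o θ - D θ))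
    have h1 : 0 ≤ ‖p θ‖ ^ k * o θ ^ 2 := by positivity
    rw [Real.norm_of_nonneg (by positivity)]
    change _ ≤ Y θ + ‖p θ‖ ^ k * o θ ^ 2
    nlinarith [hY1 θ]
  have iz : Integrable (fun θ => ‖v θ - sy v‖ ^ 2) (sph (k + 2)) :=
    (integrable_const (d ^ 2)).mono'
      ((s.mv.sub stronglyMeasurable_const).norm.pow 2).aestronglyMeasurable
      (hv.mono fun θ h => by
        rw [Real.norm_of_nonneg (sq_nonneg _)]
        exact pow_le_pow_left₀ (norm_nonneg _) h 2)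
  have iR := int_inner (s.iφ n2) s.mv hv (sy v)
  have hz : (2 * ‖b‖) ^ k / (4 * (2 * 2 ^ k * Cp)) * ∫ θ, ‖v θ - sy v‖ ^ 2 ∂sph (k + 2) ≤
      sX p / 4 := by
    have h1 : ‖b‖ ^ k * ∫ θ, D θ ^ 2 ∂sph (k + 2) ≤ 2 * sX p := by
      rw [← eY, ← integral_const_mul, ← integral_const_mul]
      exact integral_mono_of_nonneg (ae_of_all _ fun θ => by positivity) (iY.const_mul 2)
        (ae_of_all _ hY2)
    have h2 := mul_le_mul_of_nonneg_left (s.po b) (pow_nonneg b0 k)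
    have h3 := mul_le_mul_of_nonneg_left h1 hC.le
    have e : (2 * ‖b‖) ^ k / (4 * (2 * 2 ^ k * Cp)) = ‖b‖ ^ k / (8 * Cp) := by
      rw [mul_pow]
      field_simp
      ring
    rw [e, div_mul_eq_mul_div, div_le_iff₀ (by positivity)]
    change Cp * (‖b‖ ^ k * ∫ θ, ‖p θ - ten b θ‖ ^ 2 ∂sph (k + 2)) ≤ _ at h3
    linarith
  have main : τ * ∫ θ, o θ * ‖p θ‖ ^ k * D θ ∂sph (k + 2) - sR v φ (sy v) ≤ sX p / 4 +
      (20 + 2 * 2 ^ k * Cp) * τ ^ 2 * sL p o + (2 * ‖b‖) ^ k / (4 * (2 * 2 ^ k * Cp)) *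
        ∫ θ, ‖v θ - sy v‖ ^ 2 ∂sph (k + 2) := by
    have j1 := iY.div_const 4
    have j2 := s.iw.const_mul ((20 + 2 * 2 ^ k * Cp) * τ ^ 2)
    have j3 := iz.const_mul ((2 * ‖b‖) ^ k / (4 * (2 * 2 ^ k * Cp)))
    have j4 : Integrable (fun θ => Y θ / 4 + (20 + 2 * 2 ^ k * Cp) * τ ^ 2 *
      (‖p θ‖ ^ (k + 2 - 2) * o θ ^ 2)) (sph (k + 2)) := j1.add j2
    rw [← eY, sR, sL, ← integral_const_mul, ← integral_sub (iν.const_mul τ) iR, ← integral_div,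
      ← integral_const_mul, ← integral_const_mul, ← integral_add j1 j2, ← integral_add j4 j3]
    refine integral_mono_ae ((iν.const_mul τ).sub iR) (j4.add j3) (hv.mono fun θ h => ?_)
    have h1 := sph_pt k (norm_nonneg (p θ)) (D0 θ) b0 (s.w0 θ) (norm_nonneg (v θ - sy v)) κ0
      (hP θ) (hbd.trans hτ) (h.trans hτ) (hY1 θ)
    have h2 : |⟪φ θ, v θ - sy v⟫| ≤ o θ * ‖p θ‖ ^ (k + 1) * ‖v θ - sy v‖ :=
      (abs_real_inner_le_norm _ _).trans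
        (mul_le_mul_of_nonneg_right (s.f_le n2 θ) (norm_nonneg _))
    have h3 := (abs_le.1 h2).1
    change τ * (o θ * ‖p θ‖ ^ k * D θ) - ⟪φ θ, v θ - sy v⟫ ≤ Y θ / 4 +
      (20 + 2 * 2 ^ k * Cp) * τ ^ 2 * (‖p θ‖ ^ k * o θ ^ 2) +
      (2 * ‖b‖) ^ k / (4 * (2 * 2 ^ k * Cp)) * ‖v θ - sy v‖ ^ 2
    linarith
  have gain : tl p (k + 2) (2 * a) ≤ 8 * sX p := by
    rcases alt with h | h
    · have hba : ‖b‖ ≤ a := (pow_le_pow_iff_left₀ b0 ha k.succ_ne_zero).1 (hF.symm.le.trans h)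
      rw [← eY, ← integral_const_mul]
      refine integral_mono_of_nonneg (ae_of_all _ fun θ => ?_) (iY.const_mul 8)
        (ae_of_all _ fun θ => ?_)
      · beta_reduce
        split_ifs
        · positivity
        · exact le_rfl
      · beta_reduce
        split_ifs with h1
        · have h2 : ‖p θ‖ ≤ 2 * D θ := by linarith [hP θ]
          have h3 : ‖p θ‖ ^ k * ‖p θ‖ ^ 2 ≤ ‖p θ‖ ^ k * (2 * D θ) ^ 2 := by gcongr
          rw [pow_add]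
          linarith [hY1 θ]
        · linarith [Y0 θ]
    · have h1 := (sM_le_tl n1 s.mp s.ip le_rfl (a := 2 * a) (by linarith)).2.2
      have h2 : ⟪sF p, sa p⟫ ≤ ‖sF p‖ * sM p 1 := (real_inner_le_norm _ _).trans
        (mul_le_mul_of_nonneg_left (s.sa_le n1) (norm_nonneg _))
      have h3 : 0 ≤ sM p 1 := integral_nonneg fun _ => by positivity
      have h4 := mul_le_mul_of_nonneg_left h h3
      have h5 := s.cheb1 n1
      have e : sX p = sM p (k + 2) - ⟪sF p, sa p⟫ := rfl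
      linarith
  refine ⟨∫ θ, o θ * ‖p θ‖ ^ k * D θ ∂sph (k + 2), integral_nonneg fun θ =>
    mul_nonneg (mul_nonneg (s.w0 θ) (by positivity)) (D0 θ), ?_, by linarith⟩
  rw [sD, ← integral_inner (s.iφ n2), ← integral_mul_const]
  refine integral_mono ((s.iφ n2).const_inner _) (iν.mul_const _) fun θ => ?_
  refine (s.asy θ (sF p) c θ).trans (le_of_eq ?_)
  change o θ * ‖p θ‖ ^ k * ‖sF p‖ * D θ = _
  ring

end Pool.Agent.Lib.MP_a785f2_an.LO
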