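import Pool.Agent.Lib.MP_a785f2_an.LO.Trunk

/-! One step. -/

open MeasureTheory Metric Set Filter Topology
open scoped ContDiff RealInnerProductSpace ENNReal

namespace Pool.Agent.Lib.MP_a785f2_an.LO

open HS (V)
open LZ (W S Op rad ten grad AA om sph sl pp ph sM sF sa sX sy sD sR en av sgm Pr Ff Rep eqCm)

variable {n m : ℕ} {Ω : Set (E n)} {u : E n → V m} {G : E n → W n m} {f : E n → V m}
  {w : E n → ℝ}

theorem Dat.step (D : Dat Ω u G f w) {L : ℝ} (hL : Caps m L) : ∃ C : ℝ, 0 < C ∧ ∃ C1 : ℝ,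
    1 ≤ C1 ∧ ∀ K θ : ℝ, 0 < θ → θ < 1 → C ≤ K * (1 - θ) → StepOK Ω u G f w L K C1 θ := by
  obtain ⟨Cp, hCp, HTr⟩ := D.trk
  obtain ⟨Ct, ht, C0, h1, HT⟩ := D.trunk hL hCp
  obtain ⟨Cv, hv, HV⟩ := D.vals
  obtain ⟨Cy, hy, HY⟩ := D.y_av
  obtain ⟨Cd, hd, HD⟩ := D.tk_dI
  refine ⟨Ct + Cd + Cv + Cy, by positivity, C0, h1, fun K θ θ0 θ1 hC => ?_⟩
  intro O σ z r l c T J τ Rb a g ct gd h a0 alt ig hT off Ψ q R Z cap hRb hq hZ
  have l0 := gd.l0
  have r0 := gd.r0
  have hK : 0 ≤ K := by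
    by_contra hK
    have : K * (1 - θ) ≤ 0 := mul_nonpos_of_nonpos_of_nonneg (not_le.1 hK).le (by linarith)
    linarith
  have hC' : (Ct + Cd + Cv + Cy) * l + K * (θ * l) ≤ K * l := by
    have := mul_le_mul_of_nonneg_right hC l0.le
    linarith
  have pt := mul_pos ht l0
  have pd := mul_pos hd l0
  have pv := mul_pos hv l0
  have py := mul_pos hy l0
  have pk : 0 ≤ K * (θ * l) := by positivity
  have sub0 : closedBall c (r / 400) ⊆ ball z r := closedBall_subset_ball' (by linarith [h.ctr])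
  have sub1 : closedBall c (r / 400) ⊆ Ω :=
    sub0.trans (((ball_subset_closedBall.trans (closedBall_subset_closedBall
      (by linarith))).trans gd.sub).trans ct.sub)
  obtain ⟨y, tr⟩ := HTr c (r / 400) sub1
  have X : Cx Ω u G f w Cp O σ z r l (θ * l) c T J y := ⟨ct, gd, h, tr⟩
  have Y : Cg u G f w L K C0 τ Rb a g z r (θ * l) c T J := ⟨hK, a0, alt, ig, hT, off⟩
  obtain ⟨v1, v2, v3⟩ := HV O σ z r l (θ * l) c T J ct gd h
  have nq := norm_nonneg (av u z r - q)
  have nZ := norm_nonneg (Z + av u z r)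
  have t1 := HT O σ z r l (θ * l) c T J y K C0 τ Rb a g X Y le_rfl (by positivity) (by linarith)
  have t2 := HD Cp O σ z r l (θ * l) c T J y L Ψ q R X cap
  have t3 := D.rad3 cap sub1
  have e8 : 2 * (r / 800) = r / 400 := by ring
  obtain ⟨s, hs, sJ, a1⟩ := off_J h.lJ h.cJ (a := r / 800) (by positivity)
    (p := fun s => (∀ j ∈ J, s ∉ Ioo j.1 j.2) →
      ∫ x in ball c s, g x ≤ Q u G f Ψ (ball c s) Z) (by
      rw [e8]
      filter_upwards [t1, t2, t3] with s b1 b2 b3 hs sJ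
      have hs' : s ∈ Ioo 0 (r / 400) := ⟨lt_trans (by positivity) hs.1, hs.2⟩
      have c1 := HY Cp O σ z r l (θ * l) c T J y X s ⟨hs'.1, hs'.2.le⟩
      have c2 := v1 s hs.1.le hs.2.le
      have c3 : ‖y s - av u z r‖ ≤ Cy * l + Cv * l :=
        (norm_sub_le_norm_sub_add_norm_sub _ (av u c s) _).trans (add_le_add c1 c2)
      have c4 : ‖y s - q‖ ≤ ‖y s - av u z r‖ + ‖av u z r - q‖ :=
        norm_sub_le_norm_sub_add_norm_sub _ _ _
      have c5 : ‖Z + y s‖ ≤ ‖Z + av u z r‖ + ‖y s - av u z r‖ := by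
        have := norm_add_le (Z + av u z r) (y s - av u z r)
        rwa [add_assoc, add_sub_cancel] at this
      rw [D.Q_ball cap, b3 hs', (b2 hs' sJ (by linarith)).2]
      exact b1 hs sJ Z (by linarith))
  rw [e8] at hs
  have a1 := a1 sJ
  have sub : ball c s ⊆ ball z r :=
    (ball_subset_closedBall.trans (closedBall_subset_closedBall hs.2.le)).trans sub0
  have mU : MeasurableSet (ball z r \ ball c s) := measurableSet_ball.diff measurableSet_ball
  have near : ∀ p : V m, ‖p - av u z r‖ ≤ Cv * l →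
      ‖p - q‖ + K * (θ * l) ≤ R ∧ ‖Z + p‖ + K * (θ * l) ≤ τ := fun p hp => by
    have c4 : ‖p - q‖ ≤ ‖p - av u z r‖ + ‖av u z r - q‖ :=
      norm_sub_le_norm_sub_add_norm_sub _ _ _
    have c5 : ‖Z + p‖ ≤ ‖Z + av u z r‖ + ‖p - av u z r‖ := by
      have := norm_add_le (Z + av u z r) (p - av u z r)
      rwa [add_assoc, add_sub_cancel] at this
    constructor <;> linarith
  have a2 := D.frozen cap (T := {b ∈ T | ∀ x ∈ ball b.1 b.2, s < dist x c}) (τ := τ) mU
    (h.cT.mono (sep_subset _ _)) (h.dT.subset (sep_subset _ _))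
    (fun b hb x hx => ⟨h.sT b hb.1 (ball_subset_closedBall hx),
      fun hx' => lt_asymm (hb.2 x hx) hx'⟩) Z ig
    (fun b hb => by
      have := near _ ((v3 b hb.1).2
        (hs.1.le.trans (hb.2 _ (mem_ball_self (h.gT b hb.1).r0)).le))
      exact hT b hb.1 Ψ q R Z cap hRb this.1 this.2)
    (by
      filter_upwards [v2] with x hx hU hb
      have hsx : s ≤ dist x c := not_lt.1 hU.2
      have hoff : ∀ b ∈ T, x ∉ ball b.1 b.2 := fun b hb' hx' => by
        obtain ⟨j, hj, h2⟩ := h.sh b hb'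
        refine hb b ⟨hb', fun x' hx'' => ?_⟩ hx'
        by_contra hc
        exact sJ j hj ⟨lt_of_lt_of_le (h2 x' hx'').1 (not_lt.1 hc), by
          rcases hsx.eq_or_lt with e | e
          · rw [e]; exact (h2 x hx').2
          · exact e.trans (h2 x hx').2⟩
      have := near _ ((hx hU.1 hoff).2 (hs.1.le.trans hsx))
      refine ⟨by linarith, by linarith, (off x hU.1 hoff).trans ?_⟩
      have g1 := (gn_le G c (2 * a) x).2
      have g2 : 0 ≤ τ ^ 2 * dl G w x := mul_nonneg (sq_nonneg _) (dl_nonneg G w x)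
      have g3 : 0 ≤ ‖G x‖ ^ n := by positivity
      nlinarith)
  have e : ball z r = ball c s ∪ (ball z r \ ball c s) := (union_sdiff_cancel sub).symm
  have i1 := D.iQ cap Z
  unfold Q at a1 a2 ⊢
  rw [e, setIntegral_union disjoint_sdiff_right mU ig.integrableOn ig.integrableOn,
    setIntegral_union disjoint_sdiff_right mU i1.integrableOn i1.integrableOn]
  exact add_le_add a1 a2

end Pool.Agent.Lib.MP_a785f2_an.LO
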