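import Pool.Agent.Lib.MP_a785f2_an.Defs

/-! The Lorentz spaces on the unit ball. -/

open MeasureTheory

namespace Pool.Agent.Lib.MP_a785f2_an

/-- `g` lies in the Lorentz space `L^(n,q)` of the unit ball `B^n`: with `μ t` the measure of the
set of points of the ball where `|g| > t`, the integral of `(t * (μ t)^(1/n))^q` against
`dt / t` over the positive half line is finite. -/
def InLorentzSpace {n : ℕ} (q : ℝ) (g : E n → ℝ) : Prop :=
  ∫⁻ t in Set.Ioi (0 : ℝ),
    ENNReal.ofReal (t ^ (q - 1)) * ballMeasure n {x | t < |g x|} ^ (q / n) < ⊤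

end Pool.Agent.Lib.MP_a785f2_an
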