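import Pool.Agent.Lib.MP_a785f2_an.LO.Wk2
import Pool.Agent.Lib.MP_a785f2_an.LO.Poin
import Pool.Agent.Lib.MP_a785f2_an.LO.Sph0
import Pool.Agent.Lib.MP_a785f2_an.LZ.PrC

/-! The variation of the spherical mean. -/

open MeasureTheory Metric Set Filter Topology
open scoped ContDiff RealInnerProductSpace ENNReal

namespace Pool.Agent.Lib.MP_a785f2_an.LO

open HS (V)
open LZ (W S Op rad ten grad AA om sph sl pp ph sM sF sa sX sy sD sR en av sgm Pr Ff Rep eqCm)

variable {n m : ℕ} {Ω : Set (E n)} {u : E n → V m} {G : E n → W n m} {f : E n → V m}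
  {w : E n → ℝ}

theorem trkb_tl0 (p : S n → W n m) (k : ℕ) (a : ℝ) : 0 ≤ tl p k a :=
  integral_nonneg fun θ => by
    dsimp only
    split_ifs <;> positivity

theorem trkb_log {a b : ℝ} (ha : 0 < a) (hb : b ≤ 2 * a) :
    ∫⁻ s in Ioo a b, ENNReal.ofReal s⁻¹ ≤ 2 := by
  calc ∫⁻ x in Ioo a b, ENNReal.ofReal x⁻¹ ≤ ∫⁻ _ in Ioo a b, ENNReal.ofReal a⁻¹ :=
        setLIntegral_mono' measurableSet_Ioo fun x hx =>
          ENNReal.ofReal_le_ofReal (inv_anti₀ ha hx.1.le)
    _ = ENNReal.ofReal (a⁻¹ * (b - a)) := by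
        rw [setLIntegral_const, Real.volume_Ioo, ENNReal.ofReal_mul (inv_pos.2 ha).le]
    _ ≤ 1 := by
        rw [ENNReal.ofReal_le_one, inv_mul_le_iff₀ ha]; linarith
    _ ≤ 2 := one_le_two

theorem Dat.m1 (D : Dat Ω u G f w) : ∃ C : ℝ, 0 < C ∧ ∀ O σ z c r l R (B : Set ℝ),
    Ct Ω O σ G → Good O σ z r l → dist c z + R ≤ r → MeasurableSet B → B ⊆ Ioo 0 R →
    ∫⁻ s in B, ENNReal.ofReal s⁻¹ ≤ 2 →
    IntegrableOn (fun s => s⁻¹ * sM (pp G c s) 1) B volume ∧
      ∫ s in B, s⁻¹ * sM (pp G c s) 1 ≤ C * l := by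
  have hn : 1 ≤ n := by have := D.n3; omega
  obtain ⟨C, C0, hC⟩ := D.w2 (k := 1) (by have := D.n3; omega)
  refine ⟨80 + C, by positivity, fun O σ z c r l R B ct gd hR mB hB h1 => ?_⟩
  have l0 := gd.l0
  obtain ⟨-, i2, -⟩ := D.pol_en c
  obtain ⟨i3, i4⟩ := hC O σ z c r l R ct gd hR
  have p0 : ∀ᵐ s ∂(volume.restrict B), 0 ≤ s⁻¹ :=
    (ae_restrict_iff' mB).2 (ae_of_all _ fun s hs => (inv_pos.2 (hB hs).1).le)
  have j1 : IntegrableOn (fun s : ℝ => s⁻¹) B volume :=
    (lintegral_ofReal_ne_top_iff_integrable measurable_inv.aestronglyMeasurable p0).1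
      (h1.trans_lt ENNReal.ofNat_lt_top).ne
  have j2 : ∫ s in B, s⁻¹ ≤ 2 := by
    rw [integral_eq_lintegral_of_nonneg_ae p0 measurable_inv.aestronglyMeasurable]
    exact ENNReal.toReal_le_of_le_ofReal zero_le_two (by simpa using h1)
  have j3 : IntegrableOn (fun s => s⁻¹ * tl (pp G c s) 1 (40 * l)) B volume := i3.mono_set hB
  have j4 : ∫ s in B, s⁻¹ * tl (pp G c s) 1 (40 * l) ≤ C * l := by
    refine le_trans (setIntegral_mono_set i3 ((ae_restrict_iff' measurableSet_Ioo).2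
      (ae_of_all _ fun s hs => mul_nonneg (inv_pos.2 hs.1).le (trkb_tl0 _ _ _)))
      hB.eventuallyLE) ?_
    rwa [pow_one] at i4
  have j5 : IntegrableOn (fun s => 40 * l * s⁻¹ + s⁻¹ * tl (pp G c s) 1 (40 * l)) B volume :=
    (j1.const_mul _).add j3
  have j6 : ∀ᵐ s ∂(volume.restrict B), 0 ≤ s⁻¹ * sM (pp G c s) 1 ∧
      s⁻¹ * sM (pp G c s) 1 ≤ 40 * l * s⁻¹ + s⁻¹ * tl (pp G c s) 1 (40 * l) := by
    refine (ae_restrict_iff' mB).2 ?_
    filter_upwards [i2] with s h hs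
    have s0 : 0 ≤ s⁻¹ := (inv_pos.2 (hB hs).1).le
    refine ⟨mul_nonneg s0 (LZ.sM_nonneg _ _), ?_⟩
    refine (mul_le_mul_of_nonneg_left (sM_le_tl hn (LZ.pp_meas D.mG c s) (h (hB hs).1) hn
      (a := 40 * l) (by positivity)).1 s0).trans (le_of_eq ?_)
    ring
  have j7 : IntegrableOn (fun s => s⁻¹ * sM (pp G c s) 1) B volume :=
    j5.mono' (measurable_inv.mul (LZ.sM_meas hn D.mG c 1)).aestronglyMeasurable
      (j6.mono fun s hs => by rw [Real.norm_of_nonneg hs.1]; exact hs.2)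
  refine ⟨j7, (integral_mono_ae j7 j5 (j6.mono fun s hs => hs.2)).trans ?_⟩
  rw [integral_add (j1.const_mul _) j3, integral_const_mul]
  nlinarith [mul_le_mul_of_nonneg_left j2 l0.le]

theorem Trk.var {Cp : ℝ} {c : E n} {R : ℝ} {y : ℝ → V m} (t : Trk u G f w Cp c R y)
    (D : Dat Ω u G f w) {a b : ℝ} (ha : 0 < a) (hab : a ≤ b) (hb : b ≤ R)
    (hi : IntegrableOn (fun s => s⁻¹ * sM (pp G c s) 1) (Ioo a b) volume) :
    ‖y b - y a‖ ≤ ∫ s in Ioo a b, s⁻¹ * sM (pp G c s) 1 := by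
  have hn : 1 ≤ n := by have := D.n3; omega
  refine t.py.norm_le ha hab hb hi ?_
  filter_upwards [t.slc] with s h hs
  have s0 := (inv_pos.2 (ha.trans hs.1)).le
  rw [norm_smul, Real.norm_of_nonneg s0]
  exact mul_le_mul_of_nonneg_left ((h ⟨ha.trans hs.1, hs.2.trans_le hb⟩).sa_le hn) s0

theorem Dat.y_var (D : Dat Ω u G f w) : ∃ C : ℝ, 0 < C ∧ ∀ Cp O σ z r l l' c T J y,
    Cx Ω u G f w Cp O σ z r l l' c T J y → ∀ a b, 0 < a → a ≤ b → b ≤ 4 * a → b ≤ r / 400 →
      ‖y b - y a‖ ≤ C * l := by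
  obtain ⟨C, C0, hC⟩ := D.m1
  refine ⟨2 * C, by positivity, fun Cp O σ z r l l' c T J y X a b ha hab h4 hb => ?_⟩
  have r0 := X.gd.r0
  have l0 := X.gd.l0
  have key : ∀ a b, 0 < a → a ≤ b → b ≤ 2 * a → b ≤ r / 400 → ‖y b - y a‖ ≤ C * l :=
    fun a b ha hab h2 hb => by
      obtain ⟨a1, a2⟩ := hC O σ z c r l (r / 400) (Ioo a b) X.ct X.gd (by linarith [X.ho.ctr])
        measurableSet_Ioo (fun x hx => ⟨ha.trans hx.1, hx.2.trans_le hb⟩) (trkb_log ha h2)
      exact (X.tr.var D ha hab hb a1).trans a2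
  have c0 : 0 < C * l := by positivity
  rcases le_total b (2 * a) with h | h
  · linarith [key a b ha hab h hb]
  · linarith [key a (2 * a) ha (by linarith) le_rfl (h.trans hb),
      key (2 * a) b (by linarith) h (by linarith) hb,
      norm_sub_le_norm_sub_add_norm_sub (y b) (y (2 * a)) (y a)]

theorem Dat.y_av (D : Dat Ω u G f w) : ∃ C : ℝ, 0 < C ∧ ∀ Cp O σ z r l l' c T J y,
    Cx Ω u G f w Cp O σ z r l l' c T J y → ∀ s ∈ Ioc 0 (r / 400), ‖y s - av u c s‖ ≤ C * l := by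
  have hn : 1 ≤ n := by have := D.n3; omega
  have := LZ.sph_prob hn
  have : Nonempty (Fin n) := ⟨⟨0, hn⟩⟩
  obtain ⟨C1, C10, h1⟩ := D.y_var
  obtain ⟨C2, C20, h2⟩ := D.poin
  refine ⟨C1 + 4 * C2, by positivity, fun Cp O σ z0 r0 l l' c T J y X s hs => ?_⟩
  have s0 := hs.1
  have t := X.tr
  have l0 := X.gd.l0
  have rp := X.gd.r0
  have hc := X.ho.ctr
  have := X.ct.fin
  have k1 : ∀ r ∈ Ioo (s / 2) s, ‖y s - y r‖ ≤ C1 * l := fun r hr => by
    have r0 : 0 < r := (half_pos s0).trans hr.1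
    exact h1 _ _ _ _ _ _ _ _ _ _ _ X r s r0 hr.2.le (by linarith [hr.1]) hs.2
  set A : Set (E n) := {x | dist x c ∈ Ioo (s / 2) s} with hA
  have hAs : A ⊆ ball c s := fun x hx => hx.2
  have mA : MeasurableSet A := measurableSet_Ioo.preimage (by fun_prop)
  have fB : volume (ball c s) ≠ ⊤ := measure_ball_lt_top.ne
  have fA : volume A ≠ ⊤ := ne_top_of_le_ne_top fB (measure_mono hAs)
  set z := av u c s with hz
  set β := ‖y s - z‖ - C1 * l with hβ
  have iB : IntegrableOn (fun x => ‖u x - z‖) (ball c s) volume :=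
    ((D.iuA fB).sub (integrableOn_const fB)).norm
  have iA : IntegrableOn (fun x => ‖u x - z‖ - β) A volume :=
    (iB.mono_set hAs).sub (integrableOn_const fA)
  obtain ⟨-, -, b3⟩ := LZ.pol_int hn c measurableSet_Ioo
    (fun x (hx : x ∈ Ioo (s / 2) s) => (half_pos s0).trans hx.1) iA
  obtain ⟨-, b2, -⟩ := LZ.pol_int hn c measurableSet_Ioo
    (fun x (hx : x ∈ Ioo (s / 2) s) => (half_pos s0).trans hx.1) (D.iuA fA)
  have k2 : 0 ≤ ∫ x in A, (‖u x - z‖ - β) := by
    rw [b3]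
    refine smul_nonneg (LZ.om_pos hn).le (integral_nonneg_of_ae ((ae_restrict_iff'
      measurableSet_Ioo).2 ?_))
    filter_upwards [t.ye, b2] with r e1 iu' hr
    have r0 : 0 < r := (half_pos s0).trans hr.1
    refine smul_nonneg (pow_nonneg r0.le _) ?_
    have iu : Integrable (sl u c r) (sph n) := iu' hr
    have iz : Integrable (fun θ => sl u c r θ - z) (sph n) := iu.sub (integrable_const z)
    have e2 : ∫ θ, sl (fun x => ‖u x - z‖ - β) c r θ ∂sph n =
        ∫ θ, ‖sl u c r θ - z‖ ∂sph n - β := by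
      have := integral_sub iz.norm (integrable_const β)
      rw [integral_const, probReal_univ, one_smul] at this
      exact this
    have e3 : ‖y r - z‖ ≤ ∫ θ, ‖sl u c r θ - z‖ ∂sph n := by
      refine le_trans (le_of_eq ?_) (norm_integral_le_integral_norm _)
      rw [integral_sub iu (integrable_const z), integral_const, probReal_univ, one_smul,
        e1 ⟨r0, hr.2.trans_le hs.2⟩, sy]
    have e4 := norm_sub_le_norm_sub_add_norm_sub (y s) (y r) z
    have e5 := k1 r hr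
    rw [e2, hβ]
    linarith
  rw [integral_sub (iB.mono_set hAs) (integrableOn_const fA), setIntegral_const,
    smul_eq_mul] at k2
  have d0 : 0 ≤ dist c z0 := dist_nonneg
  have k3 : ∫ x in A, ‖u x - z‖ ≤ C2 * (2 * l) * (volume : Measure (E n)).real (ball c s) :=
    (setIntegral_mono_set iB (ae_of_all _ fun _ => norm_nonneg _) hAs.eventuallyLE).trans
      (h2 O σ c s (2 * l) X.ct s0 (by positivity)
        ((closedBall_subset_closedBall' (by linarith [hs.2])).trans X.gd.sub)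
        (X.gd.lin (by have := D.n3; omega) (by linarith) s0 (by linarith [hs.2])))
  have v0 : 0 < (volume : Measure (E n)).real (ball c s) :=
    ENNReal.toReal_pos (measure_ball_pos _ _ s0).ne' fB
  have k4 : (volume : Measure (E n)).real (ball c s) ≤ 2 * (volume : Measure (E n)).real A := by
    have q1 : (volume : Measure (E n)).real (ball c s) ≤ (volume : Measure (E n)).real A +
        (volume : Measure (E n)).real (closedBall c (s / 2)) := by
      refine le_trans (measureReal_mono (fun x hx => ?_)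
        (measure_union_ne_top fA measure_closedBall_lt_top.ne)) (measureReal_union_le _ _)
      rcases le_or_gt (dist x c) (s / 2) with h | h
      · exact Or.inr h
      · exact Or.inl ⟨h, hx⟩
    have q2 : (volume : Measure (E n)).real (closedBall c (s / 2)) * 2 ≤
        (volume : Measure (E n)).real (ball c s) := by
      rw [← Measure.addHaar_real_closedBall_eq_addHaar_real_ball,
        Measure.addHaar_real_closedBall _ _ s0.le,
        Measure.addHaar_real_closedBall _ _ (half_pos s0).le, finrank_euclideanSpace_fin,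
        mul_right_comm]
      refine mul_le_mul_of_nonneg_right ?_ measureReal_nonneg
      rw [div_pow, div_mul_eq_mul_div, div_le_iff₀ (by positivity)]
      exact mul_le_mul_of_nonneg_left (le_self_pow₀ one_le_two (by omega)) (pow_nonneg s0.le _)
    linarith
  rcases le_or_gt β 0 with h | h
  · have : 0 ≤ C2 * l := by positivity
    rw [hβ] at h; linarith
  · have k5 : β * (volume : Measure (E n)).real (ball c s) ≤
        4 * (C2 * l) * (volume : Measure (E n)).real (ball c s) := by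
      nlinarith [mul_le_mul_of_nonneg_left k4 h.le]
    have k6 := le_of_mul_le_mul_right k5 v0
    rw [hβ] at k6; linarith

theorem Dat.tk_W (D : Dat Ω u G f w) : ∃ κ : ℝ, 0 < κ ∧ ∃ C : ℝ, 0 < C ∧
    ∀ O σ z r l l' c T J, Ct Ω O σ G → Good O σ z r l → Hol O σ z r l l' c T J →
      IntegrableOn (fun s => s⁻¹ * sM (pp G c s) 1) (Ioo 0 (r / 400) ∩ Wd G c J (κ * l)) volume ∧
        ∫ s in Ioo 0 (r / 400) ∩ Wd G c J (κ * l), s⁻¹ * sM (pp G c s) 1 ≤ C * l := by
  have hn : 1 ≤ n := by have := D.n3; omega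
  have hn1 : n - 1 ≠ 0 := by have := D.n3; omega
  obtain ⟨C1, C10, h1⟩ := D.m1
  obtain ⟨C2, C20, h2⟩ := D.w2 (k := n - 1) (by omega)
  refine ⟨40 + (C2 + 1), by positivity, C1, C10, fun O σ z r l l' c T J ct gd ho => ?_⟩
  have r0 := gd.r0
  have l0 := gd.l0
  have hR : dist c z + r / 400 ≤ r := by linarith [ho.ctr]
  have mX : MeasurableSet {s | ((40 + (C2 + 1)) * l) ^ (n - 1) < sM (pp G c s) (n - 1)} :=
    measurableSet_lt measurable_const (LZ.sM_meas hn D.mG c _)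
  have mU : MeasurableSet (⋃ j ∈ J, Ioo j.1 j.2) :=
    (isOpen_biUnion fun _ _ => isOpen_Ioo).measurableSet
  refine h1 O σ z c r l (r / 400) _ ct gd hR (measurableSet_Ioo.inter (mU.union mX))
    inter_subset_left ?_
  obtain ⟨i3, i4⟩ := h2 O σ z c r l (r / 400) ct gd hR
  obtain ⟨-, i2, -⟩ := D.pol_en c
  have d0 : 0 < C2 * l ^ (n - 1) := by positivity
  have e1 : (40 * l) ^ (n - 1) + C2 * l ^ (n - 1) ≤ ((40 + (C2 + 1)) * l) ^ (n - 1) := by
    have a1 := pow_add_pow_le (x := (40 : ℝ)) (y := C2 + 1) (by norm_num) (by positivity) hn1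
    have a2 : C2 + 1 ≤ (C2 + 1) ^ (n - 1) := le_self_pow₀ (by linarith) hn1
    rw [mul_pow, mul_pow, ← add_mul]
    exact mul_le_mul_of_nonneg_right (by linarith) (by positivity)
  have n0 : 0 ≤ᵐ[volume.restrict (Ioo 0 (r / 400))]
      fun s => s⁻¹ * tl (pp G c s) (n - 1) (40 * l) / (C2 * l ^ (n - 1)) :=
    (ae_restrict_iff' measurableSet_Ioo).2 (ae_of_all _ fun s hs =>
      div_nonneg (mul_nonneg (inv_pos.2 hs.1).le (trkb_tl0 _ _ _)) d0.le)
  have e2 : ∫⁻ s in Ioo 0 (r / 400) ∩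
      {s | ((40 + (C2 + 1)) * l) ^ (n - 1) < sM (pp G c s) (n - 1)}, ENNReal.ofReal s⁻¹ ≤ 1 := by
    calc _ ≤ ∫⁻ s in Ioo 0 (r / 400) ∩
          {s | ((40 + (C2 + 1)) * l) ^ (n - 1) < sM (pp G c s) (n - 1)}, ENNReal.ofReal
            (s⁻¹ * tl (pp G c s) (n - 1) (40 * l) / (C2 * l ^ (n - 1))) := by
          refine lintegral_mono_ae ((ae_restrict_iff' (measurableSet_Ioo.inter mX)).2 ?_)
          filter_upwards [i2] with s h hs
          refine ENNReal.ofReal_le_ofReal ?_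
          have b1 := (sM_le_tl hn (LZ.pp_meas D.mG c s) (h hs.1.1) (Nat.sub_le n 1)
            (a := 40 * l) (by positivity)).1
          have b2 : ((40 + (C2 + 1)) * l) ^ (n - 1) < sM (pp G c s) (n - 1) := hs.2
          rw [le_div_iff₀ d0]
          exact mul_le_mul_of_nonneg_left (by linarith) (inv_pos.2 hs.1.1).le
      _ ≤ ∫⁻ s in Ioo 0 (r / 400), ENNReal.ofReal
            (s⁻¹ * tl (pp G c s) (n - 1) (40 * l) / (C2 * l ^ (n - 1))) :=
          lintegral_mono_set inter_subset_left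
      _ ≤ 1 := by
          rw [← ofReal_integral_eq_lintegral_ofReal (i3.div_const _) n0, ENNReal.ofReal_le_one,
            integral_div, div_le_one d0]
          exact i4
  calc _ ≤ ∫⁻ s in (⋃ j ∈ J, Ioo j.1 j.2) ∪ (Ioo 0 (r / 400) ∩
        {s | ((40 + (C2 + 1)) * l) ^ (n - 1) < sM (pp G c s) (n - 1)}), ENNReal.ofReal s⁻¹ :=
        lintegral_mono_set fun s hs => hs.2.imp id fun h => ⟨hs.1, h⟩
    _ ≤ 1 + 1 := (lintegral_union_le _ _ _).trans
        (add_le_add (ho.lJ.trans (by norm_num)) e2)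
    _ = 2 := one_add_one_eq_two

end Pool.Agent.Lib.MP_a785f2_an.LO
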