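import Pool.Agent.Lib.MP_a785f2_an.LO.Vals
import Pool.Agent.Lib.MP_a785f2_an.LO.TrkB

/-! Values compared with the spherical mean. -/

open MeasureTheory Metric Set Filter Topology
open scoped ContDiff RealInnerProductSpace ENNReal

namespace Pool.Agent.Lib.MP_a785f2_an.LO

open HS (V)
open LZ (W S Op rad ten grad AA om sph sl pp ph sM sF sa sX sy sD sR en av sgm Pr Ff Rep eqCm)

variable {n m : ℕ} {Ω : Set (E n)} {u : E n → V m} {G : E n → W n m} {f : E n → V m}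
  {w : E n → ℝ}

theorem Hol.tka_mem {O : Set (E n)} {σ : Measure (E n)} {z c : E n} {r l l' : ℝ}
    {T : Set (E n × ℝ)} {J : Set (ℝ × ℝ)} (h : Hol O σ z r l l' c T J) (g : Good O σ z r l)
    {x : E n} (hx : dist x c ≤ r / 400) : x ∈ ball z r := by
  have := dist_triangle x c z
  rw [mem_ball]
  linarith [h.ctr, g.r0]

theorem Dat.tk_osc (D : Dat Ω u G f w) : ∃ C : ℝ, 0 < C ∧ ∀ Cp O σ z r l l' c T J y,
    Cx Ω u G f w Cp O σ z r l l' c T J y →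
    ∀ᵐ s, s ∈ Ioo 0 (r / 400) → (∀ j ∈ J, s ∉ Ioo j.1 j.2) →
      ∀ᵐ θ ∂sph n, ‖sl u c s θ - y s‖ ≤ C * l := by
  have n1 : 1 ≤ n := by linarith [D.n3]
  obtain ⟨C1, c1, h1⟩ := D.vals
  obtain ⟨C2, c2, h2⟩ := D.y_av
  refine ⟨C1 + C2, by positivity, fun Cp O σ z r l l' c T J y X => ?_⟩
  obtain ⟨-, v1, -⟩ := h1 O σ z r l l' c T J X.ct X.gd X.ho
  filter_upwards [LZ.pol_ae n1 v1 c] with s hs hs1 hJ
  filter_upwards [hs hs1.1] with θ hθ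
  have e0 : dist (c + s • (θ : E n)) c = s := by
    rw [dist_eq_norm, LY.polar_norm c hs1.1.le θ]
  have e1 := (hθ (X.ho.tka_mem X.gd (e0.le.trans hs1.2.le)) fun b hb hx => by
    obtain ⟨j, hj, h3⟩ := X.ho.sh b hb
    exact hJ j hj (e0 ▸ h3 _ hx)).1 (e0.le.trans hs1.2.le)
  rw [e0] at e1
  have e2 := h2 Cp O σ z r l l' c T J y X s ⟨hs1.1, hs1.2.le⟩
  have e3 := norm_sub_le_norm_sub_add_norm_sub (sl u c s θ) (av u c s) (y s)
  rw [norm_sub_rev] at e2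
  simp only [sl] at e3 ⊢
  linarith

theorem Dat.tk_shell (D : Dat Ω u G f w) : ∃ C : ℝ, 0 < C ∧ ∀ Cp O σ z r l l' c T J y,
    Cx Ω u G f w Cp O σ z r l l' c T J y → ∀ j ∈ J, j.2 ≤ r / 400 →
    (∀ᵐ x, dist x c ∈ Ioo j.1 j.2 → (∀ b ∈ T, x ∉ ball b.1 b.2) → ‖u x - y j.2‖ ≤ C * l) ∧
      ∀ b ∈ T, dist b.1 c ∈ Ioo j.1 j.2 → ‖av u b.1 b.2 - y j.2‖ ≤ C * l := by
  obtain ⟨C1, c1, h1⟩ := D.vals
  obtain ⟨C2, c2, h2⟩ := D.y_av
  obtain ⟨C3, c3, h3⟩ := D.y_var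
  refine ⟨C1 + C2 + C3, by positivity, fun Cp O σ z r l l' c T J y X j hj j1 => ?_⟩
  obtain ⟨j0, -, j2⟩ := X.ho.pJ j hj
  obtain ⟨-, v1, v2⟩ := h1 O σ z r l l' c T J X.ct X.gd X.ho
  have key : ∀ (q : V m) (s : ℝ), s ∈ Ioo j.1 j.2 → ‖q - av u c s‖ ≤ C1 * l →
      ‖q - y j.2‖ ≤ (C1 + C2 + C3) * l := fun q s hs hq => by
    have s0 := j0.trans hs.1
    have e1 := h2 Cp O σ z r l l' c T J y X s ⟨s0, hs.2.le.trans j1⟩
    have e2 := h3 Cp O σ z r l l' c T J y X s j.2 s0 hs.2.le (by linarith [hs.1]) j1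
    have e3 := norm_sub_le_norm_sub_add_norm_sub q (av u c s) (y j.2)
    have e4 := norm_sub_le_norm_sub_add_norm_sub (av u c s) (y s) (y j.2)
    rw [norm_sub_rev] at e1 e2
    linarith
  refine ⟨?_, fun b hb hs => key _ _ hs ((v2 b hb).1 (hs.2.le.trans j1))⟩
  filter_upwards [v1] with x hx hs hT
  exact key _ _ hs ((hx (X.ho.tka_mem X.gd (hs.2.le.trans j1)) hT).1 (hs.2.le.trans j1))

end Pool.Agent.Lib.MP_a785f2_an.LO
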