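import Pool.Agent.Lib.MP_a785f2_an.LO.TkA
import Pool.Agent.Lib.MP_a785f2_an.LO.Sph
import Pool.Agent.Lib.MP_a785f2_an.LO.Frz

/-! The good radii. -/

open MeasureTheory Metric Set Filter Topology
open scoped ContDiff RealInnerProductSpace ENNReal

namespace Pool.Agent.Lib.MP_a785f2_an.LO

open HS (V)
open LZ (W S Op rad ten grad AA om sph sl pp ph sM sF sa sX sy sD sR en av sgm Pr Ff Rep eqCm)

variable {n m : ℕ} {Ω : Set (E n)} {u : E n → V m} {G : E n → W n m} {f : E n → V m}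
  {w : E n → ℝ}

theorem Dat.tk_rd (D : Dat Ω u G f w) {Cp : ℝ} {O : Set (E n)} {σ : Measure (E n)} {z : E n}
    {r l l' : ℝ} {c : E n} {T : Set (E n × ℝ)} {J : Set (ℝ × ℝ)} {y : ℝ → V m}
    {L K C1 τ Rb a : ℝ} {g : E n → ℝ} (X : Cx Ω u G f w Cp O σ z r l l' c T J y)
    (Y : Cg u G f w L K C1 τ Rb a g z r l' c T J) :
    ∀ᵐ s, s ∈ Ioo 0 (r / 400) → (∀ j ∈ J, s ∉ Ioo j.1 j.2) →
      s * rd g c s ≤ tl (pp G c s) n (2 * a) / 16 - C1 * τ ^ 2 * sL (pp G c s) (ww w c s) := by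
  have n3 := D.n3
  have hn : 1 ≤ n := by omega
  obtain ⟨-, h2, -⟩ := LZ.pol_int hn c measurableSet_Ioi Subset.rfl Y.ig.integrableOn
  filter_upwards [h2, X.tr.slc] with s a1 a2 hs hJ
  have s0 : 0 < s := hs.1
  have b1 := a1 s0
  have b2 := a2 hs
  have hd : ∀ θ : S n, dist (c + s • (θ : E n)) c = s := fun θ => by
    rw [dist_eq_norm, LY.polar_norm c s0.le]
  have hp : ∀ θ : S n, ‖pp G c s θ‖ = s * ‖G (c + s • (θ : E n))‖ := fun θ => by
    rw [pp, norm_smul, Real.norm_of_nonneg s0.le]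
  have i1 : Integrable (fun θ => if 2 * a < ‖pp G c s θ‖ then ‖pp G c s θ‖ ^ n else 0) (sph n) := by
    refine b2.ip.mono' ?_ (ae_of_all _ fun θ => ?_)
    · exact (Measurable.ite (measurableSet_lt measurable_const b2.mp.norm.measurable)
        (b2.mp.norm.measurable.pow_const n) measurable_const).aestronglyMeasurable
    · split_ifs
      · rw [Real.norm_of_nonneg (by positivity)]
      · rw [norm_zero]; positivity
  have e1 : s * rd g c s = ∫ θ, s ^ n * sl g c s θ ∂sph n := by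
    rw [rd, integral_const_mul, ← mul_assoc, ← pow_succ', Nat.sub_add_cancel hn]
  rw [e1, tl, sL, ← integral_div, ← integral_const_mul,
    ← integral_sub (i1.div_const 16) (b2.iw.const_mul _)]
  refine integral_mono (b1.const_mul _) ((i1.div_const 16).sub (b2.iw.const_mul _)) fun θ => ?_
  have h1 : c + s • (θ : E n) ∈ ball z r := by
    have := dist_triangle (c + s • (θ : E n)) c z
    have h3 := X.ho.ctr
    have h4 := hs.2
    rw [hd θ] at this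
    rw [mem_ball]
    linarith
  have h2 : ∀ b ∈ T, c + s • (θ : E n) ∉ ball b.1 b.2 := fun b hb h => by
    obtain ⟨j, hj, h3⟩ := X.ho.sh b hb
    have := h3 _ h
    rw [hd θ] at this
    exact hJ j hj this
  have h3 := mul_le_mul_of_nonneg_left (Y.off _ h1 h2) (pow_nonneg s0.le n)
  have e2 : s ^ n * gn G c (2 * a) (c + s • (θ : E n)) =
      if 2 * a < ‖pp G c s θ‖ then ‖pp G c s θ‖ ^ n else 0 := by
    rw [gn, hd θ, hp θ]
    split_ifs
    · rw [mul_pow]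
    · rw [mul_zero]
  have e3 : s ^ n * dl G w (c + s • (θ : E n)) = ‖pp G c s θ‖ ^ (n - 2) * ww w c s θ ^ 2 := by
    rw [dl, hp θ, ww]
    obtain ⟨k, rfl⟩ : ∃ k, n = k + 2 := ⟨n - 2, by omega⟩
    rw [Nat.add_sub_cancel]
    ring
  show s ^ n * g (c + s • (θ : E n)) ≤ _
  beta_reduce
  rw [← e2, ← e3]
  linarith

theorem Dat.tk_dI (D : Dat Ω u G f w) : ∃ C : ℝ, 0 < C ∧ ∀ Cp O σ z r l l' c T J y L Ψ q R,
    Cx Ω u G f w Cp O σ z r l l' c T J y → Cap L Ψ q R →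
    ∀ᵐ s, s ∈ Ioo 0 (r / 400) → (∀ j ∈ J, s ∉ Ioo j.1 j.2) → ‖y s - q‖ + C * l ≤ R →
      s * rd (dq u G f Ψ 0) c s - ⟪sD (ph f c s), y s⟫ =
          sM (pp G c s) n + sR (sl u c s) (ph f c s) (y s) ∧
        sI (fun θ => Ψ (sl u c s θ)) (pp G c s) = sI (sl u c s) (pp G c s) := by
  have n3 := D.n3
  have hn : 1 ≤ n := by omega
  obtain ⟨C, C0, H⟩ := D.tk_osc
  refine ⟨C, C0, fun Cp O σ z r l l' c T J y L Ψ q R X h => ?_⟩
  filter_upwards [H Cp O σ z r l l' c T J y X, X.tr.slc] with s a1 a2 hs hJ hy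
  have s0 : 0 < s := hs.1
  have b1 := a1 hs hJ
  have b2 := a2 hs
  have b3 : ∀ᵐ θ ∂sph n, ‖sl u c s θ - q‖ ≤ R := b1.mono fun θ hθ => by
    have := norm_sub_le_norm_sub_add_norm_sub (sl u c s θ) (y s) q
    linarith
  refine ⟨?_, integral_congr_ae (b3.mono fun θ hθ => ?_)⟩
  swap
  · beta_reduce
    rw [(h.eq _ hθ).1]
  have i1 : Integrable (fun θ => ⟪ph f c s θ, sl u c s θ - 0⟫) (sph n) := by
    refine ((b2.iφ (by omega)).norm.mul_const (‖q‖ + R)).mono'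
      (b2.mf.aestronglyMeasurable.inner
        (b2.mv.aestronglyMeasurable.sub aestronglyMeasurable_const)) (b3.mono fun θ hθ => ?_)
    refine (norm_inner_le_norm _ _).trans (mul_le_mul_of_nonneg_left ?_ (norm_nonneg _))
    have := norm_add_le q (sl u c s θ - q)
    rw [add_sub_cancel] at this
    rw [sub_zero]
    linarith
  have e1 : s * rd (dq u G f Ψ 0) c s = ∫ θ, s ^ n * sl (dq u G f Ψ 0) c s θ ∂sph n := by
    rw [rd, integral_const_mul, ← mul_assoc, ← pow_succ', Nat.sub_add_cancel hn]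
  have e2 : ∫ θ, s ^ n * sl (dq u G f Ψ 0) c s θ ∂sph n =
      sM (pp G c s) n + sR (sl u c s) (ph f c s) 0 := by
    rw [sM, sR, ← integral_add b2.ip i1]
    refine integral_congr_ae (b3.mono fun θ hθ => ?_)
    have h1 := D.dq_eq h 0 (x := c + s • (θ : E n)) hθ
    show s ^ n * dq u G f Ψ 0 (c + s • (θ : E n)) = _
    beta_reduce
    rw [h1, pp, ph, sl, norm_smul, Real.norm_of_nonneg s0.le, inner_neg_left, real_inner_smul_left,
      zero_add, sub_zero, mul_pow]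
    ring
  rw [e1, e2, b2.sR_shift (by omega) b3 (y s)]
  ring

theorem Dat.tk_good (D : Dat Ω u G f w) {Cp κ : ℝ} (hC : 0 < Cp) (hκ : 0 < κ) :
    ∃ C : ℝ, 0 < C ∧ ∃ C0 : ℝ, 1 ≤ C0 ∧ ∀ O σ z r l l' c T J y L K C1 τ Rb a g t,
      Cx Ω u G f w Cp O σ z r l l' c T J y → Cg u G f w L K C1 τ Rb a g z r l' c T J →
      C0 ≤ C1 → C * l ≤ τ → 0 ≤ t → t ≤ τ →
      ∀ᵐ s, s ∈ Ioo 0 (r / 400) → (∀ j ∈ J, s ∉ Ioo j.1 j.2) → ∃ ν : ℝ, 0 ≤ ν ∧
        ⟪sF (pp G c s), sD (ph f c s)⟫ ≤ ν * ‖sF (pp G c s)‖ ∧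
        ((κ * l) ^ (n - 1) < sM (pp G c s) (n - 1) → s * rd g c s ≤
          sM (pp G c s) n + sR (sl u c s) (ph f c s) (y s) - t * ν) ∧
        (sM (pp G c s) (n - 1) ≤ (κ * l) ^ (n - 1) → s * rd g c s ≤
          sX (pp G c s) + sR (sl u c s) (ph f c s) (y s) - t * ν) := by
  have n3 := D.n3
  have hn : 1 ≤ n := by omega
  obtain ⟨C, C0, H⟩ := D.tk_osc
  obtain ⟨Cs, C2, HS⟩ := sphere_lemma (m := m) n3 hC
  refine ⟨max κ C, lt_max_of_lt_left hκ, Cs, by linarith,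
    fun O σ z r l l' c T J y L K C1 τ Rb a g t X Y h1 hτ t0 ht => ?_⟩
  have l0 := X.gd.l0
  have d0 : 0 ≤ max κ C * l := mul_nonneg (le_max_of_le_left hκ.le) l0.le
  filter_upwards [H Cp O σ z r l l' c T J y X, X.tr.slc, X.tr.ye, D.tk_rd X Y, Y.alt]
    with s a1 a2 a3 a4 a5 hs hJ
  have b1 := a1 hs hJ
  have b2 := a2 hs
  have b4 := a4 hs hJ
  rw [a3 hs] at b1 ⊢
  have b3 : ∀ᵐ θ ∂sph n, ‖sl u c s θ - sy (sl u c s)‖ ≤ max κ C * l := b1.mono fun θ hθ =>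
    hθ.trans (mul_le_mul_of_nonneg_right (le_max_right _ _) l0.le)
  have L0 : 0 ≤ τ ^ 2 * sL (pp G c s) (ww w c s) := mul_nonneg (sq_nonneg _) (sL_nonneg _ _)
  have L1 := mul_le_mul_of_nonneg_right h1 L0
  have L2 := mul_le_mul_of_nonneg_right C2 L0
  rcases lt_or_ge ((κ * l) ^ (n - 1)) (sM (pp G c s) (n - 1)) with he | he
  · obtain ⟨ν, n0, n1, n2⟩ := b2.crude n3 d0 hτ b3
    obtain ⟨-, -, m1⟩ := sM_le_tl hn b2.mp b2.ip le_rfl (a := 2 * a) (by linarith [Y.a0])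
    have m0 := LZ.sM_nonneg (pp G c s) n
    have m2 := mul_le_mul_of_nonneg_right ht n0
    exact ⟨ν, n0, n1, fun _ => by linarith, fun h => absurd he (not_lt.2 h)⟩
  · have h2 : sM (pp G c s) (n - 1) ≤ (max κ C * l) ^ (n - 1) := he.trans
      (pow_le_pow_left₀ (by positivity)
        (mul_le_mul_of_nonneg_right (le_max_left _ _) l0.le) _)
    obtain ⟨ν, n0, n1, n2⟩ := HS _ _ _ _ _ τ a b2 d0 hτ b3 h2 Y.a0 (a5 hs hJ)
    have m2 := mul_le_mul_of_nonneg_right ht n0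
    exact ⟨ν, n0, n1, fun h => absurd h (not_lt.2 he), fun _ => by linarith⟩

end Pool.Agent.Lib.MP_a785f2_an.LO
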