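import Pool.Agent.Lib.MP_a785f2_an.LO.TkA
import Pool.Agent.Lib.MP_a785f2_an.LO.Frz

/-! The bad intervals. -/

open MeasureTheory Metric Set Filter Topology
open scoped ContDiff RealInnerProductSpace ENNReal

namespace Pool.Agent.Lib.MP_a785f2_an.LO

open HS (V)
open LZ (W S Op rad ten grad AA om sph sl pp ph sM sF sa sX sy sD sR en av sgm Pr Ff Rep eqCm)

variable {n m : ℕ} {Ω : Set (E n)} {u : E n → V m} {G : E n → W n m} {f : E n → V m}
  {w : E n → ℝ}

theorem Dat.tk_J (D : Dat Ω u G f w) : ∃ C : ℝ, 0 < C ∧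
    ∀ Cp O σ z r l l' c T J y L K C1 τ Rb a g, Cx Ω u G f w Cp O σ z r l l' c T J y →
      Cg u G f w L K C1 τ Rb a g z r l' c T J → 1 ≤ C1 → 0 ≤ l' →
      ∀ j ∈ J, j.2 ≤ r / 400 → ∀ Ψ q R Z, Cap L Ψ q R → R ≤ Rb →
        ‖y j.2 - q‖ + C * l + K * l' ≤ R → ‖Z + y j.2‖ + C * l + K * l' ≤ τ →
        om n * ∫ s in j.1..j.2, rd g c s ≤
          Q u G f Ψ (ball c j.2) Z - Q u G f Ψ (ball c j.1) Z := by
  have n1 : 1 ≤ n := by linarith [D.n3]
  obtain ⟨C, c0, h1⟩ := D.tk_shell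
  refine ⟨C, c0, fun Cp O σ z r l l' c T J y L K C1 τ Rb a g X Y hC1 hl' j hj j1 Ψ q R Z hΨ hR
    hq hZ => ?_⟩
  obtain ⟨j0, j12, -⟩ := X.ho.pJ j hj
  obtain ⟨v1, v2⟩ := h1 Cp O σ z r l l' c T J y X j hj j1
  have mU : MeasurableSet {x : E n | dist x c ∈ Ioo j.1 j.2} :=
    (continuous_id.dist continuous_const).measurable measurableSet_Ioo
  have key : ∀ p : V m, ‖p - y j.2‖ ≤ C * l →
      ‖p - q‖ + K * l' ≤ R ∧ ‖Z + p‖ + K * l' ≤ τ := fun p hp => by
    have e1 := norm_sub_le_norm_sub_add_norm_sub p (y j.2) q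
    have e : Z + p = Z + y j.2 + (p - y j.2) := by abel
    have e2 := norm_add_le (Z + y j.2) (p - y j.2)
    rw [← e] at e2
    exact ⟨by linarith, by linarith⟩
  have kl := mul_nonneg Y.K0 hl'
  have fr := D.frozen hΨ mU
    (T := {b ∈ T | ball b.1 b.2 ⊆ {x : E n | dist x c ∈ Ioo j.1 j.2}})
    (X.ho.cT.mono fun b hb => hb.1) (X.ho.dT.subset fun b hb => hb.1) (fun b hb => hb.2) Z Y.ig
    (τ := τ)
    (fun b hb => by
      obtain ⟨k1, k2⟩ := key _ (v2 b hb.1 (hb.2 (mem_ball_self (X.ho.gT b hb.1).r0)))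
      exact Y.low b hb.1 Ψ q R Z hΨ hR k1 k2)
    (by
      filter_upwards [v1] with x hx hU hb
      have off : ∀ b ∈ T, x ∉ ball b.1 b.2 := fun b bT xb => by
        obtain ⟨i, hi, h2⟩ := X.ho.sh b bT
        by_cases e : i = j
        · exact hb b ⟨bT, fun w hw => e ▸ h2 w hw⟩ xb
        · exact Set.disjoint_left.1 (X.ho.dJ hi hj e) (h2 x xb) hU
      obtain ⟨k1, k2⟩ := key _ (hx hU off)
      refine ⟨by linarith, by linarith, ?_⟩
      have e1 := Y.off x (X.ho.tka_mem X.gd (hU.2.le.trans j1)) off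
      have e2 := (gn_le G c (2 * a) x).2
      have e3 : 0 ≤ ‖G x‖ ^ n := by positivity
      have e4 := mul_nonneg (sq_nonneg τ) (dl_nonneg G w x)
      have e5 := mul_le_mul_of_nonneg_right hC1 e4
      rw [← mul_assoc] at e5
      linarith)
  have := LY.nontriv n1
  have he : ball c j.2 =ᵐ[volume]
      (ball c j.1 ∪ {x : E n | dist x c ∈ Ioo j.1 j.2} : Set (E n)) := by
    filter_upwards [measure_eq_zero_iff_ae_notMem.1
      (Measure.addHaar_sphere (volume : Measure (E n)) c j.1)] with x hx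
    refine propext ⟨fun h1 => ?_, fun h1 => ?_⟩
    · rcases lt_or_gt_of_ne (mt mem_sphere.2 hx) with h2 | h2
      · exact Or.inl h2
      · exact Or.inr ⟨h2, h1⟩
    · exact h1.elim (fun h2 => lt_trans h2 j12) fun h2 => h2.2
  have sp : Q u G f Ψ (ball c j.2) Z =
      Q u G f Ψ (ball c j.1) Z + Q u G f Ψ {x : E n | dist x c ∈ Ioo j.1 j.2} Z := by
    rw [Q, setIntegral_congr_set he, setIntegral_union
      (Set.disjoint_left.2 fun x h1 h2 => lt_asymm (mem_ball.1 h1) h2.1) mU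
      (D.iQ hΨ Z).integrableOn (D.iQ hΨ Z).integrableOn]
    rfl
  rw [intervalIntegral.integral_of_le j12.le, integral_Ioc_eq_integral_Ioo,
    ← (rd_int n1 Y.ig c).2 _ measurableSet_Ioo fun s hs => j0.trans hs.1, sp]
  linarith

end Pool.Agent.Lib.MP_a785f2_an.LO
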