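import Pool.Agent.Lib.MP_a785f2_an.LO.Sol
import Pool.Agent.Lib.MP_a785f2_an.LO.TrA
import Pool.Agent.Lib.MP_a785f2_an.LZ.TrA

/-! Transfer of the statement in coordinates to the internal vocabulary. -/

open MeasureTheory Metric Set Filter Topology
open scoped ContDiff RealInnerProductSpace ENNReal

namespace Pool.Agent.Lib.MP_a785f2_an.LO

open HS (V)
open LZ

variable {n m : ℕ}

theorem sol_of_gsol (hn : 3 ≤ n) {O : Set (HS.D n)} {v : HS.D n → V m}
    {A : HS.D n → HS.D n →L[ℝ] V m} {F : HS.D n → V m} (s : NH.GSol O v A F) {T : Set (E n)}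
    (mT : MeasurableSet T) (hT : ∀ᵐ x, eD n x ∈ O → x ∈ T) :
    Sol (eD n ⁻¹' O) (fun x => v (eD n x)) (fun x => cols (A (eD n x)))
      (T.indicator fun x => F (eD n x)) := by
  have hn2 : 2 ≤ n := by omega
  have me : Measurable (eD n) := (eD n).continuous.measurable
  refine ⟨hn, s.op.preimage (eD n).continuous, s.mu.comp_measurable me,
    continuous_cols.comp_stronglyMeasurable (s.mG.comp_measurable me),
    (s.mF.comp_measurable me).indicator mT,
    eD_mp.integrable_comp_of_integrable (s.lu.integrable_norm_pow (by omega)), ?_,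
    (eD_mp.integrable_comp_of_integrable s.lF).indicator mT, fun x0 R hR => ?_,
    fun φ p1 p2 p3 => ?_⟩
  · simp only [norm_cols]
    exact eD_mp.integrable_comp_of_integrable (NH.int_fro_pow (by omega) s.lG)
  · have hc : IsCompact (eD n '' closedBall x0 R) :=
      (isCompact_closedBall x0 R).image (eD n).continuous
    obtain ⟨w, hw⟩ := apx_cpt hn2 s hc (image_subset_iff.2 hR)
    have e1 : eD n ⁻¹' (eD n '' closedBall x0 R) = closedBall x0 R :=
      preimage_image_eq _ (eD n).injective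
    have key : ∀ {φ : E n → ℝ≥0∞} {ψ : HS.D n → ℝ≥0∞}, (∀ x, φ x ≤ ψ (eD n x)) →
        ∫⁻ x in closedBall x0 R, φ x ≤ ∫⁻ y in eD n '' closedBall x0 R, ψ y := fun {φ ψ} k => by
      rw [← eD_mp.setLIntegral_comp_preimage_emb eD_emb, e1]
      exact lintegral_mono k
    refine ⟨fun k x => w k (eD n x), fun k => ((hw.sm k).of_le (by simp)).comp (eD n).contDiff,
      ?_, tendsto_of_tendsto_of_tendsto_of_le_of_le tendsto_const_nhds hw.lu (fun _ => zero_le)
        fun k => key fun x => le_rfl, ?_⟩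
    · have a2 := eD_mp.quasiMeasurePreserving.ae ((ae_restrict_iff' hc.measurableSet).1 hw.ae)
      filter_upwards [ae_restrict_of_ae a2, ae_restrict_mem measurableSet_closedBall]
        with x k2 k3
      exact k2 (mem_image_of_mem _ k3)
    · have h4 := ENNReal.Tendsto.const_mul (a := (n : ℝ≥0∞) ^ n) hw.lG
        (Or.inr (ENNReal.pow_ne_top (ENNReal.natCast_ne_top n)))
      rw [mul_zero] at h4
      refine tendsto_of_tendsto_of_tendsto_of_le_of_le tendsto_const_nhds h4 (fun _ => zero_le)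
        fun k => ?_
      beta_reduce
      rw [← lintegral_const_mul' _ _ (ENNReal.pow_ne_top (ENNReal.natCast_ne_top n))]
      refine key fun x => ?_
      rw [grad_comp ((hw.sm k).differentiable (by simp)), ← cols_sub, ← mul_pow]
      refine pow_le_pow_left' ?_ n
      rw [← ofReal_norm, ← ofReal_norm, norm_cols, ← ENNReal.ofReal_natCast,
        ← ENNReal.ofReal_mul (Nat.cast_nonneg _)]
      exact ENNReal.ofReal_le_ofReal (HS.fro_le_norm _)
  · have t1 : ContDiff ℝ 1 fun y => φ ((eD n).symm y) := p1.comp (eD n).symm.contDiff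
    have t2 : HasCompactSupport fun y => φ ((eD n).symm y) :=
      p2.comp_homeomorph (eD n).symm.toHomeomorph
    have t3 : tsupport (fun y => φ ((eD n).symm y)) ⊆ O := fun y hy =>
      p3 ((Set.ext_iff.mp (tsupport_comp_eq_preimage φ (eD n).symm.toHomeomorph) y).mp hy)
    have e := s.eq1A hn2 t1 t2 t3
    rw [← eD_mp.integral_comp eD_emb, ← eD_mp.integral_comp eD_emb] at e
    refine Eq.trans (integral_congr_ae (ae_of_all _ fun x => ?_)) (e.trans (integral_congr_ae ?_))
    · have e2 : grad φ x = cols (fderiv ℝ (fun y => φ ((eD n).symm y)) (eD n x)) :=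
        grad_comp (t1.differentiable one_ne_zero) x
      beta_reduce
      rw [e2, ← inner_cols]
    · filter_upwards [hT] with x hx
      rw [ContinuousLinearEquiv.symm_apply_apply]
      by_cases k : eD n x ∈ O
      · rw [indicator_of_mem (hx k)]
      · have z : φ x = 0 := image_eq_zero_of_notMem_tsupport fun k2 => k (p3 k2)
        rw [z, inner_zero_right, inner_zero_right]

theorem rpow_sum_le {ι : Type} (I : Finset ι) (a : ι → ℝ≥0∞) {p : ℝ} (h0 : 0 < p) (h1 : p ≤ 1) :
    (∑ k ∈ I, a k) ^ p ≤ ∑ k ∈ I, a k ^ p := by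
  classical
  refine Finset.induction_on I (by simp [h0]) fun k I hk ih => ?_
  rw [Finset.sum_insert hk, Finset.sum_insert hk]
  exact (ENNReal.rpow_add_le_add_rpow _ _ h0.le h1).trans (add_le_add le_rfl ih)

/-- The Lorentz functional of a finite sum is finite. -/
theorem lor_sum (hn : 2 ≤ n) {ι : Type} [Fintype ι] {X : Type} [MeasurableSpace X]
    (ν : Measure X) (g : ι → X → ℝ)
    (h : ∀ k, ∫⁻ s in Ioi (0 : ℝ), ENNReal.ofReal s * ν {y | s < g k y} ^ (2 / n : ℝ) < ⊤) :
    ∫⁻ s in Ioi (0 : ℝ), ENNReal.ofReal s * ν {y | s < ∑ k, g k y} ^ (2 / n : ℝ) < ⊤ := by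
  have n0 : (2 : ℝ) ≤ n := by exact_mod_cast hn
  have hp : (0 : ℝ) < 2 / n := by positivity
  have hp1 : (2 : ℝ) / n ≤ 1 := (div_le_one (by positivity)).2 n0
  set N : ℝ := Fintype.card ι + 1 with hN
  have N0 : 0 < N := by positivity
  have hm : ∀ k, Measurable fun s : ℝ =>
      ENNReal.ofReal s * ν {y | s / N < g k y} ^ (2 / n : ℝ) := fun k => by
    refine measurable_id.ennreal_ofReal.mul (Measurable.pow_const (Antitone.measurable ?_) _)
    exact fun a b hab => measure_mono fun y hy =>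
      (div_le_div_of_nonneg_right hab N0.le).trans_lt hy
  have h1 : ∀ s ∈ Ioi (0 : ℝ), ENNReal.ofReal s * ν {y | s < ∑ k, g k y} ^ (2 / n : ℝ) ≤
      ∑ k, ENNReal.ofReal s * ν {y | s / N < g k y} ^ (2 / n : ℝ) := fun s hs => by
    rw [← Finset.mul_sum]
    refine mul_le_mul_right (le_trans (ENNReal.rpow_le_rpow ?_ hp.le) (rpow_sum_le _ _ hp hp1)) _
    refine le_trans (measure_mono fun y hy => ?_) (measure_iUnion_fintype_le ν _)
    by_contra k
    simp only [mem_iUnion, mem_ofPred_eq, not_exists, not_lt] at k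
    have k2 : ∑ k, g k y ≤ ∑ _k : ι, s / N := Finset.sum_le_sum fun i _ => k i
    rw [Finset.sum_const, Finset.card_univ, nsmul_eq_mul] at k2
    have k3 : (Fintype.card ι : ℝ) * (s / N) ≤ N * (s / N) :=
      mul_le_mul_of_nonneg_right (by rw [hN]; linarith) (div_pos hs N0).le
    rw [mul_div_cancel₀ _ N0.ne'] at k3
    exact absurd (hy.trans_le (k2.trans k3)) (lt_irrefl _)
  refine (setLIntegral_mono' measurableSet_Ioi h1).trans_lt ?_
  rw [lintegral_finsetSum _ fun k _ => hm k]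
  refine ENNReal.sum_lt_top.2 fun k _ => ?_
  have e : (fun t : ℝ => N * t) '' Ioi 0 = Ioi 0 := by
    rw [image_mul_left_Ioi N0, mul_zero]
  rw [← e, lintegral_image_eq_lintegral_abs_deriv_mul measurableSet_Ioi (f' := fun _ => N)
    (fun t _ => by simpa using ((hasDerivAt_id t).const_mul N).hasDerivWithinAt)
    (mul_right_injective₀ N0.ne').injOn]
  simp only [mul_div_cancel_left₀ _ N0.ne', ENNReal.ofReal_mul N0.le, mul_assoc]
  rw [lintegral_const_mul' _ _ ENNReal.ofReal_ne_top, lintegral_const_mul' _ _ ENNReal.ofReal_ne_top]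
  exact ENNReal.mul_lt_top ENNReal.ofReal_lt_top (ENNReal.mul_lt_top ENNReal.ofReal_lt_top (h k))

/-- The pointwise consequence of antisymmetry. -/
theorem anti_le (w : Fin n → Fin m → Fin m → ℝ) (hw : ∀ α i j, w α j i = -w α i j) (p : W n m)
    {g : ℝ} (hg : 0 ≤ g) (b : V m) (c : ℝ) (θ : E n) :
    ⟪b, (WithLp.toLp 2 fun i => ∑ j, ∑ α, w α i j * (g * p α j) : V m)⟫ ≤
      (∑ k : Fin n × Fin m × Fin m, |w k.1 k.2.1 k.2.2|) * g * ‖b‖ * ‖p - ten (c • b) θ‖ := by
  set q := p - ten (c • b) θ with hq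
  have e1 : ∀ α j, p α j = q α j + θ α * (c * b j) := fun α j => by
    rw [hq]; simp [ten]
  have z : ∀ α, ∑ i, ∑ j, b i * w α i j * b j = 0 := fun α => by
    have h1 : ∑ i, ∑ j, b i * w α i j * b j = -∑ i, ∑ j, b i * w α i j * b j := by
      conv_lhs => rw [Finset.sum_comm]
      rw [← Finset.sum_neg_distrib]
      refine Finset.sum_congr rfl fun i _ => ?_
      rw [← Finset.sum_neg_distrib]
      exact Finset.sum_congr rfl fun j _ => by rw [hw α i j]; ring
    linarith
  have e2 : ⟪b, (WithLp.toLp 2 fun i => ∑ j, ∑ α, w α i j * (g * p α j) : V m)⟫ =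
      ∑ α, ∑ i, ∑ j, g * (b i * w α i j * q α j) +
        ∑ α, g * θ α * c * ∑ i, ∑ j, b i * w α i j * b j := by
    rw [← Finset.sum_add_distrib, PiLp.inner_apply]
    simp only [Finset.mul_sum, ← Finset.sum_add_distrib, RCLike.inner_apply, conj_trivial,
      Finset.sum_mul]
    rw [Finset.sum_comm (s := (Finset.univ : Finset (Fin n)))]
    refine Finset.sum_congr rfl fun i _ => ?_
    rw [Finset.sum_comm (s := (Finset.univ : Finset (Fin n)))]
    refine Finset.sum_congr rfl fun j _ => Finset.sum_congr rfl fun α _ => ?_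
    rw [e1]; ring
  rw [e2]
  simp only [z, mul_zero, Finset.sum_const_zero, add_zero, Fintype.sum_prod_type, Finset.sum_mul]
  refine Finset.sum_le_sum fun α _ => Finset.sum_le_sum fun i _ => Finset.sum_le_sum fun j _ => ?_
  have h1 : |b i| ≤ ‖b‖ := PiLp.norm_apply_le b i
  have h2 : |q α j| ≤ ‖q‖ := (PiLp.norm_apply_le (q α) j).trans (PiLp.norm_apply_le q α)
  have h3 : b i * w α i j * q α j ≤ ‖b‖ * |w α i j| * ‖q‖ := by
    refine (le_abs_self _).trans ?_
    rw [abs_mul, abs_mul]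
    gcongr
  calc _ ≤ g * (‖b‖ * |w α i j| * ‖q‖) := mul_le_mul_of_nonneg_left h3 hg
    _ = _ := by ring

theorem rhs_int (hn : 2 ≤ n) {G : Fin m → Fin n → E n → ℝ} {w : E n → ℝ}
    (hG : ∀ i α, MemLp (G i α) n (ballMeasure n)) (hw : MemLp w n (ballMeasure n)) (j : Fin m)
    (α : Fin n) : Integrable (fun x => w x * (gradNorm G x ^ (n - 2) * G j α x)) (ballMeasure n) := by
  have l1 := HS.trM_memLp hG
  have e : ∀ x, gradNorm G x = HS.fro (HS.trM fun i α => G i α x) := fun x =>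
    (HS.trM_fro fun i α => G i α x).symm
  have m1 : AEStronglyMeasurable (gradNorm G) (ballMeasure n) := by
    rw [funext e]
    exact HS.continuous_fro.comp_aestronglyMeasurable l1.1
  have g0 : ∀ x, 0 ≤ gradNorm G x := fun x => Real.sqrt_nonneg _
  have i1 : Integrable (fun x => gradNorm G x ^ n) (ballMeasure n) := by
    refine ((l1.integrable_norm_pow (by omega)).const_mul ((n : ℝ) ^ n)).mono' (m1.pow n)
      (ae_of_all _ fun x => ?_)
    rw [Real.norm_of_nonneg (pow_nonneg (g0 x) _), ← mul_pow]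
    exact pow_le_pow_left₀ (g0 x) (by rw [e]; exact HS.fro_le_norm _) n
  refine ((hw.integrable_norm_pow (by omega)).add i1).mono'
    (hw.1.mul ((m1.pow _).mul (hG j α).1)) (ae_of_all _ fun x => ?_)
  have h4 : ‖G j α x‖ ≤ gradNorm G x := by
    rw [e, ← HS.trM_col (fun i α => G i α x) α j]
    exact (PiLp.norm_apply_le _ j).trans (HS.col_le_fro _ α)
  have h0 := g0 x
  have h1 := norm_nonneg (w x)
  obtain ⟨k, rfl⟩ : ∃ k, n = k + 2 := ⟨n - 2, by omega⟩
  rw [norm_mul, norm_mul, Real.norm_of_nonneg (pow_nonneg h0 _), Nat.add_sub_cancel, Pi.add_apply]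
  rcases le_total ‖w x‖ (gradNorm G x) with h | h
  · calc _ ≤ gradNorm G x * (gradNorm G x ^ k * gradNorm G x) := by gcongr
      _ = gradNorm G x ^ (k + 2) := by ring
      _ ≤ _ := le_add_of_nonneg_left (pow_nonneg h1 _)
  · calc _ ≤ ‖w x‖ * (‖w x‖ ^ k * ‖w x‖) := by gcongr; exact h4.trans h
      _ = ‖w x‖ ^ (k + 2) := by ring
      _ ≤ _ := le_add_of_nonneg_right (pow_nonneg h0 _)

/-- Transfer of the data in coordinates to the internal vocabulary. -/
theorem sol_ex (hn : 3 ≤ n)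
    (u : Fin m → E n → ℝ) (G : Fin m → Fin n → E n → ℝ) (Ω : Fin n → Fin m → Fin m → E n → ℝ)
    (hu : IsW1n u G) (hΩ : IsAntisymPotential Ω)
    (hL : ∀ α i j, ∫⁻ t in Ioi (0 : ℝ),
      ENNReal.ofReal t * ballMeasure n {x | t < |Ω α i j x|} ^ (2 / n : ℝ) < ⊤)
    (he : IsWeakSolution G Ω) :
    ∃ (U : E n → V m) (A : E n → W n m) (f : E n → V m) (w : E n → ℝ),
      Sol (ball 0 1) U A f ∧ Measurable w ∧ (∀ x, 0 ≤ w x) ∧
      Integrable (fun x => w x ^ n) volume ∧
      (∀ x (b : V m) (c : ℝ) (θ : E n),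
        ⟪b, f x⟫ ≤ w x * ‖A x‖ ^ (n - 2) * ‖b‖ * ‖A x - ten (c • b) θ‖) ∧
      ∫⁻ s in Ioi (0 : ℝ), ENNReal.ofReal s * volume {y | s < w y} ^ (2 / n : ℝ) < ⊤ ∧
      ∀ᵐ x ∂(ballMeasure n), U x = WithLp.toLp 2 fun i => u i x := by
  have hn2 : 2 ≤ n := by omega
  have mB : MeasurableSet (ball (0 : E n) 1) := measurableSet_ball
  obtain ⟨v, A, F, s, hv⟩ := gsol_of hn2 u G
    (fun i x => ∑ j, ∑ α, Ω α i j x * (gradNorm G x ^ (n - 2) * G j α x)) hu
    (fun i => integrable_finsetSum _ fun j _ => integrable_finsetSum _ fun α _ =>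
      rhs_int hn2 hu.2.1 (hΩ.1 α i j) j α) he
  have lw : MemLp (fun x => ∑ k : Fin n × Fin m × Fin m, |Ω k.1 k.2.1 k.2.2 x|) n (ballMeasure n) :=
    memLp_finsetSum _ fun k _ => (hΩ.1 k.1 k.2.1 k.2.2).abs
  obtain ⟨w, mw, lw2, hw⟩ := HS.tr_ext mB lw.1
  have a1 : ∀ᵐ x : E n, x ∈ ball (0 : E n) 1 → ∀ α i j, Ω α j i x = -Ω α i j x :=
    (ae_restrict_iff' mB).1 (ae_all_iff.2 fun α => ae_all_iff.2 fun i => ae_all_iff.2 fun j =>
      hΩ.2 α i j)
  have a2 := eD_mp.quasiMeasurePreserving.ae hv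
  have a3 : ∀ᵐ x : E n, x ∈ ball (0 : E n) 1 → ∀ (b : V m) (c : ℝ) (θ : E n), ⟪b, F (eD n x)⟫ ≤
      |w x| * ‖cols (A (eD n x))‖ ^ (n - 2) * ‖b‖ * ‖cols (A (eD n x)) - ten (c • b) θ‖ := by
    filter_upwards [a1, a2, hw] with x k1 k2 k3 hx b c θ
    obtain ⟨-, k4, k5⟩ := k2 hx
    have e1 : ‖cols (A (eD n x))‖ = gradNorm G x := by
      rw [k4, norm_cols, HS.trM_fro]; rfl
    have e2 : ∀ α j, cols (A (eD n x)) α j = G j α x := fun α j => by
      rw [k4]; exact HS.trM_col (fun i α => G i α x) α j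
    have h := anti_le (fun α i j => Ω α i j x) (k1 hx) (cols (A (eD n x)))
      (pow_nonneg (norm_nonneg (cols (A (eD n x)))) (n - 2)) b c θ
    rw [k3.1 hx, abs_of_nonneg (Finset.sum_nonneg fun _ _ => abs_nonneg _), k5]
    refine le_trans (le_of_eq ?_) h
    simp only [e1, e2]
    rfl
  obtain ⟨T, hT, mT, hT2⟩ := a3.exists_measurable_mem
  have S := sol_of_gsol hn s (mB.inter mT) (by filter_upwards [hT] with x k1 k2 using ⟨k2, k1⟩)
  refine ⟨_, _, _, fun x => |w x|, S, mw.measurable.abs, fun _ => abs_nonneg _,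
    (lw2 _ lw).integrable_norm_pow (by omega), fun x b c θ => ?_, ?_, ?_⟩
  · by_cases k : x ∈ ball (0 : E n) 1 ∩ T
    · rw [indicator_of_mem k]
      exact hT2 x k.2 k.1 b c θ
    · rw [indicator_of_notMem k, inner_zero_right]
      positivity
  · refine lt_of_eq_of_lt (setLIntegral_congr_fun measurableSet_Ioi fun t ht => ?_)
      (lor_sum hn2 (ballMeasure n)
        (fun (k : Fin n × Fin m × Fin m) x => |Ω k.1 k.2.1 k.2.2 x|) fun k => hL _ _ _)
    beta_reduce
    rw [ballMeasure, Measure.restrict_apply' mB]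
    congr 2
    refine measure_congr ?_
    filter_upwards [hw] with x k1
    refine propext ?_
    change t < |w x| ↔ t < _ ∧ x ∈ ball (0 : E n) 1
    by_cases k2 : x ∈ ball (0 : E n) 1
    · rw [k1.1 k2, abs_of_nonneg (Finset.sum_nonneg fun _ _ => abs_nonneg _), and_iff_left k2]
    · rw [k1.2 k2, abs_zero]
      exact iff_of_false (not_lt.2 (le_of_lt ht)) fun h => k2 h.2
  · filter_upwards [ae_restrict_of_ae a2, ae_restrict_mem mB] with x k2 k3
    exact (k2 k3).1

end Pool.Agent.Lib.MP_a785f2_an.LO
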