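import Pool.Agent.Lib.MP_a785f2_an.LO.Core
import Pool.Agent.Lib.MP_a785f2_an.LO.Lor
import Pool.Agent.Lib.MP_a785f2_an.LO.TrB
import Pool.Agent.Lib.MP_a785f2_an.NH.Stmt

/-! The statement in coordinates. -/

open MeasureTheory Metric Set Filter Topology
open scoped ContDiff RealInnerProductSpace ENNReal

namespace Pool.Agent.Lib.MP_a785f2_an.LO

open HS (V)
open LZ (W S Op rad ten grad AA om sph sl pp ph sM sF sa sX sy sD sR en av sgm Pr Ff Rep eqCm)

variable {n m : ℕ} {Ω : Set (E n)} {u : E n → V m} {G : E n → W n m} {f : E n → V m}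
  {w : E n → ℝ}

theorem dat_of (hn : 3 ≤ n) (v : Fin m → E n → ℝ) (A : Fin m → Fin n → E n → ℝ)
    (P : Fin n → Fin m → Fin m → E n → ℝ) (hv : IsW1n v A) (hP : IsAntisymPotential P)
    (hL : ∀ α i j, InLorentz (P α i j)) (he : IsWeakSolution A P) :
    ∃ (u : E n → V m) (G : E n → W n m) (f : E n → V m) (w : E n → ℝ),
      Dat (ball 0 1) u G f w ∧ ∀ᵐ x ∂(ballMeasure n), u x = pt v x := by
  obtain ⟨u, G, f, w, S, mw, w0, iw, ha, hl, hu⟩ := sol_ex hn v A P hv hP hL he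
  have i1 : Integrable (dl G w) volume := by
    refine (S.iG.add iw).mono' ((S.mG.norm.pow _).mul (mw.stronglyMeasurable.pow 2)
      ).aestronglyMeasurable (ae_of_all _ fun x => ?_)
    have h0 := norm_nonneg (G x)
    have h1 := w0 x
    obtain ⟨k, rfl⟩ : ∃ k, n = k + 2 := ⟨n - 2, by omega⟩
    rw [Real.norm_of_nonneg (dl_nonneg G w x), dl, Nat.add_sub_cancel, Pi.add_apply]
    rcases le_total (w x) ‖G x‖ with h | h
    · calc _ ≤ ‖G x‖ ^ k * ‖G x‖ ^ 2 := by gcongr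
        _ = ‖G x‖ ^ (k + 2) := by ring
        _ ≤ _ := le_add_of_nonneg_right (pow_nonneg h1 _)
    · calc _ ≤ w x ^ k * w x ^ 2 := by gcongr
        _ = w x ^ (k + 2) := by ring
        _ ≤ _ := le_add_of_nonneg_left (pow_nonneg h0 _)
  refine ⟨u, G, f, w, ⟨hn, S.op, S.mu, S.mG, S.mf, mw, w0, S.iU, S.iG, i1, ha, S.apx, S.eq,
    fun ε hε => ?_⟩, hu⟩
  obtain ⟨δ, h0, h⟩ := lor hn S.mG mw (by simpa only [abs_of_nonneg (w0 _)] using hl) hε
  refine ⟨δ, h0, fun B l mB h1 h2 h3 => ?_⟩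
  rw [lam, integral_eq_lintegral_of_nonneg_ae (ae_of_all _ (dl_nonneg G w))
    i1.1.restrict]
  exact ENNReal.toReal_le_of_le_ofReal (by positivity) (h B l mB h1 h2 h3)

theorem main (hn : 3 ≤ n) (v : Fin m → E n → ℝ) (A : Fin m → Fin n → E n → ℝ)
    (P : Fin n → Fin m → Fin m → E n → ℝ) (hv : IsW1n v A) (hP : IsAntisymPotential P)
    (hL : ∀ α i j, InLorentz (P α i j)) (he : IsWeakSolution A P) : HasContinuousRep v := by
  obtain ⟨u, G, f, w, D, h⟩ := dat_of hn v A P hv hP hL he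
  obtain ⟨U, h1, h2⟩ := D.core
  refine ⟨fun x i => U x i, ?_, ?_⟩
  · exact continuousOn_pi.2 fun i =>
      (EuclideanSpace.proj i : V m →L[ℝ] ℝ).continuous.comp_continuousOn h1
  · filter_upwards [h, h2] with x a b i
    rw [← b, a]
    rfl

end Pool.Agent.Lib.MP_a785f2_an.LO
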