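import Pool.Agent.Lib.MP_a785f2_an.LO.TkJ
import Pool.Agent.Lib.MP_a785f2_an.LO.TkG
import Pool.Agent.Lib.MP_a785f2_an.LO.Slc
import Pool.Agent.Lib.MP_a785f2_an.LO.Chain
import Pool.Agent.Lib.MP_a785f2_an.LO.Hol

/-! The chain of segments. -/

open MeasureTheory Metric Set Filter Topology
open scoped ContDiff RealInnerProductSpace ENNReal

namespace Pool.Agent.Lib.MP_a785f2_an.LO

open HS (V)
open LZ (W S Op rad ten grad AA om sph sl pp ph sM sF sa sX sy sD sR en av sgm Pr Ff Rep eqCm)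

variable {n m : ℕ} {Ω : Set (E n)} {u : E n → V m} {G : E n → W n m} {f : E n → V m}
  {w : E n → ℝ}

theorem small_int (hn : 1 ≤ n) {h : E n → ℝ} (hi : Integrable h volume) (c : E n) {η : ℝ}
    (hη : 0 < η) : ∃ ρ : ℝ, 0 < ρ ∧ ∀ t, t ≤ ρ → ∫ x in closedBall c t, |h x| ≤ η := by
  have : Nonempty (Fin n) := ⟨⟨0, hn⟩⟩
  have h1 := (tendsto_measure_cthickening_of_isCompact (μ := (volume : Measure (E n)))
    (isCompact_singleton (x := c)))
  rw [measure_singleton] at h1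
  have h2 := (hi.abs.tendsto_setIntegral_nhds_zero (s := fun r => cthickening r {c}) h1).eventually
    (gt_mem_nhds hη)
  obtain ⟨ρ, h3, h4⟩ := (h2.filter_mono (nhdsWithin_le_nhds (s := Ioi 0))).and
    self_mem_nhdsWithin |>.exists.imp fun _ h => h.symm
  refine ⟨ρ, h3, fun t ht => le_trans ?_ h4.le⟩
  rw [cthickening_singleton c (le_of_lt h3)]
  exact setIntegral_mono_set hi.abs.integrableOn (ae_of_all _ fun _ => abs_nonneg _)
    (closedBall_subset_closedBall ht).eventuallyLE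

theorem Dat.m1_int (D : Dat Ω u G f w) (c : E n) {a b : ℝ} (ha : 0 < a) :
    IntegrableOn (fun s => s⁻¹ * sM (pp G c s) 1) (Ioo a b) volume := by
  have hn : 1 ≤ n := by have := D.n3; omega
  obtain ⟨i1, i2, -⟩ := D.pol_en c
  have sI : Ioo a b ⊆ Ioi 0 := fun s hs => ha.trans hs.1
  refine ((integrableOn_const (C := a⁻¹) (by simp)).add (i1.mono_set sI)).mono'
    (measurable_inv.mul (LZ.sM_meas hn D.mG c 1)).aestronglyMeasurable
    ((ae_restrict_iff' measurableSet_Ioo).2 ?_)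
  filter_upwards [i2] with s h hs
  have s0 : 0 < s := sI hs
  have h1 := LZ.sM_young hn (LZ.pp_meas D.mG c s) (h s0) one_pos
  have h2 := inv_anti₀ ha hs.1.le
  have h3 := mul_le_mul_of_nonneg_left h1 (inv_nonneg.2 s0.le)
  rw [Real.norm_of_nonneg (mul_nonneg (inv_nonneg.2 s0.le) (LZ.sM_nonneg _ _))]
  simp only [one_pow, div_one, Pi.add_apply] at h3 ⊢
  linarith

theorem Dat.trunk (D : Dat Ω u G f w) {L Cp : ℝ} (hL : Caps m L) (hC : 0 < Cp) :
    ∃ C : ℝ, 0 < C ∧ ∃ C0 : ℝ, 1 ≤ C0 ∧ ∀ O σ z r l l' c T J y K C1 τ Rb a g,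
      Cx Ω u G f w Cp O σ z r l l' c T J y → Cg u G f w L K C1 τ Rb a g z r l' c T J →
      C0 ≤ C1 → 0 ≤ l' → C * l + K * l' ≤ Rb →
      ∀ᵐ s, s ∈ Ioo (r / 800) (r / 400) → (∀ j ∈ J, s ∉ Ioo j.1 j.2) →
        ∀ Z, ‖Z + y s‖ + C * l + K * l' ≤ τ →
          ∫ x in ball c s, g x ≤ om n * (sI (sl u c s) (pp G c s) + ⟪Ff f c s, Z⟫) := by
  have hn1 : 1 ≤ n := by have := D.n3; omega
  have o0 := LZ.om_pos hn1
  obtain ⟨κ, hκ, CW, hCW, tW⟩ := D.tk_W
  obtain ⟨Cg, hCg, C0, hC0, tg⟩ := D.tk_good hC hκ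
  obtain ⟨CJ, hCJ, tJ⟩ := D.tk_J
  obtain ⟨CI, hCI, tI⟩ := D.tk_dI
  obtain ⟨Cy, hCy, yv⟩ := D.y_var
  obtain ⟨C, hCe⟩ : ∃ C, C = Cy + CI + CJ + CW + 1 + Cg := ⟨_, rfl⟩
  refine ⟨C, by rw [hCe]; positivity, C0, hC0, ?_⟩
  intro O μ z r l l' c T J y K C1 τ Rb a g X Y h01 hl' hRb
  have l0 := X.gd.l0
  have r0 := X.gd.r0
  have H := X.ho
  have t := X.tr
  have Kl : 0 ≤ K * l' := mul_nonneg Y.K0 hl'
  have p1 : 0 < Cy * l := by positivity
  have p2 : 0 < CI * l := by positivity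
  have p3 : 0 < CJ * l := by positivity
  have p4 : 0 < CW * l := by positivity
  have p5 : 0 < Cg * l := by positivity
  have eC : C * l = Cy * l + CI * l + CJ * l + CW * l + l + Cg * l := by rw [hCe]; ring
  have sΩ : closedBall c (r / 400) ⊆ Ω :=
    (closedBall_subset_closedBall' (by linarith [H.ctr])).trans (X.gd.sub.trans X.ct.sub)
  obtain ⟨e, he⟩ : ∃ e : ℕ → ℝ, ∀ i, e i = r / 400 / 2 ^ i := ⟨_, fun _ => rfl⟩
  have e0 : ∀ i, 0 < e i := fun i => by rw [he]; positivity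
  have e2 : ∀ i, e i = 2 * e (i + 1) := fun i => by rw [he, he, pow_succ]; field_simp
  have ez : e 0 = r / 400 := by rw [he]; simp
  have e1 : ∀ i, e i ≤ r / 400 := fun i => by
    rw [he]; exact div_le_self (by positivity) (one_le_pow₀ one_le_two)
  obtain ⟨R, hR⟩ : ∃ R, R = C * l + K * l' := ⟨_, rfl⟩
  have R0 : 0 < R := by linarith
  choose Ψ cap using fun i => hL.2 (y (e i)) R R0
  have yq : ∀ i s, e (i + 1 + 1) ≤ s → s ≤ e i → ‖y s - y (e i)‖ ≤ Cy * l := fun i s h1 h2 => by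
    rw [norm_sub_rev]
    exact yv _ _ _ _ _ _ _ _ _ _ _ X s (e i) ((e0 _).trans_le h1) h2
      (by linarith [e2 i, e2 (i + 1)]) (e1 i)
  obtain ⟨P, hP⟩ : ∃ P : ℝ → Prop, ∀ s, P s ↔ ∀ i, s ∈ Ioo 0 (r / 400) →
      (∀ j ∈ J, s ∉ Ioo j.1 j.2) → ‖y s - y (e i)‖ ≤ Cy * l →
      Iu u G f (Ψ i) c s = sI (sl u c s) (pp G c s) := ⟨_, fun _ => Iff.rfl⟩
  have aP : ∀ᵐ s, P s := by
    simp only [hP]
    refine ae_all_iff.2 fun i => ?_
    filter_upwards [D.rad3 (cap i) sΩ, tI _ _ _ _ _ _ _ _ _ _ _ _ _ _ _ X (cap i)] with s h1 h2 hs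
      ho hy
    rw [h1 hs, (h2 hs ho (by linarith)).2]
  filter_upwards [aP] with s Ps hs so Z hZ
  have ex : ∀ i, ∃ x, (i = 0 → x = s) ∧ x ∈ Ioo (e (i + 1)) (e i) ∧
      (∀ j ∈ J, x ∉ Ioo j.1 j.2) ∧ P x := fun i => by
    rcases eq_or_ne i 0 with rfl | hi
    · exact ⟨s, fun _ => rfl, ⟨by linarith [e2 0, hs.1], by linarith [hs.2]⟩, so, Ps⟩
    · obtain ⟨x, h1, h2⟩ := off_J H.lJ H.cJ (e0 (i + 1)) (p := P) (aP.mono fun _ h _ => h)
      exact ⟨x, fun h => absurd h hi, e2 i ▸ h1, h2⟩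
  choose σ σ0 σm σo σP using ex
  have σz : σ 0 = s := σ0 0 rfl
  have an : Antitone σ := antitone_nat_of_succ_le fun i => ((σm (i + 1)).2.trans (σm i).1).le
  have σp : ∀ i, 0 < σ i := fun i => (e0 _).trans (σm i).1
  have σr : ∀ i, σ i < r / 400 := fun i => (σm i).2.trans_le (e1 i)
  have ys : ∀ i x, σ (i + 1) ≤ x → x ≤ σ i → ‖y x - y (e i)‖ ≤ Cy * l := fun i x h1 h2 =>
    yq i x ((σm (i + 1)).1.le.trans h1) (h2.trans (σm i).2.le)
  have y0 : ∀ i, ‖y (σ i) - y (e i)‖ ≤ Cy * l := fun i => ys i _ (an i.le_succ) le_rfl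
  have eI : ∀ i k, ‖y (σ i) - y (e k)‖ ≤ Cy * l →
      Iu u G f (Ψ k) c (σ i) = sI (sl u c (σ i)) (pp G c (σ i)) := fun i k h =>
    (hP _).1 (σP i) k ⟨σp i, σr i⟩ (σo i) h
  obtain ⟨t1, ht1⟩ : ∃ t1, t1 = ‖Z + y s‖ := ⟨_, rfl⟩
  obtain ⟨tm, htm⟩ : ∃ tm, tm = t1 + CW * l + l := ⟨_, rfl⟩
  have t10 : 0 ≤ t1 := ht1 ▸ norm_nonneg _
  have tm0 : 0 ≤ tm := by linarith
  obtain ⟨B, hB⟩ : ∃ B, B = tm + Cy * l + 3 * R := ⟨_, rfl⟩
  have B0 : 0 ≤ B := by linarith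
  have L0 : 0 ≤ L := zero_le_one.trans hL.1
  have ib : Integrable (fun x => L * ‖G x‖ ^ n + B * ‖f x‖) volume :=
    (D.iG.const_mul L).add (D.iF.norm.const_mul B)
  refine le_of_forall_pos_le_add fun η hη => ?_
  obtain ⟨ρ1, ρ10, hρ1⟩ := small_int hn1 ib c (half_pos hη)
  obtain ⟨ρ2, ρ20, hρ2⟩ := small_int hn1 Y.ig c (half_pos hη)
  obtain ⟨ρ, hρ⟩ : ∃ ρ, ρ = min (min ρ1 ρ2) (r / 800) := ⟨_, rfl⟩
  have ρ0 : 0 < ρ := by rw [hρ]; positivity
  obtain ⟨N, hN⟩ : ∃ N, σ N < ρ := by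
    obtain ⟨N, hN⟩ := pow_unbounded_of_one_lt (r / 400 / ρ) (one_lt_two (α := ℝ))
    refine ⟨N, (σm N).2.trans ?_⟩
    rwa [he, div_lt_iff₀ (by positivity), mul_comm, ← div_lt_iff₀ ρ0]
  rw [hρ, lt_min_iff, lt_min_iff] at hN
  have k1 := hρ1 (σ N) hN.1.1.le
  have k2 := hρ2 (σ N) hN.1.2.le
  have N0 : σ N ≤ σ 0 := an N.zero_le
  have sI' : ∀ i k, Ioo (σ i) (σ k) ⊆ Ioo 0 (r / 400) := fun i k =>
    Ioo_subset_Ioo (σp i).le (σr k).le
  obtain ⟨ir, er⟩ := rd_int hn1 Y.ig c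
  obtain ⟨iW, bW⟩ := tW _ _ _ _ _ _ _ _ _ X.ct X.gd H
  have cJ : Countable J := H.cJ.to_subtype
  have mW : MeasurableSet {s | (κ * l) ^ (n - 1) < sM (pp G c s) (n - 1)} :=
    measurableSet_lt measurable_const (LZ.sM_meas hn1 D.mG c _)
  have key := trunk_one an N (t1 := t1) (tm := tm) (lam := CW * l) t10 p4.le (by linarith)
    (M := fun i => Iu u G f (Ψ i) c) (M' := fun i => rd (dq u G f (Ψ i) 0) c)
    (b := fun s => s⁻¹ * sM (pp G c s) 1) (r := rd g c)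
    (F := Ff f c) (F' := fun s => s⁻¹ • sD (ph f c s)) (y := y)
    (y' := fun s => s⁻¹ • sa (pp G c s))
    (fun i _ => (D.prI (cap i) c (r / 400)).1 _ _ (σp _) (an i.le_succ) (σr _).le)
    (t.pF.1 _ _ (σp _) N0 (σr _).le) (t.py.1 _ _ (σp _) N0 (σr _).le)
    (fun i _ => (D.prI (cap i) c (r / 400)).2.mono fun x h hx => h (sI' _ _ hx))
    (by
      filter_upwards [t.slc, t.pF.2, t.py.2] with x h1 h2 h3 hx
      have hx' := sI' _ _ hx
      have i0 : 0 ≤ x⁻¹ := inv_nonneg.2 hx'.1.le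
      refine ⟨h2 hx', h3 hx', ?_⟩
      rw [norm_smul, Real.norm_of_nonneg i0]
      exact mul_le_mul_of_nonneg_left ((h1 hx').sa_le hn1) i0)
    (fun i _ => (eI _ _ (ys i _ le_rfl (an i.le_succ))).trans (eI _ _ (y0 _)).symm)
    ((intervalIntegrable_iff_integrableOn_Ioo_of_le N0).2 (D.m1_int c (σp N)))
    ((intervalIntegrable_iff_integrableOn_Ioo_of_le N0).2
      (ir.mono_set fun x hx => (sI' _ _ hx).1))
    (ι := J) (α := fun j => j.1.1) (β := fun j => j.1.2) (fun j => (H.pJ _ j.2).2.1.le)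
    (fun i j hij => H.dJ i.2 j.2 fun h => hij (Subtype.ext h)) (fun i _ j => σo i _ j.2) mW
    (by
      refine le_trans (setIntegral_mono_set iW ?_ (LE.le.eventuallyLE fun x hx => ?_)) bW
      · refine (ae_restrict_iff' (measurableSet_Ioo.inter ((MeasurableSet.biUnion H.cJ
          fun _ _ => measurableSet_Ioo).union mW))).2 (ae_of_all _ fun x hx => ?_)
        exact mul_nonneg (inv_nonneg.2 hx.1.1.le) (LZ.sM_nonneg _ _)
      · refine mem_inter (sI' _ _ hx.1) (hx.2.imp_left fun h => ?_)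
        obtain ⟨j, hj⟩ := mem_iUnion.1 h
        exact mem_iUnion₂.2 ⟨j.1, j.2, hj⟩)
    (fun i _ j h1 h2 T' hT => by
      have h3 := ys i _ (h1.trans (H.pJ _ j.2).2.1.le) h2
      have h4 := tJ _ _ _ _ _ _ _ _ _ _ _ _ _ _ _ _ _ _ X Y (hC0.trans h01) hl' j.1 j.2
        (h2.trans (σr i).le) (Ψ i) _ R (T' - y j.1.2) (cap i) (hR ▸ hRb) (by linarith)
        (by rw [sub_add_cancel]; linarith)
      rw [D.Q_ball (cap i), D.Q_ball (cap i), ← mul_sub] at h4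
      exact le_of_mul_le_mul_left h4 o0)
    (fun i _ => by
      filter_upwards [tg _ _ _ _ _ _ _ _ _ _ _ _ _ _ _ _ _ tm X Y h01 (by linarith) tm0
        (by linarith), tI _ _ _ _ _ _ _ _ _ _ _ _ _ _ _ X (cap i), t.Fe] with x h1 h2 h3 hx hO
      have hx' := sI' _ _ hx
      have x0 := hx'.1
      have i0 : 0 ≤ x⁻¹ := inv_nonneg.2 x0.le
      have ho : ∀ j ∈ J, x ∉ Ioo j.1 j.2 := fun j hj hm => hO (mem_iUnion.2 ⟨⟨j, hj⟩, hm⟩)
      obtain ⟨ν, ν0, b1, b2, b3⟩ := h1 hx' ho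
      have a1 := (h2 hx' ho (by linarith [ys i x hx.1.le hx.2.le])).1
      have a2 : ∀ v : ℝ, x⁻¹ * (x * v) = v := fun v => inv_mul_cancel_left₀ x0.ne' v
      have a3 := congrArg (fun v => x⁻¹ * v) a1
      simp only [mul_sub, a2] at a3
      refine ⟨x⁻¹ * ν, mul_nonneg i0 ν0, ?_, fun hw => ?_, fun hw => ?_⟩
      · have a4 := mul_le_mul_of_nonneg_left b1 i0
        rw [h3 hx', real_inner_smul_right]
        linarith
      · have a4 := mul_le_mul_of_nonneg_left (b2 hw) i0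
        rw [a2] at a4
        rw [real_inner_smul_left]
        linarith
      · have a4 := mul_le_mul_of_nonneg_left (b3 (not_lt.1 hw)) i0
        rw [a2, sX] at a4
        rw [real_inner_smul_left, h3 hx', real_inner_smul_right]
        linarith)
    (Z := Z) (by rw [σz]; exact ht1.ge) (q0 := -(η / 2) / om n)
    (fun T' hT => by
      have h1 : ‖T' - y (σ N) + y (e N)‖ ≤ tm + Cy * l := by
        rw [sub_add]
        exact (norm_sub_le _ _).trans (add_le_add hT (y0 N))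
      have h2 : ∫ x in ball c (σ N), -(L * ‖G x‖ ^ n + B * ‖f x‖) ≤
          Q u G f (Ψ N) (ball c (σ N)) (T' - y (σ N)) := by
        refine integral_mono ib.neg.integrableOn (D.iQ (cap N) _).integrableOn fun x => ?_
        have h3 := neg_le_of_abs_le (D.dq_le (cap N) (T' - y (σ N)) x)
        have h4 := mul_le_mul_of_nonneg_right (add_le_add_left h1 (3 * R)) (norm_nonneg (f x))
        rw [← hB] at h4
        simp only
        linarith
      have h5 : ∫ x in ball c (σ N), (L * ‖G x‖ ^ n + B * ‖f x‖) ≤ η / 2 :=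
        ((integral_mono ib.integrableOn ib.abs.integrableOn fun x => le_abs_self _).trans
          (setIntegral_mono_set ib.abs.integrableOn (ae_of_all _ fun _ => abs_nonneg _)
            ball_subset_closedBall.eventuallyLE)).trans k1
      rw [integral_neg] at h2
      rw [div_le_iff₀ o0, mul_comm _ (om n), ← D.Q_ball (cap N)]
      linarith)
  have k3 := mul_le_mul_of_nonneg_left key o0.le
  rw [eI 0 0 (y0 0), mul_add, mul_div_cancel₀ _ o0.ne', intervalIntegral.integral_of_le N0,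
    integral_Ioc_eq_integral_Ioo, ← er _ measurableSet_Ioo fun x hx => (sI' _ _ hx).1, σz] at k3
  have mU : MeasurableSet {x : E n | dist x c ∈ Ioo (σ N) s} :=
    (continuous_id.dist continuous_const).measurable measurableSet_Ioo
  have k4 : ball c s = closedBall c (σ N) ∪ {x : E n | dist x c ∈ Ioo (σ N) s} := by
    ext x
    constructor
    · intro h
      exact (le_or_gt (dist x c) (σ N)).imp_right fun h' => ⟨h', h⟩
    · rintro (h | h)
      · exact (mem_closedBall.1 h).trans_lt (hN.2.trans hs.1)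
      · exact h.2
  have k6 : Disjoint (closedBall c (σ N)) {x : E n | dist x c ∈ Ioo (σ N) s} :=
    disjoint_left.2 fun x h1 h2 => absurd h2.1 (not_lt.2 h1)
  rw [k4, setIntegral_union k6 mU Y.ig.integrableOn Y.ig.integrableOn]
  have k5 := integral_mono (μ := volume.restrict (closedBall c (σ N))) Y.ig.integrableOn
    Y.ig.abs.integrableOn fun x => le_abs_self _
  linarith

end Pool.Agent.Lib.MP_a785f2_an.LO
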