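import Pool.Agent.Lib.MP_a785f2_an.LY.Val

/-! Comparison of means and telescoping under an abstract smallness condition. -/

open MeasureTheory Metric Set Filter Module Topology
open scoped ENNReal

namespace Pool.Agent.Lib.MP_a785f2_an.LO

variable {X F : Type*} [NormedAddCommGroup X] [NormedSpace ℝ X] [FiniteDimensional ℝ X]
  [MeasurableSpace X] [BorelSpace X] [NormedAddCommGroup F] [NormedSpace ℝ F] [CompleteSpace F]
  {ν : Measure X} [ν.IsAddHaarMeasure] {Ω : Set X} {u : X → F} {C : ℝ} {Sm : X → ℝ → ℝ → Prop}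

/-- The mean oscillation is at most `C l` on the balls that are small at level `l`. -/
def PoinP (ν : Measure X) (Sm : X → ℝ → ℝ → Prop) (Ω : Set X) (u : X → F) (C : ℝ) : Prop :=
  ∀ x t l, 0 < t → 0 ≤ l → closedBall x t ⊆ Ω → Sm x t l →
    ⨍ y in ball x t, ‖u y - ⨍ z in ball x t, u z ∂ν‖ ∂ν ≤ C * l

/-- Means over nested balls of comparable size. -/
theorem PoinP.nest' (hP : PoinP ν Sm Ω u C) (hC : 0 ≤ C) (hu : LocallyIntegrable u ν)
    {x x' : X} {t t' l Λ : ℝ} (ht' : 0 < t') (hl : 0 ≤ l) (hsub : ball x' t' ⊆ ball x t)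
    (hΛ : t ≤ Λ * t') (hΩ : closedBall x t ⊆ Ω) (hm : Sm x t l) :
    ‖⨍ y in ball x' t', u y ∂ν - ⨍ y in ball x t, u y ∂ν‖ ≤ Λ ^ finrank ℝ X * (C * l) := by
  have ht : 0 < t := pos_of_mem_ball (hsub (mem_ball_self ht'))
  have hi : IntegrableOn u (ball x t) ν :=
    (hu.integrableOn_isCompact (isCompact_closedBall x t)).mono_set ball_subset_closedBall
  set c := ⨍ y in ball x t, u y ∂ν
  have hc : IntegrableOn (fun y => u y - c) (ball x t) ν :=
    hi.sub (integrableOn_const measure_ball_lt_top.ne)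
  have hv : ∀ (y : X) (s : ℝ), 0 < s →
      ν.real (ball y s) = s ^ finrank ℝ X * ν.real (ball 0 1) := fun y s hs => by
    rw [measureReal_def, Measure.addHaar_ball_of_pos ν y hs, ENNReal.toReal_mul,
      ENNReal.toReal_ofReal (by positivity), measureReal_def]
  have ω0 : 0 < ν.real (ball (0 : X) 1) :=
    ENNReal.toReal_pos (measure_ball_pos ν _ one_pos).ne' measure_ball_lt_top.ne
  have p1 : 0 < ν.real (ball x' t') := by rw [hv _ _ ht']; positivity
  have p2 : 0 < ν.real (ball x t) := by rw [hv _ _ ht]; positivity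
  have e1 := hP x t l ht hl hΩ hm
  rw [setAverage_eq, smul_eq_mul, inv_mul_le_iff₀ p2] at e1
  have e2 : ⨍ y in ball x' t', u y ∂ν - c =
      (ν.real (ball x' t'))⁻¹ • ∫ y in ball x' t', (u y - c) ∂ν := by
    rw [integral_sub (hi.mono_set hsub) (integrableOn_const measure_ball_lt_top.ne),
      setIntegral_const, smul_sub, smul_smul, inv_mul_cancel₀ p1.ne', one_smul, setAverage_eq]
  have e3 : ‖∫ y in ball x' t', (u y - c) ∂ν‖ ≤ ∫ y in ball x t, ‖u y - c‖ ∂ν :=
    (norm_integral_le_integral_norm _).trans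
      (setIntegral_mono_set hc.norm (ae_of_all _ fun _ => norm_nonneg _) hsub.eventuallyLE)
  have e4 : ν.real (ball x t) ≤ ν.real (ball x' t') * Λ ^ finrank ℝ X := by
    rw [hv _ _ ht, hv _ _ ht', mul_right_comm, ← mul_pow, mul_comm t']
    exact mul_le_mul_of_nonneg_right (pow_le_pow_left₀ ht.le hΛ _) ω0.le
  rw [e2, norm_smul, Real.norm_of_nonneg (inv_nonneg.2 p1.le), inv_mul_le_iff₀ p1, ← mul_assoc]
  exact e3.trans (e1.trans (mul_le_mul_of_nonneg_right e4 (mul_nonneg hC hl)))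

theorem PoinP.nest (hP : PoinP ν Sm Ω u C) (hC : 0 ≤ C) (hu : LocallyIntegrable u ν)
    {x x' : X} {t t' l Λ : ℝ} (ht' : 0 < t') (hl : 0 ≤ l) (hs : dist x' x + t' ≤ t)
    (hΛ : t ≤ Λ * t') (hΩ : closedBall x t ⊆ Ω) (hm : Sm x t l) :
    ‖⨍ y in ball x' t', u y ∂ν - ⨍ y in ball x t, u y ∂ν‖ ≤ Λ ^ finrank ℝ X * (C * l) :=
  hP.nest' hC hu ht' hl (ball_subset_ball' (by linarith)) hΛ hΩ hm

/-- Telescoping along concentric balls whose energy decays. -/
theorem PoinP.tele (hP : PoinP ν Sm Ω u C) (hC : 0 ≤ C) (hu : LocallyIntegrable u ν)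
    {x : X} {t l q : ℝ} (ht : 0 < t) (hl : 0 ≤ l) (hq : 1 < q) (hΩ : closedBall x t ⊆ Ω)
    (hm : ∀ i : ℕ, Sm x (t / q ^ i) (l / 2 ^ i)) {s : ℝ} (hs : 0 < s)
    (hst : s ≤ t) :
    ‖⨍ y in ball x s, u y ∂ν - ⨍ y in ball x t, u y ∂ν‖ ≤ 2 * (q ^ finrank ℝ X * (C * l)) := by
  have q0 : 0 < q := by linarith
  set D := q ^ finrank ℝ X * (C * l) with hD
  have D0 : 0 ≤ D := by positivity
  have key : ∀ i : ℕ, ∀ s, t / q ^ i ≤ s → s ≤ t →
      ‖⨍ y in ball x s, u y ∂ν - ⨍ y in ball x t, u y ∂ν‖ ≤ 2 * D - 2 * (D / 2 ^ i) := by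
    intro i
    induction i with
    | zero =>
      intro s h1 h2
      have : s = t := le_antisymm h2 (by simpa using h1)
      simp [this]
    | succ i ih =>
      intro s h1 h2
      have e : D / 2 ^ (i + 1) = D / 2 ^ i / 2 := by rw [pow_succ, div_div]
      have d0 : 0 ≤ D / 2 ^ i := by positivity
      have hle : t / q ^ i ≤ t := div_le_self ht.le (one_le_pow₀ hq.le)
      rcases le_total (t / q ^ i) s with h | h
      · linarith [ih s h h2]
      · have s0 : 0 < s := lt_of_lt_of_le (by positivity) h1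
        have a1 := hP.nest hC hu (x := x) (x' := x) (t := t / q ^ i) (Λ := q) s0
          (l := l / 2 ^ i) (by positivity) (by simpa using h)
          (by rw [pow_succ, ← div_div, div_le_iff₀ q0] at h1; linarith)
          ((closedBall_subset_closedBall hle).trans hΩ) (hm i)
        have a2 := ih _ le_rfl hle
        have a3 : q ^ finrank ℝ X * (C * (l / 2 ^ i)) = D / 2 ^ i := by rw [hD]; ring
        have a4 := norm_sub_le_norm_sub_add_norm_sub (⨍ y in ball x s, u y ∂ν)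
          (⨍ y in ball x (t / q ^ i), u y ∂ν) (⨍ y in ball x t, u y ∂ν)
        linarith
  obtain ⟨i, hi⟩ := pow_unbounded_of_one_lt (t / s) hq
  have h1 : t / q ^ i ≤ s := by
    rw [div_le_iff₀ (by positivity)]
    rw [div_lt_iff₀ hs] at hi
    linarith
  have d0 : 0 ≤ D / 2 ^ i := by positivity
  linarith [key i s h1 hst]

/-- Values at almost every point whose small balls have decaying energy. -/
theorem PoinP.pt [Nontrivial X] (hP : PoinP ν Sm Ω u C) (hC : 0 ≤ C) (hu : LocallyIntegrable u ν) :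
    ∀ᵐ x ∂ν, ∀ t l q : ℝ, 0 < t → 0 ≤ l → 1 < q → closedBall x t ⊆ Ω →
      (∀ i : ℕ, Sm x (t / q ^ i) (l / 2 ^ i)) →
      ‖u x - ⨍ y in ball x t, u y ∂ν‖ ≤ 2 * (q ^ finrank ℝ X * (C * l)) := by
  filter_upwards [LY.ae_mean_tendsto ν hu] with x hx t l q ht hl hq hΩ hm
  refine le_of_tendsto (hx.sub_const _).norm ?_
  filter_upwards [Ioc_mem_nhdsGT ht] with s hs
  exact hP.tele hC hu ht hl hq hΩ hm hs.1 hs.2

/-- Small essential oscillation from the decay of a function `Y` of balls. -/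
theorem PoinP.osc [Nontrivial X] {Y : X → ℝ → ℝ} {k : ℕ} (hk : k ≠ 0)
    (hP : PoinP ν (fun x t l => Y x t ≤ l ^ k) Ω u C) (hC : 0 ≤ C) (hu : LocallyIntegrable u ν)
    {q : ℝ} (hq : 1 < q) (dec : ∀ x t, 0 < t → closedBall x t ⊆ Ω → Y x (t / q) ≤ Y x t / 2)
    {x0 : X} (h0 : Ω ∈ 𝓝 x0)
    (small : ∀ ε, 0 < ε → ∃ r, 0 < r ∧ ∀ x t, 0 < t → ball x t ⊆ ball x0 r → Y x t ≤ ε)
    {γ : ℝ} (hγ : 0 < γ) : ∃ r : ℝ, 0 < r ∧ ∃ c : F, ∀ᵐ x ∂ν, x ∈ ball x0 r → ‖u x - c‖ ≤ γ := by
  have q0 : 0 < q := by linarith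
  have hqk : 1 < q ^ k := one_lt_pow₀ hq hk
  set A := 2 * ((q ^ k) ^ finrank ℝ X * C) + 2 ^ finrank ℝ X * C + 1 with hA
  have A0 : 0 < A := by positivity
  set l := γ / A with hl
  have l0 : 0 < l := by positivity
  obtain ⟨r1, r10, h1⟩ := small (l ^ k) (by positivity)
  obtain ⟨r2, r20, h2⟩ := Metric.nhds_basis_closedBall.mem_iff.1 h0
  set r := min r1 r2 / 2 with hr
  have r0 : 0 < r := by positivity
  have k1 : 2 * r ≤ r1 := by have := min_le_left r1 r2; linarith
  have k2 : 2 * r ≤ r2 := by have := min_le_right r1 r2; linarith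
  refine ⟨r, r0, ⨍ y in ball x0 (2 * r), u y ∂ν, ?_⟩
  filter_upwards [hP.pt hC hu] with x hx hxr
  have d := mem_ball.1 hxr
  have c1 : closedBall x r ⊆ Ω := (closedBall_subset_closedBall' (by linarith)).trans h2
  have it : ∀ j : ℕ, Y x (r / q ^ j) ≤ l ^ k / 2 ^ j := fun j => by
    induction j with
    | zero => simpa using h1 x r r0 (ball_subset_ball' (by linarith))
    | succ j ih =>
      have e := dec x (r / q ^ j) (by positivity) ((closedBall_subset_closedBall
        (div_le_self r0.le (one_le_pow₀ hq.le))).trans c1)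
      rw [pow_succ, pow_succ, ← div_div, ← div_div]
      linarith
  have a1 := hx r l (q ^ k) r0 l0.le hqk c1 fun i => by
    rw [← pow_mul, div_pow, ← pow_mul, mul_comm i]
    exact it _
  have a2 := hP.nest hC hu (x := x0) (x' := x) (t := 2 * r) (t' := r) (Λ := 2) r0 l0.le
    (by linarith) le_rfl ((closedBall_subset_closedBall k2).trans h2)
    (h1 x0 _ (by linarith) (ball_subset_ball k1))
  have a3 := norm_sub_le_norm_sub_add_norm_sub (u x) (⨍ y in ball x r, u y ∂ν)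
    (⨍ y in ball x0 (2 * r), u y ∂ν)
  have a4 : A * l = γ := by rw [hl]; field_simp
  rw [hA] at a4
  nlinarith

end Pool.Agent.Lib.MP_a785f2_an.LO
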