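import Pool.Agent.Lib.MP_a785f2_an.LO.Poin

/-! The values off the holes and the means on the holes. -/

open MeasureTheory Metric Set Filter Topology
open scoped ContDiff RealInnerProductSpace ENNReal

namespace Pool.Agent.Lib.MP_a785f2_an.LO

open HS (V)
open LZ (W S Op rad ten grad AA om sph sl pp ph sM sF sa sX sy sD sR en av sgm Pr Ff Rep eqCm)

variable {n m : ℕ} {Ω : Set (E n)} {u : E n → V m} {G : E n → W n m} {f : E n → V m}
  {w : E n → ℝ}

theorem Dat.vals (D : Dat Ω u G f w) : ∃ C : ℝ, 0 < C ∧ ∀ O σ z r l l' c T J, Ct Ω O σ G →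
    Good O σ z r l → Hol O σ z r l l' c T J →
    (∀ s, r / 800 ≤ s → s ≤ r / 400 → ‖av u c s - av u z r‖ ≤ C * l) ∧
    (∀ᵐ x, x ∈ ball z r → (∀ b ∈ T, x ∉ ball b.1 b.2) →
      (dist x c ≤ r / 400 → ‖u x - av u c (dist x c)‖ ≤ C * l) ∧
      (r / 800 ≤ dist x c → ‖u x - av u z r‖ ≤ C * l)) ∧
    ∀ b ∈ T, (dist b.1 c ≤ r / 400 → ‖av u b.1 b.2 - av u c (dist b.1 c)‖ ≤ C * l) ∧
      (r / 800 ≤ dist b.1 c → ‖av u b.1 b.2 - av u z r‖ ≤ C * l) := by
  obtain ⟨C1, p1, cmp⟩ := D.cmp 1200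
  obtain ⟨C2, p2, tel⟩ := D.tel
  have : Nonempty (Fin n) := ⟨⟨0, by linarith [D.n3]⟩⟩
  refine ⟨10 * C2 + 4 * C1, by positivity, fun O σ z r l l' c T J ct g h => ?_⟩
  have := ct.fin
  have r0 := g.r0
  have l0 := g.l0
  have ctr := h.ctr
  have a0 : 0 ≤ C1 * l := by positivity
  have b0 : 0 ≤ C2 * l := by positivity
  have hv : (10 * C2 + 4 * C1) * l = 10 * (C2 * l) + 4 * (C1 * l) := by ring
  have cz : 0 ≤ dist c z := dist_nonneg
  have sub : ∀ (x : E n) (t : ℝ), dist x z + t ≤ 2 * r → closedBall x t ⊆ O := fun x t k =>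
    (closedBall_subset_closedBall' (by linarith)).trans g.sub
  have nst : ∀ (x x' : E n) (t t' : ℝ), 0 < t' → dist x' x + t' ≤ t → t ≤ 1200 * t' →
      dist x z + t ≤ 2 * r → ‖av u x' t' - av u x t‖ ≤ 2 * (C1 * l) := fun x x' t t' k1 k2 k3 k4 => by
    have d1 : 0 ≤ dist x' x := dist_nonneg
    have d2 : 0 ≤ dist x z := dist_nonneg
    exact (cmp O σ x' t' x t (2 * l) ct k1 (by linarith) (ball_subset_ball' (by linarith)) k3
      (sub x t k4) (g.lin (by linarith [D.n3]) (by linarith) (by linarith) (by linarith))).trans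
      (le_of_eq (by ring))
  have two : ∀ (x x' y : E n) (t t' s : ℝ), 0 < t' → dist x' x + t' ≤ t → t ≤ 1200 * t' →
      0 < s → dist y x + s ≤ t → t ≤ 1200 * s → dist x z + t ≤ 2 * r →
      ‖av u x' t' - av u y s‖ ≤ 4 * (C1 * l) := fun x x' y t t' s k1 k2 k3 k4 k5 k6 k7 => by
    have e1 := nst x x' t t' k1 k2 k3 k7
    have e2 := nst x y t s k4 k5 k6 k7
    rw [norm_sub_rev] at e2
    linarith [norm_sub_le_norm_sub_add_norm_sub (av u x' t') (av u x t) (av u y s)]
  have sgl : ∀ x, sgm c r x ≤ r / 2 := fun x => min_le_right _ _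
  have sgd : ∀ x, sgm c r x ≤ dist x c := fun x => min_le_left _ _
  have sge : ∀ x a, a ≤ dist x c → a ≤ r / 2 → a ≤ sgm c r x := fun x a k1 k2 => le_min k1 k2
  have fin : ∀ (x : E n) (a : V m), dist x z < r → 0 < sgm c r x →
      ‖a - av u x (sgm c r x)‖ ≤ 10 * (C2 * l) →
      (dist x c ≤ r / 400 → ‖a - av u c (dist x c)‖ ≤ (10 * C2 + 4 * C1) * l) ∧
      (r / 800 ≤ dist x c → ‖a - av u z r‖ ≤ (10 * C2 + 4 * C1) * l) := by
    intro x a x1 s0 e1
    have d0 : 0 < dist x c := s0.trans_le (sgd x)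
    refine ⟨fun k3 => ?_, fun k3 => ?_⟩
    · have s2 := sge x (dist x c) le_rfl (by linarith)
      have e2 := two c x c (2 * dist x c) (sgm c r x) (dist x c) s0
        (by linarith [sgd x]) (by linarith) (by linarith [sgd x]) (by rw [dist_self]; linarith)
        (by linarith) (by linarith)
      linarith [norm_sub_le_norm_sub_add_norm_sub a (av u x (sgm c r x)) (av u c (dist x c))]
    · have s2 := sge x (r / 800) (by linarith) (by linarith)
      have e2 := two z x z (3 * r / 2) (sgm c r x) r s0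
        (by linarith [sgl x]) (by linarith) r0 (by rw [dist_self]; linarith) (by linarith)
        (by rw [dist_self]; linarith)
      linarith [norm_sub_le_norm_sub_add_norm_sub a (av u x (sgm c r x)) (av u z r)]
  refine ⟨fun s h1 h2 => ?_, ?_, fun b hb => ?_⟩
  · linarith [nst z c r s (by linarith) (by linarith) (by linarith) (by rw [dist_self]; linarith)]
  · have hc : ∀ᵐ x : E n, x ≠ c := by
      rw [ae_iff]; simp
    filter_upwards [D.leb, hc] with x hx xc k1 k2
    have d0 : 0 < dist x c := dist_pos.2 xc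
    have s0 : 0 < sgm c r x := lt_min d0 (by linarith)
    have x1 : dist x z < r := mem_ball.1 k1
    refine fin x _ x1 s0 (le_of_tendsto (hx.sub_const _).norm ?_)
    filter_upwards [Ioc_mem_nhdsGT s0] with t ht
    have e := tel O σ x t (sgm c r x) (5 * l) ct ht.1 ht.2 (by linarith)
      (sub x _ (by linarith [sgl x])) fun ρ hρ => h.nb x k1 xc k2 ρ (ht.1.trans_le hρ)
    linarith
  · have ρ0 := (h.gT b hb).r0
    have x1 : dist b.1 z < r := mem_ball.1 (h.sT b hb (mem_closedBall_self ρ0.le))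
    have s3 := h.rT b hb
    refine fin b.1 _ x1 (by linarith) ?_
    have e := tel O σ b.1 b.2 (sgm c r b.1) (10 * l) ct ρ0 (by linarith) (by linarith)
      (sub _ _ (by linarith [sgl b.1])) (h.nT b hb)
    linarith

end Pool.Agent.Lib.MP_a785f2_an.LO
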