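import Pool.Agent.Lib.MP_a785f2_an.LO.Bas
import Pool.Agent.Lib.MP_a785f2_an.LO.Tail
import Pool.Agent.Lib.MP_a785f2_an.LY.Vit

/-! The weak bound on a ball. -/

open MeasureTheory Metric Set Filter Topology
open scoped ContDiff RealInnerProductSpace ENNReal

namespace Pool.Agent.Lib.MP_a785f2_an.LO

open HS (V)
open LZ (W S Op rad ten grad AA om sph sl pp ph sM sF sa sX sy sD sR en av sgm Pr Ff Rep eqCm)

variable {n m : ℕ} {Ω : Set (E n)} {u : E n → V m} {G : E n → W n m} {f : E n → V m}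
  {w : E n → ℝ}

theorem wk_ball (hn : 1 ≤ n) : ∃ C : ℝ, 0 < C ∧ ∀ (G : E n → W n m) (σ : Measure (E n))
    [IsFiniteMeasure σ] (A : Set (E n)) (x : E n) (t l : ℝ), 0 < t → 0 ≤ l → A ⊆ ball x t →
      (∀ᵐ y, y ∈ A → Ctl σ G y) → Lin σ x t l → Wk G A (C * l) := by
  obtain ⟨B, hB⟩ : ∃ B : ℝ, B = max 1 ((volume : Measure (E n)).real (ball 0 1)) := ⟨_, rfl⟩
  have hB1 : 1 ≤ B := hB ▸ le_max_left _ _
  refine ⟨8 * B, by positivity, fun G σ _ A x t l ht hl hA hc hf a ha => ?_⟩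
  have h := weak_le (sig := σ) (g := A.indicator fun y => ‖G y‖) ht hl ha (by
    filter_upwards [hc] with y hy _
    by_cases h : y ∈ A
    · obtain ⟨ρ, h1, h2⟩ := ctlE_of (hy h)
      exact ⟨ρ, h1, by rwa [indicator_of_mem h]⟩
    · exact ⟨1, one_pos, by simp [indicator_of_notMem h, zero_pow (by omega : n ≠ 0)]⟩)
    (farE_of hn ht hl hf)
  refine ((measure_mono fun y hy => ?_).trans h).trans ?_
  · exact ⟨by rw [mem_ofPred_eq, indicator_of_mem hy.1]; exact hy.2, hA hy.1⟩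
  rw [← ofReal_measureReal measure_ball_lt_top.ne, ← ENNReal.ofReal_mul (by positivity)]
  refine ENNReal.ofReal_le_ofReal ?_
  have e : (8 * B * l) ^ n / a ^ n = (8 * l / a) ^ n * B ^ n := by
    rw [← mul_pow, ← div_pow]; congr 1; ring
  rw [e]
  exact mul_le_mul_of_nonneg_left ((hB ▸ le_max_right _ _ : _ ≤ B).trans
    (le_self_pow₀ hB1 (by omega))) (by positivity)

theorem Dat.int1 (D : Dat Ω u G f w) : ∃ C : ℝ, 0 < C ∧ ∀ O σ x t l, Ct Ω O σ G → 0 < t →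
    0 < l → ball x t ⊆ O → Lin σ x t l → ∫ y in ball x t, ‖G y‖ ≤ C * l * t ^ (n - 1) := by
  obtain ⟨C, hC, h⟩ := w1_ball n
  refine ⟨C, hC, fun O σ x t l ct ht hl hO hf => ?_⟩
  have := ct.fin
  have h1 := h _ σ G x t l 1 (by have := D.n3; omega) D.mG ht hl
    (ct.ctl.mono fun y hy hb => hy (hO hb)) hf
  simpa only [pow_one] using h1

theorem Dat.small (D : Dat Ω u G f w) {ε : ℝ} (hε : 0 < ε) : ∃ δ : ℝ, 0 < δ ∧ ∀ O σ,
    Ct Ω O σ G → volume O ≤ ENNReal.ofReal δ → ∀ z r l, Good O σ z r l →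
      lam G w (ball z r) ≤ ε * l ^ (n - 2) := by
  have n3 := D.n3
  obtain ⟨C, hC, h⟩ := wk_ball (n := n) (m := m) (by omega)
  obtain ⟨δ, hδ, H⟩ := D.lor (ε / C ^ (n - 2)) (by positivity)
  refine ⟨δ, hδ, fun O σ ct hO z r l g => ?_⟩
  have := ct.fin
  have r0 := g.r0
  have l0 := g.l0
  have sO : ball z r ⊆ O :=
    (ball_subset_closedBall.trans (closedBall_subset_closedBall (by linarith))).trans g.sub
  refine (H _ (C * l) measurableSet_ball ((measure_mono sO).trans hO) (by positivity)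
    (h G σ _ z r l r0 l0.le Subset.rfl (ct.ctl.mono fun y hy hb => hy (sO hb)) g.far)).trans_eq ?_
  rw [mul_pow]; field_simp

end Pool.Agent.Lib.MP_a785f2_an.LO
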